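import Pool.Agent.K9h27.LP.Bad

set_option autoImplicit false
set_option linter.unusedSimpArgs false
set_option linter.unusedSectionVars false
set_option linter.unusedVariables false

open MeasureTheory Set Matrix
open scoped ENNReal

namespace Pool.Agent.K9h27.LP

section general
variable {n : Type*} [Fintype n] [DecidableEq n]

theorem poly_nonneg {A Ψ : Matrix n n ℝ} {l : n → ℝ} (h : IsES A Ψ l) {C : ℝ}
    (hl : ∀ j, |l j| ≤ C) (p : Polynomial ℝ) (hp : ∀ x ∈ Set.Icc (-C) C, 0 ≤ p.eval x) (m : n) :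
    0 ≤ (Polynomial.aeval A p) m m := by
  rw [h.aeval_apply]
  exact Finset.sum_nonneg fun j _ => mul_nonneg (sq_nonneg _) (hp _ (abs_le.1 (hl j)))

theorem avg_set {A : Matrix n n ℝ} (hA : A.IsSymm) (m : n) {ε C τ : ℝ} (hε : 0 < ε)
    (hC0 : 0 ≤ C)
    (hC : ∀ w ∈ Set.Icc (-ε) ε, ∀ (Ψ : Matrix n n ℝ) (l : n → ℝ),
      IsES (A + Matrix.single m m w) Ψ l → ∀ j, |l j| ≤ C)
    (hτ : 0 < τ) {G : ℝ → ℝ} (hG : Continuous G) (hG0 : ∀ x, 0 ≤ G x) (φ : Matrix n n ℝ → ℝ)
    (hφ : ∀ w ∈ Set.Icc (-ε) ε, ∀ (Ψ : Matrix n n ℝ) (l : n → ℝ),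
      IsES (A + Matrix.single m m w) Ψ l → φ Ψ ≤ ∑ j, Ψ j m ^ 2 * G (l j))
    (S : Set ℝ) (hS : ∀ w ∈ S, ∃ (Ψ : Matrix n n ℝ) (l : n → ℝ),
      IsES (A + Matrix.single m m w) Ψ l ∧ τ ≤ φ Ψ) :
    ∫⁻ t, S.indicator 1 t ∂(nu ε) ≤
      (ENNReal.ofReal τ)⁻¹ * ((ENNReal.ofReal (2 * ε))⁻¹ *
        ∫⁻ x in Set.Icc (-C) C, ENNReal.ofReal (G x)) := by
  have hsymm : ∀ w : ℝ, (A + Matrix.single m m w).IsSymm := fun w => by
    rw [Matrix.IsSymm, Matrix.transpose_add, hA.eq, Matrix.transpose_single]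
  rw [lintegral_nu]
  set Z := ∫⁻ t in Set.Icc (-ε) ε, S.indicator (1 : ℝ → ℝ≥0∞) t with hZ
  set Y := ∫⁻ x in Set.Icc (-C) C, ENNReal.ofReal (G x) with hY
  have hmain : ENNReal.ofReal τ * Z ≤ Y := by
    refine ENNReal.le_of_forall_pos_le_add fun η hη _ => ?_
    set δ : ℝ := (η : ℝ) / (4 * (C + 1)) with hδ
    have hηr : (0 : ℝ) < η := by exact_mod_cast hη
    have hδ0 : 0 < δ := by positivity
    obtain ⟨p, hp⟩ := exists_polynomial_near_of_continuousOn (-C) C (fun x => G x + δ)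
      (hG.add continuous_const).continuousOn δ hδ0
    have hp1 : ∀ x ∈ Set.Icc (-C) C, G x ≤ p.eval x := fun x hx => by
      have := abs_lt.1 (hp x hx); linarith [this.1]
    have hp2 : ∀ x ∈ Set.Icc (-C) C, p.eval x ≤ G x + 2 * δ := fun x hx => by
      have := abs_lt.1 (hp x hx); linarith [this.2]
    have hp0 : ∀ x ∈ Set.Icc (-C) C, 0 ≤ p.eval x := fun x hx => (hG0 x).trans (hp1 x hx)
    have hsa := spec_avg hA m (by linarith : -ε ≤ ε) hC p hp0
    set q : ℝ → ℝ := fun w => (Polynomial.aeval (A + Matrix.single m m w) p) m m with hq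
    have hqc : Continuous q := continuous_aeval_apply A m p m m
    have hq0 : ∀ w ∈ Set.Icc (-ε) ε, 0 ≤ q w := fun w hw => by
      obtain ⟨Ψ, l, h⟩ := exists_ES _ (hsymm w)
      exact poly_nonneg h (hC w hw Ψ l h) p hp0 m
    have h1 : ENNReal.ofReal τ * Z ≤ ∫⁻ t in Set.Icc (-ε) ε, ENNReal.ofReal (q t) := by
      rw [hZ, ← lintegral_const_mul' _ _ ENNReal.ofReal_ne_top]
      refine setLIntegral_mono' measurableSet_Icc fun t ht => ?_
      by_cases htS : t ∈ S
      · rw [Set.indicator_of_mem htS, Pi.one_apply, mul_one]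
        apply ENNReal.ofReal_le_ofReal
        obtain ⟨Ψ, l, h, hτφ⟩ := hS t htS
        refine hτφ.trans ((hφ t ht Ψ l h).trans ?_)
        rw [hq]
        simp only
        rw [h.aeval_apply]
        refine Finset.sum_le_sum fun j _ => ?_
        exact mul_le_mul_of_nonneg_left (hp1 _ (abs_le.1 (hC t ht Ψ l h j))) (sq_nonneg _)
      · rw [Set.indicator_of_notMem htS, mul_zero]; exact zero_le
    have h2 : ∫⁻ t in Set.Icc (-ε) ε, ENNReal.ofReal (q t) =
        ENNReal.ofReal (∫ w in (-ε)..ε, q w) := by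
      rw [intervalIntegral.integral_of_le (by linarith), ← integral_Icc_eq_integral_Ioc,
        ofReal_integral_eq_lintegral_ofReal hqc.integrableOn_Icc]
      exact (ae_restrict_iff' measurableSet_Icc).2 (ae_of_all _ hq0)
    have h3 : ENNReal.ofReal (∫ x in (-C)..C, p.eval x) ≤ Y + η := by
      have e1 : ∫ x in (-C)..C, p.eval x ≤ (∫ x in (-C)..C, G x) + η := by
        have e2 : ∫ x in (-C)..C, p.eval x ≤ ∫ x in (-C)..C, (G x + 2 * δ) := by
          refine intervalIntegral.integral_mono_on (by linarith)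
            (p.continuous.intervalIntegrable _ _)
            ((hG.add continuous_const).intervalIntegrable _ _) ?_
          exact hp2
        refine e2.trans ?_
        rw [intervalIntegral.integral_add (hG.intervalIntegrable _ _)
          (continuous_const.intervalIntegrable _ _), intervalIntegral.integral_const]
        have : (C - -C) • (2 * δ) ≤ (η : ℝ) := by
          rw [smul_eq_mul, hδ]
          have : (C - -C) * (2 * ((η : ℝ) / (4 * (C + 1)))) = η * (C / (C + 1)) := by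
            field_simp; ring
          rw [this]
          have : C / (C + 1) ≤ 1 := by
            rw [div_le_one (by linarith)]; linarith
          nlinarith
        linarith
      refine (ENNReal.ofReal_le_ofReal e1).trans ?_
      have e3 : 0 ≤ ∫ x in (-C)..C, G x :=
        intervalIntegral.integral_nonneg (by linarith) fun x _ => hG0 x
      rw [ENNReal.ofReal_add e3 hηr.le]
      refine add_le_add (le_of_eq ?_) (by simp)
      rw [intervalIntegral.integral_of_le (by linarith), ← integral_Icc_eq_integral_Ioc, hY,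
        ofReal_integral_eq_lintegral_ofReal hG.integrableOn_Icc (ae_of_all _ hG0)]
    rw [h2] at h1
    exact h1.trans ((ENNReal.ofReal_le_ofReal hsa).trans h3)
  have hτ' : ENNReal.ofReal τ ≠ 0 := by simpa using hτ
  calc (ENNReal.ofReal (2 * ε))⁻¹ * Z
      = (ENNReal.ofReal τ)⁻¹ * ((ENNReal.ofReal (2 * ε))⁻¹ * (ENNReal.ofReal τ * Z)) := by
        rw [mul_left_comm (ENNReal.ofReal (2 * ε))⁻¹, ← mul_assoc, ← mul_assoc,
          ENNReal.inv_mul_cancel hτ' ENNReal.ofReal_ne_top, one_mul]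
    _ ≤ _ := by gcongr

end general

end Pool.Agent.K9h27.LP
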