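import Pool.Agent.K9h27.LP.Closed

set_option autoImplicit false
set_option linter.unusedSimpArgs false
set_option linter.unusedSectionVars false
set_option linter.unusedVariables false

open MeasureTheory Set Matrix
open scoped ENNReal

namespace Pool.Agent.K9h27.LP

variable {L N : ℕ} [NeZero L] [NeZero N]

/-- the potential -/
def pot (B : ℕ → ℝ) (a : Fin N → ℝ) (w : Fin L → ℝ) (i : ℕ) : ℝ :=
  B i + a (Fin.ofNat N i) + w (Fin.ofNat L i)

/-- mass on the far left sites -/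
noncomputable def farL (f : ℕ) (ψ : Fin L → ℝ) : ℝ := ∑ k ∈ Finset.range f, ex ψ k ^ 2

/-- mass on the far right sites -/
noncomputable def farR (f : ℕ) (ψ : Fin L → ℝ) : ℝ :=
  ∑ k ∈ Finset.range f, ex ψ (L - 1 - k) ^ 2

/-- left data -/
def bL (B : ℕ → ℝ) (E : ℝ) (k : ℕ) : ℝ := E - B k
/-- right data -/
def bR (L : ℕ) (B : ℕ → ℝ) (E : ℝ) (k : ℕ) : ℝ := E - B (L - 1 - k)

theorem left_sol {B : ℕ → ℝ} {a : Fin N → ℝ} {w : Fin L → ℝ} {Ψ : Matrix (Fin L) (Fin L) ℝ}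
    {l : Fin L → ℝ} (h : IsES (jac L (pot B a w)) Ψ l) (j : Fin L) (k : ℕ) (hk : k ≤ L) :
    ex (Ψ j) k = ex (Ψ j) 0 * (ZZ (bL B (l j)) (fun k => Fin.ofNat N k) (fun k => Fin.ofNat L k)
      a w k).1 := by
  refine rec_eq _ (fun k => ex (Ψ j) k) L ?_ ?_ k hk
  · intro hL
    have := h.jac_eq j 0 hL
    rw [if_pos rfl, add_zero, zero_add] at this
    simp only [cc, bL]
    unfold pot at this
    linarith
  · intro k hk
    have := h.jac_eq j (k + 1) hk
    rw [if_neg (by omega)] at this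
    simp only [cc, bL]
    unfold pot at this
    have e : k + 1 - 1 = k := by omega
    rw [e] at this
    have e2 : k + 1 + 1 = k + 2 := by ring
    rw [e2] at this
    linarith

theorem right_sol {B : ℕ → ℝ} {a : Fin N → ℝ} {w : Fin L → ℝ} {Ψ : Matrix (Fin L) (Fin L) ℝ}
    {l : Fin L → ℝ} (h : IsES (jac L (pot B a w)) Ψ l) (j : Fin L) (k : ℕ) (hk : k ≤ L - 1) :
    ex (Ψ j) (L - 1 - k) = ex (Ψ j) (L - 1) *
      (ZZ (bR L B (l j)) (fun k => Fin.ofNat N (L - 1 - k)) (fun k => Fin.ofNat L (L - 1 - k))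
      a w k).1 := by
  have hLpos : 0 < L := Nat.pos_of_ne_zero (NeZero.ne L)
  refine rec_eq _ (fun k => ex (Ψ j) (L - 1 - k)) (L - 1) ?_ ?_ k hk
  · intro hL
    have := h.jac_eq j (L - 1) (by omega)
    rw [if_neg (by omega), ex_of_ge _ (by omega : L ≤ L - 1 + 1)] at this
    simp only [cc, bR, Nat.sub_zero]
    unfold pot at this
    have e : L - 1 - 1 = L - 1 - 1 := rfl
    linarith
  · intro k hk
    have := h.jac_eq j (L - 1 - (k + 1)) (by omega)
    rw [if_neg (by omega)] at this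
    simp only [cc, bR]
    unfold pot at this
    have e : L - 1 - (k + 1) - 1 = L - 1 - (k + 2) := by omega
    have e2 : L - 1 - (k + 1) + 1 = L - 1 - k := by omega
    rw [e, e2] at this
    linarith

theorem farL_le {B : ℕ → ℝ} {a : Fin N → ℝ} {w : Fin L → ℝ} {Ψ : Matrix (Fin L) (Fin L) ℝ}
    {l : Fin L → ℝ} (h : IsES (jac L (pot B a w)) Ψ l) (j : Fin L) {m f : ℕ} (hm : m < L)
    (hf : f ≤ m) :
    farL f (Ψ j) ≤ GG (bL B (l j)) (fun k => Fin.ofNat N k) (fun k => Fin.ofNat L k) a w m f := by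
  set y : ℕ → ℝ := fun k => (ZZ (bL B (l j)) (fun k => Fin.ofNat N k) (fun k => Fin.ofNat L k)
      a w k).1 with hy
  have h1 : ∀ k, k < L → ex (Ψ j) k ^ 2 = ex (Ψ j) 0 ^ 2 * y k ^ 2 := fun k hk => by
    rw [left_sol h j k hk.le, mul_pow]
  have hden : 0 < ∑ k ∈ Finset.range (m + 1), y k ^ 2 := den_pos _ _ _ _ _ _
  have h2 : farL f (Ψ j) = ex (Ψ j) 0 ^ 2 * ∑ k ∈ Finset.range f, y k ^ 2 := by
    unfold farL
    rw [Finset.mul_sum]
    exact Finset.sum_congr rfl fun k hk => h1 k (by rw [Finset.mem_range] at hk; omega)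
  have h3 : ex (Ψ j) 0 ^ 2 * ∑ k ∈ Finset.range (m + 1), y k ^ 2 ≤ 1 := by
    rw [Finset.mul_sum, ← Finset.sum_congr rfl fun k hk => h1 k (by
      rw [Finset.mem_range] at hk; omega), ← h.row_norm j]
    have : ∑ i, Ψ j i ^ 2 = ∑ k ∈ Finset.range L, ex (Ψ j) k ^ 2 := by
      rw [← Fin.sum_univ_eq_sum_range (fun k => ex (Ψ j) k ^ 2) L]
      exact Finset.sum_congr rfl fun i _ => by rw [ex_coe]
    rw [this]
    exact Finset.sum_le_sum_of_subset_of_nonneg (Finset.range_mono (by omega))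
      (fun _ _ _ => sq_nonneg _)
  rw [h2]
  unfold GG
  rw [le_div_iff₀ hden]
  have h4 : 0 ≤ ∑ k ∈ Finset.range f, y k ^ 2 := Finset.sum_nonneg fun _ _ => sq_nonneg _
  nlinarith

theorem farR_le {B : ℕ → ℝ} {a : Fin N → ℝ} {w : Fin L → ℝ} {Ψ : Matrix (Fin L) (Fin L) ℝ}
    {l : Fin L → ℝ} (h : IsES (jac L (pot B a w)) Ψ l) (j : Fin L) {m f : ℕ} (hm : m < L)
    (hf : f ≤ m) :
    farR f (Ψ j) ≤ GG (bR L B (l j)) (fun k => Fin.ofNat N (L - 1 - k))
      (fun k => Fin.ofNat L (L - 1 - k)) a w m f := by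
  set y : ℕ → ℝ := fun k => (ZZ (bR L B (l j)) (fun k => Fin.ofNat N (L - 1 - k))
      (fun k => Fin.ofNat L (L - 1 - k)) a w k).1 with hy
  have h1 : ∀ k, k < L → ex (Ψ j) (L - 1 - k) ^ 2 = ex (Ψ j) (L - 1) ^ 2 * y k ^ 2 := fun k hk => by
    rw [right_sol h j k (by omega), mul_pow]
  have hden : 0 < ∑ k ∈ Finset.range (m + 1), y k ^ 2 := den_pos _ _ _ _ _ _
  have h2 : farR f (Ψ j) = ex (Ψ j) (L - 1) ^ 2 * ∑ k ∈ Finset.range f, y k ^ 2 := by
    unfold farR
    rw [Finset.mul_sum]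
    exact Finset.sum_congr rfl fun k hk => h1 k (by rw [Finset.mem_range] at hk; omega)
  have h3 : ex (Ψ j) (L - 1) ^ 2 * ∑ k ∈ Finset.range (m + 1), y k ^ 2 ≤ 1 := by
    rw [Finset.mul_sum, ← Finset.sum_congr rfl fun k hk => h1 k (by
      rw [Finset.mem_range] at hk; omega), ← h.row_norm j]
    have : ∑ i, Ψ j i ^ 2 = ∑ k ∈ Finset.range L, ex (Ψ j) (L - 1 - k) ^ 2 := by
      rw [Finset.sum_range_reflect (fun k => ex (Ψ j) k ^ 2) L,
        ← Fin.sum_univ_eq_sum_range (fun k => ex (Ψ j) k ^ 2) L]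
      exact Finset.sum_congr rfl fun i _ => by rw [ex_coe]
    rw [this]
    exact Finset.sum_le_sum_of_subset_of_nonneg (Finset.range_mono (by omega))
      (fun _ _ _ => sq_nonneg _)
  rw [h2]
  unfold GG
  rw [le_div_iff₀ hden]
  have h4 : 0 ≤ ∑ k ∈ Finset.range f, y k ^ 2 := Finset.sum_nonneg fun _ _ => sq_nonneg _
  nlinarith

/-- the weight of the site `m` on badly localised eigenvectors -/
noncomputable def bw (m : Fin L) (f f' : ℕ) (Ψ : Matrix (Fin L) (Fin L) ℝ) : ℝ :=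
  ∑ j, Ψ j m ^ 2 * (farL f (Ψ j) + farR f' (Ψ j))

/-- the bad set -/
def BadS (B : ℕ → ℝ) (m : Fin L) (f f' : ℕ) (τ : ℝ) : Set ((Fin N → ℝ) × (Fin L → ℝ)) :=
  {p | ∃ (Ψ : Matrix (Fin L) (Fin L) ℝ) (l : Fin L → ℝ), IsES (jac L (pot B p.1 p.2)) Ψ l ∧
    (Ψ, l) ∈ {q : Matrix (Fin L) (Fin L) ℝ × (Fin L → ℝ) | τ ≤ bw m f f' q.1}}

theorem continuous_ex (k : ℕ) : Continuous fun ψ : Fin L → ℝ => ex ψ k := by
  unfold ex
  by_cases h : k < L
  · simp only [dif_pos h]; fun_prop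
  · simp only [dif_neg h]; fun_prop

theorem continuous_bw (m : Fin L) (f f' : ℕ) : Continuous (bw m f f' (L := L)) := by
  unfold bw farL farR
  refine continuous_finsetSum _ fun j _ => ?_
  have hrow : Continuous fun Ψ : Matrix (Fin L) (Fin L) ℝ => Ψ j := continuous_apply j
  refine Continuous.mul ?_ (Continuous.add ?_ ?_)
  · exact ((continuous_apply m).comp hrow).pow 2
  · exact continuous_finsetSum _ fun k _ => ((continuous_ex k).comp hrow).pow 2
  · exact continuous_finsetSum _ fun k _ => ((continuous_ex _).comp hrow).pow 2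

theorem continuous_jac_pot (B : ℕ → ℝ) :
    Continuous fun p : (Fin N → ℝ) × (Fin L → ℝ) => jac L (pot B p.1 p.2) := by
  refine continuous_pi fun i => continuous_pi fun j => ?_
  unfold jac pot
  by_cases h : i = j
  · simp only [if_pos h]; fun_prop
  · simp only [if_neg h]; fun_prop

theorem isClosed_BadS (B : ℕ → ℝ) (m : Fin L) (f f' : ℕ) (τ : ℝ) :
    IsClosed (BadS (N := N) B m f f' τ) := by
  refine isClosed_ES (continuous_jac_pot B) ?_
  exact isClosed_le continuous_const ((continuous_bw m f f').comp continuous_fst)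

end Pool.Agent.K9h27.LP
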