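import Pool.Agent.K9h27.LP.Avg

set_option autoImplicit false
set_option linter.unusedSimpArgs false
set_option linter.unusedSectionVars false
set_option linter.unusedVariables false

open MeasureTheory Set Matrix
open scoped ENNReal

namespace Pool.Agent.K9h27.LP

variable {ι κι : Type*} [Fintype ι] [DecidableEq ι] [Fintype κι] [DecidableEq κι]

theorem measurable_GG (b : ℝ → ℕ → ℝ) (hb : ∀ j, Measurable fun E => b E j) (κ : ℕ → κι)
    (σ : ℕ → ι) (ℓ f : ℕ) :
    Measurable fun p : ℝ × ((κι → ℝ) × (ι → ℝ)) => GG (b p.1) κ σ p.2.1 p.2.2 ℓ f := by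
  have h1 : ∀ j, Measurable fun p : ℝ × ((κι → ℝ) × (ι → ℝ)) => ZZ (b p.1) κ σ p.2.1 p.2.2 j := by
    intro j
    refine measurable_itA (c := fun p : ℝ × ((κι → ℝ) × (ι → ℝ)) => cc (b p.1) κ σ p.2.1 p.2.2)
      (fun j => ?_) measurable_const 0 j
    unfold cc
    have := hb j
    have h2 : Measurable fun p : ℝ × ((κι → ℝ) × (ι → ℝ)) => b p.1 j := this.comp measurable_fst
    fun_prop
  unfold GG
  have h2 : ∀ j, Measurable fun p : ℝ × ((κι → ℝ) × (ι → ℝ)) =>
      (ZZ (b p.1) κ σ p.2.1 p.2.2 j).1 ^ 2 := fun j => ((h1 j).fst).pow_const 2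
  exact (Finset.measurable_fun_sum _ fun j _ => h2 j).div (Finset.measurable_fun_sum _ fun j _ => h2 j)

theorem continuous_itA {c : ℝ → ℕ → ℝ} (hc : ∀ j, Continuous fun a => c a j) (z : ℝ × ℝ)
    (n k : ℕ) : Continuous fun a => itA (c a) n k z := by
  induction k with
  | zero => exact continuous_const
  | succ k ih =>
    have h1 := hc (n + k)
    have : (fun a => itA (c a) n (k + 1) z) =
        fun a => (c a (n + k) * (itA (c a) n k z).1 - (itA (c a) n k z).2, (itA (c a) n k z).1) := by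
      funext a; rfl
    rw [this]
    fun_prop

theorem continuous_GG (b : ℝ → ℕ → ℝ) (hb : ∀ j, Continuous fun E => b E j) (κ : ℕ → κι)
    (σ : ℕ → ι) (a : κι → ℝ) (w : ι → ℝ) (ℓ f : ℕ) :
    Continuous fun E => GG (b E) κ σ a w ℓ f := by
  have h1 : ∀ j, Continuous fun E => ZZ (b E) κ σ a w j := by
    intro j
    refine continuous_itA (c := fun E => cc (b E) κ σ a w) (fun j => ?_) _ 0 j
    unfold cc
    have := hb j
    fun_prop
  unfold GG
  have h2 : ∀ j, Continuous fun E => (ZZ (b E) κ σ a w j).1 ^ 2 := fun j => ((h1 j).fst).pow 2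
  exact (continuous_finsetSum _ fun j _ => h2 j).div (continuous_finsetSum _ fun j _ => h2 j)
    fun E => (den_pos (b E) κ σ a w ℓ).ne'

theorem GG_nonneg (b : ℕ → ℝ) (κ : ℕ → κι) (σ : ℕ → ι) (a : κι → ℝ) (w : ι → ℝ)
    (ℓ f : ℕ) : 0 ≤ GG b κ σ a w ℓ f :=
  div_nonneg (Finset.sum_nonneg fun _ _ => sq_nonneg _) (Finset.sum_nonneg fun _ _ => sq_nonneg _)

theorem GG_update (b : ℕ → ℝ) (κ : ℕ → κι) (σ : ℕ → ι) (a : κι → ℝ) (w : ι → ℝ)
    (ℓ f : ℕ) (hf : f ≤ ℓ) (i : ι) (t : ℝ) (hi : ∀ j < ℓ, σ j ≠ i) :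
    GG b κ σ a (Function.update w i t) ℓ f = GG b κ σ a w ℓ f := by
  have h1 : ∀ j, j ≤ ℓ → ZZ b κ σ a (Function.update w i t) j = ZZ b κ σ a w j := by
    intro j hj
    unfold ZZ
    exact itA_congr (fun k _ hk => cc_update_w (hi k (by omega))) _
  unfold GG
  congr 1
  · exact Finset.sum_congr rfl fun j hj => by
      rw [Finset.mem_range] at hj; rw [h1 j (by omega)]
  · exact Finset.sum_congr rfl fun j hj => by
      rw [Finset.mem_range] at hj; rw [h1 j (by omega)]

variable {L N : ℕ} [NeZero L] [NeZero N]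

/-- the support of the product measure -/
def Box (N L : ℕ) (εa εw : ℝ) : Set ((Fin N → ℝ) × (Fin L → ℝ)) :=
  {p | (∀ i, |p.1 i| ≤ εa) ∧ ∀ i, |p.2 i| ≤ εw}

theorem isClosed_Box (εa εw : ℝ) : IsClosed (Box N L εa εw) := by
  have h1 : Box N L εa εw = (⋂ i, {p | |p.1 i| ≤ εa}) ∩ ⋂ i, {p | |p.2 i| ≤ εw} := by
    ext p; simp [Box]
  rw [h1]
  refine IsClosed.inter (isClosed_iInter fun i => ?_) (isClosed_iInter fun i => ?_)
  · exact isClosed_le (by fun_prop) continuous_const
  · exact isClosed_le (by fun_prop) continuous_const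

theorem ofNat_eq_iff {n i j : ℕ} [NeZero n] : Fin.ofNat n i = Fin.ofNat n j ↔ i % n = j % n := by
  rw [Fin.ext_iff]; rfl

theorem ofNat_inj_window {n i j : ℕ} [NeZero n] (h : Fin.ofNat n i = Fin.ofNat n j)
    (hij : i < j + n) (hji : j < i + n) : i = j := by
  rw [ofNat_eq_iff] at h
  rcases le_total i j with hle | hle
  · have h2 : i ≡ j [MOD n] := h
    have h3 := (Nat.modEq_iff_dvd' hle).1 h2
    obtain ⟨c, hc⟩ := h3
    have : c = 0 := by
      by_contra hne
      have : n * 1 ≤ n * c := Nat.mul_le_mul_left n (Nat.pos_of_ne_zero hne)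
      omega
    rw [this] at hc
    omega
  · have h2 : j ≡ i [MOD n] := h.symm
    have h3 := (Nat.modEq_iff_dvd' hle).1 h2
    obtain ⟨c, hc⟩ := h3
    have : c = 0 := by
      by_contra hne
      have : n * 1 ≤ n * c := Nat.mul_le_mul_left n (Nat.pos_of_ne_zero hne)
      omega
    rw [this] at hc
    omega

/-- sum of the two ratio functions -/
noncomputable def Gtot (B : ℕ → ℝ) (m : Fin L) (f f' : ℕ) (a : Fin N → ℝ) (w : Fin L → ℝ)
    (E : ℝ) : ℝ :=
  GG (bL B E) (fun k => Fin.ofNat N k) (fun k => Fin.ofNat L k) a w m f +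
    GG (bR L B E) (fun k => Fin.ofNat N (L - 1 - k)) (fun k => Fin.ofNat L (L - 1 - k)) a w
      (L - 1 - m) f'

theorem jac_pot_update (B : ℕ → ℝ) (a : Fin N → ℝ) (w : Fin L → ℝ) (m : Fin L) (t : ℝ) :
    jac L (pot B a (Function.update w m t)) =
      jac L (pot B a (Function.update w m 0)) + Matrix.single m m t := by
  ext i j
  rw [Matrix.add_apply]
  unfold jac pot
  by_cases h : i = j
  · subst h
    simp only [if_true]
    have hi : Fin.ofNat L (i : ℕ) = i := by
      apply Fin.ext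
      exact Nat.mod_eq_of_lt i.2
    rw [hi]
    by_cases him : i = m
    · subst him
      simp
    · rw [Function.update_of_ne him, Function.update_of_ne him, Matrix.single_apply,
        if_neg (by tauto)]
      ring
  · have h0 : Matrix.single m m t i j = 0 := by
      rw [Matrix.single_apply, if_neg (by rintro ⟨h1, h2⟩; exact h (h1.symm.trans h2))]
    rw [h0, add_zero]
    simp only [if_neg h]

theorem bad_slice {εa εw V0 τ : ℝ} (hw : 0 < εw) (ha : 0 < εa) (hV0 : 0 ≤ V0) {B : ℕ → ℝ}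
    (hB : ∀ i < L, |B i| ≤ V0) (hτ : 0 < τ) (m : Fin L) (f f' : ℕ) (hf : f ≤ m)
    (hf' : f' ≤ L - 1 - m) (a : Fin N → ℝ) (w : Fin L → ℝ) :
    ∫⁻ t, (BadS B m f f' τ ∩ Box N L εa εw).indicator 1 (a, Function.update w m t) ∂(nu εw) ≤
      (ENNReal.ofReal τ)⁻¹ * ((ENNReal.ofReal (2 * εw))⁻¹ *
        ∫⁻ E in Set.Icc (-(V0 + εa + εw + 2)) (V0 + εa + εw + 2),
          ENNReal.ofReal (Gtot B m f f' a w E)) := by
  by_cases hbox : (∀ i, |a i| ≤ εa) ∧ ∀ i, i ≠ m → |w i| ≤ εw
  swap
  · have : ∀ t, (BadS B m f f' τ ∩ Box N L εa εw).indicator (1 : (Fin N → ℝ) × (Fin L → ℝ) → ℝ≥0∞)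
        (a, Function.update w m t) = 0 := by
      intro t
      refine Set.indicator_of_notMem ?_ _
      rintro ⟨_, h1, h2⟩
      apply hbox
      refine ⟨h1, fun i hi => ?_⟩
      have := h2 i
      simp only at this
      rwa [Function.update_of_ne hi] at this
    simp only [this]
    simp
  · set A := jac L (pot B a (Function.update w m 0)) with hA
    have hbL : ∀ j, Continuous fun E => bL B E j := fun j => by unfold bL; fun_prop
    have hbR : ∀ j, Continuous fun E => bR L B E j := fun j => by unfold bR; fun_prop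
    have hGc : Continuous (Gtot B m f f' a w) := by
      unfold Gtot
      exact (continuous_GG (bL B) hbL _ _ a w m f).add (continuous_GG (bR L B) hbR _ _ a w _ f')
    have hG0 : ∀ E, 0 ≤ Gtot B m f f' a w E := fun E =>
      add_nonneg (GG_nonneg _ _ _ _ _ _ _) (GG_nonneg _ _ _ _ _ _ _)
    have key : ∀ t, A + Matrix.single m m t = jac L (pot B a (Function.update w m t)) := fun t =>
      (jac_pot_update B a w m t).symm
    refine (le_of_eq ?_).trans (avg_set (A := A) (jac_symm _ _) m hw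
      (C := V0 + εa + εw + 2) (by positivity) ?_ hτ
      hGc hG0 (bw m f f') ?_ {t | (a, Function.update w m t) ∈ BadS B m f f' τ ∩ Box N L εa εw} ?_)
    · rfl
    · intro t ht Ψ l hES j
      rw [key t] at hES
      have : ∀ i < L, |pot B a (Function.update w m t) i| ≤ V0 + εa + εw := by
        intro i hi
        unfold pot
        have h3 : |Function.update w m t (Fin.ofNat L i)| ≤ εw := by
          by_cases h4 : Fin.ofNat L i = m
          · rw [h4, Function.update_self]; exact abs_le.2 ht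
          · rw [Function.update_of_ne h4]; exact hbox.2 _ h4
        exact (abs_add_le _ _).trans (add_le_add ((abs_add_le _ _).trans
          (add_le_add (hB i hi) (hbox.1 _))) h3)
      exact hES.eig_bound this j
    · intro t ht Ψ l hES
      rw [key t] at hES
      unfold bw
      refine Finset.sum_le_sum fun j _ => ?_
      refine mul_le_mul_of_nonneg_left ?_ (sq_nonneg _)
      unfold Gtot
      refine add_le_add ?_ ?_
      · refine (farL_le hES j m.2 hf).trans (le_of_eq ?_)
        refine GG_update _ _ _ _ _ _ _ hf m t fun j hj h => ?_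
        have := congrArg Fin.val h
        simp only [Fin.ofNat] at this
        rw [Nat.mod_eq_of_lt (by have := m.2; omega)] at this
        omega
      · refine (farR_le hES j (m := L - 1 - m) (by have := m.2; omega) hf').trans (le_of_eq ?_)
        refine GG_update _ _ _ _ _ _ _ hf' m t fun j hj h => ?_
        have := congrArg Fin.val h
        simp only [Fin.ofNat] at this
        rw [Nat.mod_eq_of_lt (by have := m.2; omega)] at this
        omega
    · rintro t ⟨⟨Ψ, l, hES, hS⟩, _⟩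
      refine ⟨Ψ, l, ?_, hS⟩
      rw [key t]; exact hES

theorem bad_meas {εa εw V0 τ : ℝ} (hw : 0 < εw) (hwa : εw ≤ εa) (hw1 : εw ≤ 1) (hV0 : 0 ≤ V0)
    {B : ℕ → ℝ} (hB : ∀ i < L, |B i| ≤ V0) (hτ : 0 < τ) (m : Fin L) (f f' D' : ℕ) (hD : 1 ≤ D')
    (hm : (m : ℕ) = f + 1 + 2 * D') (hm' : L - 1 - m = f' + 1 + 2 * D') (hN : 2 * D' ≤ N) :
    ∫⁻ a, (∫⁻ w, (BadS B m f f' τ ∩ Box N L εa εw).indicator 1 (a, w)
        ∂(Measure.pi fun _ : Fin L => nu εw)) ∂(Measure.pi fun _ : Fin N => nu εa) ≤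
      (ENNReal.ofReal τ)⁻¹ * ((ENNReal.ofReal (2 * εw))⁻¹ *
        (ENNReal.ofReal (2 * (V0 + εa + εw + 2)) *
          (2 * ENNReal.ofReal (5000000 / εw ^ 3 * tt εa ^ D')))) := by
  have ha : 0 < εa := lt_of_lt_of_le hw hwa
  have pa := nu_prob ha
  have pw := nu_prob hw
  set C := V0 + εa + εw + 2 with hC
  set S := BadS (N := N) B m f f' τ ∩ Box N L εa εw with hS
  have hSm : MeasurableSet S :=
    ((isClosed_BadS B m f f' τ).inter (isClosed_Box εa εw)).measurableSet
  have hind : Measurable fun p : (Fin N → ℝ) × (Fin L → ℝ) => S.indicator (1 : (Fin N → ℝ) × (Fin L → ℝ) → ℝ≥0∞) p :=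
    measurable_one.indicator hSm
  have hGLm := measurable_GG (bL B) (fun j => by unfold bL; fun_prop)
    (fun k => Fin.ofNat N k) (fun k => Fin.ofNat L k) m f
  have hGRm := measurable_GG (bR L B) (fun j => by unfold bR; fun_prop)
    (fun k => Fin.ofNat N (L - 1 - k)) (fun k => Fin.ofNat L (L - 1 - k)) (L - 1 - m) f'
  have hGm : Measurable fun p : ℝ × ((Fin N → ℝ) × (Fin L → ℝ)) =>
      ENNReal.ofReal (Gtot B m f f' p.2.1 p.2.2 p.1) := by
    unfold Gtot
    exact (hGLm.add hGRm).ennreal_ofReal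
  -- slice bound
  have h1 : ∀ a : Fin N → ℝ, ∫⁻ w, S.indicator 1 (a, w) ∂(Measure.pi fun _ : Fin L => nu εw) ≤
      ∫⁻ w, ((ENNReal.ofReal τ)⁻¹ * ((ENNReal.ofReal (2 * εw))⁻¹ *
        ∫⁻ E in Set.Icc (-C) C, ENNReal.ofReal (Gtot B m f f' a w E)))
        ∂(Measure.pi fun _ : Fin L => nu εw) := by
    intro a
    have hia : Measurable fun w : Fin L → ℝ =>
        S.indicator (1 : (Fin N → ℝ) × (Fin L → ℝ) → ℝ≥0∞) (a, w) :=
      hind.comp (measurable_const.prodMk measurable_id)
    rw [resample (fun _ : Fin L => nu εw) m hia]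
    refine lintegral_mono fun w => ?_
    exact bad_slice hw ha hV0 hB hτ m f f' (by omega) (by omega) a w
  -- integrate
  have hEm : Measurable fun p : (Fin N → ℝ) × (Fin L → ℝ) =>
      ∫⁻ E in Set.Icc (-C) C, ENNReal.ofReal (Gtot B m f f' p.1 p.2 E) := by
    have h2 : Measurable fun q : ((Fin N → ℝ) × (Fin L → ℝ)) × ℝ => (q.2, q.1) := by fun_prop
    have h3 := hGm.comp h2
    simp only [Function.comp_def] at h3
    exact Measurable.lintegral_prod_right' h3
  have h2 : ∫⁻ a, (∫⁻ w, ((ENNReal.ofReal τ)⁻¹ * ((ENNReal.ofReal (2 * εw))⁻¹ *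
        ∫⁻ E in Set.Icc (-C) C, ENNReal.ofReal (Gtot B m f f' a w E)))
        ∂(Measure.pi fun _ : Fin L => nu εw)) ∂(Measure.pi fun _ : Fin N => nu εa) =
      (ENNReal.ofReal τ)⁻¹ * ((ENNReal.ofReal (2 * εw))⁻¹ *
      ∫⁻ a, (∫⁻ w, (∫⁻ E in Set.Icc (-C) C, ENNReal.ofReal (Gtot B m f f' a w E))
        ∂(Measure.pi fun _ : Fin L => nu εw)) ∂(Measure.pi fun _ : Fin N => nu εa)) := by
    have hc1 : (ENNReal.ofReal τ)⁻¹ ≠ ∞ := by simpa using hτ
    have hc2 : (ENNReal.ofReal (2 * εw))⁻¹ ≠ ∞ := by simpa using hw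
    rw [← lintegral_const_mul' _ _ hc2, ← lintegral_const_mul' _ _ hc1]
    refine lintegral_congr fun a => ?_
    rw [← lintegral_const_mul' _ _ hc2, ← lintegral_const_mul' _ _ hc1]
  have h3 : ∫⁻ a, (∫⁻ w, (∫⁻ E in Set.Icc (-C) C, ENNReal.ofReal (Gtot B m f f' a w E))
        ∂(Measure.pi fun _ : Fin L => nu εw)) ∂(Measure.pi fun _ : Fin N => nu εa) ≤
      ENNReal.ofReal (2 * C) * (2 * ENNReal.ofReal (5000000 / εw ^ 3 * tt εa ^ D')) := by
    have e1 : ∫⁻ a, (∫⁻ w, (∫⁻ E in Set.Icc (-C) C, ENNReal.ofReal (Gtot B m f f' a w E))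
        ∂(Measure.pi fun _ : Fin L => nu εw)) ∂(Measure.pi fun _ : Fin N => nu εa) =
        ∫⁻ p, (∫⁻ E in Set.Icc (-C) C, ENNReal.ofReal (Gtot B m f f' p.1 p.2 E))
          ∂((Measure.pi fun _ : Fin N => nu εa).prod (Measure.pi fun _ : Fin L => nu εw)) :=
      (lintegral_prod _ hEm.aemeasurable).symm
    rw [e1]
    rw [lintegral_lintegral_swap (by
      rw [Function.uncurry_def]
      have h2 : Measurable fun q : ((Fin N → ℝ) × (Fin L → ℝ)) × ℝ => (q.2, q.1) := by fun_prop
      have h3 := hGm.comp h2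
      simp only [Function.comp_def] at h3
      exact h3.aemeasurable)]
    have e2 : ∀ E : ℝ, ∫⁻ p, ENNReal.ofReal (Gtot B m f f' p.1 p.2 E)
          ∂((Measure.pi fun _ : Fin N => nu εa).prod (Measure.pi fun _ : Fin L => nu εw)) ≤
        2 * ENNReal.ofReal (5000000 / εw ^ 3 * tt εa ^ D') := by
      intro E
      have hEL : Measurable fun p : (Fin N → ℝ) × (Fin L → ℝ) =>
          ENNReal.ofReal (GG (bL B E) (fun k => Fin.ofNat N k) (fun k => Fin.ofNat L k) p.1 p.2 m f) := by
        have h2 : Measurable fun q : (Fin N → ℝ) × (Fin L → ℝ) => (E, q) := by fun_prop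
        have h3 := hGLm.comp h2
        simp only [Function.comp_def] at h3
        exact h3.ennreal_ofReal
      have hER : Measurable fun p : (Fin N → ℝ) × (Fin L → ℝ) =>
          ENNReal.ofReal (GG (bR L B E) (fun k => Fin.ofNat N (L - 1 - k))
            (fun k => Fin.ofNat L (L - 1 - k)) p.1 p.2 (L - 1 - m) f') := by
        have h2 : Measurable fun q : (Fin N → ℝ) × (Fin L → ℝ) => (E, q) := by fun_prop
        have h3 := hGRm.comp h2
        simp only [Function.comp_def] at h3
        exact h3.ennreal_ofReal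
      have e3 : ∀ p : (Fin N → ℝ) × (Fin L → ℝ), ENNReal.ofReal (Gtot B m f f' p.1 p.2 E) =
          ENNReal.ofReal (GG (bL B E) (fun k => Fin.ofNat N k) (fun k => Fin.ofNat L k) p.1 p.2 m f) +
          ENNReal.ofReal (GG (bR L B E) (fun k => Fin.ofNat N (L - 1 - k))
            (fun k => Fin.ofNat L (L - 1 - k)) p.1 p.2 (L - 1 - m) f') := fun p =>
        ENNReal.ofReal_add (GG_nonneg _ _ _ _ _ _ _) (GG_nonneg _ _ _ _ _ _ _)
      simp only [e3]
      rw [lintegral_add_left hEL, two_mul]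
      refine add_le_add ?_ ?_
      · rw [lintegral_prod _ hEL.aemeasurable]
        simp only [hm]
        refine ks_total hw hwa hw1 _ _ _ f D' hD ?_ ?_
        · intro i j hi hj hij
          have := m.2
          exact ofNat_inj_window hij (by omega) (by omega)
        · intro i j h1 h2 h3 h4 hij
          exact ofNat_inj_window hij (by omega) (by omega)
      · rw [lintegral_prod _ hER.aemeasurable]
        simp only [hm']
        refine ks_total hw hwa hw1 _ _ _ f' D' hD ?_ ?_
        · intro i j hi hj hij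
          have := m.2
          have := ofNat_inj_window hij (by omega) (by omega)
          omega
        · intro i j h1 h2 h3 h4 hij
          have := m.2
          have := ofNat_inj_window hij (by omega) (by omega)
          omega
    calc _ ≤ ∫⁻ E in Set.Icc (-C) C, 2 * ENNReal.ofReal (5000000 / εw ^ 3 * tt εa ^ D') :=
          lintegral_mono e2
      _ = _ := by
          rw [setLIntegral_const, Real.volume_Icc, mul_comm]
          congr 2
          ring
  calc _ ≤ _ := lintegral_mono h1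
    _ = _ := h2
    _ ≤ _ := by gcongr

end Pool.Agent.K9h27.LP
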