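import Mathlib

set_option autoImplicit false

open Matrix Finset

namespace Pool.Agent.K9h27.LP

/-- The finite Jacobi (discrete Schroedinger) matrix with potential `v` on `L` sites. -/
def jac (L : ℕ) (v : ℕ → ℝ) : Matrix (Fin L) (Fin L) ℝ :=
  fun i j => if i = j then v i else if (i : ℕ) + 1 = j ∨ (j : ℕ) + 1 = i then 1 else 0

variable {n : Type*} [Fintype n] [DecidableEq n]

/-- `Ψ` (rows) and `l` form an orthonormal eigensystem of `A`. -/
structure IsES (A : Matrix n n ℝ) (Ψ : Matrix n n ℝ) (l : n → ℝ) : Prop where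
  orth : Ψ * Ψᵀ = 1
  eig : Ψ * A = Matrix.diagonal l * Ψ

theorem IsES.orth' {A Ψ : Matrix n n ℝ} {l : n → ℝ} (h : IsES A Ψ l) : Ψᵀ * Ψ = 1 :=
  mul_eq_one_comm.1 h.orth

theorem IsES.eq {A Ψ : Matrix n n ℝ} {l : n → ℝ} (h : IsES A Ψ l) :
    A = Ψᵀ * Matrix.diagonal l * Ψ := by
  calc A = (Ψᵀ * Ψ) * A := by rw [h.orth', Matrix.one_mul]
    _ = Ψᵀ * (Ψ * A) := by rw [Matrix.mul_assoc]
    _ = Ψᵀ * (Matrix.diagonal l * Ψ) := by rw [h.eig]
    _ = _ := by rw [Matrix.mul_assoc]

theorem exists_ES (A : Matrix n n ℝ) (hA : A.IsSymm) :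
    ∃ (Ψ : Matrix n n ℝ) (l : n → ℝ), IsES A Ψ l := by
  have hH : A.IsHermitian := by
    rw [Matrix.IsHermitian, Matrix.conjTranspose_eq_transpose_of_trivial]
    exact hA
  set U : Matrix n n ℝ := (hH.eigenvectorUnitary : Matrix n n ℝ) with hU
  have hU1 : Uᵀ * U = 1 := by
    have := Unitary.coe_star_mul_self hH.eigenvectorUnitary
    rw [Matrix.star_eq_conjTranspose, Matrix.conjTranspose_eq_transpose_of_trivial] at this
    exact this
  have hU2 : U * Uᵀ = 1 := mul_eq_one_comm.1 hU1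
  refine ⟨Uᵀ, hH.eigenvalues, ?_, ?_⟩
  · rw [Matrix.transpose_transpose]; exact hU1
  · have h := hH.conjStarAlgAut_star_eigenvectorUnitary
    rw [Unitary.conjStarAlgAut_star_apply] at h
    have h' : Uᵀ * A * U = Matrix.diagonal hH.eigenvalues := by
      have h2 : (star (hH.eigenvectorUnitary : Matrix n n ℝ)) = Uᵀ := by
        rw [Matrix.star_eq_conjTranspose, Matrix.conjTranspose_eq_transpose_of_trivial]
      rw [h2] at h
      exact h
    calc Uᵀ * A = Uᵀ * A * (U * Uᵀ) := by rw [hU2, Matrix.mul_one]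
      _ = (Uᵀ * A * U) * Uᵀ := by simp only [Matrix.mul_assoc]
      _ = _ := by rw [h']

theorem IsES.pow {A Ψ : Matrix n n ℝ} {l : n → ℝ} (h : IsES A Ψ l) (k : ℕ) :
    A ^ k = Ψᵀ * Matrix.diagonal (fun j => l j ^ k) * Ψ := by
  induction k with
  | zero => simp [h.orth']
  | succ k ih =>
    rw [pow_succ, ih]
    conv_lhs => rw [h.eq]
    have : Ψᵀ * Matrix.diagonal (fun j => l j ^ k) * Ψ * (Ψᵀ * Matrix.diagonal l * Ψ) =
        Ψᵀ * Matrix.diagonal (fun j => l j ^ k) * (Ψ * Ψᵀ) * Matrix.diagonal l * Ψ := by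
      simp only [Matrix.mul_assoc]
    rw [this, h.orth, Matrix.mul_one, Matrix.mul_assoc Ψᵀ, Matrix.diagonal_mul_diagonal]
    simp only [pow_succ]

theorem IsES.aeval {A Ψ : Matrix n n ℝ} {l : n → ℝ} (h : IsES A Ψ l) (p : Polynomial ℝ) :
    Polynomial.aeval A p = Ψᵀ * Matrix.diagonal (fun j => p.eval (l j)) * Ψ := by
  induction p using Polynomial.induction_on' with
  | add p q hp hq =>
    rw [map_add, hp, hq]
    simp only [Polynomial.eval_add]
    rw [← Matrix.add_mul, ← Matrix.mul_add, Matrix.diagonal_add]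
  | monomial k a =>
    rw [Polynomial.aeval_monomial, h.pow k]
    simp only [Polynomial.eval_monomial]
    have : (Matrix.diagonal fun j => a * l j ^ k) = a • Matrix.diagonal (fun j => l j ^ k) := by
      ext i j; by_cases hij : i = j
      · subst hij; simp
      · simp [hij]
    rw [this, Algebra.algebraMap_eq_smul_one]
    simp

theorem IsES.aeval_apply {A Ψ : Matrix n n ℝ} {l : n → ℝ} (h : IsES A Ψ l) (p : Polynomial ℝ)
    (m : n) : (Polynomial.aeval A p) m m = ∑ j, Ψ j m ^ 2 * p.eval (l j) := by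
  rw [h.aeval p, Matrix.mul_apply]
  refine Finset.sum_congr rfl fun j _ => ?_
  rw [Matrix.mul_diagonal, Matrix.transpose_apply]
  ring

theorem IsES.trace_aeval {A Ψ : Matrix n n ℝ} {l : n → ℝ} (h : IsES A Ψ l)
    (p : Polynomial ℝ) : (Polynomial.aeval A p).trace = ∑ j, p.eval (l j) := by
  rw [h.aeval p, Matrix.mul_assoc, Matrix.trace_mul_comm, Matrix.mul_assoc, h.orth,
    Matrix.mul_one, Matrix.trace_diagonal]

/-- orthonormality of rows -/
theorem IsES.row_orth {A Ψ : Matrix n n ℝ} {l : n → ℝ} (h : IsES A Ψ l) (j j' : n) :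
    ∑ i, Ψ j i * Ψ j' i = if j = j' then 1 else 0 := by
  have := congrFun (congrFun h.orth j) j'
  rw [Matrix.mul_apply] at this
  simp only [Matrix.transpose_apply] at this
  rw [this, Matrix.one_apply]

/-- orthonormality of columns -/
theorem IsES.col_orth {A Ψ : Matrix n n ℝ} {l : n → ℝ} (h : IsES A Ψ l) (i i' : n) :
    ∑ j, Ψ j i * Ψ j i' = if i = i' then 1 else 0 := by
  have := congrFun (congrFun h.orth' i) i'
  rw [Matrix.mul_apply] at this
  simp only [Matrix.transpose_apply] at this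
  rw [this, Matrix.one_apply]

theorem IsES.row_eig {A Ψ : Matrix n n ℝ} {l : n → ℝ} (h : IsES A Ψ l) (j i : n) :
    ∑ k, Ψ j k * A k i = l j * Ψ j i := by
  have := congrFun (congrFun h.eig j) i
  rw [Matrix.mul_apply, Matrix.diagonal_mul] at this
  exact this

theorem jac_symm (L : ℕ) (v : ℕ → ℝ) : (jac L v).IsSymm := by
  ext i j
  simp only [Matrix.transpose_apply, jac]
  by_cases h : i = j
  · subst h; simp
  · rw [if_neg h, if_neg (Ne.symm h)]
    congr 1
    simp only [eq_iff_iff]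
    tauto

end Pool.Agent.K9h27.LP
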