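import Pool.Agent.K9h27.LP.Jac

set_option autoImplicit false
set_option linter.unusedSimpArgs false
set_option linter.unusedSectionVars false
set_option linter.unusedVariables false

open MeasureTheory Set Matrix
open scoped ENNReal

namespace Pool.Agent.K9h27.LP

variable {n : Type*} [Fintype n] [DecidableEq n]

theorem isCompact_orth : IsCompact {Ψ : Matrix n n ℝ | Ψ * Ψᵀ = 1} := by
  have hsub : {Ψ : Matrix n n ℝ | Ψ * Ψᵀ = 1} ⊆
      Set.pi Set.univ (fun _ : n => Set.pi Set.univ fun _ : n => Set.Icc (-1 : ℝ) 1) := by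
    intro Ψ hΨ i _ j _
    have h1 : ∑ k, Ψ i k * Ψ i k = 1 := by
      have := congrFun (congrFun (show Ψ * Ψᵀ = 1 from hΨ) i) i
      rw [Matrix.mul_apply] at this
      simpa using this
    have h2 : Ψ i j * Ψ i j ≤ 1 := by
      rw [← h1]
      exact Finset.single_le_sum (f := fun k => Ψ i k * Ψ i k)
        (fun k _ => mul_self_nonneg _) (Finset.mem_univ j)
    rw [Set.mem_Icc, ← abs_le]
    exact abs_le_one_iff_mul_self_le_one.2 h2
  have hcl : IsClosed {Ψ : Matrix n n ℝ | Ψ * Ψᵀ = 1} := by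
    have : Continuous fun Ψ : Matrix n n ℝ => Ψ * Ψᵀ := by fun_prop
    exact isClosed_eq this continuous_const
  refine IsCompact.of_isClosed_subset ?_ hcl hsub
  exact isCompact_univ_pi fun _ => isCompact_univ_pi fun _ => isCompact_Icc

theorem isClosed_ES {X : Type*} [TopologicalSpace X] {H : X → Matrix n n ℝ} (hH : Continuous H)
    {S : Set (Matrix n n ℝ × (n → ℝ))} (hS : IsClosed S) :
    IsClosed {x : X | ∃ (Ψ : Matrix n n ℝ) (l : n → ℝ), IsES (H x) Ψ l ∧ (Ψ, l) ∈ S} := by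
  have : CompactSpace {Ψ : Matrix n n ℝ | Ψ * Ψᵀ = 1} := isCompact_iff_compactSpace.1 isCompact_orth
  set K := {Ψ : Matrix n n ℝ | Ψ * Ψᵀ = 1} with hK
  set lam : X × K → (n → ℝ) := fun p j => (p.2.1 * H p.1 * p.2.1ᵀ) j j with hlam
  set C : Set (X × K) := {p | (p.2.1 * H p.1 * p.2.1ᵀ) = Matrix.diagonal (lam p) ∧
    (p.2.1, lam p) ∈ S} with hC
  have hcontM : Continuous fun p : X × K => p.2.1 * H p.1 * p.2.1ᵀ := by
    have h1 : Continuous fun p : X × K => (p.2.1 : Matrix n n ℝ) :=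
      continuous_subtype_val.comp continuous_snd
    exact (h1.matrix_mul (hH.comp continuous_fst)).matrix_mul h1.matrix_transpose
  have hlamc : Continuous lam := by
    rw [hlam]
    refine continuous_pi fun j => ?_
    exact (continuous_apply j).comp ((continuous_apply j).comp hcontM)
  have hCcl : IsClosed C := by
    refine IsClosed.inter ?_ ?_
    · exact isClosed_eq hcontM hlamc.matrix_diagonal
    · refine hS.preimage (f := fun p : X × K => ((p.2.1 : Matrix n n ℝ), lam p)) ?_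
      exact (continuous_subtype_val.comp continuous_snd).prodMk hlamc
  have himg : {x : X | ∃ (Ψ : Matrix n n ℝ) (l : n → ℝ), IsES (H x) Ψ l ∧ (Ψ, l) ∈ S} =
      Prod.fst '' C := by
    ext x
    simp only [Set.mem_ofPred_eq, Set.mem_image]
    constructor
    · rintro ⟨Ψ, l, hES, hS⟩
      have hd : Ψ * H x * Ψᵀ = Matrix.diagonal l := by
        rw [hES.eig, Matrix.mul_assoc, hES.orth, Matrix.mul_one]
      have hl : lam (x, ⟨Ψ, hES.orth⟩) = l := by
        funext j
        simp only [hlam, hd, Matrix.diagonal_apply_eq]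
      refine ⟨(x, ⟨Ψ, hES.orth⟩), ⟨?_, ?_⟩, rfl⟩
      · rw [hl]; exact hd
      · rw [hl]; exact hS
    · rintro ⟨⟨x', Ψ⟩, ⟨h1, h2⟩, rfl⟩
      refine ⟨Ψ.1, lam (x', Ψ), ⟨Ψ.2, ?_⟩, h2⟩
      have h3 : Ψ.1ᵀ * Ψ.1 = 1 := mul_eq_one_comm.1 Ψ.2
      calc Ψ.1 * H x' = Ψ.1 * H x' * (Ψ.1ᵀ * Ψ.1) := by rw [h3, Matrix.mul_one]
        _ = (Ψ.1 * H x' * Ψ.1ᵀ) * Ψ.1 := by simp only [Matrix.mul_assoc]
        _ = _ := by rw [h1]
  rw [himg]
  exact isClosedMap_fst_of_compactSpace _ hCcl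

end Pool.Agent.K9h27.LP
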