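import Mathlib

set_option autoImplicit false
set_option linter.unusedSimpArgs false
set_option linter.unusedSectionVars false

open MeasureTheory Set
open scoped ENNReal

namespace Pool.Agent.K9h27.LP

/-- uniform distribution on `[-ε, ε]` -/
noncomputable def nu (ε : ℝ) : Measure ℝ :=
  (ENNReal.ofReal (2 * ε))⁻¹ • (volume.restrict (Set.Icc (-ε) ε))

theorem nu_prob {ε : ℝ} (hε : 0 < ε) : IsProbabilityMeasure (nu ε) := by
  refine ⟨?_⟩
  rw [nu, Measure.smul_apply, Measure.restrict_apply MeasurableSet.univ, univ_inter,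
    Real.volume_Icc, smul_eq_mul]
  have : ε - -ε = 2 * ε := by ring
  rw [this]
  exact ENNReal.inv_mul_cancel (by simpa using hε) ENNReal.ofReal_ne_top

theorem lintegral_nu (ε : ℝ) (f : ℝ → ℝ≥0∞) :
    ∫⁻ t, f t ∂(nu ε) = (ENNReal.ofReal (2 * ε))⁻¹ * ∫⁻ t in Set.Icc (-ε) ε, f t := by
  rw [nu, lintegral_smul_measure, smul_eq_mul]

theorem lintegral_nu_le (ε : ℝ) (f : ℝ → ℝ≥0∞) :
    ∫⁻ t, f t ∂(nu ε) ≤ (ENNReal.ofReal (2 * ε))⁻¹ * ∫⁻ t, f t := by
  rw [lintegral_nu]
  gcongr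
  exact Measure.restrict_le_self

/-- squared `L²` norm -/
noncomputable def NN (h : ℝ → ℝ) : ℝ≥0∞ := ∫⁻ y, ENNReal.ofReal (h y ^ 2)

/-- squared `L²` distance to the translate -/
noncomputable def DD (h : ℝ → ℝ) (t : ℝ) : ℝ≥0∞ := ∫⁻ y, ENNReal.ofReal ((h y - h (y + t)) ^ 2)

/-- averaged distance -/
noncomputable def VV (ε : ℝ) (h : ℝ → ℝ) : ℝ≥0∞ := ∫⁻ s, ∫⁻ t, DD h (s - t) ∂(nu ε) ∂(nu ε)

/-- averaging operator -/
noncomputable def KK (ε : ℝ) (h : ℝ → ℝ) (y : ℝ) : ℝ := ∫ s, h (y - s) ∂(nu ε)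

theorem measurable_DD {h : ℝ → ℝ} (hm : Measurable h) : Measurable (DD h) := by
  unfold DD
  apply Measurable.lintegral_prod_right
    (f := fun (p y : ℝ) => ENNReal.ofReal ((h y - h (y + p)) ^ 2))
  unfold Function.uncurry
  fun_prop

theorem DD_mul {h : ℝ → ℝ} (hm : Measurable h) (n : ℕ) (t : ℝ) :
    DD h (n * t) ≤ (n : ℝ≥0∞) ^ 2 * DD h t := by
  have h1 : ∀ y, (h y - h (y + n * t)) ^ 2 ≤
      n * ∑ i ∈ Finset.range n, (h (y + i * t) - h (y + i * t + t)) ^ 2 := by
    intro y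
    have e : h y - h (y + n * t) = ∑ i ∈ Finset.range n, (h (y + i * t) - h (y + (i + 1 : ℕ) * t)) := by
      rw [Finset.sum_range_sub']
      simp
    rw [e]
    have := sq_sum_le_card_mul_sum_sq (s := Finset.range n)
      (f := fun i : ℕ => (h (y + i * t) - h (y + (i + 1 : ℕ) * t)))
    rw [Finset.card_range] at this
    refine this.trans_eq ?_
    congr 1
    refine Finset.sum_congr rfl fun i _ => ?_
    congr 3
    push_cast; ring
  calc DD h (n * t) = ∫⁻ y, ENNReal.ofReal ((h y - h (y + n * t)) ^ 2) := rfl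
    _ ≤ ∫⁻ y, (n : ℝ≥0∞) * ∑ i ∈ Finset.range n,
          ENNReal.ofReal ((h (y + i * t) - h (y + i * t + t)) ^ 2) := by
        refine lintegral_mono fun y => ?_
        refine (ENNReal.ofReal_le_ofReal (h1 y)).trans ?_
        rw [ENNReal.ofReal_mul (by positivity), ENNReal.ofReal_sum_of_nonneg
          (fun i _ => sq_nonneg _), ENNReal.ofReal_natCast]
    _ = (n : ℝ≥0∞) * ∑ i ∈ Finset.range n,
          ∫⁻ y, ENNReal.ofReal ((h (y + i * t) - h (y + i * t + t)) ^ 2) := by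
        rw [lintegral_const_mul _ (by fun_prop), lintegral_finsetSum _ (fun i _ => by fun_prop)]
    _ = (n : ℝ≥0∞) * ∑ i ∈ Finset.range n, DD h t := by
        congr 1
        refine Finset.sum_congr rfl fun i _ => ?_
        exact lintegral_add_right_eq_self
          (fun y => ENNReal.ofReal ((h y - h (y + t)) ^ 2)) (i * t)
    _ = (n : ℝ≥0∞) ^ 2 * DD h t := by
        rw [Finset.sum_const, Finset.card_range, nsmul_eq_mul]
        ring

/-- lower bound for the average -/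
theorem VV_ge {ε : ℝ} (hε : 0 < ε) (h : ℝ → ℝ) (hm : Measurable h) :
    ∫⁻ r in Set.Icc (ε / 2) ε, DD h r ≤ ENNReal.ofReal (4 * ε) * VV ε h := by
  set I := ∫⁻ r in Set.Icc (ε / 2) ε, DD h r with hI
  -- inner integral
  have hDm := measurable_DD hm
  have h1 : ∀ t ∈ Set.Icc (-ε) (0 : ℝ), I ≤ ∫⁻ s in Set.Icc (-ε) ε, DD h (s - t) := by
    intro t ht
    have e1 : I = ∫⁻ s in Set.Icc (ε / 2 + t) (ε + t), DD h (s - t) := by
      rw [hI]
      have := (measurePreserving_sub_right volume t).setLIntegral_comp_preimage_emb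
        (measurableEmbedding_subRight t) (DD h) (Set.Icc (ε / 2) ε)
      rw [← this]
      congr 2
      ext s
      simp only [Set.mem_preimage, Set.mem_Icc]
      constructor
      · rintro ⟨a, b⟩; constructor <;> linarith
      · rintro ⟨a, b⟩; constructor <;> linarith
    rw [e1]
    refine lintegral_mono_set ?_
    intro s hs
    rw [Set.mem_Icc] at *
    constructor <;> linarith [hs.1, hs.2, ht.1, ht.2]
  have h2 : ENNReal.ofReal ε * I ≤ ∫⁻ t in Set.Icc (-ε) ε, ∫⁻ s in Set.Icc (-ε) ε, DD h (s - t) := by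
    calc ENNReal.ofReal ε * I = ∫⁻ t in Set.Icc (-ε) (0 : ℝ), I := by
          rw [setLIntegral_const, Real.volume_Icc, mul_comm]; congr 2; ring
      _ ≤ ∫⁻ t in Set.Icc (-ε) (0 : ℝ), ∫⁻ s in Set.Icc (-ε) ε, DD h (s - t) :=
          setLIntegral_mono' measurableSet_Icc h1
      _ ≤ _ := lintegral_mono_set (Set.Icc_subset_Icc le_rfl hε.le)
  have h3 : VV ε h = (ENNReal.ofReal (2 * ε))⁻¹ * (ENNReal.ofReal (2 * ε))⁻¹ *
      ∫⁻ t in Set.Icc (-ε) ε, ∫⁻ s in Set.Icc (-ε) ε, DD h (s - t) := by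
    have := nu_prob hε
    unfold VV
    rw [lintegral_lintegral_swap (by
      apply Measurable.aemeasurable
      exact hDm.comp (measurable_fst.sub measurable_snd))]
    rw [lintegral_nu, mul_assoc]
    congr 1
    rw [← lintegral_const_mul' _ _ (by simpa using hε)]
    refine lintegral_congr fun t => ?_
    rw [lintegral_nu]
  have h4 : ENNReal.ofReal (4 * ε) * VV ε h = (ENNReal.ofReal ε)⁻¹ *
      ∫⁻ t in Set.Icc (-ε) ε, ∫⁻ s in Set.Icc (-ε) ε, DD h (s - t) := by
    rw [h3, ← mul_assoc]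
    congr 1
    rw [← ENNReal.ofReal_inv_of_pos (by positivity), ← ENNReal.ofReal_inv_of_pos hε,
      ← ENNReal.ofReal_mul (by positivity), ← ENNReal.ofReal_mul (by positivity)]
    congr 1
    field_simp
    ring
  rw [h4]
  calc I = (ENNReal.ofReal ε)⁻¹ * (ENNReal.ofReal ε * I) := by
        rw [← mul_assoc, ENNReal.inv_mul_cancel (by simpa using hε) ENNReal.ofReal_ne_top, one_mul]
    _ ≤ _ := by gcongr


theorem lintegral_comp_add_mul {a : ℝ} (ha : 0 < a) (y : ℝ) (φ : ℝ → ℝ≥0∞) (hφ : Measurable φ) :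
    ∫⁻ t, φ (y + a * t) = ENNReal.ofReal a⁻¹ * ∫⁻ t, φ t := by
  have h1 : ∫⁻ t, φ (y + a * t) = ∫⁻ t, φ (y + t) ∂(Measure.map (a * ·) volume) := by
    rw [lintegral_map (by fun_prop) (by fun_prop)]
  rw [h1, Real.map_volume_mul_left ha.ne', lintegral_smul_measure, smul_eq_mul,
    abs_of_pos (inv_pos.2 ha)]
  congr 1
  exact lintegral_add_left_eq_self φ y

theorem mass_le {ε : ℝ} (hε : 0 < ε) {h : ℝ → ℝ} (hm : Measurable h) {M : ℕ}
    (hM : 64 ≤ M * ε) (c : ℝ) :
    ∫⁻ y in Set.Icc (c - 1) (c + 1), ENNReal.ofReal (h y ^ 2) ≤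
      ENNReal.ofReal (1 / 8) * NN h + 16 * (M : ℝ≥0∞) ^ 2 * VV ε h := by
  set J := Set.Icc (c - 1) (c + 1) with hJ
  set mass := ∫⁻ y in J, ENNReal.ofReal (h y ^ 2) with hmass
  have hM0 : (0 : ℝ) < M := by
    by_contra hc
    have : (M : ℝ) = 0 := le_antisymm (not_lt.1 hc) (Nat.cast_nonneg _)
    rw [this] at hM; linarith
  have h1 : ∀ t, mass ≤ 2 * (∫⁻ y in J, ENNReal.ofReal (h (y + M * t) ^ 2)) +
      2 * ((M : ℝ≥0∞) ^ 2 * DD h t) := by
    intro t
    calc mass ≤ ∫⁻ y in J, (2 * ENNReal.ofReal (h (y + M * t) ^ 2) +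
          2 * ENNReal.ofReal ((h y - h (y + M * t)) ^ 2)) := by
          refine lintegral_mono fun y => ?_
          have : h y ^ 2 ≤ 2 * h (y + M * t) ^ 2 + 2 * (h y - h (y + M * t)) ^ 2 := by
            nlinarith [sq_nonneg (h y - 2 * h (y + M * t))]
          refine (ENNReal.ofReal_le_ofReal this).trans ?_
          rw [ENNReal.ofReal_add (by positivity) (by positivity), ENNReal.ofReal_mul (by norm_num),
            ENNReal.ofReal_mul (by norm_num)]
          simp
      _ = 2 * (∫⁻ y in J, ENNReal.ofReal (h (y + M * t) ^ 2)) +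
          2 * (∫⁻ y in J, ENNReal.ofReal ((h y - h (y + M * t)) ^ 2)) := by
          rw [lintegral_add_left (by fun_prop), lintegral_const_mul _ (by fun_prop),
            lintegral_const_mul _ (by fun_prop)]
      _ ≤ _ := by
          gcongr
          exact (setLIntegral_le_lintegral _ _).trans (DD_mul hm M t)
  have h2 : ENNReal.ofReal (ε / 2) * mass ≤
      2 * (∫⁻ t in Set.Icc (ε / 2) ε, ∫⁻ y in J, ENNReal.ofReal (h (y + M * t) ^ 2)) +
      2 * ((M : ℝ≥0∞) ^ 2 * ∫⁻ t in Set.Icc (ε / 2) ε, DD h t) := by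
    calc ENNReal.ofReal (ε / 2) * mass = ∫⁻ t in Set.Icc (ε / 2) ε, mass := by
          rw [setLIntegral_const, Real.volume_Icc, mul_comm]; congr 2; ring
      _ ≤ ∫⁻ t in Set.Icc (ε / 2) ε, (2 * (∫⁻ y in J, ENNReal.ofReal (h (y + M * t) ^ 2)) +
          2 * ((M : ℝ≥0∞) ^ 2 * DD h t)) := lintegral_mono fun t => h1 t
      _ = _ := by
          have hDm := measurable_DD hm
          have hmm : Measurable fun t : ℝ => ∫⁻ y in J, ENNReal.ofReal (h (y + M * t) ^ 2) := by
            apply Measurable.lintegral_prod_right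
              (f := fun (t y : ℝ) => ENNReal.ofReal (h (y + M * t) ^ 2))
            unfold Function.uncurry
            fun_prop
          rw [lintegral_add_left (by fun_prop), lintegral_const_mul _ hmm,
            lintegral_const_mul _ (by fun_prop), lintegral_const_mul _ hDm]
  have h3 : ∫⁻ t in Set.Icc (ε / 2) ε, ∫⁻ y in J, ENNReal.ofReal (h (y + M * t) ^ 2) ≤
      ENNReal.ofReal (2 / M) * NN h := by
    rw [lintegral_lintegral_swap (by
      apply Measurable.aemeasurable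
      unfold Function.uncurry
      fun_prop)]
    calc ∫⁻ y in J, ∫⁻ t in Set.Icc (ε / 2) ε, ENNReal.ofReal (h (y + M * t) ^ 2)
        ≤ ∫⁻ y in J, ENNReal.ofReal (M : ℝ)⁻¹ * NN h := by
          refine lintegral_mono fun y => ?_
          refine (setLIntegral_le_lintegral _ _).trans ?_
          rw [lintegral_comp_add_mul hM0 y (fun x => ENNReal.ofReal (h x ^ 2)) (by fun_prop)]
          rfl
      _ = _ := by
          rw [setLIntegral_const, hJ, Real.volume_Icc, mul_right_comm,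
            ← ENNReal.ofReal_mul (by positivity)]
          congr 2
          field_simp
          ring
  have h4 := VV_ge hε h hm
  have h5 : ENNReal.ofReal (ε / 2) * mass ≤ ENNReal.ofReal (ε / 2) *
      (ENNReal.ofReal (1 / 8) * NN h + 16 * (M : ℝ≥0∞) ^ 2 * VV ε h) := by
    refine h2.trans ?_
    rw [mul_add]
    refine add_le_add ?_ ?_
    · calc 2 * (∫⁻ t in Set.Icc (ε / 2) ε, ∫⁻ y in J, ENNReal.ofReal (h (y + M * t) ^ 2))
          ≤ 2 * (ENNReal.ofReal (2 / M) * NN h) := by gcongr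
        _ = ENNReal.ofReal (4 / M) * NN h := by
            rw [← mul_assoc]
            congr 1
            rw [show (2 : ℝ≥0∞) = ENNReal.ofReal 2 by simp, ← ENNReal.ofReal_mul (by norm_num)]
            congr 1
            ring
        _ ≤ ENNReal.ofReal (ε / 2 * (1 / 8)) * NN h := by
            gcongr
            rw [div_le_iff₀ hM0]
            nlinarith
        _ = _ := by rw [ENNReal.ofReal_mul (by positivity), mul_assoc]
    · calc 2 * ((M : ℝ≥0∞) ^ 2 * ∫⁻ t in Set.Icc (ε / 2) ε, DD h t)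
          ≤ 2 * ((M : ℝ≥0∞) ^ 2 * (ENNReal.ofReal (4 * ε) * VV ε h)) := by gcongr
        _ = _ := by
            have e : ENNReal.ofReal (4 * ε) = 8 * ENNReal.ofReal (ε / 2) := by
              rw [show (8 : ℝ≥0∞) = ENNReal.ofReal 8 by simp, ← ENNReal.ofReal_mul (by norm_num)]
              congr 1; ring
            rw [e]
            ring
  have h6 : ENNReal.ofReal (ε / 2) ≠ 0 := by simpa using hε
  exact (ENNReal.mul_le_mul_iff_right h6 ENNReal.ofReal_ne_top).1 h5


theorem memLp_shift {ε : ℝ} (hε : 0 < ε) {h : ℝ → ℝ} (hm : Measurable h) (hN : NN h ≠ ∞)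
    (y : ℝ) : MemLp (fun s => h (y - s)) 2 (nu ε) := by
  have hm' : Measurable fun s => h (y - s) := hm.comp (measurable_const.sub measurable_id)
  refine (memLp_two_iff_integrable_sq hm'.aestronglyMeasurable).2 ?_
  refine ⟨(hm'.pow_const 2).aestronglyMeasurable, ?_⟩
  rw [hasFiniteIntegral_iff_ofReal (ae_of_all _ fun s => sq_nonneg _)]
  refine (lintegral_nu_le ε _).trans_lt ?_
  rw [lintegral_sub_left_eq_self (fun x => ENNReal.ofReal (h x ^ 2)) y]
  exact ENNReal.mul_lt_top (by simpa using hε) (lt_top_iff_ne_top.2 hN)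

theorem sq_integral_le {μ : Measure ℝ} [IsProbabilityMeasure μ] {X : ℝ → ℝ}
    (hX : MemLp X 2 μ) : (∫ s, X s ∂μ) ^ 2 ≤ ∫ s, X s ^ 2 ∂μ := by
  have h1 := ProbabilityTheory.variance_eq_sub hX
  have h2 := ProbabilityTheory.variance_nonneg X μ
  rw [h1] at h2
  simp only [Pi.pow_apply] at h2
  linarith

theorem double_var {μ : Measure ℝ} [IsProbabilityMeasure μ] {X : ℝ → ℝ}
    (hXm : Measurable X) (hX : MemLp X 2 μ) :
    ENNReal.ofReal ((∫ s, X s ∂μ) ^ 2) * 2 +
      ∫⁻ s, ∫⁻ t, ENNReal.ofReal ((X s - X t) ^ 2) ∂μ ∂μ =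
      2 * ∫⁻ s, ENNReal.ofReal (X s ^ 2) ∂μ := by
  have hi : Integrable X μ := hX.integrable (by norm_num)
  have hi2 : Integrable (fun s => X s ^ 2) μ := (memLp_two_iff_integrable_sq
    hXm.aestronglyMeasurable).1 hX
  set E := ∫ s, X s ∂μ with hE
  set E2 := ∫ s, X s ^ 2 ∂μ with hE2
  have hint : ∀ s, Integrable (fun t => (X s - X t) ^ 2) μ := fun s => by
    have : (fun t => (X s - X t) ^ 2) = fun t => X s ^ 2 - 2 * X s * X t + X t ^ 2 := by
      funext t; ring
    rw [this]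
    exact ((integrable_const _).sub (hi.const_mul _)).add hi2
  have h1 : ∀ s, ∫ t, (X s - X t) ^ 2 ∂μ = X s ^ 2 - 2 * X s * E + E2 := fun s => by
    have : (fun t => (X s - X t) ^ 2) = fun t => X s ^ 2 - 2 * X s * X t + X t ^ 2 := by
      funext t; ring
    have i1 : Integrable (fun t => X s ^ 2 - 2 * X s * X t) μ :=
      (integrable_const _).sub (hi.const_mul _)
    rw [this, integral_add i1 hi2,
      integral_sub (integrable_const _) (hi.const_mul _), integral_const_mul]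
    simp [hE, hE2]
  have h2 : ∀ s, ∫⁻ t, ENNReal.ofReal ((X s - X t) ^ 2) ∂μ =
      ENNReal.ofReal (X s ^ 2 - 2 * X s * E + E2) := fun s => by
    rw [← h1 s, ofReal_integral_eq_lintegral_ofReal (hint s) (ae_of_all _ fun t => sq_nonneg _)]
  have hnn : ∀ s, 0 ≤ X s ^ 2 - 2 * X s * E + E2 := fun s => by
    rw [← h1 s]; exact integral_nonneg fun t => sq_nonneg _
  have hint2 : Integrable (fun s => X s ^ 2 - 2 * X s * E + E2) μ := by
    have : (fun s => X s ^ 2 - 2 * X s * E + E2) = fun s => X s ^ 2 - 2 * E * X s + E2 := by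
      funext s; ring
    rw [this]
    exact (hi2.sub (hi.const_mul _)).add (integrable_const _)
  have h3 : ∫ s, (X s ^ 2 - 2 * X s * E + E2) ∂μ = 2 * E2 - 2 * E ^ 2 := by
    have : (fun s => X s ^ 2 - 2 * X s * E + E2) = fun s => X s ^ 2 - 2 * E * X s + E2 := by
      funext s; ring
    have i1 : Integrable (fun s => X s ^ 2 - 2 * E * X s) μ := hi2.sub (hi.const_mul _)
    rw [this, integral_add i1 (integrable_const _),
      integral_sub hi2 (hi.const_mul _), integral_const_mul]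
    simp [← hE, ← hE2]
    ring
  simp only [h2]
  rw [← ofReal_integral_eq_lintegral_ofReal hint2 (ae_of_all _ hnn), h3,
    ← ofReal_integral_eq_lintegral_ofReal hi2 (ae_of_all _ fun s => sq_nonneg _), ← hE2]
  have hle : E ^ 2 ≤ E2 := sq_integral_le hX
  rw [show (2 : ℝ≥0∞) = ENNReal.ofReal 2 by simp, ← ENNReal.ofReal_mul (by positivity),
    ← ENNReal.ofReal_add (by positivity) (by linarith), ← ENNReal.ofReal_mul (by norm_num)]
  congr 1
  ring

theorem measurable_KK (ε : ℝ) {h : ℝ → ℝ} (hm : Measurable h) : Measurable (KK ε h) := by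
  unfold KK
  by_cases hε : 0 < ε
  · have := nu_prob hε
    apply StronglyMeasurable.measurable
    apply StronglyMeasurable.integral_prod_right (f := fun (y s : ℝ) => h (y - s))
    apply Measurable.stronglyMeasurable
    unfold Function.uncurry
    fun_prop
  · have : ∀ y, ∫ s, h (y - s) ∂(nu ε) = 0 := by
      intro y
      have hz : nu ε = 0 := by
        rw [nu]
        have : volume.restrict (Set.Icc (-ε) ε) = 0 := by
          rw [Measure.restrict_eq_zero, Real.volume_Icc]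
          rw [ENNReal.ofReal_eq_zero]; linarith
        rw [this, smul_zero]
      rw [hz, integral_zero_measure]
    simp only [this]
    exact measurable_const

theorem var_ineq {ε : ℝ} (hε : 0 < ε) {h : ℝ → ℝ} (hm : Measurable h) (hN : NN h ≠ ∞) :
    NN (KK ε h) * 2 + VV ε h = 2 * NN h := by
  have := nu_prob hε
  have h1 : ∀ y, ENNReal.ofReal ((KK ε h y) ^ 2) * 2 +
      ∫⁻ s, ∫⁻ t, ENNReal.ofReal ((h (y - s) - h (y - t)) ^ 2) ∂(nu ε) ∂(nu ε) =
      2 * ∫⁻ s, ENNReal.ofReal (h (y - s) ^ 2) ∂(nu ε) := fun y =>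
    double_var (by fun_prop) (memLp_shift hε hm hN y)
  have h2 : ∫⁻ y, (ENNReal.ofReal ((KK ε h y) ^ 2) * 2 +
      ∫⁻ s, ∫⁻ t, ENNReal.ofReal ((h (y - s) - h (y - t)) ^ 2) ∂(nu ε) ∂(nu ε)) =
      ∫⁻ y, 2 * ∫⁻ s, ENNReal.ofReal (h (y - s) ^ 2) ∂(nu ε) := lintegral_congr h1
  have hKm := measurable_KK ε hm
  rw [lintegral_add_left (by fun_prop), lintegral_mul_const _ (by fun_prop),
    lintegral_const_mul _ (by
      apply Measurable.lintegral_prod_right (f := fun (y s : ℝ) => ENNReal.ofReal (h (y - s) ^ 2))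
      unfold Function.uncurry
      fun_prop)] at h2
  have h3 : ∫⁻ y, ∫⁻ s, ENNReal.ofReal (h (y - s) ^ 2) ∂(nu ε) = NN h := by
    rw [lintegral_lintegral_swap (by
      apply Measurable.aemeasurable
      unfold Function.uncurry
      fun_prop)]
    have : ∀ s, ∫⁻ y, ENNReal.ofReal (h (y - s) ^ 2) = NN h := fun s =>
      lintegral_sub_right_eq_self (fun x => ENNReal.ofReal (h x ^ 2)) s
    simp only [this]
    simp
  have h4 : ∫⁻ y, ∫⁻ s, ∫⁻ t, ENNReal.ofReal ((h (y - s) - h (y - t)) ^ 2) ∂(nu ε) ∂(nu ε) =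
      VV ε h := by
    rw [lintegral_lintegral_swap (by
      apply Measurable.aemeasurable
      unfold Function.uncurry
      apply Measurable.lintegral_prod_right
        (f := fun (p : ℝ × ℝ) (t : ℝ) => ENNReal.ofReal ((h (p.1 - p.2) - h (p.1 - t)) ^ 2))
      unfold Function.uncurry
      fun_prop)]
    unfold VV
    refine lintegral_congr fun s => ?_
    rw [lintegral_lintegral_swap (by
      apply Measurable.aemeasurable
      unfold Function.uncurry
      fun_prop)]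
    refine lintegral_congr fun t => ?_
    have := lintegral_sub_right_eq_self (fun x => ENNReal.ofReal ((h x - h (x + (s - t))) ^ 2)) s
      (μ := volume)
    rw [DD, ← this]
    refine lintegral_congr fun y => ?_
    congr 4
    ring
  rw [h3, h4] at h2
  exact h2

theorem DD_KK {ε : ℝ} (hε : 0 < ε) {h : ℝ → ℝ} (hm : Measurable h) (hN : NN h ≠ ∞) (t : ℝ) :
    DD (KK ε h) t ≤ DD h t := by
  have := nu_prob hε
  have h1 : ∀ y, ENNReal.ofReal ((KK ε h y - KK ε h (y + t)) ^ 2) ≤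
      ∫⁻ s, ENNReal.ofReal ((h (y - s) - h (y - s + t)) ^ 2) ∂(nu ε) := by
    intro y
    have m1 := memLp_shift hε hm hN y
    have m2 := memLp_shift hε hm hN (y + t)
    have m3 : MemLp (fun s => h (y - s) - h (y + t - s)) 2 (nu ε) := m1.sub m2
    have e1 : KK ε h y - KK ε h (y + t) = ∫ s, (h (y - s) - h (y + t - s)) ∂(nu ε) := by
      rw [integral_sub (m1.integrable (by norm_num)) (m2.integrable (by norm_num))]
      rfl
    rw [e1]
    refine (ENNReal.ofReal_le_ofReal (sq_integral_le m3)).trans ?_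
    rw [ofReal_integral_eq_lintegral_ofReal ((memLp_two_iff_integrable_sq
      m3.aestronglyMeasurable).1 m3) (ae_of_all _ fun s => sq_nonneg _)]
    refine lintegral_mono fun s => ?_
    apply le_of_eq
    congr 4
    ring
  calc DD (KK ε h) t = ∫⁻ y, ENNReal.ofReal ((KK ε h y - KK ε h (y + t)) ^ 2) := rfl
    _ ≤ ∫⁻ y, ∫⁻ s, ENNReal.ofReal ((h (y - s) - h (y - s + t)) ^ 2) ∂(nu ε) :=
        lintegral_mono h1
    _ = ∫⁻ s, (∫⁻ y, ENNReal.ofReal ((h (y - s) - h (y - s + t)) ^ 2)) ∂(nu ε) := by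
        rw [lintegral_lintegral_swap (by
          apply Measurable.aemeasurable
          unfold Function.uncurry
          fun_prop)]
    _ = ∫⁻ s, DD h t ∂(nu ε) := by
        refine lintegral_congr fun s => ?_
        exact lintegral_sub_right_eq_self (fun x => ENNReal.ofReal ((h x - h (x + t)) ^ 2)) s
    _ = DD h t := by simp

theorem VV_KK {ε : ℝ} (hε : 0 < ε) {h : ℝ → ℝ} (hm : Measurable h) (hN : NN h ≠ ∞) :
    VV ε (KK ε h) ≤ VV ε h := by
  unfold VV
  exact lintegral_mono fun s => lintegral_mono fun t => DD_KK hε hm hN _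


theorem inv_cv (s : Set ℝ) (hs : MeasurableSet s) (φ : ℝ → ℝ≥0∞) :
    ∫⁻ y in {y : ℝ | y ≠ 0 ∧ y⁻¹ ∈ s}, ENNReal.ofReal ((|y|⁻¹) ^ 2) * φ y⁻¹ =
      ∫⁻ x in s, φ x := by
  set S := {y : ℝ | y ≠ 0 ∧ y⁻¹ ∈ s} with hS
  have hSm : MeasurableSet S :=
    (measurableSet_singleton (0 : ℝ)).compl.inter (measurable_inv hs)
  have h1 := lintegral_image_eq_lintegral_abs_deriv_mul hSm
    (f := fun y => y⁻¹) (f' := fun y => -(y ^ 2)⁻¹)
    (fun y hy => (hasDerivAt_inv hy.1).hasDerivWithinAt)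
    (fun y _ y' _ h => inv_injective h) φ
  have h2 : (fun y : ℝ => y⁻¹) '' S = s \ {0} := by
    ext x
    simp only [Set.mem_image, hS, Set.mem_sdiff, Set.mem_singleton_iff]
    constructor
    · rintro ⟨y, ⟨hy0, hys⟩, rfl⟩
      exact ⟨hys, inv_ne_zero hy0⟩
    · rintro ⟨hx, hx0⟩
      exact ⟨x⁻¹, ⟨inv_ne_zero hx0, by rwa [inv_inv]⟩, inv_inv x⟩
  rw [h2] at h1
  have h3 : ∫⁻ x in s \ {0}, φ x = ∫⁻ x in s, φ x := by
    have : (s \ {0} : Set ℝ) =ᵐ[volume] s := by
      refine MeasureTheory.sdiff_null_ae_eq_self ?_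
      exact Real.volume_singleton
    exact setLIntegral_congr this
  rw [← h3, h1]
  refine lintegral_congr fun y => ?_
  congr 2
  rw [abs_neg, inv_pow, sq_abs, abs_of_nonneg (inv_nonneg.2 (sq_nonneg y))]

theorem contr_real {ε : ℝ} (hε : 0 < ε) {g0 g1 : ℝ → ℝ} (hm0 : Measurable g0)
    (hm1 : Measurable g1) (hN : NN g0 ≠ ∞) (c : ℝ)
    (hrel : ∀ y, y ≠ 0 → g1 y ^ 2 = (|y|⁻¹) ^ 2 * (KK ε g0 (c - y⁻¹)) ^ 2)
    {M : ℕ} (hM : 64 ≤ M * ε) :
    (3 + 128 * (M : ℝ≥0∞) ^ 2) * NN (KK ε g1) ≤ 128 * (M : ℝ≥0∞) ^ 2 * NN g0 := by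
  have hKm := measurable_KK ε hm0
  -- N(g1) = N(K g0)
  have e0 : NN g1 = NN (KK ε g0) := by
    have h1 := inv_cv Set.univ MeasurableSet.univ
      (fun x => ENNReal.ofReal ((KK ε g0 (c - x)) ^ 2))
    rw [setLIntegral_univ, lintegral_sub_left_eq_self
      (fun x => ENNReal.ofReal ((KK ε g0 x) ^ 2)) c] at h1
    rw [show NN (KK ε g0) = ∫⁻ x, ENNReal.ofReal ((KK ε g0 x) ^ 2) from rfl, ← h1]
    have h2 : {y : ℝ | y ≠ 0 ∧ y⁻¹ ∈ (Set.univ : Set ℝ)} =ᵐ[volume] Set.univ := by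
      have : {y : ℝ | y ≠ 0 ∧ y⁻¹ ∈ (Set.univ : Set ℝ)} = Set.univ \ {0} := by
        ext y; simp
      rw [this]
      exact MeasureTheory.sdiff_null_ae_eq_self Real.volume_singleton
    rw [NN, ← setLIntegral_univ, ← setLIntegral_congr h2]
    refine setLIntegral_congr_fun ?_ ?_
    · have : {y : ℝ | y ≠ 0 ∧ y⁻¹ ∈ (Set.univ : Set ℝ)} = {(0 : ℝ)}ᶜ := by
        ext y; simp
      rw [this]; exact (measurableSet_singleton _).compl
    · intro y hy
      simp only
      rw [hrel y hy.1, ENNReal.ofReal_mul (by positivity)]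
  have e1 : NN g1 ≤ (∫⁻ y in Set.Icc (0 - 1) (0 + 1), ENNReal.ofReal (g1 y ^ 2)) +
      ∫⁻ y in Set.Icc (c - 1) (c + 1), ENNReal.ofReal ((KK ε g0 y) ^ 2) := by
    rw [NN, ← lintegral_add_compl _ (measurableSet_Icc (a := (0 - 1 : ℝ)) (b := 0 + 1))]
    refine add_le_add le_rfl ?_
    have h1 := inv_cv (Set.Icc (-1) 1) measurableSet_Icc
      (fun x => ENNReal.ofReal ((KK ε g0 (c - x)) ^ 2))
    have h2 : ∫⁻ x in Set.Icc (-1) 1, ENNReal.ofReal ((KK ε g0 (c - x)) ^ 2) =
        ∫⁻ y in Set.Icc (c - 1) (c + 1), ENNReal.ofReal ((KK ε g0 y) ^ 2) := by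
      have := (Measure.measurePreserving_sub_left volume c).setLIntegral_comp_preimage_emb
        (measurableEmbedding_subLeft c) (fun y => ENNReal.ofReal ((KK ε g0 y) ^ 2))
        (Set.Icc (c - 1) (c + 1))
      rw [← this]
      congr 2
      ext s
      simp only [Set.mem_preimage, Set.mem_Icc]
      constructor
      · rintro ⟨a, b⟩; constructor <;> linarith
      · rintro ⟨a, b⟩; constructor <;> linarith
    rw [← h2, ← h1]
    have h3 : (Set.Icc (0 - 1 : ℝ) (0 + 1))ᶜ ⊆ {y : ℝ | y ≠ 0 ∧ y⁻¹ ∈ Set.Icc (-1 : ℝ) 1} := by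
      intro y hy
      rw [Set.mem_compl_iff, Set.mem_Icc, not_and_or, not_le, not_le] at hy
      have hy1 : 1 ≤ |y| := by
        rcases hy with hy | hy
        · rw [abs_of_neg (by linarith)]; linarith
        · rw [abs_of_pos (by linarith)]; linarith
      have hy0 : y ≠ 0 := by
        intro h0; rw [h0, abs_zero] at hy1; linarith
      refine ⟨hy0, ?_⟩
      rw [Set.mem_Icc, ← abs_le, abs_inv]
      exact inv_le_one_of_one_le₀ hy1
    refine (lintegral_mono_set h3).trans_eq ?_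
    refine setLIntegral_congr_fun ?_ ?_
    · exact (measurableSet_singleton (0 : ℝ)).compl.inter (measurable_inv measurableSet_Icc)
    · intro y hy
      simp only
      rw [hrel y hy.1, ENNReal.ofReal_mul (by positivity)]
  have v0 := var_ineq hε hm0 hN
  have hNK : NN (KK ε g0) ≠ ∞ := by
    intro h
    rw [h, ENNReal.top_mul (by norm_num), top_add] at v0
    exact ENNReal.mul_ne_top (by norm_num) hN v0.symm
  have hN1 : NN g1 ≠ ∞ := by rw [e0]; exact hNK
  have v1 := var_ineq hε hm1 hN1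
  have m1 := mass_le hε hm1 hM 0
  have m0 := mass_le hε hKm hM c
  have hV := VV_KK hε hm0 hN
  rw [e0] at v1 e1 m1 hN1
  -- finiteness
  have fN2 : NN (KK ε g1) ≠ ∞ := by
    intro h
    rw [h, ENNReal.top_mul (by norm_num), top_add] at v1
    exact ENNReal.mul_ne_top (by norm_num) hNK v1.symm
  have fV1 : VV ε g1 ≠ ∞ := by
    intro h
    rw [h, add_top] at v1
    exact ENNReal.mul_ne_top (by norm_num) hNK v1.symm
  have fV0 : VV ε g0 ≠ ∞ := by
    intro h
    rw [h, add_top] at v0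
    exact ENNReal.mul_ne_top (by norm_num) hN v0.symm
  have tot : NN (KK ε g0) ≤ (ENNReal.ofReal (1 / 8) * NN (KK ε g0) +
      16 * (M : ℝ≥0∞) ^ 2 * VV ε g1) + (ENNReal.ofReal (1 / 8) * NN (KK ε g0) +
      16 * (M : ℝ≥0∞) ^ 2 * VV ε g0) := by
    refine e1.trans (add_le_add m1 (m0.trans ?_))
    gcongr
  -- go to reals
  lift NN g0 to NNReal using hN with n0
  lift NN (KK ε g0) to NNReal using hNK with n1
  lift NN (KK ε g1) to NNReal using fN2 with n2
  lift VV ε g1 to NNReal using fV1 with w1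
  lift VV ε g0 to NNReal using fV0 with w0
  have tot' : (n1 : ℝ) ≤ (1 / 8 * n1 + 16 * (M : ℝ) ^ 2 * w1) + (1 / 8 * n1 + 16 * (M : ℝ) ^ 2 * w0) := by
    have e8 : ENNReal.ofReal (1 / 8) = (((1 / 8 : NNReal)) : ℝ≥0∞) := by
      rw [ENNReal.ofReal]
      congr 1
      ext
      simp
    rw [e8] at tot
    have : n1 ≤ ((1 / 8 : NNReal) * n1 + 16 * (M : NNReal) ^ 2 * w1) +
        ((1 / 8 : NNReal) * n1 + 16 * (M : NNReal) ^ 2 * w0) := by
      exact_mod_cast tot
    have h2 := NNReal.coe_le_coe.2 this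
    push_cast at h2
    exact h2
  have v0' : (n1 : ℝ) * 2 + w0 = 2 * n0 := by exact_mod_cast v0
  have v1' : (n2 : ℝ) * 2 + w1 = 2 * n1 := by exact_mod_cast v1
  have w1nn : (0 : ℝ) ≤ w1 := NNReal.coe_nonneg _
  have hfin : (3 + 128 * (M : ℝ) ^ 2) * n2 ≤ 128 * (M : ℝ) ^ 2 * n0 := by
    have h12 : (n2 : ℝ) ≤ n1 := by linarith
    have e : (w1 : ℝ) = 2 * n1 - 2 * n2 := by linarith
    have e' : (w0 : ℝ) = 2 * n0 - 2 * n1 := by linarith
    rw [e, e'] at tot'
    nlinarith
  exact_mod_cast hfin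

end Pool.Agent.K9h27.LP
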