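import Pool.Agent.K9h27.LP.OneStep

set_option autoImplicit false
set_option linter.unusedSimpArgs false
set_option linter.unusedSectionVars false
set_option linter.unusedVariables false

open Set Matrix Filter
open scoped ENNReal Topology

namespace Pool.Agent.K9h27.LP

/-- extension by zero to `ℤ` -/
noncomputable def exZ {L : ℕ} (ψ : Fin L → ℝ) (z : ℤ) : ℝ := if 0 ≤ z then ex ψ z.toNat else 0

theorem exZ_nat {L : ℕ} (ψ : Fin L → ℝ) (i : ℕ) : exZ ψ (i : ℤ) = ex ψ i := by
  unfold exZ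
  rw [if_pos (Int.natCast_nonneg i), Int.toNat_natCast]

theorem exZ_neg {L : ℕ} (ψ : Fin L → ℝ) {z : ℤ} (hz : z < 0) : exZ ψ z = 0 := by
  unfold exZ
  rw [if_neg (not_le.2 hz)]

theorem exZ_ge {L : ℕ} (ψ : Fin L → ℝ) {z : ℤ} (hz : (L : ℤ) ≤ z) : exZ ψ z = 0 := by
  unfold exZ
  rw [if_pos (by omega), ex_of_ge _ (by omega)]

/-- enumeration of a small set -/
theorem enum_sum {L M : ℕ} (J : Finset (Fin L)) (hJ : J.card ≤ M) :
    ∃ idx : Fin M → Option (Fin L), ∀ F : Fin L → ℝ,
      ∑ k : Fin M, (idx k).elim 0 F = ∑ j ∈ J, F j := by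
  refine ⟨fun k => if h : (k : ℕ) < J.card then some (J.equivFin.symm ⟨k, h⟩ : Fin L) else none, ?_⟩
  intro F
  set G : ℕ → ℝ := fun i => if h : i < J.card then F (J.equivFin.symm ⟨i, h⟩ : Fin L) else 0 with hG
  have h1 : ∀ k : Fin M, (if h : (k : ℕ) < J.card then some (J.equivFin.symm ⟨k, h⟩ : Fin L)
      else none).elim 0 F = G k := by
    intro k
    simp only [hG]
    by_cases h : (k : ℕ) < J.card
    · rw [dif_pos h, dif_pos h]; rfl
    · rw [dif_neg h, dif_neg h]; rfl
  simp only [h1]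
  rw [Fin.sum_univ_eq_sum_range G M]
  have h2 : ∑ i ∈ Finset.range M, G i = ∑ i ∈ Finset.range J.card, G i := by
    symm
    refine Finset.sum_subset (Finset.range_mono hJ) fun i _ hi => ?_
    simp only [hG]
    rw [dif_neg (by rwa [Finset.mem_range] at hi)]
  rw [h2, ← Fin.sum_univ_eq_sum_range G J.card, ← Finset.sum_coe_sort J F,
    ← Equiv.sum_comp J.equivFin.symm]
  refine Finset.sum_congr rfl fun k _ => ?_
  simp only [hG]
  rw [dif_pos k.2]

theorem sum_shift_le {L : ℕ} (g : ℤ → ℝ) (hg : ∀ z, 0 ≤ g z) (hneg : ∀ z < 0, g z = 0)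
    (hge : ∀ z, (L : ℤ) ≤ z → g z = 0) (m : ℤ) (s : Finset ℤ) :
    ∑ n ∈ s, g (m + n) ≤ ∑ i : Fin L, g (i : ℕ) := by
  classical
  have h1 : ∑ n ∈ s, g (m + n) = ∑ z ∈ s.image (fun n => m + n), g z := by
    rw [Finset.sum_image]
    intro a _ b _ h
    simpa using h
  have h2 : ∑ i : Fin L, g (i : ℕ) = ∑ z ∈ (Finset.univ : Finset (Fin L)).image
      (fun i : Fin L => ((i : ℕ) : ℤ)), g z := by
    rw [Finset.sum_image]
    intro a _ b _ h
    have h' : ((a : ℕ) : ℤ) = ((b : ℕ) : ℤ) := h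
    have : (a : ℕ) = b := by exact_mod_cast h'
    exact Fin.ext this
  rw [h1, h2, ← Finset.sum_filter_ne_zero]
  refine Finset.sum_le_sum_of_subset_of_nonneg ?_ fun z _ _ => hg z
  intro z hz
  have hz2 := (Finset.mem_filter.1 hz).2
  have hz3 : 0 ≤ z := by
    by_contra hcon
    exact hz2 (hneg z (not_le.1 hcon))
  have hz4 : z < L := by
    by_contra hcon
    exact hz2 (hge z (not_lt.1 hcon))
  rw [Finset.mem_image]
  exact ⟨⟨z.toNat, by omega⟩, Finset.mem_univ _, by simp [hz3]⟩

/-- finite version of the capture property -/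
theorem cap_fin {L : ℕ} {v : ℕ → ℝ} {C : ℝ} (hv : ∀ i < L, |v i| ≤ C) (hC : 0 ≤ C) {m M : ℕ} {θ : ℝ}
    (hm : m < L) (h : Cap L v m M θ) :
    ∃ (u : Fin M → ℤ → ℝ) (E : Fin M → ℝ), (∀ k n, |u k n| ≤ 1) ∧ (∀ k, |E k| ≤ C + 2) ∧
      (∀ k (n : ℤ), 0 ≤ (m : ℤ) + n → (m : ℤ) + n < L →
        u k (n + 1) + u k (n - 1) + v ((m : ℤ) + n).toNat * u k n = E k * u k n) ∧
      (∀ k (s : Finset ℤ), ∑ n ∈ s, u k n ^ 2 ≤ 1) ∧
      ∀ s : Finset ℤ, ∑ n ∈ s, ((if n = 0 then 1 else 0) - ∑ k, u k n) ^ 2 ≤ θ ^ 2 := by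
  obtain ⟨Ψ, l, hΨ, J, hJM, hJ⟩ := h
  obtain ⟨idx, hidx⟩ := enum_sum J hJM
  have hrow : ∀ j, ∑ i : Fin L, exZ (Ψ j) (i : ℕ) ^ 2 = 1 := fun j => by
    rw [← hΨ.row_norm j]
    exact Finset.sum_congr rfl fun i _ => by rw [exZ_nat, ex_coe]
  have hsq : ∀ j (s : Finset ℤ), ∑ n ∈ s, exZ (Ψ j) (m + n) ^ 2 ≤ 1 := by
    intro j s
    rw [← hrow j]
    refine sum_shift_le (fun z => exZ (Ψ j) z ^ 2) (fun _ => sq_nonneg _) (fun z hz => ?_)
      (fun z hz => ?_) m s
    · simp only [exZ_neg _ hz]; norm_num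
    · simp only [exZ_ge _ hz]; norm_num
  have hone : ∀ j n, |exZ (Ψ j) n| ≤ 1 := by
    intro j n
    rw [abs_le_one_iff_mul_self_le_one, ← sq]
    have := hsq j {n - m}
    rw [Finset.sum_singleton] at this
    simpa using this
  have hone' : ∀ j, |ex (Ψ j) m| ≤ 1 := fun j => by rw [← exZ_nat]; exact hone j m
  set w : Fin L → ℤ → ℝ := fun j n => ex (Ψ j) m * exZ (Ψ j) (m + n) with hw
  refine ⟨fun k n => (idx k).elim 0 (fun j => w j n), fun k => (idx k).elim 0 l, ?_, ?_, ?_, ?_, ?_⟩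
  · intro k n
    cases h : idx k with
    | none => simp [h]
    | some j =>
      simp only [h, Option.elim_some, hw]
      rw [abs_mul]
      exact mul_le_one₀ (hone' j) (abs_nonneg _) (hone j _)
  · intro k
    cases h : idx k with
    | none => simp [h]; linarith
    | some j =>
      simp only [h, Option.elim_some]
      exact hΨ.eig_bound hv j
  · intro k n h0 hL
    cases h : idx k with
    | none => simp [h]
    | some j =>
      simp only [h, Option.elim_some, hw]
      obtain ⟨i, hi⟩ := Int.eq_ofNat_of_zero_le h0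
      have hi' : i < L := by omega
      have he := hΨ.jac_eq j i hi'
      have e1 : exZ (Ψ j) (m + n) = ex (Ψ j) i := by rw [hi, exZ_nat]
      have e2 : exZ (Ψ j) (m + (n + 1)) = ex (Ψ j) (i + 1) := by
        have : (m : ℤ) + (n + 1) = ((i + 1 : ℕ) : ℤ) := by push_cast; omega
        rw [this, exZ_nat]
      have e3 : exZ (Ψ j) (m + (n - 1)) = if i = 0 then 0 else ex (Ψ j) (i - 1) := by
        by_cases hi0 : i = 0
        · rw [if_pos hi0, exZ_neg _ (by omega)]
        · rw [if_neg hi0]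
          have : (m : ℤ) + (n - 1) = ((i - 1 : ℕ) : ℤ) := by omega
          rw [this, exZ_nat]
      have e4 : ((m : ℤ) + n).toNat = i := by rw [hi]; simp
      rw [e1, e2, e3, e4]
      have : ex (Ψ j) m * (l j * ex (Ψ j) i) = ex (Ψ j) m * (v i * ex (Ψ j) i + ex (Ψ j) (i + 1) +
        (if i = 0 then 0 else ex (Ψ j) (i - 1))) := by rw [he]
      linarith
  · intro k s
    cases h : idx k with
    | none => simp [h]
    | some j =>
      simp only [h, Option.elim_some, hw, mul_pow]
      rw [← Finset.mul_sum]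
      have h1 : ex (Ψ j) m ^ 2 ≤ 1 := by rw [← sq_abs]; exact pow_le_one₀ (abs_nonneg _) (hone' j)
      exact mul_le_one₀ h1 (Finset.sum_nonneg fun _ _ => sq_nonneg _) (hsq j s)
  · intro s
    have h1 : ∀ n : ℤ, ∑ k, (idx k).elim 0 (fun j => w j n) = ∑ j ∈ J, w j n := fun n =>
      hidx fun j => w j n
    simp only [h1]
    set q : ℤ → ℝ := fun z => (if z = m then 1 else 0) - ∑ j ∈ J, ex (Ψ j) m * exZ (Ψ j) z with hq
    have h2 : ∀ n : ℤ, (if n = 0 then (1 : ℝ) else 0) - ∑ j ∈ J, w j n = q (m + n) := by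
      intro n
      simp only [hq, hw]
      congr 1
      by_cases hn : n = 0
      · rw [if_pos hn, if_pos (by omega)]
      · rw [if_neg hn, if_neg (by omega)]
    simp only [h2]
    refine (sum_shift_le (L := L) (fun z => q z ^ 2) (fun _ => sq_nonneg _) (fun z hz => ?_)
      (fun z hz => ?_) m s).trans ?_
    · simp only [hq]
      rw [if_neg (by omega), Finset.sum_eq_zero (fun j _ => by rw [exZ_neg _ hz, mul_zero])]
      norm_num
    · simp only [hq]
      rw [if_neg (by omega), Finset.sum_eq_zero (fun j _ => by rw [exZ_ge _ hz, mul_zero])]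
      norm_num
    · have h3 := hΨ.normsq (fun i : Fin L => q (i : ℕ))
      rw [← h3]
      have h4 : ∀ j, (Ψ *ᵥ (fun i : Fin L => q (i : ℕ))) j = if j ∈ J then 0 else ex (Ψ j) m := by
        intro j
        have e1 : (Ψ *ᵥ (fun i : Fin L => q (i : ℕ))) j =
            ∑ i : Fin L, Ψ j i * (if (i : ℕ) = m then 1 else 0) -
              ∑ j' ∈ J, ex (Ψ j') m * ∑ i : Fin L, Ψ j i * Ψ j' i := by
          simp only [Matrix.mulVec, dotProduct, hq]
          rw [Finset.sum_congr rfl fun j' _ => Finset.mul_sum _ _ _, Finset.sum_comm,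
            ← Finset.sum_sub_distrib]
          refine Finset.sum_congr rfl fun i _ => ?_
          rw [mul_sub, Finset.mul_sum]
          congr 1
          · congr 1
            by_cases him : (i : ℕ) = m
            · rw [if_pos (by exact_mod_cast him), if_pos him]
            · rw [if_neg (by exact_mod_cast him), if_neg him]
          · refine Finset.sum_congr rfl fun j' _ => ?_
            rw [exZ_nat, ex_coe]
            ring
        have e2 : ∑ i : Fin L, Ψ j i * (if (i : ℕ) = m then 1 else 0) = ex (Ψ j) m := by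
          rw [Finset.sum_eq_single ⟨m, hm⟩]
          · simp only [if_true, mul_one, ex_of_lt _ hm]
          · intro b _ hb
            rw [if_neg (fun h => hb (Fin.ext h)), mul_zero]
          · intro h
            exact absurd (Finset.mem_univ _) h
        have e3 : ∑ j' ∈ J, ex (Ψ j') m * ∑ i : Fin L, Ψ j i * Ψ j' i =
            if j ∈ J then ex (Ψ j) m else 0 := by
          have : ∀ j' ∈ J, ex (Ψ j') m * ∑ i : Fin L, Ψ j i * Ψ j' i =
              if j = j' then ex (Ψ j') m else 0 := by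
            intro j' _
            rw [hΨ.row_orth j j']
            split_ifs <;> ring
          rw [Finset.sum_congr rfl this, Finset.sum_ite_eq J j]
        rw [e1, e2, e3]
        split_ifs <;> ring
      simp only [h4]
      have h5 : ∑ j : Fin L, ex (Ψ j) m ^ 2 = 1 := by
        have := hΨ.col_orth ⟨m, hm⟩ ⟨m, hm⟩
        rw [if_pos rfl] at this
        rw [← this]
        exact Finset.sum_congr rfl fun j _ => by rw [ex_of_lt _ hm, sq]
      have h6 : ∑ j : Fin L, (if j ∈ J then 0 else ex (Ψ j) m) ^ 2 +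
          ∑ j ∈ J, ex (Ψ j) m ^ 2 = 1 := by
        rw [← h5, ← Finset.sum_filter_add_sum_filter_not Finset.univ (fun j => j ∈ J)
          (fun j => ex (Ψ j) m ^ 2), add_comm]
        congr 1
        · rw [Finset.filter_univ_mem]
        · rw [Finset.sum_filter]
          refine Finset.sum_congr rfl fun j _ => ?_
          by_cases hj : j ∈ J
          · rw [if_pos hj, if_neg (by simpa using hj)]; norm_num
          · rw [if_neg hj, if_pos hj]
      linarith

end Pool.Agent.K9h27.LP
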