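import Pool.Agent.K9h27.LP.Crit

set_option autoImplicit false
set_option linter.unusedSimpArgs false
set_option linter.unusedSectionVars false
set_option linter.unusedVariables false

open Set Matrix Filter
open scoped ENNReal Topology

namespace Pool.Agent.K9h27.LP

/-- the span of the eigenvectors -/
noncomputable def EV (V : ℤ → ℝ) : Submodule ℂ (lp (fun _ : ℤ => ℂ) 2) :=
  Submodule.span ℂ {ψ : lp (fun _ : ℤ => ℂ) 2 |
    ∃ E : ℝ, ∀ n : ℤ, ψ (n + 1) + ψ (n - 1) + (V n : ℂ) * ψ n = (E : ℂ) * ψ n}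

theorem crit {V : ℤ → ℝ} (c : ℤ) {C : ℝ} (hC : 0 ≤ C) {L : ℕ → ℕ} {v : ℕ → ℕ → ℝ}
    (hv : ∀ j i, |v j i| ≤ C) {m : ℕ → ℕ} (hm1 : ∀ R : ℕ, ∀ᶠ j in atTop, R ≤ m j)
    (hm2 : ∀ R : ℕ, ∀ᶠ j in atTop, m j + R < L j)
    (hlim : ∀ n : ℤ, Tendsto (fun j => v j ((m j : ℤ) + n).toNat) atTop (𝓝 (V (c + n))))
    {M : ℕ} {θ : ℝ} (hθ : 0 ≤ θ) (hcap : ∀ᶠ j in atTop, Cap (L j) (v j) (m j) M θ) :
    ∃ u ∈ EV V, ‖lp.single 2 c (1 : ℂ) - u‖ ≤ θ := by
  classical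
  have hex : ∀ j, ∃ p : (Fin M → ℤ → ℝ) × (Fin M → ℝ), (m j < L j ∧ Cap (L j) (v j) (m j) M θ) →
      (∀ k n, |p.1 k n| ≤ 1) ∧ (∀ k, |p.2 k| ≤ C + 2) ∧
      (∀ k (n : ℤ), 0 ≤ (m j : ℤ) + n → (m j : ℤ) + n < L j →
        p.1 k (n + 1) + p.1 k (n - 1) + v j ((m j : ℤ) + n).toNat * p.1 k n = p.2 k * p.1 k n) ∧
      (∀ k (s : Finset ℤ), ∑ n ∈ s, p.1 k n ^ 2 ≤ 1) ∧
      ∀ s : Finset ℤ, ∑ n ∈ s, ((if n = 0 then 1 else 0) - ∑ k, p.1 k n) ^ 2 ≤ θ ^ 2 := by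
    intro j
    by_cases h : m j < L j ∧ Cap (L j) (v j) (m j) M θ
    · obtain ⟨u, E, h1⟩ := cap_fin (fun i _ => hv j i) hC h.1 h.2
      exact ⟨(u, E), fun _ => h1⟩
    · exact ⟨(fun _ _ => 0, fun _ => 0), fun h' => absurd h' h⟩
  choose p hp using hex
  have hgood : ∀ᶠ j in atTop, m j < L j ∧ Cap (L j) (v j) (m j) M θ := by
    filter_upwards [hm2 0, hcap] with j h1 h2
    exact ⟨by omega, h2⟩
  set 𝒰 : Ultrafilter ℕ := hyperfilter ℕ with h𝒰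
  have hle : (𝒰 : Filter ℕ) ≤ atTop := Nat.hyperfilter_le_atTop
  have hgoodU : ∀ᶠ j in (𝒰 : Filter ℕ), m j < L j ∧ Cap (L j) (v j) (m j) M θ := hle hgood
  have hU : ∀ k n, ∃ x : ℝ, Tendsto (fun j => (p j).1 k n) 𝒰 (𝓝 x) := by
    intro k n
    have h1 : (↑(𝒰.map (fun j => (p j).1 k n)) : Filter ℝ) ≤ 𝓟 (Set.Icc (-1) 1) := by
      rw [le_principal_iff]
      change ∀ᶠ j in (𝒰 : Filter ℕ), (p j).1 k n ∈ Set.Icc (-1 : ℝ) 1
      filter_upwards [hgoodU] with j hj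
      exact abs_le.1 ((hp j hj).1 k n)
    obtain ⟨x, _, hx⟩ := isCompact_Icc.ultrafilter_le_nhds _ h1
    exact ⟨x, hx⟩
  have hE : ∀ k, ∃ x : ℝ, Tendsto (fun j => (p j).2 k) 𝒰 (𝓝 x) := by
    intro k
    have h1 : (↑(𝒰.map (fun j => (p j).2 k)) : Filter ℝ) ≤ 𝓟 (Set.Icc (-(C + 2)) (C + 2)) := by
      rw [le_principal_iff]
      change ∀ᶠ j in (𝒰 : Filter ℕ), (p j).2 k ∈ Set.Icc (-(C + 2)) (C + 2)
      filter_upwards [hgoodU] with j hj
      exact abs_le.1 ((hp j hj).2.1 k)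
    obtain ⟨x, _, hx⟩ := isCompact_Icc.ultrafilter_le_nhds _ h1
    exact ⟨x, hx⟩
  choose U hU using hU
  choose E hE using hE
  have heq : ∀ k n, U k (n + 1) + U k (n - 1) + V (c + n) * U k n = E k * U k n := by
    intro k n
    have h1 : Tendsto (fun j => (p j).1 k (n + 1) + (p j).1 k (n - 1) +
        v j ((m j : ℤ) + n).toNat * (p j).1 k n) 𝒰
        (𝓝 (U k (n + 1) + U k (n - 1) + V (c + n) * U k n)) :=
      ((hU k (n + 1)).add (hU k (n - 1))).add (((hlim n).mono_left hle).mul (hU k n))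
    have h2 : Tendsto (fun j => (p j).2 k * (p j).1 k n) 𝒰 (𝓝 (E k * U k n)) :=
      (hE k).mul (hU k n)
    refine tendsto_nhds_unique (h1.congr' ?_) h2
    have h3 : ∀ᶠ j in (𝒰 : Filter ℕ), n.natAbs ≤ m j := hle (hm1 _)
    have h4 : ∀ᶠ j in (𝒰 : Filter ℕ), m j + n.natAbs < L j := hle (hm2 _)
    filter_upwards [hgoodU, h3, h4] with j hj h5 h6
    exact (hp j hj).2.2.1 k n (by omega) (by omega)
  have hsum : ∀ k (s : Finset ℤ), ∑ n ∈ s, U k n ^ 2 ≤ 1 := by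
    intro k s
    have h1 : Tendsto (fun j => ∑ n ∈ s, (p j).1 k n ^ 2) 𝒰 (𝓝 (∑ n ∈ s, U k n ^ 2)) :=
      tendsto_finsetSum _ fun n _ => (hU k n).pow 2
    refine le_of_tendsto h1 ?_
    filter_upwards [hgoodU] with j hj
    exact (hp j hj).2.2.2.1 k s
  have hdist : ∀ s : Finset ℤ, ∑ n ∈ s, ((if n = 0 then 1 else 0) - ∑ k, U k n) ^ 2 ≤ θ ^ 2 := by
    intro s
    have h1 : Tendsto (fun j => ∑ n ∈ s, ((if n = 0 then (1 : ℝ) else 0) - ∑ k, (p j).1 k n) ^ 2) 𝒰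
        (𝓝 (∑ n ∈ s, ((if n = 0 then 1 else 0) - ∑ k, U k n) ^ 2)) :=
      tendsto_finsetSum _ fun n _ =>
        (tendsto_const_nhds.sub (tendsto_finsetSum _ fun k _ => hU k n)).pow 2
    refine le_of_tendsto h1 ?_
    filter_upwards [hgoodU] with j hj
    exact (hp j hj).2.2.2.2 s
  have htwo : (2 : ℝ≥0∞).toReal = 2 := by norm_num
  have hmem : ∀ k, Memℓp (fun z : ℤ => ((U k (z - c) : ℝ) : ℂ)) 2 := by
    intro k
    refine memℓp_gen' (C := 1) fun s => ?_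
    rw [htwo]
    have h1 : ∑ i ∈ s, ‖((U k (i - c) : ℝ) : ℂ)‖ ^ (2 : ℝ) =
        ∑ n ∈ s.image (fun i => i - c), U k n ^ 2 := by
      rw [Finset.sum_image (by intro a _ b _ h; simpa using h)]
      refine Finset.sum_congr rfl fun i _ => ?_
      rw [Complex.norm_real, Real.rpow_two, Real.norm_eq_abs, sq_abs]
    rw [h1]
    exact hsum k _
  refine ⟨∑ k, (⟨fun z : ℤ => ((U k (z - c) : ℝ) : ℂ), hmem k⟩ : lp (fun _ : ℤ => ℂ) 2), ?_, ?_⟩
  · refine Submodule.sum_mem _ fun k _ => Submodule.subset_span ⟨E k, fun n => ?_⟩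
    have h1 := heq k (n - c)
    have e1 : n - c + 1 = n + 1 - c := by ring
    have e2 : n - c - 1 = n - 1 - c := by ring
    have e3 : c + (n - c) = n := by ring
    rw [e1, e2, e3] at h1
    have h2 := congrArg (fun x : ℝ => (x : ℂ)) h1
    push_cast at h2
    exact h2
  · refine lp.norm_le_of_forall_sum_le (by rw [htwo]; norm_num) hθ fun s => ?_
    rw [htwo]
    have h1 : ∑ i ∈ s, ‖(lp.single 2 c (1 : ℂ) - ∑ k, (⟨fun z : ℤ => ((U k (z - c) : ℝ) : ℂ),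
        hmem k⟩ : lp (fun _ : ℤ => ℂ) 2) : lp (fun _ : ℤ => ℂ) 2) i‖ ^ (2 : ℝ) =
        ∑ n ∈ s.image (fun i => i - c), ((if n = 0 then 1 else 0) - ∑ k, U k n) ^ 2 := by
      rw [Finset.sum_image (by intro a _ b _ h; simpa using h)]
      refine Finset.sum_congr rfl fun i _ => ?_
      rw [lp.coeFn_sub, Pi.sub_apply, lp.coeFn_sum, Finset.sum_apply, lp.coeFn_single]
      have h2 : (Pi.single c (1 : ℂ) : ℤ → ℂ) i - ∑ k, ((U k (i - c) : ℝ) : ℂ) =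
          (((if i - c = 0 then 1 else 0) - ∑ k, U k (i - c) : ℝ) : ℂ) := by
        push_cast
        congr 1
        by_cases hi : i = c
        · subst hi; simp
        · rw [Pi.single_eq_of_ne hi, if_neg (by omega)]
          norm_num
      have h3 : ‖(Pi.single c (1 : ℂ) : ℤ → ℂ) i - ∑ k, ((U k (i - c) : ℝ) : ℂ)‖ ^ (2 : ℝ) =
          ((if i - c = 0 then 1 else 0) - ∑ k, U k (i - c)) ^ 2 := by
        rw [h2, Complex.norm_real, Real.rpow_two, Real.norm_eq_abs, sq_abs]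
      exact h3
    rw [h1, Real.rpow_two]
    exact hdist _

theorem closure_top {V : ℤ → ℝ}
    (h : ∀ c : ℤ, ∀ ε : ℝ, 0 < ε → ∃ u ∈ EV V, ‖lp.single 2 c (1 : ℂ) - u‖ ≤ ε) :
    (EV V).topologicalClosure = ⊤ := by
  rw [eq_top_iff]
  intro x _
  have h1 : ∀ c : ℤ, lp.single 2 c (1 : ℂ) ∈ (EV V).topologicalClosure := by
    intro c
    rw [← SetLike.mem_coe, Submodule.topologicalClosure_coe, Metric.mem_closure_iff]
    intro ε hε
    obtain ⟨u, hu, hu2⟩ := h c (ε / 2) (by positivity)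
    refine ⟨u, hu, ?_⟩
    rw [dist_eq_norm]
    linarith
  have h2 : ∀ c : ℤ, lp.single 2 c (x c : ℂ) ∈ (EV V).topologicalClosure := by
    intro c
    have := Submodule.smul_mem _ (x c) (h1 c)
    rw [← lp.single_smul] at this
    simpa using this
  have h3 := lp.hasSum_single (E := fun _ : ℤ => ℂ) (p := 2) (by norm_num) x
  exact (EV V).isClosed_topologicalClosure.mem_of_tendsto h3
    (Eventually.of_forall fun s => Submodule.sum_mem _ fun i _ => h2 i)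

end Pool.Agent.K9h27.LP
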