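import Pool.Agent.K9h27.LP.Seq

set_option autoImplicit false
set_option linter.unusedSimpArgs false
set_option linter.unusedSectionVars false
set_option linter.unusedVariables false

open Set Filter MeasureTheory
open scoped ENNReal Topology

namespace Pool.Agent.K9h27.LP

/-- residue data of an open subgroup -/
structure RD {Ω : Type*} [AddCommGroup Ω] (α : Ω) (H : AddSubgroup Ω) (N : ℕ) (r : Ω → ℕ) : Prop where
  pos : 0 < N
  lt : ∀ ω, r ω < N
  mem : ∀ ω, ω - r ω • α ∈ H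
  iff : ∀ i : ℤ, i • α ∈ H ↔ (N : ℤ) ∣ i

section
variable {Ω : Type*} [AddCommGroup Ω] {α : Ω} {H : AddSubgroup Ω} {N : ℕ} {r : Ω → ℕ}

theorem RD.unique (h : RD α H N r) {ω : Ω} {i : ℤ} (hi : ω - i • α ∈ H) :
    (N : ℤ) ∣ i - r ω := by
  rw [← h.iff]
  have h1 := H.sub_mem (h.mem ω) hi
  have e : ω - r ω • α - (ω - i • α) = (i - (r ω : ℤ)) • α := by
    rw [sub_smul, natCast_zsmul]; abel
  rwa [e] at h1

theorem RD.eq_iff (h : RD α H N r) {ω : Ω} {i : ℕ} (hi : i < N) :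
    r ω = i ↔ ω - i • α ∈ H := by
  constructor
  · rintro rfl
    exact h.mem ω
  · intro h1
    have h2 : ω - (i : ℤ) • α ∈ H := by rwa [natCast_zsmul]
    have h3 := h.unique h2
    have h4 := h.lt ω
    obtain ⟨c, hc⟩ := h3
    have hc0 : c = 0 := by
      by_contra hne
      rcases lt_or_gt_of_ne hne with h5 | h5
      · have : (N : ℤ) * c ≤ (N : ℤ) * (-1) := mul_le_mul_of_nonneg_left (by omega) (by omega)
        omega
      · have : (N : ℤ) * 1 ≤ (N : ℤ) * c := mul_le_mul_of_nonneg_left (by omega) (by omega)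
        omega
    rw [hc0, mul_zero] at hc
    omega

theorem RD.shift (h : RD α H N r) (ω : Ω) (n : ℤ) :
    (N : ℤ) ∣ (r ω + n) - r (ω + n • α) := by
  apply h.unique
  have e : ω + n • α - ((r ω : ℤ) + n) • α = ω - r ω • α := by
    rw [add_smul, natCast_zsmul]; abel
  rw [e]
  exact h.mem ω

theorem RD.dvd (h : RD α H N r) {H' : AddSubgroup Ω} {N' : ℕ} {r' : Ω → ℕ} (h' : RD α H' N' r')
    (hle : H' ≤ H) : N ∣ N' := by
  have h1 : ((N' : ℤ)) • α ∈ H' := (h'.iff _).2 dvd_rfl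
  have h2 := (h.iff _).1 (hle h1)
  exact_mod_cast h2

theorem RD.mod (h : RD α H N r) {H' : AddSubgroup Ω} {N' : ℕ} {r' : Ω → ℕ} (h' : RD α H' N' r')
    (hle : H' ≤ H) (ω : Ω) : r' ω % N = r ω := by
  symm
  rw [h.eq_iff (Nat.mod_lt _ h.pos)]
  have h1 : ω - r' ω • α ∈ H := hle (h'.mem ω)
  have h2 : ((N * (r' ω / N) : ℕ) : ℤ) • α ∈ H := by
    rw [h.iff]
    exact ⟨_, by push_cast; rfl⟩
  have h3 := H.add_mem h1 h2
  have e : ω - r' ω • α + ((N * (r' ω / N) : ℕ) : ℤ) • α = ω - (r' ω % N) • α := by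
    rw [natCast_zsmul]
    conv_lhs => rw [← Nat.div_add_mod (r' ω) N, Nat.div_add_mod]
    have : r' ω • α = (N * (r' ω / N)) • α + (r' ω % N) • α := by
      rw [← add_smul, Nat.div_add_mod]
    rw [this]
    abel
  rwa [e] at h3

theorem RD.congr (h : RD α H N r) {ω ω' : Ω} (hω : ω' - ω ∈ H) : r ω' = r ω := by
  rw [h.eq_iff (h.lt ω)]
  have := H.add_mem hω (h.mem ω)
  have e : ω' - ω + (ω - r ω • α) = ω' - r ω • α := by abel
  rwa [e] at this

end

section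
variable {Ω : Type*} [AddCommGroup Ω] [TopologicalSpace Ω] [IsTopologicalAddGroup Ω]

theorem exists_RD [CompactSpace Ω] {α : Ω} (hα : Dense (Set.range (fun n : ℤ => n • α)))
    {H : AddSubgroup Ω} (hH : IsOpen (H : Set Ω)) : ∃ (N : ℕ) (r : Ω → ℕ), RD α H N r := by
  have hfin : Finite (Ω ⧸ H) := AddSubgroup.quotient_finite_of_isOpen H hH
  set N := addOrderOf (QuotientAddGroup.mk α : Ω ⧸ H) with hN
  have hpos : 0 < N := addOrderOf_pos _
  have hiff : ∀ i : ℤ, i • α ∈ H ↔ (N : ℤ) ∣ i := by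
    intro i
    rw [hN, addOrderOf_dvd_iff_zsmul_eq_zero, ← QuotientAddGroup.mk_zsmul,
      QuotientAddGroup.eq_zero_iff]
  have hex : ∀ ω : Ω, ∃ r : ℕ, r < N ∧ ω - r • α ∈ H := by
    intro ω
    have hop : IsOpen {x : Ω | ω - x ∈ H} := hH.preimage (by fun_prop : Continuous fun x => ω - x)
    obtain ⟨x, ⟨n, rfl⟩, hx⟩ := hα.exists_mem_open hop ⟨ω, by simp [H.zero_mem]⟩
    refine ⟨(n % N).toNat, ?_, ?_⟩
    · have := Int.emod_lt_of_pos n (by exact_mod_cast hpos : (0 : ℤ) < N)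
      have := Int.emod_nonneg n (by exact_mod_cast hpos.ne' : (N : ℤ) ≠ 0)
      omega
    · have h0 := Int.emod_nonneg n (by exact_mod_cast hpos.ne' : (N : ℤ) ≠ 0)
      have h1 : (n - n % N) • α ∈ H := (hiff _).2 (Int.dvd_self_sub_emod)
      have h2 := H.add_mem hx h1
      have e : ω - n • α + (n - n % N) • α = ω - (n % N).toNat • α := by
        have : ((n % N).toNat) • α = (n % (N : ℤ)) • α := by
          rw [← natCast_zsmul, Int.toNat_of_nonneg h0]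
        rw [this, sub_smul]
        abel
      rwa [e] at h2
  choose r hr1 hr2 using hex
  exact ⟨N, r, hpos, hr1, hr2, hiff⟩

theorem RD.continuous {α : Ω} {H : AddSubgroup Ω} {N : ℕ} {r : Ω → ℕ} (h : RD α H N r)
    (hH : IsOpen (H : Set Ω)) (V : ℕ → ℝ) : Continuous fun ω => V (r ω) := by
  rw [continuous_iff_continuousAt]
  intro ω
  have h1 : ∀ᶠ ω' in 𝓝 ω, ω' - ω ∈ H := by
    have h2 : IsOpen {ω' : Ω | ω' - ω ∈ H} :=
      hH.preimage (by fun_prop : Continuous fun x => x - ω)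
    exact h2.mem_nhds (by simp [H.zero_mem])
  have h2 : (fun ω' => V (r ω')) =ᶠ[𝓝 ω] fun _ => V (r ω) := by
    filter_upwards [h1] with ω' h3
    rw [h.congr h3]
  exact continuousAt_const.congr h2.symm

theorem RD.meas [MeasurableSpace Ω] [BorelSpace Ω] {μ : Measure Ω} [μ.IsAddHaarMeasure]
    {α : Ω} {H : AddSubgroup Ω} {N : ℕ} {r : Ω → ℕ} (h : RD α H N r)
    (hH : IsOpen (H : Set Ω)) (S : Finset ℕ) (hS : S ⊆ Finset.range N) :
    μ {ω | r ω ∈ S} = S.card * μ (H : Set Ω) := by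
  have e1 : {ω | r ω ∈ S} = ⋃ i ∈ S, {ω : Ω | ω - i • α ∈ H} := by
    ext ω
    simp only [Set.mem_ofPred_eq, Set.mem_iUnion, exists_prop]
    constructor
    · intro h1
      exact ⟨r ω, h1, h.mem ω⟩
    · rintro ⟨i, hi, h1⟩
      rw [(h.eq_iff (Finset.mem_range.1 (hS hi))).2 h1]
      exact hi
  have hm : ∀ i : ℕ, MeasurableSet {ω : Ω | ω - i • α ∈ H} := fun i =>
    (hH.preimage (by fun_prop : Continuous fun x => x - i • α)).measurableSet
  rw [e1, measure_biUnion_finset ?_ fun i _ => hm i]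
  · have : ∀ i ∈ S, μ {ω : Ω | ω - i • α ∈ H} = μ (H : Set Ω) := by
      intro i _
      have := measure_preimage_add_right μ (-(i • α)) (H : Set Ω)
      rw [← this]
      congr 1
      ext ω
      simp [sub_eq_add_neg]
    rw [Finset.sum_congr rfl this, Finset.sum_const, nsmul_eq_mul]
  · intro i hi j hj hij
    rw [Function.onFun, Set.disjoint_left]
    intro ω h1 h2
    have h3 := (h.eq_iff (Finset.mem_range.1 (hS hi))).2 h1
    have h4 := (h.eq_iff (Finset.mem_range.1 (hS hj))).2 h2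
    exact hij (h3.symm.trans h4)

theorem RD.meas_le [MeasurableSpace Ω] [BorelSpace Ω] {μ : Measure Ω} [μ.IsAddHaarMeasure]
    {α : Ω} {H : AddSubgroup Ω} {N : ℕ} {r : Ω → ℕ} (h : RD α H N r)
    (hH : IsOpen (H : Set Ω)) (S : Finset ℕ) (hS : S ⊆ Finset.range N) {q : ℝ} (hq : 0 ≤ q)
    (hcard : (S.card : ℝ) ≤ q * N) :
    μ {ω | r ω ∈ S} ≤ ENNReal.ofReal q * μ Set.univ := by
  have h1 := h.meas (μ := μ) hH (Finset.range N) le_rfl
  have e1 : {ω | r ω ∈ Finset.range N} = Set.univ := by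
    ext ω
    simp [h.lt ω]
  rw [e1, Finset.card_range] at h1
  rw [h.meas (μ := μ) hH S hS, h1, ← mul_assoc]
  gcongr
  have h2 := ENNReal.ofReal_le_ofReal hcard
  rwa [ENNReal.ofReal_natCast, ENNReal.ofReal_mul hq, ENNReal.ofReal_natCast] at h2

theorem big_index [T2Space Ω] [Infinite Ω] (α : Ω) (k : ℕ) :
    ∃ W : Set Ω, IsOpen W ∧ (0 : Ω) ∈ W ∧ ∀ (H : AddSubgroup Ω) (N : ℕ) (r : Ω → ℕ),
      (H : Set Ω) ⊆ W → RD α H N r → k ≤ N := by
  classical
  obtain ⟨s, hs⟩ := Infinite.exists_subset_card_eq Ω k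
  set T : Finset Ω := ((s ×ˢ s).image fun p => p.1 - p.2).erase 0 with hT
  refine ⟨(T : Set Ω)ᶜ, T.finite_toSet.isClosed.isOpen_compl, by simp [hT], ?_⟩
  intro H N r hW hRD
  rw [← hs, ← Finset.card_range N]
  refine Finset.card_le_card_of_injOn r (fun x _ => by simp [hRD.lt x]) ?_
  intro x hx y hy hxy
  by_contra hne
  have h1 : x - y ∈ H := by
    have := H.sub_mem (hRD.mem x) (hRD.mem y)
    rw [hxy] at this
    have e : x - r y • α - (y - r y • α) = x - y := by abel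
    rwa [e] at this
  have h2 := hW h1
  apply h2
  rw [Finset.mem_coe, hT, Finset.mem_erase]
  exact ⟨sub_ne_zero.2 hne, Finset.mem_image.2 ⟨(x, y), Finset.mem_product.2 ⟨hx, hy⟩, rfl⟩⟩

theorem exists_chain [CompactSpace Ω] [T2Space Ω] [TotallyDisconnectedSpace Ω]
    [TopologicalSpace.MetrizableSpace Ω] [Infinite Ω] {α : Ω}
    (hα : Dense (Set.range (fun n : ℤ => n • α))) :
    ∃ (H : ℕ → AddSubgroup Ω) (N : ℕ → ℕ) (r : ℕ → Ω → ℕ), (∀ k, IsOpen (H k : Set Ω)) ∧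
      Antitone H ∧ (∀ k, RD α (H k) (N k) (r k)) ∧ (∀ k, k ≤ N k) ∧
      ∀ U ∈ 𝓝 (0 : Ω), ∃ k, (H k : Set Ω) ⊆ U := by
  obtain ⟨U, hU⟩ := (𝓝 (0 : Ω)).exists_antitone_basis
  have hstep : ∀ (k : ℕ) (G : Set Ω), IsOpen G → (0 : Ω) ∈ G → ∃ H : AddSubgroup Ω,
      IsOpen (H : Set Ω) ∧ (H : Set Ω) ⊆ G ∧ (H : Set Ω) ⊆ U k ∧
        ∀ (N : ℕ) (r : Ω → ℕ), RD α H N r → k ≤ N := by
    intro k G hG h0
    obtain ⟨W, hW1, hW2, hW3⟩ := big_index α k
    have hUk : U k ∈ 𝓝 (0 : Ω) := hU.mem k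
    obtain ⟨U', hU'1, hU'2, hU'3⟩ := mem_nhds_iff.1 hUk
    obtain ⟨H, hH⟩ := ProfiniteGrp.exist_openNormalAddSubgroup_sub_open_nhds_of_zero
      ((hG.inter hW1).inter hU'2) ⟨⟨h0, hW2⟩, hU'3⟩
    refine ⟨H.toAddSubgroup, H.isOpen', fun x hx => (hH hx).1.1, fun x hx => hU'1 (hH hx).2,
      fun N r hr => hW3 _ N r (fun x hx => (hH hx).1.2) hr⟩
  refine Exists.elim (dep_choice (X := AddSubgroup Ω)
    (fun k H => IsOpen (H : Set Ω) ∧ (H : Set Ω) ⊆ U k ∧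
        ∀ (N : ℕ) (r : Ω → ℕ), RD α H N r → k ≤ N)
    (fun k H H' => (H' : Set Ω) ⊆ H) ?_ ?_) ?_
  · obtain ⟨H, h1, _, h2, h3⟩ := hstep 0 Set.univ isOpen_univ (Set.mem_univ _)
    exact ⟨H, h1, h2, h3⟩
  · rintro k H ⟨h1, h2, h3⟩
    obtain ⟨H', g1, g2, g3, g4⟩ := hstep (k + 1) H h1 H.zero_mem
    exact ⟨H', ⟨g1, g3, g4⟩, g2⟩
  · rintro H ⟨hH1, hH2⟩
    have hRD : ∀ k, ∃ (N : ℕ) (r : Ω → ℕ), RD α (H k) N r := fun k => exists_RD hα (hH1 k).1
    choose N r hr using hRD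
    refine ⟨H, N, r, fun k => (hH1 k).1, antitone_nat_of_succ_le fun k => hH2 k, hr,
      fun k => (hH1 k).2.2 _ _ (hr k), fun G hG => ?_⟩
    obtain ⟨k, hk⟩ := hU.mem_iff.1 hG
    exact ⟨k, (hH1 k).2.1.trans hk⟩

/-- uniform continuity along a chain of subgroups -/
theorem unif_cont [CompactSpace Ω] {H : ℕ → AddSubgroup Ω} (hH : ∀ k, IsOpen (H k : Set Ω))
    (hanti : Antitone H) (hbasis : ∀ U ∈ 𝓝 (0 : Ω), ∃ k, (H k : Set Ω) ⊆ U) (g : C(Ω, ℝ)) {ε : ℝ}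
    (hε : 0 < ε) : ∃ k, ∀ x y : Ω, x - y ∈ H k → |g x - g y| ≤ ε := by
  have h1 : ∀ x : Ω, ∃ k, ∀ y : Ω, y - x ∈ H k → |g y - g x| ≤ ε / 2 := by
    intro x
    have h2 : Tendsto (fun z => g (z + x)) (𝓝 0) (𝓝 (g x)) := by
      have : Continuous fun z => g (z + x) := by fun_prop
      have h3 := this.tendsto 0
      rwa [zero_add] at h3
    have h3 := Metric.tendsto_nhds.1 h2 (ε / 2) (by positivity)
    obtain ⟨k, hk⟩ := hbasis _ h3
    refine ⟨k, fun y hy => ?_⟩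
    have h4 := hk hy
    simp only [Set.mem_ofPred_eq, sub_add_cancel, Real.dist_eq] at h4
    exact h4.le
  choose k hk using h1
  have hnhds : ∀ x ∈ (Set.univ : Set Ω), {y : Ω | y - x ∈ H (k x)} ∈ 𝓝 x := by
    intro x _
    have h2 : IsOpen {y : Ω | y - x ∈ H (k x)} :=
      (hH (k x)).preimage (by fun_prop : Continuous fun y => y - x)
    exact h2.mem_nhds (by simp [(H (k x)).zero_mem])
  obtain ⟨t, _, ht⟩ := isCompact_univ.elim_nhds_subcover _ hnhds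
  refine ⟨t.sup k, fun x y hxy => ?_⟩
  obtain ⟨z, hz, hyz⟩ := Set.mem_iUnion₂.1 (ht (Set.mem_univ y))
  have h2 : H (t.sup k) ≤ H (k z) := hanti (Finset.le_sup hz)
  have h3 : y - z ∈ H (k z) := hyz
  have h4 : x - z ∈ H (k z) := by
    have := (H (k z)).add_mem (h2 hxy) h3
    have e : x - y + (y - z) = x - z := by abel
    rwa [e] at this
  have h5 := hk z y h3
  have h6 := hk z x h4
  calc |g x - g y| = |(g x - g z) - (g y - g z)| := by ring_nf
    _ ≤ |g x - g z| + |g y - g z| := abs_sub _ _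
    _ ≤ ε := by linarith

end

end Pool.Agent.K9h27.LP
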