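import Pool.Agent.K9h27.LP.KS3

set_option autoImplicit false
set_option linter.unusedSimpArgs false
set_option linter.unusedSectionVars false
set_option linter.unusedVariables false

open MeasureTheory Set
open scoped ENNReal

namespace Pool.Agent.K9h27.LP

variable {ι κι : Type*} [Fintype ι] [DecidableEq ι] [Fintype κι] [DecidableEq κι]

theorem two_phase {εa εw : ℝ} (ha : 0 < εa) (hw : 0 < εw) (b : ℕ → ℝ) (κ : ℕ → κι) (σ : ℕ → ι)
    (r D n m : ℕ) (hn : n + m + 2 = r) (hD : 1 ≤ D)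
    (hσ : ∀ i j, i < r + D → j < r + D → σ i = σ j → i = j)
    (hκ : ∀ i j, r ≤ i → i < r + D → r ≤ j → j < r + D → κ i = κ j → i = j)
    {Y : ℝ} (hY : 0 < Y) :
    ∫⁻ a, (∫⁻ w, ENNReal.ofReal |(ZZ b κ σ a w n).1| * F0 (ZZ b κ σ a w (r + D))
        ∂(Measure.pi fun _ : ι => nu εw)) ∂(Measure.pi fun _ : κι => nu εa) ≤
      ((ENNReal.ofReal (2 * εw))⁻¹ * ENNReal.ofReal (rho εw) ^ (m / 2)) ^ (1 / 2 : ℝ) *
      ((2 * (ENNReal.ofReal (2 * εw))⁻¹) ^ (1 / 2 : ℝ) *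
        (ENNReal.ofReal (2 * Y) * (ENNReal.ofReal (rho εa) ^ (D / 2) * N2 F0)) ^ (1 / 2 : ℝ) +
       2 ^ (1 / 2 : ℝ) *
        (ENNReal.ofReal (2 * Y⁻¹) * ((ENNReal.ofReal (2 * εa))⁻¹ * N2 F0)) ^ (1 / 2 : ℝ)) := by
  have pa := nu_prob ha
  have pw := nu_prob hw
  set c1 := ((ENNReal.ofReal (2 * εw))⁻¹ * ENNReal.ofReal (rho εw) ^ (m / 2)) ^ (1 / 2 : ℝ) with hc1
  set A : (κι → ℝ) → (ι → ℝ) → ℝ≥0∞ := fun a w => ∫⁻ y in Icc (-Y) Y, Fn b κ σ r D a w (y, 1) with hA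
  set B : (κι → ℝ) → (ι → ℝ) → ℝ≥0∞ := fun a w =>
    ∫⁻ x in Icc (-Y⁻¹) Y⁻¹, Fn b κ σ r D a w (1, x) ^ 2 with hB
  have hAm : Measurable fun p : (κι → ℝ) × (ι → ℝ) => A p.1 p.2 := by
    have h2 : Measurable fun q : ((κι → ℝ) × (ι → ℝ)) × ℝ => (q.1, (q.2, (1 : ℝ))) := by fun_prop
    have h3 := (measurable_Fn b κ σ r D).comp h2
    simp only [Function.comp_def] at h3
    exact Measurable.lintegral_prod_right' h3
  have hBm : Measurable fun p : (κι → ℝ) × (ι → ℝ) => B p.1 p.2 := by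
    have h2 : Measurable fun q : ((κι → ℝ) × (ι → ℝ)) × ℝ => (q.1, ((1 : ℝ), q.2)) := by fun_prop
    have h3 := (measurable_Fn b κ σ r D).comp h2
    simp only [Function.comp_def] at h3
    exact Measurable.lintegral_prod_right' (h3.pow_const 2)
  have hpt : ∀ (a : κι → ℝ) (w : ι → ℝ),
      ((ENNReal.ofReal (2 * εw))⁻¹ * (ENNReal.ofReal (rho εw) ^ (m / 2) *
        N2 (TT εw (b (n + m + 1) - a (κ (n + m + 1))) (Fn b κ σ r D a w)))) ^ (1 / 2 : ℝ) ≤
      c1 * ((2 * (ENNReal.ofReal (2 * εw))⁻¹) ^ (1 / 2 : ℝ) * A a w +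
        2 ^ (1 / 2 : ℝ) * B a w ^ (1 / 2 : ℝ)) := by
    intro a w
    rw [← mul_assoc, ENNReal.mul_rpow_of_nonneg _ _ (by norm_num), ← hc1]
    gcongr
    refine (ENNReal.rpow_le_rpow (smoothing (Fn_hm b κ σ r D a w) hw _ hY)
      (by norm_num : (0 : ℝ) ≤ 1 / 2)).trans ?_
    refine (ENNReal.rpow_add_le_add_rpow _ _ (by norm_num) (by norm_num)).trans ?_
    refine add_le_add ?_ ?_
    · rw [← mul_assoc, ENNReal.mul_rpow_of_nonneg _ _ (by norm_num)]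
      gcongr
      rw [← ENNReal.rpow_natCast, ← ENNReal.rpow_mul,
        show ((2 : ℕ) : ℝ) * (1 / 2) = 1 by norm_num, ENNReal.rpow_one]
    · rw [ENNReal.mul_rpow_of_nonneg _ _ (by norm_num)]
  have hL1 : ∀ w : ι → ℝ, ∫⁻ a, A a w ∂(Measure.pi fun _ : κι => nu εa) ≤
      (ENNReal.ofReal (2 * Y) * (ENNReal.ofReal (rho εa) ^ (D / 2) * N2 F0)) ^ (1 / 2 : ℝ) :=
    fun w => near_L1 ha b κ σ r D hκ w Y
  have hL2 : ∀ w : ι → ℝ, ∫⁻ a, B a w ^ (1 / 2 : ℝ) ∂(Measure.pi fun _ : κι => nu εa) ≤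
      (ENNReal.ofReal (2 * Y⁻¹) * ((ENNReal.ofReal (2 * εa))⁻¹ * N2 F0)) ^ (1 / 2 : ℝ) :=
    fun w => near_L2 ha b κ σ r D hD hκ w hY
  clear_value A B c1
  set R := c1 * ((2 * (ENNReal.ofReal (2 * εw))⁻¹) ^ (1 / 2 : ℝ) *
        (ENNReal.ofReal (2 * Y) * (ENNReal.ofReal (rho εa) ^ (D / 2) * N2 F0)) ^ (1 / 2 : ℝ) +
       2 ^ (1 / 2 : ℝ) *
        (ENNReal.ofReal (2 * Y⁻¹) * ((ENNReal.ofReal (2 * εa))⁻¹ * N2 F0)) ^ (1 / 2 : ℝ)) with hR
  calc _ ≤ ∫⁻ a, (∫⁻ w, c1 * ((2 * (ENNReal.ofReal (2 * εw))⁻¹) ^ (1 / 2 : ℝ) * A a w +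
        2 ^ (1 / 2 : ℝ) * B a w ^ (1 / 2 : ℝ)) ∂(Measure.pi fun _ : ι => nu εw))
        ∂(Measure.pi fun _ : κι => nu εa) := by
        refine lintegral_mono fun a => ?_
        refine (far_phase hw b κ σ r D n m hn hσ a).trans ?_
        exact lintegral_mono fun w => hpt a w
    _ = ∫⁻ w, (∫⁻ a, c1 * ((2 * (ENNReal.ofReal (2 * εw))⁻¹) ^ (1 / 2 : ℝ) * A a w +
        2 ^ (1 / 2 : ℝ) * B a w ^ (1 / 2 : ℝ)) ∂(Measure.pi fun _ : κι => nu εa))
        ∂(Measure.pi fun _ : ι => nu εw) := by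
        rw [lintegral_lintegral_swap]
        rw [Function.uncurry_def]
        exact (((hAm.const_mul _).add ((hBm.pow_const _).const_mul _)).const_mul _).aemeasurable
    _ ≤ ∫⁻ w : ι → ℝ, R ∂(Measure.pi fun _ : ι => nu εw) := by
        refine lintegral_mono fun w => ?_
        have hAw : Measurable fun a : κι → ℝ => A a w :=
          hAm.comp (measurable_id.prodMk measurable_const)
        have hBw : Measurable fun a : κι → ℝ => B a w :=
          hBm.comp (measurable_id.prodMk measurable_const)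
        have h1 := hL1 w
        have h2 := hL2 w
        have h3 : ∫⁻ a, c1 * ((2 * (ENNReal.ofReal (2 * εw))⁻¹) ^ (1 / 2 : ℝ) * A a w +
            2 ^ (1 / 2 : ℝ) * B a w ^ (1 / 2 : ℝ)) ∂(Measure.pi fun _ : κι => nu εa) =
            c1 * ((2 * (ENNReal.ofReal (2 * εw))⁻¹) ^ (1 / 2 : ℝ) *
              (∫⁻ a, A a w ∂(Measure.pi fun _ : κι => nu εa)) +
            2 ^ (1 / 2 : ℝ) * ∫⁻ a, B a w ^ (1 / 2 : ℝ) ∂(Measure.pi fun _ : κι => nu εa)) := by
          have hBw' : Measurable fun a : κι → ℝ => B a w ^ (1 / 2 : ℝ) := hBw.pow_const _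
          have m1 : Measurable fun a : κι → ℝ =>
              (2 * (ENNReal.ofReal (2 * εw))⁻¹) ^ (1 / 2 : ℝ) * A a w := hAw.const_mul _
          have m2 : Measurable fun a : κι → ℝ => (2 : ℝ≥0∞) ^ (1 / 2 : ℝ) * B a w ^ (1 / 2 : ℝ) :=
            hBw'.const_mul _
          have m3 : Measurable fun a : κι → ℝ =>
              (2 * (ENNReal.ofReal (2 * εw))⁻¹) ^ (1 / 2 : ℝ) * A a w +
                (2 : ℝ≥0∞) ^ (1 / 2 : ℝ) * B a w ^ (1 / 2 : ℝ) := m1.add m2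
          rw [lintegral_const_mul c1 m3, lintegral_add_left m1,
            lintegral_const_mul _ hAw, lintegral_const_mul _ hBw']
        have h4 : ∫⁻ a, c1 * ((2 * (ENNReal.ofReal (2 * εw))⁻¹) ^ (1 / 2 : ℝ) * A a w +
            2 ^ (1 / 2 : ℝ) * B a w ^ (1 / 2 : ℝ)) ∂(Measure.pi fun _ : κι => nu εa) ≤ R := by
          rw [h3, hR]
          gcongr
        exact h4
    _ = _ := by simp


theorem half_bound {q εw εa : ℝ} (hq : 0 < q) (hw : 0 < εw) (hwa : εw ≤ εa) :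
    (2 * (ENNReal.ofReal (2 * εw))⁻¹) ^ (1 / 2 : ℝ) *
        (ENNReal.ofReal (2 * q⁻¹) * (ENNReal.ofReal (q ^ 2) * ENNReal.ofReal Real.pi)) ^ (1 / 2 : ℝ) +
       2 ^ (1 / 2 : ℝ) *
        (ENNReal.ofReal (2 * (q⁻¹)⁻¹) * ((ENNReal.ofReal (2 * εa))⁻¹ * ENNReal.ofReal Real.pi)) ^ (1 / 2 : ℝ)
      ≤ ENNReal.ofReal (6 * Real.sqrt (q / εw)) := by
  have ha : 0 < εa := lt_of_lt_of_le hw hwa
  have hpi := Real.pi_pos
  have e0 : (2 : ℝ≥0∞) = ENNReal.ofReal 2 := by simp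
  have e1 : 2 * (ENNReal.ofReal (2 * εw))⁻¹ = ENNReal.ofReal (εw⁻¹) := by
    rw [← ENNReal.ofReal_inv_of_pos (by positivity), e0, ← ENNReal.ofReal_mul (by norm_num)]
    congr 1
    field_simp
  have e2 : ENNReal.ofReal (2 * q⁻¹) * (ENNReal.ofReal (q ^ 2) * ENNReal.ofReal Real.pi) =
      ENNReal.ofReal (2 * q * Real.pi) := by
    rw [← ENNReal.ofReal_mul (by positivity), ← ENNReal.ofReal_mul (by positivity)]
    congr 1
    field_simp
  have e3 : ENNReal.ofReal (2 * (q⁻¹)⁻¹) * ((ENNReal.ofReal (2 * εa))⁻¹ * ENNReal.ofReal Real.pi) =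
      ENNReal.ofReal (q * Real.pi / εa) := by
    rw [← ENNReal.ofReal_inv_of_pos (by positivity), ← ENNReal.ofReal_mul (by positivity),
      ← ENNReal.ofReal_mul (by positivity), inv_inv]
    congr 1
    field_simp
  rw [e1, e2, e3, e0, ofReal_half (by positivity), ofReal_half (by positivity),
    ofReal_half (by positivity), ofReal_half (by positivity), ← ENNReal.ofReal_mul (by positivity),
    ← ENNReal.ofReal_mul (by positivity), ← ENNReal.ofReal_add (by positivity) (by positivity)]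
  apply ENNReal.ofReal_le_ofReal
  rw [← Real.sqrt_mul (by positivity), ← Real.sqrt_mul (by positivity)]
  have hpi4 : Real.pi < 4 := Real.pi_lt_four
  have h3 : Real.sqrt (9 * (q / εw)) = 3 * Real.sqrt (q / εw) := by
    rw [Real.sqrt_mul (by norm_num), show (9 : ℝ) = 3 ^ 2 by norm_num,
      Real.sqrt_sq (by norm_num)]
  have h1 : Real.sqrt (εw⁻¹ * (2 * q * Real.pi)) ≤ 3 * Real.sqrt (q / εw) := by
    rw [← h3]
    apply Real.sqrt_le_sqrt
    have : εw⁻¹ * (2 * q * Real.pi) = 2 * Real.pi * (q / εw) := by field_simp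
    rw [this]
    have : 0 < q / εw := by positivity
    nlinarith
  have h2 : Real.sqrt (2 * (q * Real.pi / εa)) ≤ 3 * Real.sqrt (q / εw) := by
    rw [← h3]
    apply Real.sqrt_le_sqrt
    have h4 : q / εa ≤ q / εw := div_le_div_of_nonneg_left hq.le hw hwa
    have : 2 * (q * Real.pi / εa) = 2 * Real.pi * (q / εa) := by ring
    rw [this]
    have : 0 < q / εa := by positivity
    nlinarith
  linarith

/-- KS estimate for one pair. -/
theorem ks_one {εa εw : ℝ} (hw : 0 < εw) (hwa : εw ≤ εa) (b : ℕ → ℝ) (κ : ℕ → κι)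
    (σ : ℕ → ι) (r D' n m : ℕ) (hn : n + m + 2 = r) (hD : 1 ≤ D')
    (hσ : ∀ i j, i < r + 2 * D' → j < r + 2 * D' → σ i = σ j → i = j)
    (hκ : ∀ i j, r ≤ i → i < r + 2 * D' → r ≤ j → j < r + 2 * D' → κ i = κ j → i = j) :
    ∫⁻ a, (∫⁻ w, ENNReal.ofReal |(ZZ b κ σ a w n).1| * F0 (ZZ b κ σ a w (r + 2 * D'))
        ∂(Measure.pi fun _ : ι => nu εw)) ∂(Measure.pi fun _ : κι => nu εa) ≤
      ENNReal.ofReal (Real.sqrt (rho εw) ^ (m / 2) * (6 / εw * Real.sqrt (Real.sqrt (rho εa) ^ D'))) := by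
  have ha : 0 < εa := lt_of_lt_of_le hw hwa
  have hrpos : ∀ ε : ℝ, 0 < ε → 0 < rho ε := by
    intro ε hε
    unfold rho
    have : 0 < (⌈64 / ε⌉₊ : ℝ) := by
      have : 0 < 64 / ε := by positivity
      exact_mod_cast Nat.ceil_pos.2 this
    positivity
  set q := Real.sqrt (rho εa) ^ D' with hq
  have hq0 : 0 < q := by
    have := Real.sqrt_pos.2 (hrpos εa ha)
    positivity
  have h := two_phase ha hw b κ σ r (2 * D') n m hn (by omega) hσ hκ (Y := q⁻¹) (by positivity)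
  have e1 : ENNReal.ofReal (rho εa) ^ (2 * D' / 2) = ENNReal.ofReal (q ^ 2) := by
    rw [Nat.mul_div_cancel_left _ (by norm_num), ← ENNReal.ofReal_pow (rho_nonneg _)]
    congr 1
    rw [hq, ← pow_mul, mul_comm D' 2, pow_mul, Real.sq_sqrt (rho_nonneg _)]
  rw [e1, N2_F0] at h
  refine h.trans ?_
  have h2 := half_bound hq0 hw hwa
  refine (mul_le_mul_right h2 _).trans ?_
  have e2 : ((ENNReal.ofReal (2 * εw))⁻¹ * ENNReal.ofReal (rho εw) ^ (m / 2)) ^ (1 / 2 : ℝ) =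
      ENNReal.ofReal (Real.sqrt ((2 * εw)⁻¹) * Real.sqrt (rho εw) ^ (m / 2)) := by
    rw [← ENNReal.ofReal_inv_of_pos (by positivity), ← ENNReal.ofReal_pow (rho_nonneg _),
      ← ENNReal.ofReal_mul (by positivity), ofReal_half (by
        have := rho_nonneg εw; positivity), Real.sqrt_mul (by positivity)]
    congr 2
    rw [Real.sqrt_eq_iff_mul_self_eq (pow_nonneg (rho_nonneg _) _) (by positivity), ← mul_pow,
      Real.mul_self_sqrt (rho_nonneg _)]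
  rw [e2, ← ENNReal.ofReal_mul (by positivity)]
  apply ENNReal.ofReal_le_ofReal
  have hs : Real.sqrt ((2 * εw)⁻¹) * Real.sqrt (q / εw) ≤ 1 / εw * Real.sqrt q := by
    rw [Real.sqrt_div' _ hw.le]
    have e5 : Real.sqrt ((2 * εw)⁻¹) ≤ 1 / Real.sqrt εw := by
      rw [← Real.sqrt_one, ← Real.sqrt_div' _ hw.le]
      apply Real.sqrt_le_sqrt
      rw [← one_div]
      exact div_le_div_of_nonneg_left (by norm_num) hw (by linarith)
    calc Real.sqrt ((2 * εw)⁻¹) * (Real.sqrt q / Real.sqrt εw)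
        ≤ 1 / Real.sqrt εw * (Real.sqrt q / Real.sqrt εw) := by gcongr
      _ = 1 / εw * Real.sqrt q := by
          have h0 : 0 < Real.sqrt εw := Real.sqrt_pos.2 hw
          have h1 : Real.sqrt εw * Real.sqrt εw = εw := Real.mul_self_sqrt hw.le
          field_simp
          rw [sq, h1]
  have hs0 : 0 ≤ Real.sqrt (rho εw) ^ (m / 2) := by positivity
  calc Real.sqrt ((2 * εw)⁻¹) * Real.sqrt (rho εw) ^ (m / 2) * (6 * Real.sqrt (q / εw))
      = Real.sqrt (rho εw) ^ (m / 2) * (6 * (Real.sqrt ((2 * εw)⁻¹) * Real.sqrt (q / εw))) := by ring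
    _ ≤ Real.sqrt (rho εw) ^ (m / 2) * (6 * (1 / εw * Real.sqrt q)) := by gcongr
    _ = _ := by ring


/-- fraction of the mass on the far sites -/
noncomputable def GG (b : ℕ → ℝ) (κ : ℕ → κι) (σ : ℕ → ι) (a : κι → ℝ) (w : ι → ℝ)
    (ℓ f : ℕ) : ℝ :=
  (∑ j ∈ Finset.range f, (ZZ b κ σ a w j).1 ^ 2) /
    ∑ j ∈ Finset.range (ℓ + 1), (ZZ b κ σ a w j).1 ^ 2

theorem ZZ_zero (b : ℕ → ℝ) (κ : ℕ → κι) (σ : ℕ → ι) (a : κι → ℝ) (w : ι → ℝ) :
    ZZ b κ σ a w 0 = (1, 0) := rfl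

theorem ZZ_succ (b : ℕ → ℝ) (κ : ℕ → κι) (σ : ℕ → ι) (a : κι → ℝ) (w : ι → ℝ) (j : ℕ) :
    ZZ b κ σ a w (j + 1) = act (cc b κ σ a w j) (ZZ b κ σ a w j) := by
  unfold ZZ
  rw [itA, zero_add]

theorem den_pos (b : ℕ → ℝ) (κ : ℕ → κι) (σ : ℕ → ι) (a : κι → ℝ) (w : ι → ℝ) (ℓ : ℕ) :
    0 < ∑ j ∈ Finset.range (ℓ + 1), (ZZ b κ σ a w j).1 ^ 2 := by
  refine Finset.sum_pos' (fun j _ => sq_nonneg _) ⟨0, by simp, ?_⟩
  rw [ZZ_zero]; norm_num

theorem GG_le_sum (b : ℕ → ℝ) (κ : ℕ → κι) (σ : ℕ → ι) (a : κι → ℝ) (w : ι → ℝ)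
    {ℓ f : ℕ} (hℓ : 1 ≤ ℓ) (hf : f ≤ ℓ) :
    ENNReal.ofReal (GG b κ σ a w ℓ f) ≤ ∑ n ∈ Finset.range f,
      ENNReal.ofReal |(ZZ b κ σ a w n).1| * F0 (ZZ b κ σ a w ℓ) := by
  set S := ∑ j ∈ Finset.range (ℓ + 1), (ZZ b κ σ a w j).1 ^ 2 with hS
  have hSpos : 0 < S := den_pos b κ σ a w ℓ
  unfold GG
  rw [← hS, Finset.sum_div, ENNReal.ofReal_sum_of_nonneg (fun j _ => by positivity)]
  refine Finset.sum_le_sum fun n hn => ?_
  rw [Finset.mem_range] at hn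
  unfold F0
  rw [← ENNReal.ofReal_mul (abs_nonneg _)]
  apply ENNReal.ofReal_le_ofReal
  set y := (ZZ b κ σ a w n).1 with hy
  have hyS : y ^ 2 ≤ S := by
    rw [hS, hy]
    exact Finset.single_le_sum (f := fun j => (ZZ b κ σ a w j).1 ^ 2) (fun j _ => sq_nonneg _)
      (Finset.mem_range.2 (by omega))
  have habs : |y| ≤ Real.sqrt S := by
    rw [← Real.sqrt_sq_eq_abs]; exact Real.sqrt_le_sqrt hyS
  obtain ⟨ℓ', rfl⟩ : ∃ ℓ', ℓ = ℓ' + 1 := ⟨ℓ - 1, by omega⟩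
  set z := ZZ b κ σ a w (ℓ' + 1) with hz
  have hz2 : z.2 = (ZZ b κ σ a w ℓ').1 := by
    rw [hz, ZZ_succ]; rfl
  have hzS : z.1 ^ 2 + z.2 ^ 2 ≤ S := by
    rw [hS, Finset.sum_range_succ, Finset.sum_range_succ, hz2, hz]
    have : 0 ≤ ∑ x ∈ Finset.range ℓ', (ZZ b κ σ a w x).1 ^ 2 :=
      Finset.sum_nonneg fun j _ => sq_nonneg _
    linarith
  have hz0 : 0 < z.1 ^ 2 + z.2 ^ 2 := by
    have hne : z ≠ 0 := itA_ne (by simp)
    by_contra hcon
    have h0 : z.1 ^ 2 + z.2 ^ 2 = 0 := le_antisymm (not_lt.1 hcon) (by positivity)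
    have h1 : z.1 = 0 := by nlinarith [sq_nonneg z.1, sq_nonneg z.2]
    have h2 : z.2 = 0 := by nlinarith [sq_nonneg z.1, sq_nonneg z.2]
    exact hne (Prod.ext h1 h2)
  have h1 : 0 < Real.sqrt (z.1 ^ 2 + z.2 ^ 2) := Real.sqrt_pos.2 hz0
  have h2 : Real.sqrt (z.1 ^ 2 + z.2 ^ 2) ≤ Real.sqrt S := Real.sqrt_le_sqrt hzS
  have hsS : 0 < Real.sqrt S := Real.sqrt_pos.2 hSpos
  calc y ^ 2 / S = |y| * (|y| / (Real.sqrt S * Real.sqrt S)) := by
        rw [Real.mul_self_sqrt hSpos.le, ← mul_div_assoc, ← sq, sq_abs]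
    _ ≤ |y| * (Real.sqrt S / (Real.sqrt S * Real.sqrt S)) := by gcongr
    _ = |y| * (Real.sqrt S)⁻¹ := by
        rw [div_mul_eq_div_div, div_self hsS.ne', one_div]
    _ ≤ |y| * (Real.sqrt (z.1 ^ 2 + z.2 ^ 2))⁻¹ := by gcongr

/-- fourth root of the contraction factor -/
noncomputable def tt (ε : ℝ) : ℝ := Real.sqrt (Real.sqrt (rho ε))

theorem tt_nonneg (ε : ℝ) : 0 ≤ tt ε := Real.sqrt_nonneg _

theorem tt_lt_one (ε : ℝ) : tt ε < 1 := by
  unfold tt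
  rw [Real.sqrt_lt' one_pos, one_pow, Real.sqrt_lt' one_pos, one_pow]
  exact rho_lt_one ε

theorem geom_half {s : ℝ} (hs0 : 0 ≤ s) (hs1 : s < 1) (N : ℕ) :
    ∑ m ∈ Finset.range N, s ^ (m / 2) ≤ 2 / (1 - s) := by
  have h1 : ∀ N, ∑ m ∈ Finset.range (2 * N), s ^ (m / 2) = 2 * ∑ k ∈ Finset.range N, s ^ k := by
    intro N
    induction N with
    | zero => simp
    | succ N ih =>
      rw [show 2 * (N + 1) = 2 * N + 1 + 1 by ring, Finset.sum_range_succ, Finset.sum_range_succ,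
        ih, Finset.sum_range_succ, show (2 * N) / 2 = N by omega, show (2 * N + 1) / 2 = N by omega]
      ring
  have h2 : ∑ m ∈ Finset.range N, s ^ (m / 2) ≤ ∑ m ∈ Finset.range (2 * N), s ^ (m / 2) :=
    Finset.sum_le_sum_of_subset_of_nonneg (Finset.range_mono (by omega))
      (fun i _ _ => by positivity)
  refine h2.trans ?_
  rw [h1, geom_sum_eq hs1.ne, mul_div_assoc']
  have e : 2 * (s ^ N - 1) / (s - 1) = 2 * (1 - s ^ N) / (1 - s) := by
    have h3 : s - 1 ≠ 0 := by intro h0; linarith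
    have h4 : (1 : ℝ) - s ≠ 0 := by intro h0; linarith
    field_simp
    ring
  rw [e]
  apply div_le_div_of_nonneg_right _ (by linarith)
  have : 0 ≤ s ^ N := by positivity
  linarith

theorem one_sub_rho {ε : ℝ} (hε : 0 < ε) (h1 : ε ≤ 1) : 1 / (1 - rho ε) ≤ 180268 / ε ^ 2 := by
  set M := (⌈64 / ε⌉₊ : ℝ) with hM
  have hMle : M ≤ 65 / ε := by
    have h2 : M < 64 / ε + 1 := Nat.ceil_lt_add_one (by positivity)
    have h3 : 64 / ε + 1 ≤ 65 / ε := by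
      rw [div_add_one hε.ne', div_le_div_iff_of_pos_right hε]
      linarith
    linarith
  have hM0 : 0 ≤ M := Nat.cast_nonneg _
  have e : 1 - rho ε = 3 / (3 + 128 * M ^ 2) := by
    unfold rho
    rw [← hM]
    field_simp
    ring
  rw [e, one_div_div]
  have h3 : M ^ 2 ≤ 4225 / ε ^ 2 := by
    calc M ^ 2 ≤ (65 / ε) ^ 2 := by gcongr
      _ = 4225 / ε ^ 2 := by rw [div_pow]; norm_num
  have h4 : (1 : ℝ) ≤ 1 / ε ^ 2 := by
    rw [le_div_iff₀ (by positivity), one_mul]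
    exact pow_le_one₀ hε.le h1
  have h5 : (3 + 128 * M ^ 2) / 3 ≤ 1 + 128 / 3 * (4225 / ε ^ 2) := by
    rw [div_le_iff₀ (by norm_num)]
    nlinarith
  refine h5.trans ?_
  have : 1 + 128 / 3 * (4225 / ε ^ 2) ≤ 180268 * (1 / ε ^ 2) := by
    have e6 : (4225 : ℝ) / ε ^ 2 = 4225 * (1 / ε ^ 2) := by ring
    rw [e6]
    nlinarith
  refine this.trans_eq ?_
  ring

theorem ks_total {εa εw : ℝ} (hw : 0 < εw) (hwa : εw ≤ εa) (hw1 : εw ≤ 1) (b : ℕ → ℝ)
    (κ : ℕ → κι) (σ : ℕ → ι) (f D' : ℕ) (hD : 1 ≤ D')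
    (hσ : ∀ i j, i < f + 1 + 2 * D' → j < f + 1 + 2 * D' → σ i = σ j → i = j)
    (hκ : ∀ i j, f + 1 ≤ i → i < f + 1 + 2 * D' → f + 1 ≤ j → j < f + 1 + 2 * D' →
      κ i = κ j → i = j) :
    ∫⁻ a, (∫⁻ w, ENNReal.ofReal (GG b κ σ a w (f + 1 + 2 * D') f)
        ∂(Measure.pi fun _ : ι => nu εw)) ∂(Measure.pi fun _ : κι => nu εa) ≤
      ENNReal.ofReal (5000000 / εw ^ 3 * tt εa ^ D') := by
  have ha : 0 < εa := lt_of_lt_of_le hw hwa
  have pa := nu_prob ha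
  have pw := nu_prob hw
  set ℓ := f + 1 + 2 * D' with hℓ
  have hmeas : ∀ n, Measurable fun p : (κι → ℝ) × (ι → ℝ) =>
      ENNReal.ofReal |(ZZ b κ σ p.1 p.2 n).1| * F0 (ZZ b κ σ p.1 p.2 ℓ) := by
    intro n
    have h1 := measurable_ZZ b κ σ n
    have h2 := measurable_ZZ b κ σ ℓ
    have h3 : Measurable fun p : (κι → ℝ) × (ι → ℝ) => F0 (ZZ b κ σ p.1 p.2 ℓ) :=
      F0_hm.meas.comp h2
    have h4 : Measurable fun p : (κι → ℝ) × (ι → ℝ) =>
        ENNReal.ofReal |(ZZ b κ σ p.1 p.2 n).1| := by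
      have h5 : Measurable fun p : (κι → ℝ) × (ι → ℝ) => (ZZ b κ σ p.1 p.2 n).1 := h1.fst
      exact (measurable_abs.comp h5).ennreal_ofReal
    exact h4.mul h3
  have hs1 : Real.sqrt (rho εw) < 1 := by
    rw [Real.sqrt_lt' one_pos, one_pow]; exact rho_lt_one _
  calc _ ≤ ∫⁻ a, (∫⁻ w, ∑ n ∈ Finset.range f,
        ENNReal.ofReal |(ZZ b κ σ a w n).1| * F0 (ZZ b κ σ a w ℓ)
        ∂(Measure.pi fun _ : ι => nu εw)) ∂(Measure.pi fun _ : κι => nu εa) :=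
        lintegral_mono fun a => lintegral_mono fun w =>
          GG_le_sum b κ σ a w (by omega) (by omega)
    _ = ∑ n ∈ Finset.range f, ∫⁻ a, (∫⁻ w,
        ENNReal.ofReal |(ZZ b κ σ a w n).1| * F0 (ZZ b κ σ a w ℓ)
        ∂(Measure.pi fun _ : ι => nu εw)) ∂(Measure.pi fun _ : κι => nu εa) := by
        rw [← lintegral_finsetSum _ (fun n _ => (hmeas n).lintegral_prod_right')]
        refine lintegral_congr fun a => ?_
        have hma : ∀ n ∈ Finset.range f, Measurable fun w : ι → ℝ =>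
            ENNReal.ofReal |(ZZ b κ σ a w n).1| * F0 (ZZ b κ σ a w ℓ) := fun n _ => by
          have h2 : Measurable fun w : ι → ℝ => (a, w) := measurable_const.prodMk measurable_id
          have h3 := (hmeas n).comp h2
          simp only [Function.comp_def] at h3
          exact h3
        rw [lintegral_finsetSum _ hma]
    _ ≤ ∑ n ∈ Finset.range f, ENNReal.ofReal (Real.sqrt (rho εw) ^ ((f - 1 - n) / 2) *
          (6 / εw * Real.sqrt (Real.sqrt (rho εa) ^ D'))) := by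
        refine Finset.sum_le_sum fun n hn => ?_
        rw [Finset.mem_range] at hn
        exact ks_one hw hwa b κ σ (f + 1) D' n (f - 1 - n) (by omega) hD hσ hκ
    _ = ENNReal.ofReal ((∑ n ∈ Finset.range f, Real.sqrt (rho εw) ^ ((f - 1 - n) / 2)) *
          (6 / εw * Real.sqrt (Real.sqrt (rho εa) ^ D'))) := by
        rw [Finset.sum_mul, ENNReal.ofReal_sum_of_nonneg (fun n _ => by positivity)]
    _ ≤ _ := by
        apply ENNReal.ofReal_le_ofReal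
        rw [Finset.sum_range_reflect (fun m => Real.sqrt (rho εw) ^ (m / 2)) f]
        have h1 := geom_half (Real.sqrt_nonneg (rho εw)) hs1 f
        have h2 : 2 / (1 - Real.sqrt (rho εw)) ≤ 4 * (180268 / εw ^ 2) := by
          have h3 := one_sub_rho hw hw1
          have h4 : 1 / (1 - Real.sqrt (rho εw)) ≤ 2 * (1 / (1 - rho εw)) := by
            have h5 : 0 < 1 - Real.sqrt (rho εw) := by linarith
            have h6 : 0 < 1 - rho εw := by linarith [rho_lt_one εw]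
            rw [← mul_div_assoc, mul_one, div_le_div_iff₀ h5 h6]
            have h7 := Real.mul_self_sqrt (rho_nonneg εw)
            nlinarith [Real.sqrt_nonneg (rho εw)]
          calc 2 / (1 - Real.sqrt (rho εw)) = 2 * (1 / (1 - Real.sqrt (rho εw))) := by ring
            _ ≤ 2 * (2 * (1 / (1 - rho εw))) := by gcongr
            _ ≤ 2 * (2 * (180268 / εw ^ 2)) := by gcongr
            _ = _ := by ring
        have h8 : Real.sqrt (Real.sqrt (rho εa) ^ D') = tt εa ^ D' := by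
          unfold tt
          rw [Real.sqrt_eq_iff_mul_self_eq (by positivity) (by positivity), ← mul_pow,
            Real.mul_self_sqrt (Real.sqrt_nonneg _)]
        rw [h8]
        have h9 := tt_nonneg εa
        calc (∑ m ∈ Finset.range f, Real.sqrt (rho εw) ^ (m / 2)) * (6 / εw * tt εa ^ D')
            ≤ (4 * (180268 / εw ^ 2)) * (6 / εw * tt εa ^ D') := by
              gcongr
              exact h1.trans h2
          _ = 4326432 / εw ^ 3 * tt εa ^ D' := by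
              have : (180268 : ℝ) * 4 * 6 = 4326432 := by norm_num
              rw [← this]
              field_simp
          _ ≤ _ := by
              gcongr
              norm_num

end Pool.Agent.K9h27.LP
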