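import Pool.Agent.K9h27.LP.SpecAvg
import Pool.Agent.K9h27.LP.KS4

set_option autoImplicit false
set_option linter.unusedSimpArgs false
set_option linter.unusedSectionVars false
set_option linter.unusedVariables false

open MeasureTheory Set Matrix
open scoped ENNReal

namespace Pool.Agent.K9h27.LP

/-- extension by zero -/
noncomputable def ex {L : ℕ} (ψ : Fin L → ℝ) (i : ℕ) : ℝ := if h : i < L then ψ ⟨i, h⟩ else 0

theorem ex_of_lt {L : ℕ} (ψ : Fin L → ℝ) {i : ℕ} (h : i < L) : ex ψ i = ψ ⟨i, h⟩ := by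
  unfold ex; rw [dif_pos h]

theorem ex_of_ge {L : ℕ} (ψ : Fin L → ℝ) {i : ℕ} (h : L ≤ i) : ex ψ i = 0 := by
  unfold ex; rw [dif_neg (not_lt.2 h)]

theorem ex_coe {L : ℕ} (ψ : Fin L → ℝ) (i : Fin L) : ex ψ i = ψ i := by
  rw [ex_of_lt ψ i.2]

theorem jac_col {L : ℕ} (v : ℕ → ℝ) (ψ : Fin L → ℝ) (i : Fin L) :
    ∑ k, ψ k * jac L v k i = v i * ψ i + ex ψ (i + 1) +
      (if (i : ℕ) = 0 then 0 else ex ψ (i - 1)) := by
  have h1 : ∀ k : Fin L, ψ k * jac L v k i = (if k = i then v i * ψ k else 0) +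
      (if (k : ℕ) = i + 1 then ψ k else 0) + (if (k : ℕ) + 1 = i then ψ k else 0) := by
    intro k
    unfold jac
    by_cases hk : k = i
    · subst hk
      simp
      ring
    · rw [if_neg hk, if_neg hk]
      by_cases h2 : (k : ℕ) + 1 = i
      · rw [if_pos (Or.inl h2), if_pos h2, if_neg (by omega)]
        ring
      · by_cases h3 : (k : ℕ) = i + 1
        · rw [if_pos (Or.inr h3.symm), if_pos h3, if_neg h2]; ring
        · rw [if_neg (by rintro (h | h); exacts [h2 h, h3 h.symm]), if_neg h3, if_neg h2]; ring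
  rw [Finset.sum_congr rfl fun k _ => h1 k, Finset.sum_add_distrib, Finset.sum_add_distrib]
  congr 1
  · congr 1
    · rw [Finset.sum_ite_eq' Finset.univ i]
      simp
    · by_cases h : (i : ℕ) + 1 < L
      · rw [ex_of_lt ψ h, Finset.sum_eq_single ⟨i + 1, h⟩]
        · simp
        · intro k _ hk
          rw [if_neg]
          intro h2; exact hk (Fin.ext h2)
        · intro h2; exact absurd (Finset.mem_univ _) h2
      · rw [ex_of_ge ψ (not_lt.1 h)]
        refine Finset.sum_eq_zero fun k _ => ?_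
        rw [if_neg]
        have := k.2
        omega
  · by_cases h0 : (i : ℕ) = 0
    · rw [if_pos h0]
      refine Finset.sum_eq_zero fun k _ => ?_
      rw [if_neg]; omega
    · have h : (i : ℕ) - 1 < L := by have := i.2; omega
      rw [if_neg h0, ex_of_lt ψ h, Finset.sum_eq_single ⟨i - 1, h⟩]
      · simp; omega
      · intro k _ hk
        rw [if_neg]
        intro h2; apply hk; apply Fin.ext; simp; omega
      · intro h2; exact absurd (Finset.mem_univ _) h2

/-- the row equation of an eigenvector -/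
theorem IsES.jac_eq {L : ℕ} {v : ℕ → ℝ} {Ψ : Matrix (Fin L) (Fin L) ℝ} {l : Fin L → ℝ}
    (h : IsES (jac L v) Ψ l) (j : Fin L) (i : ℕ) (hi : i < L) :
    l j * ex (Ψ j) i = v i * ex (Ψ j) i + ex (Ψ j) (i + 1) +
      (if i = 0 then 0 else ex (Ψ j) (i - 1)) := by
  have h1 := h.row_eig j ⟨i, hi⟩
  have h2 := jac_col v (Ψ j) ⟨i, hi⟩
  rw [h1] at h2
  rw [ex_of_lt (Ψ j) hi]
  exact h2

theorem IsES.row_norm {L : ℕ} {A Ψ : Matrix (Fin L) (Fin L) ℝ} {l : Fin L → ℝ}
    (h : IsES A Ψ l) (j : Fin L) : ∑ i, Ψ j i ^ 2 = 1 := by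
  have := h.row_orth j j
  rw [if_pos rfl] at this
  rw [← this]
  exact Finset.sum_congr rfl fun i _ => sq _

theorem IsES.eig_bound {L : ℕ} {v : ℕ → ℝ} {Ψ : Matrix (Fin L) (Fin L) ℝ} {l : Fin L → ℝ}
    (h : IsES (jac L v) Ψ l) {V : ℝ} (hV : ∀ i < L, |v i| ≤ V) (j : Fin L) : |l j| ≤ V + 2 := by
  obtain ⟨i, _, hi⟩ := Finset.exists_max_image (Finset.univ : Finset (Fin L)) (fun i => |Ψ j i|)
    ⟨j, Finset.mem_univ _⟩
  have hmax : ∀ k : ℕ, |ex (Ψ j) k| ≤ |Ψ j i| := by
    intro k
    by_cases hk : k < L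
    · rw [ex_of_lt _ hk]; exact hi _ (Finset.mem_univ _)
    · rw [ex_of_ge _ (not_lt.1 hk), abs_zero]; exact abs_nonneg _
  have hpos : 0 < |Ψ j i| := by
    by_contra hcon
    have h0 : |Ψ j i| = 0 := le_antisymm (not_lt.1 hcon) (abs_nonneg _)
    have h1 := h.row_norm j
    rw [Finset.sum_eq_zero] at h1
    · norm_num at h1
    · intro k _
      have := hi k (Finset.mem_univ _)
      rw [h0] at this
      have h2 : Ψ j k = 0 := abs_eq_zero.1 (le_antisymm this (abs_nonneg _))
      rw [h2]; norm_num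
  have he := h.jac_eq j i i.2
  rw [ex_coe] at he
  have h1 : |l j| * |Ψ j i| ≤ (V + 2) * |Ψ j i| := by
    rw [← abs_mul, he]
    have e1 : |v i * Ψ j i| ≤ V * |Ψ j i| := by
      rw [abs_mul]; exact mul_le_mul_of_nonneg_right (hV i i.2) (abs_nonneg _)
    have e2 := hmax (i + 1)
    have e3 : |if (i : ℕ) = 0 then (0 : ℝ) else ex (Ψ j) (i - 1)| ≤ |Ψ j i| := by
      split_ifs
      · rw [abs_zero]; exact abs_nonneg _
      · exact hmax _
    calc _ ≤ |v i * Ψ j i + ex (Ψ j) (i + 1)| + |if (i : ℕ) = 0 then (0 : ℝ) else ex (Ψ j) (i - 1)| :=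
          abs_add_le _ _
      _ ≤ |v i * Ψ j i| + |ex (Ψ j) (i + 1)| + |if (i : ℕ) = 0 then (0 : ℝ) else ex (Ψ j) (i - 1)| := by
          gcongr; exact abs_add_le _ _
      _ ≤ V * |Ψ j i| + |Ψ j i| + |Ψ j i| := by gcongr
      _ = _ := by ring
  exact le_of_mul_le_mul_right h1 hpos

/-! ### comparison of eigenvectors with transfer matrix solutions -/

/-- generic: a sequence satisfying the three-term recursion is a multiple of the solution -/
theorem rec_eq (c : ℕ → ℝ) (u : ℕ → ℝ) (K : ℕ) (h0 : 0 < K → u 1 = c 0 * u 0)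
    (hrec : ∀ k, k + 1 < K → u (k + 2) = c (k + 1) * u (k + 1) - u k) :
    ∀ k ≤ K, u k = u 0 * (itA c 0 k (1, 0)).1 := by
  have key : ∀ k, (k ≤ K → u k = u 0 * (itA c 0 k (1, 0)).1) ∧
      (k + 1 ≤ K → u k = u 0 * (itA c 0 (k + 1) (1, 0)).2) := by
    intro k
    induction k using Nat.strong_induction_on with
    | _ k ih =>
      have hfirst : k ≤ K → u k = u 0 * (itA c 0 k (1, 0)).1 := by
        intro hk
        match k, ih with
        | 0, _ => simp [itA]
        | 1, _ =>
          rw [h0 (by omega)]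
          simp [itA, act]; ring
        | k + 2, ih =>
          rw [hrec k (by omega), (ih (k + 1) (by omega)).1 (by omega),
            (ih k (by omega)).2 (by omega)]
          have e : itA c 0 (k + 2) (1, 0) = act (c (k + 1)) (itA c 0 (k + 1) (1, 0)) := by
            rw [itA, zero_add]
          rw [e]
          simp only [act]
          ring
      refine ⟨hfirst, fun hk => ?_⟩
      have e : itA c 0 (k + 1) (1, 0) = act (c k) (itA c 0 k (1, 0)) := by
        rw [itA, zero_add]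
      rw [e]
      simp only [act]
      exact hfirst (by omega)
  exact fun k hk => (key k).1 hk

end Pool.Agent.K9h27.LP
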