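import Pool.Agent.K9h27.LP.Contr

set_option autoImplicit false
set_option linter.unusedSimpArgs false
set_option linter.unusedSectionVars false

open MeasureTheory Set
open scoped ENNReal

namespace Pool.Agent.K9h27.LP

/-- one step of the transfer matrix -/
def act (c : ℝ) (z : ℝ × ℝ) : ℝ × ℝ := (c * z.1 - z.2, z.1)

/-- measurable functions that are homogeneous of degree `-1` -/
structure Hm (F : ℝ × ℝ → ℝ≥0∞) : Prop where
  meas : Measurable F
  hom : ∀ c : ℝ, c ≠ 0 → ∀ z : ℝ × ℝ, F (c * z.1, c * z.2) = ENNReal.ofReal |c|⁻¹ * F z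

/-- squared norm of a homogeneous function -/
noncomputable def N2 (F : ℝ × ℝ → ℝ≥0∞) : ℝ≥0∞ := ∫⁻ x, F (1, x) ^ 2

/-- averaged transfer operator -/
noncomputable def TT (ε c : ℝ) (F : ℝ × ℝ → ℝ≥0∞) (z : ℝ × ℝ) : ℝ≥0∞ :=
  ∫⁻ t, F (act (c - t) z) ∂(nu ε)

instance nu_sfinite (ε : ℝ) : SFinite (nu ε) := by unfold nu; infer_instance

theorem measurable_act : Measurable (fun p : ℝ × (ℝ × ℝ) => act p.1 p.2) := by
  unfold act; fun_prop

theorem Hm.act' {F : ℝ × ℝ → ℝ≥0∞} (hF : Hm F) (c : ℝ) : Hm (fun z => F (act c z)) := by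
  refine ⟨hF.meas.comp (by unfold act; fun_prop), fun d hd z => ?_⟩
  have : act c (d * z.1, d * z.2) = (d * (act c z).1, d * (act c z).2) := by
    simp only [act]; ext <;> simp <;> ring
  rw [this, hF.hom d hd]

theorem Hm.TT' {F : ℝ × ℝ → ℝ≥0∞} (hF : Hm F) (ε c : ℝ) : Hm (TT ε c F) := by
  refine ⟨?_, fun d hd z => ?_⟩
  · apply Measurable.lintegral_prod_right (f := fun (z : ℝ × ℝ) (t : ℝ) => F (act (c - t) z))
    unfold Function.uncurry
    exact hF.meas.comp (by unfold act; fun_prop)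
  · unfold TT
    rw [← lintegral_const_mul' _ _ ENNReal.ofReal_ne_top]
    refine lintegral_congr fun t => ?_
    exact (hF.act' (c - t)).hom d hd z

theorem Hm.chart {F : ℝ × ℝ → ℝ≥0∞} (hF : Hm F) (y : ℝ) (hy : y ≠ 0) :
    F (y, 1) = ENNReal.ofReal |y|⁻¹ * F (1, y⁻¹) := by
  have := hF.hom y hy (1, y⁻¹)
  simpa [hy] using this

theorem Hm.chart_set {F : ℝ × ℝ → ℝ≥0∞} (hF : Hm F) (s : Set ℝ) (hs : MeasurableSet s) :
    ∫⁻ y in {y : ℝ | y ≠ 0 ∧ y⁻¹ ∈ s}, F (y, 1) ^ 2 = ∫⁻ x in s, F (1, x) ^ 2 := by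
  rw [← inv_cv s hs]
  refine setLIntegral_congr_fun ?_ ?_
  · exact (measurableSet_singleton (0 : ℝ)).compl.inter (measurable_inv hs)
  · intro y hy
    simp only
    rw [hF.chart y hy.1, mul_pow, ENNReal.ofReal_pow (by positivity)]

theorem Hm.N2_chart {F : ℝ × ℝ → ℝ≥0∞} (hF : Hm F) : ∫⁻ y, F (y, 1) ^ 2 = N2 F := by
  have h := hF.chart_set Set.univ MeasurableSet.univ
  rw [setLIntegral_univ] at h
  rw [N2, ← h]
  have h2 : {y : ℝ | y ≠ 0 ∧ y⁻¹ ∈ (Set.univ : Set ℝ)} =ᵐ[volume] Set.univ := by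
    have : {y : ℝ | y ≠ 0 ∧ y⁻¹ ∈ (Set.univ : Set ℝ)} = Set.univ \ {0} := by
      ext y; simp
    rw [this]
    exact MeasureTheory.sdiff_null_ae_eq_self Real.volume_singleton
  rw [setLIntegral_congr h2, setLIntegral_univ]

theorem Hm.N2_act {F : ℝ × ℝ → ℝ≥0∞} (hF : Hm F) (c : ℝ) :
    N2 (fun z => F (act c z)) = N2 F := by
  rw [← hF.N2_chart, N2, ← lintegral_sub_left_eq_self (fun y => F (y, 1) ^ 2) c]
  refine lintegral_congr fun x => ?_
  simp [act]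

theorem TT_one (ε c : ℝ) (F : ℝ × ℝ → ℝ≥0∞) (x : ℝ) :
    TT ε c F (1, x) = ∫⁻ t, F (c - x - t, 1) ∂(nu ε) := by
  unfold TT
  refine lintegral_congr fun t => ?_
  simp only [act]
  congr 2
  ring

/-- Cauchy–Schwarz -/
theorem cs_lint {α : Type*} [MeasurableSpace α] (μ : Measure α) {f g : α → ℝ≥0∞}
    (hf : AEMeasurable f μ) (hg : AEMeasurable g μ) :
    (∫⁻ x, f x * g x ∂μ) ^ 2 ≤ (∫⁻ x, f x ^ 2 ∂μ) * ∫⁻ x, g x ^ 2 ∂μ := by
  have h := ENNReal.lintegral_mul_le_Lp_mul_Lq μ (Real.HolderConjugate.two_two) hf hg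
  simp only [Pi.mul_apply] at h
  have h2 := pow_le_pow_left₀ (zero_le) h 2
  refine h2.trans_eq ?_
  rw [mul_pow, ← ENNReal.rpow_natCast, ← ENNReal.rpow_mul, ← ENNReal.rpow_natCast,
    ← ENNReal.rpow_mul]
  norm_num

theorem jensen_lint {α : Type*} [MeasurableSpace α] (μ : Measure α) [IsProbabilityMeasure μ]
    {f : α → ℝ≥0∞} (hf : AEMeasurable f μ) :
    (∫⁻ x, f x ∂μ) ^ 2 ≤ ∫⁻ x, f x ^ 2 ∂μ := by
  have := cs_lint μ hf (aemeasurable_const (b := (1 : ℝ≥0∞)))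
  simpa using this

theorem Hm.sup_TT {F : ℝ × ℝ → ℝ≥0∞} (hF : Hm F) {ε : ℝ} (hε : 0 < ε) (c x : ℝ) :
    TT ε c F (1, x) ^ 2 ≤ (ENNReal.ofReal (2 * ε))⁻¹ * N2 F := by
  have := nu_prob hε
  rw [TT_one]
  refine (jensen_lint _ ?_).trans ?_
  · exact (hF.meas.comp (by fun_prop)).aemeasurable
  · refine (lintegral_nu_le ε _).trans ?_
    rw [lintegral_sub_left_eq_self (fun y => F (y, 1) ^ 2) (c - x), hF.N2_chart]

theorem Hm.N2_TT_le {F : ℝ × ℝ → ℝ≥0∞} (hF : Hm F) {ε : ℝ} (hε : 0 < ε) (c : ℝ) :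
    N2 (TT ε c F) ≤ N2 F := by
  have := nu_prob hε
  calc N2 (TT ε c F) ≤ ∫⁻ x, ∫⁻ t, F (act (c - t) (1, x)) ^ 2 ∂(nu ε) := by
        refine lintegral_mono fun x => ?_
        exact jensen_lint _ (hF.meas.comp (by unfold act; fun_prop)).aemeasurable
    _ = ∫⁻ t, (∫⁻ x, F (act (c - t) (1, x)) ^ 2) ∂(nu ε) := by
        rw [lintegral_lintegral_swap (by
          apply Measurable.aemeasurable
          unfold Function.uncurry
          exact (hF.meas.comp (by unfold act; fun_prop)).pow_const 2)]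
    _ = ∫⁻ t, N2 F ∂(nu ε) := lintegral_congr fun t => hF.N2_act (c - t)
    _ = N2 F := by simp

/-- representation of the averaged function by a real one -/
theorem rep_KK {ε : ℝ} (hε : 0 < ε) {G : ℝ → ℝ≥0∞} {g : ℝ → ℝ} (hg : Measurable g)
    (hg0 : ∀ y, 0 ≤ g y) (hN : NN g ≠ ∞) (hG : ∀ᵐ y, G y = ENNReal.ofReal (g y)) (z : ℝ) :
    ∫⁻ t, G (z - t) ∂(nu ε) = ENNReal.ofReal (KK ε g z) := by
  have := nu_prob hε
  have h1 : ∀ᵐ t ∂(nu ε), G (z - t) = ENNReal.ofReal (g (z - t)) := by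
    have hq : Measure.QuasiMeasurePreserving (fun t : ℝ => z - t) volume volume :=
      (Measure.measurePreserving_sub_left volume z).quasiMeasurePreserving
    have h2 : ∀ᵐ t : ℝ, G (z - t) = ENNReal.ofReal (g (z - t)) := hq.ae hG
    have hac : nu ε ≪ volume := by
      unfold nu
      exact (Measure.smul_absolutelyContinuous).trans Measure.restrict_le_self.absolutelyContinuous
    exact hac.ae_le h2
  rw [lintegral_congr_ae h1, KK, ofReal_integral_eq_lintegral_ofReal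
    ((memLp_shift hε hg hN z).integrable (by norm_num)) (ae_of_all _ fun t => hg0 _)]

theorem KK_nonneg (ε : ℝ) {g : ℝ → ℝ} (hg0 : ∀ y, 0 ≤ g y) (z : ℝ) : 0 ≤ KK ε g z :=
  integral_nonneg fun _ => hg0 _

/-- The Kunz Souillard contraction -/
theorem Hm.contr {F : ℝ × ℝ → ℝ≥0∞} (hF : Hm F) {ε : ℝ} (hε : 0 < ε) (c c' : ℝ) {M : ℕ}
    (hM : 64 ≤ M * ε) :
    (3 + 128 * (M : ℝ≥0∞) ^ 2) * N2 (TT ε c' (TT ε c F)) ≤ 128 * (M : ℝ≥0∞) ^ 2 * N2 F := by
  have := nu_prob hε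
  by_cases hN : N2 F = ∞
  · have hM0 : (M : ℝ≥0∞) ≠ 0 := by
      intro h
      have : M = 0 := by exact_mod_cast h
      rw [this] at hM; norm_num at hM
    rw [hN, ENNReal.mul_top (by positivity)]
    exact le_top
  set g0 : ℝ → ℝ := fun y => (F (y, 1)).toReal with hg0
  have hg0m : Measurable g0 := (hF.meas.comp (by fun_prop)).ennreal_toReal
  have hg00 : ∀ y, 0 ≤ g0 y := fun y => ENNReal.toReal_nonneg
  have hfin : ∀ᵐ y, F (y, 1) = ENNReal.ofReal (g0 y) := by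
    have h1 : ∫⁻ y, F (y, 1) ^ 2 ≠ ∞ := by rw [hF.N2_chart]; exact hN
    have h2 := ae_lt_top ((hF.meas.comp (by fun_prop : Measurable fun y : ℝ => (y, (1 : ℝ)))).pow_const 2) h1
    filter_upwards [h2] with y hy
    rw [hg0, ENNReal.ofReal_toReal]
    intro h
    simp [h] at hy
  have hNN0 : NN g0 = N2 F := by
    rw [← hF.N2_chart, NN]
    refine lintegral_congr_ae ?_
    filter_upwards [hfin] with y hy
    rw [hy, ENNReal.ofReal_pow (hg00 y)]
  have hT1 : ∀ x, TT ε c F (1, x) = ENNReal.ofReal (KK ε g0 (c - x)) := fun x => by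
    rw [TT_one]
    exact rep_KK hε hg0m hg00 (by rw [hNN0]; exact hN) hfin (c - x)
  set g1 : ℝ → ℝ := fun y => |y|⁻¹ * KK ε g0 (c - y⁻¹) with hg1
  have hKm := measurable_KK ε hg0m
  have hg1m : Measurable g1 := by
    rw [hg1]
    exact (measurable_id.abs.inv).mul (hKm.comp (measurable_const.sub measurable_inv))
  have hg10 : ∀ y, 0 ≤ g1 y := fun y => mul_nonneg (by positivity) (KK_nonneg ε hg00 _)
  have hrel : ∀ y, y ≠ 0 → g1 y ^ 2 = (|y|⁻¹) ^ 2 * (KK ε g0 (c - y⁻¹)) ^ 2 := fun y _ => by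
    rw [hg1, mul_pow]
  have hG1 : ∀ y, y ≠ 0 → TT ε c F (y, 1) = ENNReal.ofReal (g1 y) := fun y hy => by
    rw [(hF.TT' ε c).chart y hy, hT1, ← ENNReal.ofReal_mul (by positivity)]
  have hG1ae : ∀ᵐ y, TT ε c F (y, 1) = ENNReal.ofReal (g1 y) := by
    have : ∀ᵐ y : ℝ, y ≠ 0 := by
      rw [ae_iff]; simp
    filter_upwards [this] with y hy using hG1 y hy
  have hNN1 : NN g1 = N2 (TT ε c F) := by
    rw [← (hF.TT' ε c).N2_chart, NN]
    refine lintegral_congr_ae ?_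
    filter_upwards [hG1ae] with y hy
    rw [hy, ENNReal.ofReal_pow (hg10 y)]
  have hNN1' : NN g1 ≠ ∞ := by
    rw [hNN1]
    exact ne_top_of_le_ne_top hN (hF.N2_TT_le hε c)
  have hT2 : ∀ x, TT ε c' (TT ε c F) (1, x) = ENNReal.ofReal (KK ε g1 (c' - x)) := fun x => by
    rw [TT_one]
    exact rep_KK hε hg1m hg10 hNN1' hG1ae (c' - x)
  have hN2 : N2 (TT ε c' (TT ε c F)) = NN (KK ε g1) := by
    rw [N2, NN, ← lintegral_sub_left_eq_self (fun y => ENNReal.ofReal ((KK ε g1 y) ^ 2)) c']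
    refine lintegral_congr fun x => ?_
    rw [hT2, ENNReal.ofReal_pow (KK_nonneg ε hg10 _)]
  rw [hN2, ← hNN0]
  exact contr_real hε hg0m hg1m (by rw [hNN0]; exact hN) c hrel hM

end Pool.Agent.K9h27.LP
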