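import Pool.Agent.K9h27.LP.KS

set_option autoImplicit false
set_option linter.unusedSimpArgs false
set_option linter.unusedSectionVars false

open MeasureTheory Set
open scoped ENNReal

namespace Pool.Agent.K9h27.LP

/-- iterated averaged operator: `TT (c n) (TT (c (n+1)) (... TT (c (n+k-1)) F))` -/
noncomputable def itT (ε : ℝ) (c : ℕ → ℝ) (n : ℕ) : ℕ → (ℝ × ℝ → ℝ≥0∞) → (ℝ × ℝ → ℝ≥0∞)
  | 0, F => F
  | k + 1, F => itT ε c n k (TT ε (c (n + k)) F)

/-- iterated action, `act (c (n+k-1)) (... act (c n) z)` -/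
def itA (c : ℕ → ℝ) (n : ℕ) : ℕ → ℝ × ℝ → ℝ × ℝ
  | 0, z => z
  | k + 1, z => act (c (n + k)) (itA c n k z)

theorem itT_hm {ε : ℝ} {c : ℕ → ℝ} (n k : ℕ) {F : ℝ × ℝ → ℝ≥0∞} (hF : Hm F) :
    Hm (itT ε c n k F) := by
  induction k generalizing F with
  | zero => exact hF
  | succ k ih => exact ih (hF.TT' ε _)

theorem itT_succ' (ε : ℝ) (c : ℕ → ℝ) (n k : ℕ) (F : ℝ × ℝ → ℝ≥0∞) :
    itT ε c n (k + 1) F = TT ε (c n) (itT ε c (n + 1) k F) := by
  induction k generalizing F with
  | zero => simp [itT]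
  | succ k ih =>
    rw [itT, ih]
    conv_rhs => rw [itT]
    congr 4
    ring

theorem itA_hm {c : ℕ → ℝ} (n k : ℕ) {F : ℝ × ℝ → ℝ≥0∞} (hF : Hm F) :
    Hm (fun z => F (itA c n k z)) := by
  induction k generalizing F with
  | zero => exact hF
  | succ k ih => exact ih (hF.act' (c (n + k)))

theorem N2_itA {c : ℕ → ℝ} (n k : ℕ) {F : ℝ × ℝ → ℝ≥0∞} (hF : Hm F) :
    N2 (fun z => F (itA c n k z)) = N2 F := by
  induction k generalizing F with
  | zero => rfl
  | succ k ih =>
    have := ih (hF.act' (c (n + k)))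
    rw [hF.N2_act] at this
    exact this

theorem itA_add (c : ℕ → ℝ) (n k l : ℕ) (z : ℝ × ℝ) :
    itA c n (k + l) z = itA c (n + k) l (itA c n k z) := by
  induction l with
  | zero => rfl
  | succ l ih =>
    rw [← add_assoc, itA, ih, itA, add_assoc]

/-- contraction factor -/
noncomputable def rho (ε : ℝ) : ℝ :=
  128 * (⌈64 / ε⌉₊ : ℝ) ^ 2 / (3 + 128 * (⌈64 / ε⌉₊ : ℝ) ^ 2)

theorem rho_nonneg (ε : ℝ) : 0 ≤ rho ε := by unfold rho; positivity

theorem rho_lt_one (ε : ℝ) : rho ε < 1 := by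
  unfold rho
  rw [div_lt_one (by positivity)]
  linarith

theorem Hm.contr_rho {F : ℝ × ℝ → ℝ≥0∞} (hF : Hm F) {ε : ℝ} (hε : 0 < ε) (c c' : ℝ) :
    N2 (TT ε c' (TT ε c F)) ≤ ENNReal.ofReal (rho ε) * N2 F := by
  set M : ℕ := ⌈64 / ε⌉₊ with hM
  have h1 : 64 ≤ (M : ℝ) * ε := by
    have := Nat.le_ceil (64 / ε)
    rw [div_le_iff₀ hε] at this
    exact this
  have h2 := hF.contr hε c c' h1
  have e3 : (3 + 128 * (M : ℝ≥0∞) ^ 2) = ENNReal.ofReal (3 + 128 * (M : ℝ) ^ 2) := by
    rw [ENNReal.ofReal_add (by norm_num) (by positivity), ENNReal.ofReal_mul (by norm_num),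
      ENNReal.ofReal_pow (by positivity)]
    simp
  have e4 : (128 * (M : ℝ≥0∞) ^ 2) = ENNReal.ofReal (128 * (M : ℝ) ^ 2) := by
    rw [ENNReal.ofReal_mul (by norm_num), ENNReal.ofReal_pow (by positivity)]
    simp
  have h3 : (3 + 128 * (M : ℝ≥0∞) ^ 2) * N2 (TT ε c' (TT ε c F)) ≤
      (3 + 128 * (M : ℝ≥0∞) ^ 2) * (ENNReal.ofReal (rho ε) * N2 F) := by
    refine h2.trans_eq ?_
    rw [← mul_assoc]
    congr 1
    rw [e3, e4, ← ENNReal.ofReal_mul (by positivity)]
    congr 1
    unfold rho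
    rw [← hM]
    field_simp
  refine (ENNReal.mul_le_mul_iff_right ?_ ?_).1 h3
  · positivity
  · rw [e3]; exact ENNReal.ofReal_ne_top

theorem N2_itT_le {ε : ℝ} (hε : 0 < ε) (c : ℕ → ℝ) (n k : ℕ) {F : ℝ × ℝ → ℝ≥0∞} (hF : Hm F) :
    N2 (itT ε c n k F) ≤ ENNReal.ofReal (rho ε) ^ (k / 2) * N2 F := by
  induction k using Nat.strong_induction_on generalizing F with
  | _ k ih =>
    match k, ih with
    | 0, _ => simp [itT]
    | 1, _ => simpa [itT] using hF.N2_TT_le hε _
    | k + 2, ih =>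
      have h1 := ih k (by omega) ((hF.TT' ε (c (n + (k + 1)))).TT' ε (c (n + k)))
      have h2 := hF.contr_rho hε (c (n + (k + 1))) (c (n + k))
      rw [itT, itT]
      refine h1.trans ?_
      have e : (k + 2) / 2 = k / 2 + 1 := by omega
      rw [e, pow_succ, mul_assoc]
      gcongr

theorem ennreal_add_sq_le (a b : ℝ≥0∞) : (a + b) ^ 2 ≤ 2 * (a ^ 2 + b ^ 2) := by
  have h := ENNReal.rpow_add_le_mul_rpow_add_rpow a b (p := 2) (by norm_num)
  norm_num at h
  exact_mod_cast h

/-- smoothing: `L¹` on a bounded region plus a tail -/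
theorem smoothing {F : ℝ × ℝ → ℝ≥0∞} (hF : Hm F) {ε : ℝ} (hε : 0 < ε) (c : ℝ) {Y : ℝ}
    (hY : 0 < Y) :
    N2 (TT ε c F) ≤ 2 * ((ENNReal.ofReal (2 * ε))⁻¹ * (∫⁻ y in Icc (-Y) Y, F (y, 1)) ^ 2) +
      2 * ∫⁻ x in Icc (-Y⁻¹) Y⁻¹, F (1, x) ^ 2 := by
  have := nu_prob hε
  set A : ℝ → ℝ≥0∞ := (Icc (-Y) Y).indicator (fun y => F (y, 1)) with hA
  set B : ℝ → ℝ≥0∞ := ((Icc (-Y) Y)ᶜ).indicator (fun y => F (y, 1)) with hB
  have hFm : Measurable fun y : ℝ => F (y, 1) := hF.meas.comp (by fun_prop)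
  have hAm : Measurable A := hFm.indicator measurableSet_Icc
  have hBm : Measurable B := hFm.indicator measurableSet_Icc.compl
  have hAB : ∀ y, F (y, 1) = A y + B y := fun y => by
    rw [hA, hB]
    exact (congrFun (Set.indicator_self_add_compl (Icc (-Y) Y) (fun y => F (y, 1))) y).symm
  have hsplit : ∀ x, TT ε c F (1, x) ^ 2 ≤
      2 * (∫⁻ t, A (c - x - t) ∂(nu ε)) ^ 2 + 2 * (∫⁻ t, B (c - x - t) ∂(nu ε)) ^ 2 := by
    intro x
    rw [TT_one]
    simp only [hAB]
    rw [lintegral_add_left (by fun_prop)]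
    rw [← mul_add]
    exact ennreal_add_sq_le _ _
  have hA1 : ∀ x, ∫⁻ t, A (c - x - t) ∂(nu ε) ≤
      (ENNReal.ofReal (2 * ε))⁻¹ * ∫⁻ y in Icc (-Y) Y, F (y, 1) := fun x => by
    refine (lintegral_nu_le ε _).trans ?_
    rw [lintegral_sub_left_eq_self A (c - x), hA, lintegral_indicator measurableSet_Icc]
  have hA2 : ∫⁻ x, (∫⁻ t, A (c - x - t) ∂(nu ε)) = ∫⁻ y in Icc (-Y) Y, F (y, 1) := by
    rw [lintegral_lintegral_swap (by
      apply Measurable.aemeasurable
      unfold Function.uncurry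
      fun_prop)]
    have : ∀ t, ∫⁻ x, A (c - x - t) = ∫⁻ y in Icc (-Y) Y, F (y, 1) := fun t => by
      have e : ∀ x, A (c - x - t) = A ((c - t) - x) := fun x => by congr 1; ring
      simp only [e]
      rw [lintegral_sub_left_eq_self A (c - t), hA, lintegral_indicator measurableSet_Icc]
    simp only [this]
    simp
  have hAfin : ∫⁻ x, (∫⁻ t, A (c - x - t) ∂(nu ε)) ^ 2 ≤
      (ENNReal.ofReal (2 * ε))⁻¹ * (∫⁻ y in Icc (-Y) Y, F (y, 1)) ^ 2 := by
    calc ∫⁻ x, (∫⁻ t, A (c - x - t) ∂(nu ε)) ^ 2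
        ≤ ∫⁻ x, ((ENNReal.ofReal (2 * ε))⁻¹ * ∫⁻ y in Icc (-Y) Y, F (y, 1)) *
            ∫⁻ t, A (c - x - t) ∂(nu ε) := by
          refine lintegral_mono fun x => ?_
          rw [sq]
          gcongr
          exact hA1 x
      _ = _ := by
          rw [lintegral_const_mul _ (by
            apply Measurable.lintegral_prod_right (f := fun (x t : ℝ) => A (c - x - t))
            unfold Function.uncurry
            fun_prop), hA2, sq, mul_assoc]
  have hBfin : ∫⁻ x, (∫⁻ t, B (c - x - t) ∂(nu ε)) ^ 2 ≤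
      ∫⁻ x in Icc (-Y⁻¹) Y⁻¹, F (1, x) ^ 2 := by
    calc ∫⁻ x, (∫⁻ t, B (c - x - t) ∂(nu ε)) ^ 2
        ≤ ∫⁻ x, ∫⁻ t, B (c - x - t) ^ 2 ∂(nu ε) := by
          refine lintegral_mono fun x => ?_
          exact jensen_lint _ (by fun_prop)
      _ = ∫⁻ t, (∫⁻ x, B (c - x - t) ^ 2) ∂(nu ε) := by
          rw [lintegral_lintegral_swap (by
            apply Measurable.aemeasurable
            unfold Function.uncurry
            fun_prop)]
      _ = ∫⁻ t, (∫⁻ y, B y ^ 2) ∂(nu ε) := by
          refine lintegral_congr fun t => ?_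
          have e : ∀ x, B (c - x - t) ^ 2 = (fun y => B y ^ 2) ((c - t) - x) := fun x => by
            simp only; congr 2; ring
          simp only [e]
          exact lintegral_sub_left_eq_self (fun y => B y ^ 2) (c - t)
      _ = ∫⁻ y, B y ^ 2 := by simp
      _ = ∫⁻ y in (Icc (-Y) Y)ᶜ, F (y, 1) ^ 2 := by
          rw [← lintegral_indicator measurableSet_Icc.compl]
          refine lintegral_congr fun y => ?_
          simp only [hB, Set.indicator_apply]
          split_ifs <;> simp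
      _ ≤ ∫⁻ y in {y : ℝ | y ≠ 0 ∧ y⁻¹ ∈ Icc (-Y⁻¹) Y⁻¹}, F (y, 1) ^ 2 := by
          refine lintegral_mono_set ?_
          intro y hy
          rw [Set.mem_compl_iff, Set.mem_Icc, not_and_or, not_le, not_le] at hy
          have hy1 : Y ≤ |y| := by
            rcases hy with hy | hy
            · rw [abs_of_neg (by linarith)]; linarith
            · rw [abs_of_pos (by linarith)]; linarith
          have hy0 : y ≠ 0 := by
            intro h0; rw [h0, abs_zero] at hy1; linarith
          refine ⟨hy0, ?_⟩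
          rw [Set.mem_Icc, ← abs_le, abs_inv]
          exact inv_anti₀ hY hy1
      _ = _ := hF.chart_set _ measurableSet_Icc
  calc N2 (TT ε c F) ≤ ∫⁻ x, (2 * (∫⁻ t, A (c - x - t) ∂(nu ε)) ^ 2 +
        2 * (∫⁻ t, B (c - x - t) ∂(nu ε)) ^ 2) := lintegral_mono hsplit
    _ = (2 * ∫⁻ x, (∫⁻ t, A (c - x - t) ∂(nu ε)) ^ 2) +
        2 * ∫⁻ x, (∫⁻ t, B (c - x - t) ∂(nu ε)) ^ 2 := by
        have mA : Measurable fun x => ∫⁻ t, A (c - x - t) ∂(nu ε) := by
          apply Measurable.lintegral_prod_right (f := fun (x t : ℝ) => A (c - x - t))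
          unfold Function.uncurry
          fun_prop
        have mB : Measurable fun x => ∫⁻ t, B (c - x - t) ∂(nu ε) := by
          apply Measurable.lintegral_prod_right (f := fun (x t : ℝ) => B (c - x - t))
          unfold Function.uncurry
          fun_prop
        rw [lintegral_add_left (by fun_prop), lintegral_const_mul _ (by fun_prop),
          lintegral_const_mul _ (by fun_prop)]
    _ ≤ _ := by gcongr

/-! ### resampling -/

variable {ι : Type*} [Fintype ι] [DecidableEq ι]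

theorem resample (μ : ι → Measure ℝ) [∀ i, IsProbabilityMeasure (μ i)] (i : ι)
    {f : (ι → ℝ) → ℝ≥0∞} (hf : Measurable f) :
    ∫⁻ w, f w ∂(Measure.pi μ) =
      ∫⁻ w, ∫⁻ t, f (Function.update w i t) ∂(μ i) ∂(Measure.pi μ) := by
  set g : (ι → ℝ) → ℝ≥0∞ := fun w => ∫⁻ t, f (Function.update w i t) ∂(μ i) with hg
  have hgm : Measurable g := by
    rw [hg]
    apply Measurable.lintegral_prod_right
      (f := fun (w : ι → ℝ) (t : ℝ) => f (Function.update w i t))
    unfold Function.uncurry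
    refine hf.comp ?_
    exact measurable_update' (a := i)
  have x0 : ι → ℝ := fun _ => 0
  rw [lintegral_eq_lmarginal_univ (μ := μ) x0, lintegral_eq_lmarginal_univ (μ := μ) x0,
    lmarginal_erase' f hf (Finset.mem_univ i), lmarginal_erase' g hgm (Finset.mem_univ i)]
  have : (fun x => ∫⁻ t, g (Function.update x i t) ∂(μ i)) = g := by
    funext x
    simp only [hg, Function.update_idem]
    simp
  rw [this]

omit [Fintype ι] [DecidableEq ι] in
theorem itA_congr {c c' : ℕ → ℝ} {n k : ℕ} (h : ∀ j, n ≤ j → j < n + k → c j = c' j)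
    (z : ℝ × ℝ) : itA c n k z = itA c' n k z := by
  induction k with
  | zero => rfl
  | succ k ih =>
    rw [itA, itA, ih (fun j h1 h2 => h j h1 (by omega)), h (n + k) (by omega) (by omega)]

theorem measurable_itA {α : Type*} [MeasurableSpace α] {c : α → ℕ → ℝ}
    (hc : ∀ j, Measurable fun a => c a j) {X : α → ℝ × ℝ} (hX : Measurable X) (n k : ℕ) :
    Measurable fun a => itA (c a) n k (X a) := by
  induction k with
  | zero => exact hX
  | succ k ih =>
    have h1 := hc (n + k)
    have : (fun a => itA (c a) n (k + 1) (X a)) =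
        fun a => (fun p : ℝ × (ℝ × ℝ) => act p.1 p.2) (c a (n + k), itA (c a) n k (X a)) := by
      funext a; rfl
    rw [this]
    exact measurable_act.comp (h1.prodMk ih)

theorem resample_it {ε : ℝ} (hε : 0 < ε) (b : ℕ → ℝ) (σ : ℕ → ι) (n k : ℕ)
    (hσ : ∀ i j, n ≤ i → i < n + k → n ≤ j → j < n + k → σ i = σ j → i = j)
    {X : (ι → ℝ) → ℝ × ℝ} (hXm : Measurable X)
    (hX : ∀ j, n ≤ j → j < n + k → ∀ w t, X (Function.update w (σ j) t) = X w)
    {Ξ : (ι → ℝ) → ℝ≥0∞} (hΞm : Measurable Ξ)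
    (hΞ : ∀ j, n ≤ j → j < n + k → ∀ w t, Ξ (Function.update w (σ j) t) = Ξ w)
    {F : (ι → ℝ) → ℝ × ℝ → ℝ≥0∞} (hFm : Measurable (Function.uncurry F))
    (hF : ∀ j, n ≤ j → j < n + k → ∀ w t, F (Function.update w (σ j) t) = F w) :
    ∫⁻ w, Ξ w * F w (itA (fun j => b j - w (σ j)) n k (X w)) ∂(Measure.pi fun _ : ι => nu ε) =
      ∫⁻ w, Ξ w * itT ε b n k (F w) (X w) ∂(Measure.pi fun _ : ι => nu ε) := by
  have := nu_prob hε
  induction k generalizing F with
  | zero => rfl
  | succ k ih =>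
    have hPm : Measurable fun w : ι → ℝ => itA (fun j => b j - w (σ j)) n k (X w) :=
      measurable_itA (c := fun (w : ι → ℝ) j => b j - w (σ j)) (fun j => by fun_prop) hXm n k
    set i := σ (n + k) with hi
    have hPi : ∀ w t, itA (fun j => b j - (Function.update w i t) (σ j)) n k
        (X (Function.update w i t)) = itA (fun j => b j - w (σ j)) n k (X w) := by
      intro w t
      rw [hX (n + k) (by omega) (by omega)]
      refine itA_congr (fun j h1 h2 => ?_) _
      have hne : σ j ≠ i := by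
        intro h
        have := hσ j (n + k) h1 (by omega) (by omega) (by omega) h
        omega
      rw [Function.update_of_ne hne]
    have hfm : Measurable fun w : ι → ℝ =>
        Ξ w * F w (itA (fun j => b j - w (σ j)) n (k + 1) (X w)) := by
      refine hΞm.mul ?_
      have hAm : Measurable fun w : ι → ℝ => itA (fun j => b j - w (σ j)) n (k + 1) (X w) :=
        measurable_itA (c := fun (w : ι → ℝ) j => b j - w (σ j)) (fun j => by fun_prop) hXm n
          (k + 1)
      exact hFm.comp (measurable_id.prodMk hAm)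
    rw [resample (fun _ : ι => nu ε) i hfm]
    have h1 : ∀ w : ι → ℝ, ∫⁻ t, Ξ (Function.update w i t) * F (Function.update w i t)
        (itA (fun j => b j - (Function.update w i t) (σ j)) n (k + 1)
          (X (Function.update w i t))) ∂(nu ε) =
        Ξ w * TT ε (b (n + k)) (F w) (itA (fun j => b j - w (σ j)) n k (X w)) := by
      intro w
      have e : ∀ t, Ξ (Function.update w i t) * F (Function.update w i t)
        (itA (fun j => b j - (Function.update w i t) (σ j)) n (k + 1)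
          (X (Function.update w i t))) = Ξ w * F w (act (b (n + k) - t)
            (itA (fun j => b j - w (σ j)) n k (X w))) := by
        intro t
        rw [hΞ (n + k) (by omega) (by omega), hF (n + k) (by omega) (by omega), itA, hPi w t]
        rw [← hi, Function.update_self]
      simp only [e]
      rw [lintegral_const_mul _ (by
        have h2 : Measurable fun t : ℝ => (w, act (b (n + k) - t)
            (itA (fun j => b j - w (σ j)) n k (X w))) := by unfold act; fun_prop
        exact hFm.comp h2)]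
      rfl
    simp only [h1]
    have hF'm : Measurable (Function.uncurry fun w : ι → ℝ => TT ε (b (n + k)) (F w)) := by
      unfold TT
      apply Measurable.lintegral_prod_right
        (f := fun (p : (ι → ℝ) × (ℝ × ℝ)) (t : ℝ) => F p.1 (act (b (n + k) - t) p.2))
      have h2 : Measurable fun q : ((ι → ℝ) × (ℝ × ℝ)) × ℝ =>
          (q.1.1, act (b (n + k) - q.2) q.1.2) := by unfold act; fun_prop
      exact hFm.comp h2
    have := ih (fun i j h1 h2 h3 h4 => hσ i j h1 (by omega) h3 (by omega))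
      (fun j h1 h2 => hX j h1 (by omega)) (fun j h1 h2 => hΞ j h1 (by omega)) hF'm
      (fun j h1 h2 w t => by
        funext z
        simp only [TT]
        rw [hF j h1 (by omega)])
    rw [this]
    rfl

end Pool.Agent.K9h27.LP
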