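import Pool.Agent.K9h27.LP.KS2

set_option autoImplicit false
set_option linter.unusedSimpArgs false
set_option linter.unusedSectionVars false

open MeasureTheory Set
open scoped ENNReal

namespace Pool.Agent.K9h27.LP

/-- inverse norm -/
noncomputable def F0 (z : ℝ × ℝ) : ℝ≥0∞ := ENNReal.ofReal (Real.sqrt (z.1 ^ 2 + z.2 ^ 2))⁻¹

theorem F0_hm : Hm F0 := by
  refine ⟨by unfold F0; fun_prop, fun c hc z => ?_⟩
  unfold F0
  have : (c * z.1) ^ 2 + (c * z.2) ^ 2 = c ^ 2 * (z.1 ^ 2 + z.2 ^ 2) := by ring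
  simp only [this]
  rw [Real.sqrt_mul (sq_nonneg c), Real.sqrt_sq_eq_abs, mul_inv, ENNReal.ofReal_mul (by positivity)]

theorem N2_F0 : N2 F0 = ENNReal.ofReal Real.pi := by
  unfold N2 F0
  have : ∀ x : ℝ, ENNReal.ofReal (Real.sqrt ((1 : ℝ) ^ 2 + x ^ 2))⁻¹ ^ 2 =
      ENNReal.ofReal ((1 + x ^ 2)⁻¹) := fun x => by
    rw [← ENNReal.ofReal_pow (by positivity), inv_pow, Real.sq_sqrt (by positivity), one_pow]
  simp only [this]
  rw [← ofReal_integral_eq_lintegral_ofReal integrable_inv_one_add_sq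
    (ae_of_all _ fun x => by positivity), integral_univ_inv_one_add_sq]

theorem act_ne {c : ℝ} {z : ℝ × ℝ} (hz : z ≠ 0) : act c z ≠ 0 := by
  intro h
  apply hz
  unfold act at h
  have h1 := congrArg Prod.fst h
  have h2 := congrArg Prod.snd h
  simp only [Prod.fst_zero, Prod.snd_zero] at h1 h2
  rw [h2] at h1
  ext
  · exact h2
  · simp only [Prod.snd_zero]; linarith

theorem itA_ne {c : ℕ → ℝ} {n k : ℕ} {z : ℝ × ℝ} (hz : z ≠ 0) : itA c n k z ≠ 0 := by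
  induction k with
  | zero => exact hz
  | succ k ih => exact act_ne ih

theorem itA_succ' (c : ℕ → ℝ) (n k : ℕ) (z : ℝ × ℝ) :
    itA c n (k + 1) z = itA c (n + 1) k (act (c n) z) := by
  have h := itA_add c n 1 k z
  rw [add_comm 1 k] at h
  rw [h]
  rfl

theorem Hm.point_bound {G : ℝ × ℝ → ℝ≥0∞} (hG : Hm G) {B : ℝ≥0∞}
    (hB : ∀ x, G (1, x) ^ 2 ≤ B) (z : ℝ × ℝ) :
    ENNReal.ofReal |z.1| * G z ≤ B ^ (1 / 2 : ℝ) := by
  have hB' : ∀ x, G (1, x) ≤ B ^ (1 / 2 : ℝ) := fun x => by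
    have := ENNReal.rpow_le_rpow (hB x) (by norm_num : (0 : ℝ) ≤ 1 / 2)
    rwa [← ENNReal.rpow_natCast, ← ENNReal.rpow_mul, show ((2 : ℕ) : ℝ) * (1 / 2) = 1 by norm_num,
      ENNReal.rpow_one] at this
  by_cases hz : z.1 = 0
  · rw [hz]; simp
  · have h := hG.hom z.1 hz (1, z.2 / z.1)
    have e : ((z.1 * (1, z.2 / z.1).1, z.1 * (1, z.2 / z.1).2) : ℝ × ℝ) = z := by
      ext
      · simp
      · simp only; field_simp
    rw [e] at h
    rw [h, ← mul_assoc, ← ENNReal.ofReal_mul (abs_nonneg _), mul_inv_cancel₀ (abs_ne_zero.2 hz),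
      ENNReal.ofReal_one, one_mul]
    exact hB' _

variable {ι κι : Type*} [Fintype ι] [DecidableEq ι] [Fintype κι] [DecidableEq κι]

/-- combined energies minus potentials -/
def cc (b : ℕ → ℝ) (κ : ℕ → κι) (σ : ℕ → ι) (a : κι → ℝ) (w : ι → ℝ) (j : ℕ) : ℝ :=
  b j - a (κ j) - w (σ j)

/-- solution vector -/
def ZZ (b : ℕ → ℝ) (κ : ℕ → κι) (σ : ℕ → ι) (a : κι → ℝ) (w : ι → ℝ) (j : ℕ) : ℝ × ℝ :=
  itA (cc b κ σ a w) 0 j (1, 0)

/-- the function of the near sites -/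
noncomputable def Fn (b : ℕ → ℝ) (κ : ℕ → κι) (σ : ℕ → ι) (r D : ℕ) (a : κι → ℝ) (w : ι → ℝ)
    (z : ℝ × ℝ) : ℝ≥0∞ := F0 (itA (cc b κ σ a w) r D z)

theorem Fn_hm (b : ℕ → ℝ) (κ : ℕ → κι) (σ : ℕ → ι) (r D : ℕ) (a : κι → ℝ) (w : ι → ℝ) :
    Hm (Fn b κ σ r D a w) := itA_hm r D F0_hm

theorem measurable_cc (b : ℕ → ℝ) (κ : ℕ → κι) (σ : ℕ → ι) (j : ℕ) :
    Measurable fun p : (κι → ℝ) × (ι → ℝ) => cc b κ σ p.1 p.2 j := by
  unfold cc; fun_prop

theorem measurable_ZZ (b : ℕ → ℝ) (κ : ℕ → κι) (σ : ℕ → ι) (j : ℕ) :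
    Measurable fun p : (κι → ℝ) × (ι → ℝ) => ZZ b κ σ p.1 p.2 j :=
  measurable_itA (c := fun p : (κι → ℝ) × (ι → ℝ) => cc b κ σ p.1 p.2)
    (fun j => measurable_cc b κ σ j) measurable_const 0 j

theorem measurable_Fn (b : ℕ → ℝ) (κ : ℕ → κι) (σ : ℕ → ι) (r D : ℕ) :
    Measurable fun p : ((κι → ℝ) × (ι → ℝ)) × (ℝ × ℝ) => Fn b κ σ r D p.1.1 p.1.2 p.2 :=
  F0_hm.meas.comp (measurable_itA
    (c := fun p : ((κι → ℝ) × (ι → ℝ)) × (ℝ × ℝ) => cc b κ σ p.1.1 p.1.2)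
    (fun j => (measurable_cc b κ σ j).comp measurable_fst) measurable_snd r D)

theorem cc_update_w {b : ℕ → ℝ} {κ : ℕ → κι} {σ : ℕ → ι} {a : κι → ℝ} {w : ι → ℝ} {i : ι} {t : ℝ}
    {j : ℕ} (h : σ j ≠ i) : cc b κ σ a (Function.update w i t) j = cc b κ σ a w j := by
  unfold cc
  rw [Function.update_of_ne h]

theorem cc_update_a {b : ℕ → ℝ} {κ : ℕ → κι} {σ : ℕ → ι} {a : κι → ℝ} {w : ι → ℝ} {i : κι} {t : ℝ}
    {j : ℕ} (h : κ j ≠ i) : cc b κ σ (Function.update a i t) w j = cc b κ σ a w j := by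
  unfold cc
  rw [Function.update_of_ne h]

theorem far_phase {εw : ℝ} (hw : 0 < εw) (b : ℕ → ℝ) (κ : ℕ → κι) (σ : ℕ → ι) (r D n m : ℕ)
    (hn : n + m + 2 = r) (hσ : ∀ i j, i < r + D → j < r + D → σ i = σ j → i = j) (a : κι → ℝ) :
    ∫⁻ w, ENNReal.ofReal |(ZZ b κ σ a w n).1| * F0 (ZZ b κ σ a w (r + D))
        ∂(Measure.pi fun _ : ι => nu εw) ≤
      ∫⁻ w, ((ENNReal.ofReal (2 * εw))⁻¹ * (ENNReal.ofReal (rho εw) ^ (m / 2) *
        N2 (TT εw (b (n + m + 1) - a (κ (n + m + 1))) (Fn b κ σ r D a w)))) ^ (1 / 2 : ℝ)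
        ∂(Measure.pi fun _ : ι => nu εw) := by
  set b' : ℕ → ℝ := fun j => b j - a (κ j) with hb'
  have hXm : Measurable fun w : ι → ℝ => ZZ b κ σ a w n :=
    (measurable_ZZ b κ σ n).comp (measurable_const.prodMk measurable_id)
  have h1 : ∀ w : ι → ℝ, ENNReal.ofReal |(ZZ b κ σ a w n).1| * F0 (ZZ b κ σ a w (r + D)) =
      ENNReal.ofReal |(ZZ b κ σ a w n).1| * Fn b κ σ r D a w
        (itA (fun j => b' j - w (σ j)) n (m + 2) (ZZ b κ σ a w n)) := by
    intro w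
    unfold Fn
    have e1 : itA (fun j => b' j - w (σ j)) n (m + 2) (ZZ b κ σ a w n) = ZZ b κ σ a w r := by
      have h := itA_add (cc b κ σ a w) 0 n (m + 2) (1, 0)
      rw [show n + (m + 2) = r by omega, zero_add] at h
      unfold ZZ
      rw [h]
      rfl
    rw [e1]
    have h := itA_add (cc b κ σ a w) 0 r D (1, 0)
    rw [zero_add] at h
    unfold ZZ
    rw [h]
  rw [lintegral_congr h1]
  have hinvZ : ∀ j, n ≤ j → j < n + (m + 2) → ∀ (w : ι → ℝ) (t : ℝ),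
      ZZ b κ σ a (Function.update w (σ j) t) n = ZZ b κ σ a w n := by
    intro j h1 h2 w t
    unfold ZZ
    refine itA_congr (fun i hi1 hi2 => ?_) _
    refine cc_update_w ?_
    intro h
    have := hσ i j (by omega) (by omega) h
    omega
  have hinvF : ∀ j, n ≤ j → j < n + (m + 2) → ∀ (w : ι → ℝ) (t : ℝ),
      Fn b κ σ r D a (Function.update w (σ j) t) = Fn b κ σ r D a w := by
    intro j h1 h2 w t
    funext z
    unfold Fn
    congr 1
    refine itA_congr (fun i hi1 hi2 => ?_) _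
    refine cc_update_w ?_
    intro h
    have := hσ i j (by omega) (by omega) h
    omega
  have hFmeas : Measurable (Function.uncurry fun w : ι → ℝ => Fn b κ σ r D a w) := by
    have h2 : Measurable fun q : (ι → ℝ) × (ℝ × ℝ) => ((a, q.1), q.2) := by fun_prop
    have h3 := (measurable_Fn b κ σ r D).comp h2
    simp only [Function.comp_def] at h3
    rw [Function.uncurry_def]
    exact h3
  have hΞm : Measurable fun w : ι → ℝ => ENNReal.ofReal |(ZZ b κ σ a w n).1| := by fun_prop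
  have hres := resample_it hw b' σ n (m + 2)
    (fun i j h1 h2 h3 h4 h5 => hσ i j (by omega) (by omega) h5) hXm hinvZ hΞm
    (fun j h1 h2 w t => by rw [hinvZ j h1 h2 w t]) hFmeas hinvF
  refine hres.trans_le ?_
  refine lintegral_mono fun w => ?_
  have hFn := Fn_hm b κ σ r D a w
  have hG : Hm (itT εw b' n (m + 2) (Fn b κ σ r D a w)) := itT_hm _ _ hFn
  refine hG.point_bound (fun x => ?_) _
  rw [itT_succ']
  refine ((itT_hm _ _ hFn).sup_TT hw _ _).trans ?_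
  gcongr
  have e4 : n + 1 + m = n + m + 1 := by omega
  rw [itT, e4]
  exact N2_itT_le hw b' (n + 1) m (hFn.TT' _ _)

theorem sqrt_jensen {α : Type*} [MeasurableSpace α] (μ : Measure α) [IsProbabilityMeasure μ]
    {f : α → ℝ≥0∞} (hf : AEMeasurable f μ) :
    ∫⁻ x, f x ^ (1 / 2 : ℝ) ∂μ ≤ (∫⁻ x, f x ∂μ) ^ (1 / 2 : ℝ) := by
  have h := jensen_lint μ (hf.pow_const (1 / 2 : ℝ))
  have e : ∀ x, (f x ^ (1 / 2 : ℝ)) ^ 2 = f x := fun x => by
    rw [← ENNReal.rpow_natCast, ← ENNReal.rpow_mul]; norm_num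
  simp only [e] at h
  have h2 := ENNReal.rpow_le_rpow h (by norm_num : (0 : ℝ) ≤ 1 / 2)
  rwa [← ENNReal.rpow_natCast, ← ENNReal.rpow_mul, show ((2 : ℕ) : ℝ) * (1 / 2) = 1 by norm_num,
    ENNReal.rpow_one] at h2

theorem ofReal_half {x : ℝ} (hx : 0 ≤ x) :
    (ENNReal.ofReal x) ^ (1 / 2 : ℝ) = ENNReal.ofReal (Real.sqrt x) := by
  rw [ENNReal.ofReal_rpow_of_nonneg hx (by norm_num), Real.sqrt_eq_rpow]

theorem half_of_sq_le {a b : ℝ≥0∞} (h : a ^ 2 ≤ b) : a ≤ b ^ (1 / 2 : ℝ) := by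
  have h2 := ENNReal.rpow_le_rpow h (by norm_num : (0 : ℝ) ≤ 1 / 2)
  rwa [← ENNReal.rpow_natCast, ← ENNReal.rpow_mul, show ((2 : ℕ) : ℝ) * (1 / 2) = 1 by norm_num,
    ENNReal.rpow_one] at h2

theorem near_expect {εa : ℝ} (ha : 0 < εa) (b : ℕ → ℝ) (κ : ℕ → κι) (σ : ℕ → ι) (r D : ℕ)
    (hκ : ∀ i j, r ≤ i → i < r + D → r ≤ j → j < r + D → κ i = κ j → i = j) (w : ι → ℝ)
    (z : ℝ × ℝ) :
    ∫⁻ a, Fn b κ σ r D a w z ∂(Measure.pi fun _ : κι => nu εa) =
      itT εa (fun j => b j - w (σ j)) r D F0 z := by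
  have := nu_prob ha
  have h := resample_it ha (fun j => b j - w (σ j)) κ r D hκ (X := fun _ => z)
    measurable_const (fun _ _ _ _ _ => rfl) (Ξ := fun _ => 1) measurable_const
    (fun _ _ _ _ _ => rfl) (F := fun _ => F0) (by
      rw [Function.uncurry_def]
      exact F0_hm.meas.comp measurable_snd) (fun _ _ _ _ _ => rfl)
  simp only [one_mul, lintegral_const, measure_univ, mul_one] at h
  rw [← h]
  refine lintegral_congr fun a => ?_
  unfold Fn
  congr 1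
  refine itA_congr (fun j _ _ => ?_) z
  unfold cc
  ring

theorem near_L1 {εa : ℝ} (ha : 0 < εa) (b : ℕ → ℝ) (κ : ℕ → κι) (σ : ℕ → ι) (r D : ℕ)
    (hκ : ∀ i j, r ≤ i → i < r + D → r ≤ j → j < r + D → κ i = κ j → i = j) (w : ι → ℝ)
    (Y : ℝ) :
    ∫⁻ a, (∫⁻ y in Icc (-Y) Y, Fn b κ σ r D a w (y, 1)) ∂(Measure.pi fun _ : κι => nu εa) ≤
      (ENNReal.ofReal (2 * Y) * (ENNReal.ofReal (rho εa) ^ (D / 2) * N2 F0)) ^ (1 / 2 : ℝ) := by
  have := nu_prob ha
  have hm : Measurable fun p : (κι → ℝ) × ℝ => Fn b κ σ r D p.1 w (p.2, 1) := by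
    have h2 : Measurable fun q : (κι → ℝ) × ℝ => ((q.1, w), (q.2, (1 : ℝ))) := by fun_prop
    have h3 := (measurable_Fn b κ σ r D).comp h2
    simp only [Function.comp_def] at h3
    exact h3
  rw [lintegral_lintegral_swap (by rw [Function.uncurry_def]; exact hm.aemeasurable)]
  have h1 : ∀ y, ∫⁻ a, Fn b κ σ r D a w (y, 1) ∂(Measure.pi fun _ : κι => nu εa) =
      itT εa (fun j => b j - w (σ j)) r D F0 (y, 1) := fun y => near_expect ha b κ σ r D hκ w _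
  simp only [h1]
  set G := itT εa (fun j => b j - w (σ j)) r D F0 with hG
  have hGh : Hm G := itT_hm _ _ F0_hm
  have hGm : Measurable fun y : ℝ => G (y, 1) := hGh.meas.comp (by fun_prop)
  refine half_of_sq_le ?_
  have hcs := cs_lint (volume.restrict (Icc (-Y) Y)) (f := fun _ => 1) (g := fun y => G (y, 1))
    aemeasurable_const hGm.aemeasurable
  simp only [one_mul, one_pow, lintegral_const, Measure.restrict_apply MeasurableSet.univ,
    univ_inter, Real.volume_Icc] at hcs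
  refine hcs.trans ?_
  have e1 : Y - -Y = 2 * Y := by ring
  rw [e1]
  gcongr
  refine (setLIntegral_le_lintegral _ _).trans ?_
  rw [hGh.N2_chart]
  exact N2_itT_le ha _ _ _ F0_hm

theorem near_L2 {εa : ℝ} (ha : 0 < εa) (b : ℕ → ℝ) (κ : ℕ → κι) (σ : ℕ → ι) (r D : ℕ)
    (hD : 1 ≤ D)
    (hκ : ∀ i j, r ≤ i → i < r + D → r ≤ j → j < r + D → κ i = κ j → i = j) (w : ι → ℝ)
    {Y : ℝ} (hY : 0 < Y) :
    ∫⁻ a, (∫⁻ x in Icc (-Y⁻¹) Y⁻¹, Fn b κ σ r D a w (1, x) ^ 2) ^ (1 / 2 : ℝ)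
        ∂(Measure.pi fun _ : κι => nu εa) ≤
      (ENNReal.ofReal (2 * Y⁻¹) * ((ENNReal.ofReal (2 * εa))⁻¹ * N2 F0)) ^ (1 / 2 : ℝ) := by
  have := nu_prob ha
  have hm : Measurable fun p : (κι → ℝ) × ℝ => Fn b κ σ r D p.1 w (1, p.2) ^ 2 := by
    have h2 : Measurable fun q : (κι → ℝ) × ℝ => ((q.1, w), ((1 : ℝ), q.2)) := by fun_prop
    have h3 := (measurable_Fn b κ σ r D).comp h2
    simp only [Function.comp_def] at h3
    exact h3.pow_const 2
  refine (sqrt_jensen _ ?_).trans ?_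
  · exact (Measurable.lintegral_prod_right' hm).aemeasurable
  refine ENNReal.rpow_le_rpow ?_ (by norm_num)
  rw [lintegral_lintegral_swap (by rw [Function.uncurry_def]; exact hm.aemeasurable)]
  have hx : ∀ x, ∫⁻ a, Fn b κ σ r D a w (1, x) ^ 2 ∂(Measure.pi fun _ : κι => nu εa) ≤
      (ENNReal.ofReal (2 * εa))⁻¹ * N2 F0 := by
    intro x
    obtain ⟨D', rfl⟩ : ∃ D', D = D' + 1 := ⟨D - 1, by omega⟩
    rw [resample (fun _ : κι => nu εa) (κ r) (by
      have h2 : Measurable fun q : κι → ℝ => (q, x) := by fun_prop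
      have h3 := hm.comp h2
      simp only [Function.comp_def] at h3
      exact h3)]
    have hin : ∀ a : κι → ℝ, ∫⁻ t, Fn b κ σ r (D' + 1) (Function.update a (κ r) t) w (1, x) ^ 2
        ∂(nu εa) ≤ (ENNReal.ofReal (2 * εa))⁻¹ * N2 F0 := by
      intro a
      have e : ∀ t, Fn b κ σ r (D' + 1) (Function.update a (κ r) t) w (1, x) =
          F0 (itA (cc b κ σ a w) (r + 1) D' ((b r - w (σ r) - x) - t, 1)) := by
        intro t
        unfold Fn
        rw [itA_succ']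
        have e1 : act (cc b κ σ (Function.update a (κ r) t) w r) (1, x) =
            ((b r - w (σ r) - x) - t, 1) := by
          unfold act cc
          rw [Function.update_self]
          ext
          · simp only; ring
          · rfl
        rw [e1]
        congr 1
        refine itA_congr (fun j h1 h2 => cc_update_a ?_) _
        intro h
        have := hκ j r (by omega) (by omega) le_rfl (by omega) h
        omega
      simp only [e]
      have hH : Hm (fun z => F0 (itA (cc b κ σ a w) (r + 1) D' z)) := itA_hm _ _ F0_hm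
      refine (lintegral_nu_le εa _).trans ?_
      rw [lintegral_sub_left_eq_self
        (fun y => F0 (itA (cc b κ σ a w) (r + 1) D' (y, 1)) ^ 2) (b r - w (σ r) - x),
        hH.N2_chart, N2_itA _ _ F0_hm]
    calc _ ≤ ∫⁻ a : κι → ℝ, (ENNReal.ofReal (2 * εa))⁻¹ * N2 F0
          ∂(Measure.pi fun _ : κι => nu εa) := lintegral_mono hin
      _ = _ := by simp
  calc _ ≤ ∫⁻ x in Icc (-Y⁻¹) Y⁻¹, (ENNReal.ofReal (2 * εa))⁻¹ * N2 F0 := lintegral_mono hx
    _ = _ := by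
      rw [setLIntegral_const, Real.volume_Icc, mul_comm]
      congr 2
      ring

end Pool.Agent.K9h27.LP
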