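import Pool.Agent.K9h27.LP.Grp
import Pool.Agent.K9h27.LP.Crit2

set_option autoImplicit false
set_option linter.unusedSimpArgs false
set_option linter.unusedSectionVars false
set_option linter.unusedVariables false

open Set Filter MeasureTheory
open scoped ENNReal Topology

namespace Pool.Agent.K9h27.LP

theorem Cap.mono {L : ℕ} {v : ℕ → ℝ} {m M : ℕ} {θ θ' : ℝ} (h : Cap L v m M θ) (h0 : 0 ≤ θ)
    (hθ : θ ≤ θ') : Cap L v m M θ' := by
  obtain ⟨Ψ, l, hΨ, J, hJ, h1⟩ := h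
  refine ⟨Ψ, l, hΨ, J, hJ, ?_⟩
  have : θ ^ 2 ≤ θ' ^ 2 := pow_le_pow_left₀ h0 hθ 2
  linarith

theorem per_mod {N : ℕ} {V : ℕ → ℝ} (h : ∀ i, V (i + N) = V i) (i : ℕ) : V i = V (i % N) := by
  conv_lhs => rw [← Nat.div_add_mod i N]
  exact periodic_mul h _ _

variable {Ω : Type*} [AddCommGroup Ω] [TopologicalSpace Ω] [IsTopologicalAddGroup Ω]
  [CompactSpace Ω]

open Classical in
/-- the pointwise conclusion -/
theorem pointwise {α : Ω} {H : ℕ → AddSubgroup Ω} {N : ℕ → ℕ} {r : ℕ → Ω → ℕ}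
    (hanti : Antitone H) (hRD : ∀ j, RD α (H j) (N j) (r j)) {V : ℕ → ℕ → ℝ} {C : ℝ} (hC : 0 ≤ C)
    (hper : ∀ j i, V j (i + N j) = V j i) (hV : ∀ j i, |V j i| ≤ C) {f : C(Ω, ℝ)}
    (hf : ∀ ω, Tendsto (fun j => V j (r j ω)) atTop (𝓝 (f ω))) {ω : Ω}
    (hgood : ∀ n : ℤ, ∀ᶠ j in atTop, r (j + 1) (ω + n • α) ∉
      ((Finset.range (N (j + 1))).filter fun m =>
          ¬ Good j (N j) (N (j + 1)) (V j) (V (j + 1)) (del j) m)) :
    (EV fun n : ℤ => f (ω + n • α)).topologicalClosure = ⊤ := by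
  refine closure_top fun c ε hε => ?_
  set ω' := ω + c • α with hω'
  set m : ℕ → ℕ := fun j => r j ω' with hm
  obtain ⟨J0, hJ0⟩ := eventually_atTop.1 (hgood c)
  have hG : ∀ j ≥ J0, Good j (N j) (N (j + 1)) (V j) (V (j + 1)) (del j) (m (j + 1)) := by
    intro j hj
    by_contra hcon
    exact hJ0 j hj (Finset.mem_filter.2 ⟨Finset.mem_range.2 ((hRD (j + 1)).lt _), hcon⟩)
  have hmod : ∀ j, m (j + 1) % N j = m j := fun j =>
    (hRD j).mod (hRD (j + 1)) (hanti (Nat.le_succ j)) ω'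
  obtain ⟨j2, hj2⟩ := exists_pow_lt_of_lt_one hε (by norm_num : (1 / 2 : ℝ) < 1)
  set j1 := max J0 j2 with hj1
  have hj1ε : (1 / 2 : ℝ) ^ j1 ≤ ε :=
    (pow_le_pow_of_le_one (by norm_num) (by norm_num) (le_max_right _ _)).trans hj2.le
  have hcap : ∀ k, Cap (N (j1 + k)) (V (j1 + k)) (m (j1 + k)) (N j1)
      ((1 / 2) ^ j1 - (1 / 2) ^ (j1 + k)) := by
    intro k
    induction k with
    | zero =>
      have := cap_full (V j1) ((hRD j1).lt ω')
      simpa using this
    | succ k ih =>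
      have h1 := (hG (j1 + k) ((le_max_left _ _).trans (Nat.le_add_right _ _))).2.2 (N j1)
        ((1 / 2) ^ j1 - (1 / 2) ^ (j1 + k))
        (sub_nonneg.2 (pow_le_pow_of_le_one (by norm_num) (by norm_num) (Nat.le_add_right _ _)))
      rw [hmod] at h1
      have h2 := h1 ih
      have e : (1 / 2 : ℝ) ^ j1 - (1 / 2) ^ (j1 + k) + 2 * del (j1 + k) =
          (1 / 2) ^ j1 - (1 / 2) ^ (j1 + (k + 1)) := by
        unfold del
        rw [← add_assoc, pow_succ]
        ring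
      rw [e] at h2
      exact h2
  have hlim : ∀ n : ℤ, Tendsto (fun j => V j ((m j : ℤ) + n).toNat) atTop
      (𝓝 (f (ω + (c + n) • α))) := by
    intro n
    have e0 : ω + (c + n) • α = ω' + n • α := by rw [hω', add_smul]; abel
    rw [e0]
    refine (hf (ω' + n • α)).congr' ?_
    filter_upwards [eventually_ge_atTop (max J0 n.natAbs)] with j hj
    have hj0 : J0 ≤ j := (le_max_left _ _).trans hj
    have hjn : n.natAbs ≤ j := (le_max_right _ _).trans hj
    have h1 := (hG j hj0).1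
    rw [hmod] at h1
    have h2 := (hRD j).shift ω' n
    have h3 : 0 ≤ (m j : ℤ) + n := by omega
    rw [per_mod (hper j) ((m j : ℤ) + n).toNat]
    congr 1
    have h4 : (((m j : ℤ) + n).toNat : ℤ) = (m j : ℤ) + n := Int.toNat_of_nonneg h3
    have h5 : (r j (ω' + n • α)) ≡ ((m j : ℤ) + n).toNat [MOD N j] := by
      rw [← Int.natCast_modEq_iff, h4, Int.modEq_iff_dvd]
      exact h2
    have h6 := (hRD j).lt (ω' + n • α)
    have h7 : r j (ω' + n • α) % N j = ((m j : ℤ) + n).toNat % N j := h5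
    rw [← h7, Nat.mod_eq_of_lt h6]
  obtain ⟨u, hu1, hu2⟩ := crit (V := fun n : ℤ => f (ω + n • α)) c hC (L := N) (v := V) hV (m := m)
    (fun R => by
      filter_upwards [eventually_ge_atTop (max J0 R)] with j hj
      have h1 := (hG j ((le_max_left _ _).trans hj)).1
      rw [hmod] at h1
      exact ((le_max_right _ _).trans hj).trans h1)
    (fun R => by
      filter_upwards [eventually_ge_atTop (max J0 R)] with j hj
      have h1 := (hG j ((le_max_left _ _).trans hj)).2.1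
      rw [hmod] at h1
      have h2 : R ≤ j := (le_max_right _ _).trans hj
      omega) hlim (M := N j1) (θ := (1 / 2) ^ j1) (by positivity) (by
      filter_upwards [eventually_ge_atTop j1] with j hj
      obtain ⟨k, rfl⟩ := Nat.exists_eq_add_of_le hj
      refine (hcap k).mono (sub_nonneg.2
        (pow_le_pow_of_le_one (by norm_num) (by norm_num) (Nat.le_add_right _ _))) ?_
      have : (0 : ℝ) ≤ (1 / 2) ^ (j1 + k) := by positivity
      linarith)
  exact ⟨u, hu1, hu2.trans hj1ε⟩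

open Classical in
theorem main_ae [MeasurableSpace Ω] [BorelSpace Ω] {μ : Measure Ω} [μ.IsAddHaarMeasure]
    {α : Ω} {H : ℕ → AddSubgroup Ω} {N : ℕ → ℕ} {r : ℕ → Ω → ℕ}
    (hH : ∀ j, IsOpen (H j : Set Ω))
    (hanti : Antitone H) (hRD : ∀ j, RD α (H j) (N j) (r j)) {V : ℕ → ℕ → ℝ} {C : ℝ} (hC : 0 ≤ C)
    (hper : ∀ j i, V j (i + N j) = V j i) (hV : ∀ j i, |V j i| ≤ C) {f : C(Ω, ℝ)}
    (hf : ∀ ω, Tendsto (fun j => V j (r j ω)) atTop (𝓝 (f ω)))
    (hbad : ∀ j, (((Finset.range (N (j + 1))).filter fun m =>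
          ¬ Good j (N j) (N (j + 1)) (V j) (V (j + 1)) (del j) m).card : ℝ) ≤
          19 * del j * N (j + 1)) :
    ∀ᵐ ω ∂μ, (EV fun n : ℤ => f (ω + n • α)).topologicalClosure = ⊤ := by
  set S : ℕ → Finset ℕ := fun j => (Finset.range (N (j + 1))).filter fun m =>
          ¬ Good j (N j) (N (j + 1)) (V j) (V (j + 1)) (del j) m with hS
  have hE : ∀ j, μ {ω | r (j + 1) ω ∈ S j} ≤ ENNReal.ofReal (19 * del j) * μ Set.univ := fun j =>
    (hRD (j + 1)).meas_le (hH _) (S j) (Finset.filter_subset _ _)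
      (by have := del_pos j; positivity) (hbad j)
  have hsum : ∑' j, μ {ω | r (j + 1) ω ∈ S j} ≠ ∞ := by
    have h1 : ∑' j, μ {ω | r (j + 1) ω ∈ S j} ≤
        ∑' j, ENNReal.ofReal (19 * del j) * μ Set.univ := ENNReal.tsum_le_tsum hE
    refine ne_top_of_le_ne_top ?_ h1
    rw [ENNReal.tsum_mul_right]
    refine ENNReal.mul_ne_top ?_ (measure_ne_top μ _)
    have h2 : Summable fun j => 19 * del j := by
      unfold del
      exact ((summable_geometric_of_lt_one (by norm_num) (by norm_num)).mul_left (1 / 4)).mul_left 19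
    rw [← ENNReal.ofReal_tsum_of_nonneg (fun j => by have := del_pos j; positivity) h2]
    exact ENNReal.ofReal_ne_top
  have hshift : ∀ n : ℤ, ∀ᵐ ω ∂μ, ∀ᶠ j in atTop, r (j + 1) (ω + n • α) ∉ S j := by
    intro n
    have h1 : ∀ j, μ ((fun ω => ω + n • α) ⁻¹' {ω | r (j + 1) ω ∈ S j}) =
        μ {ω | r (j + 1) ω ∈ S j} := fun j => measure_preimage_add_right μ _ _
    have h2 : ∑' j, μ ((fun ω => ω + n • α) ⁻¹' {ω | r (j + 1) ω ∈ S j}) ≠ ∞ := by
      simp only [h1]; exact hsum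
    exact ae_eventually_notMem h2
  filter_upwards [ae_all_iff.2 hshift] with ω hω
  exact pointwise hanti hRD hC hper hV hf hω

/-- the dense set -/
theorem main_dense [T2Space Ω] [TotallyDisconnectedSpace Ω]
    [TopologicalSpace.MetrizableSpace Ω] [Infinite Ω] [MeasurableSpace Ω] [BorelSpace Ω]
    (μ : Measure Ω) [μ.IsAddHaarMeasure] {α : Ω} (hα : Dense (Set.range (fun n : ℤ => n • α))) :
    Dense {f : C(Ω, ℝ) | ∀ᵐ ω ∂μ, (EV fun n : ℤ => f (ω + n • α)).topologicalClosure = ⊤} := by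
  classical
  obtain ⟨H, n, r, hH, hanti, hRD, hn, hbasis⟩ := exists_chain hα
  rw [Metric.dense_iff]
  intro g ε hε
  obtain ⟨k0, hk0⟩ := unif_cont hH hanti hbasis g (ε := ε / 4) (by positivity)
  set ε0 : ℝ := min 1 (ε / 8) with hε0
  have hε00 : 0 < ε0 := lt_min one_pos (by positivity)
  have hε01 : ε0 ≤ 1 := min_le_left _ _
  have hε02 : ε0 ≤ ε / 8 := min_le_right _ _
  obtain ⟨κ, e, hκ0, hκ, he0, he, he2, hOSP⟩ := det_seq hn (C0 := ‖g‖ + 2)
    (by positivity) hε00 hε01 k0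
  have hdvd : ∀ j, n (κ j) ∣ n (κ (j + 1)) := fun j =>
    (hRD _).dvd (hRD _) (hanti (hκ.monotone (Nat.le_succ j)))
  set b : ℕ → ℝ := fun i => g ((i % n (κ 0)) • α) with hb
  obtain ⟨V, hV1, hV2, hV3, hV4, hV5⟩ := seq_pot (N := fun j => n (κ j)) (fun j => (hRD _).pos)
    hdvd (Bb := ‖g‖) (b := b) (fun i => by
      rw [← Real.norm_eq_abs]; exact g.norm_coe_le_norm _) (fun i => by
      simp only [hb, Nat.add_mod_right]) he he2 (he0.trans_le hε01) hOSP
  set F : ℕ → C(Ω, ℝ) := fun j => ⟨fun ω => V j (r (κ j) ω), (hRD _).continuous (hH _) _⟩ with hF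
  have hek : ∀ j, e j ≤ ε0 / 2 ^ j := by
    intro j
    induction j with
    | zero => rw [he0]; simp
    | succ j ih =>
      refine (he2 j).trans ?_
      rw [pow_succ]
      have : ε0 / (2 ^ j * 2) = ε0 / 2 ^ j / 2 := by field_simp
      rw [this]
      linarith
  have hFd : ∀ j, dist (F j) (F (j + 1)) ≤ ε0 / 2 / 2 ^ j := by
    intro j
    rw [ContinuousMap.dist_le (by positivity)]
    intro ω
    simp only [hF, ContinuousMap.coe_mk]
    rw [Real.dist_eq]
    have h1 : V j (r (κ j) ω) = V j (r (κ (j + 1)) ω) := by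
      rw [per_mod (hV1 j) (r (κ (j + 1)) ω),
        (hRD (κ j)).mod (hRD (κ (j + 1))) (hanti (hκ.monotone (Nat.le_succ j))) ω]
    rw [h1, abs_sub_comm]
    refine (hV4 j _).trans ((hek (j + 1)).trans (le_of_eq ?_))
    rw [pow_succ]
    field_simp
  have hcauchy := cauchySeq_of_le_geometric_two hFd
  obtain ⟨f, hf⟩ := cauchySeq_tendsto_of_complete hcauchy
  have hd1 : dist (F 0) f ≤ ε0 := dist_le_of_le_geometric_two_of_tendsto₀ hFd hf
  have hd2 : dist (F 0) g ≤ ε / 4 + ε0 := by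
    rw [ContinuousMap.dist_le (by positivity)]
    intro ω
    simp only [hF, ContinuousMap.coe_mk]
    rw [Real.dist_eq]
    have h1 := hV3 (r (κ 0) ω)
    rw [he0] at h1
    have h2 : b (r (κ 0) ω) = g ((r (κ 0) ω) • α) := by
      simp only [hb]
      rw [Nat.mod_eq_of_lt ((hRD (κ 0)).lt ω)]
    have h3 : |g ω - g ((r (κ 0) ω) • α)| ≤ ε / 4 := by
      apply hk0
      exact hanti hκ0 ((hRD (κ 0)).mem ω)
    rw [h2] at h1
    rw [abs_sub_comm] at h3
    calc _ = |(V 0 (r (κ 0) ω) - g ((r (κ 0) ω) • α)) + (g ((r (κ 0) ω) • α) - g ω)| := by ring_nf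
      _ ≤ _ := abs_add_le _ _
      _ ≤ _ := by linarith
  refine ⟨f, ?_, ?_⟩
  · rw [Metric.mem_ball]
    have := dist_triangle_left f g (F 0)
    linarith
  · refine main_ae (H := fun j => H (κ j)) (N := fun j => n (κ j)) (r := fun j => r (κ j))
      (fun j => hH _) (fun a b hab => hanti (hκ.monotone hab)) (fun j => hRD _)
      (C := ‖g‖ + 2) (by positivity) hV1 hV2 (fun ω => ?_) hV5
    have h1 : Tendsto (fun j => F j ω) atTop (𝓝 (f ω)) :=
      ((by fun_prop : Continuous fun F : C(Ω, ℝ) => F ω).tendsto f).comp hf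
    exact h1

end Pool.Agent.K9h27.LP
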