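import Pool.Agent.K9h27.LP.BadMeas

set_option autoImplicit false
set_option linter.unusedSimpArgs false
set_option linter.unusedSectionVars false
set_option linter.unusedVariables false

open MeasureTheory Set Matrix
open scoped ENNReal

namespace Pool.Agent.K9h27.LP

variable {n : Type*} [Fintype n] [DecidableEq n]

theorem continuous_aeval_gen {X : Type*} [TopologicalSpace X] {A : X → Matrix n n ℝ}
    (hA : Continuous A) (p : Polynomial ℝ) : Continuous fun x => Polynomial.aeval (A x) p := by
  induction p using Polynomial.induction_on' with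
  | add p q hp hq =>
    simp only [map_add]
    exact hp.add hq
  | monomial k a =>
    simp only [Polynomial.aeval_monomial]
    have h2 : ∀ (c : ℝ) (X : Matrix n n ℝ), (algebraMap ℝ (Matrix n n ℝ)) c * X = c • X :=
      fun c X => by rw [Algebra.algebraMap_eq_smul_one]; simp
    simp only [h2]
    refine Continuous.const_smul ?_ a
    induction k with
    | zero => simp only [pow_zero]; exact continuous_const
    | succ k ih =>
      simp only [pow_succ]
      exact ih.matrix_mul hA

/-- the cube -/
def cube (n : Type*) (ε : ℝ) : Set (n → ℝ) := {a | ∀ i, |a i| ≤ ε}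

theorem isClosed_cube (ε : ℝ) : IsClosed (cube n ε) := by
  have : cube n ε = ⋂ i, {a | |a i| ≤ ε} := by ext a; simp [cube]
  rw [this]
  exact isClosed_iInter fun i => isClosed_le (by fun_prop) continuous_const

theorem diag_update (A0 : Matrix n n ℝ) (a : n → ℝ) (m : n) (t : ℝ) :
    A0 + Matrix.diagonal (Function.update a m t) =
      (A0 + Matrix.diagonal (Function.update a m 0)) + Matrix.single m m t := by
  rw [add_assoc]
  congr 1
  ext i j
  rw [Matrix.add_apply, Matrix.single_apply]
  by_cases h : i = j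
  · subst h
    rw [Matrix.diagonal_apply_eq, Matrix.diagonal_apply_eq]
    by_cases him : i = m
    · subst him; simp
    · rw [Function.update_of_ne him, Function.update_of_ne him, if_neg (by tauto), add_zero]
  · rw [Matrix.diagonal_apply_ne _ h, Matrix.diagonal_apply_ne _ h, if_neg (by
      rintro ⟨h1, h2⟩; exact h (h1.symm.trans h2)), add_zero]

theorem wegner {A0 : Matrix n n ℝ} (hA : A0.IsSymm) (m : n) {ε C : ℝ} (hε : 0 < ε)
    (hC : ∀ a ∈ cube n ε, ∀ (Ψ : Matrix n n ℝ) (l : n → ℝ),
      IsES (A0 + Matrix.diagonal a) Ψ l → ∀ j, |l j| ≤ C)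
    (p : Polynomial ℝ) (hp : ∀ x ∈ Set.Icc (-C) C, 0 ≤ p.eval x)
    {χ : (n → ℝ) → ℝ≥0∞} (hχ : Measurable χ)
    (hχm : ∀ a t, χ (Function.update a m t) = χ a) :
    ∫⁻ a, (cube n ε).indicator (fun a => χ a *
      ENNReal.ofReal ((Polynomial.aeval (A0 + Matrix.diagonal a) p) m m)) a
        ∂(Measure.pi fun _ : n => nu ε) ≤
      ((ENNReal.ofReal (2 * ε))⁻¹ * ENNReal.ofReal (∫ x in (-C)..C, p.eval x)) *
        ∫⁻ a, χ a ∂(Measure.pi fun _ : n => nu ε) := by
  have pε := nu_prob hε
  have hcont : Continuous fun a : n → ℝ => (Polynomial.aeval (A0 + Matrix.diagonal a) p) m m := by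
    have h1 : Continuous fun a : n → ℝ => A0 + Matrix.diagonal a :=
      continuous_const.add (continuous_id.matrix_diagonal)
    exact (continuous_apply m).comp ((continuous_apply m).comp (continuous_aeval_gen h1 p))
  have hmeas : Measurable ((cube n ε).indicator (fun a => χ a *
      ENNReal.ofReal ((Polynomial.aeval (A0 + Matrix.diagonal a) p) m m))) :=
    (hχ.mul hcont.measurable.ennreal_ofReal).indicator (isClosed_cube ε).measurableSet
  rw [resample (fun _ : n => nu ε) m hmeas, ← lintegral_const_mul _ hχ]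
  refine lintegral_mono fun a => ?_
  simp only
  by_cases hbox : ∀ i, i ≠ m → |a i| ≤ ε
  · have hmem : ∀ t ∈ Set.Icc (-ε) ε, Function.update a m t ∈ cube n ε := by
      intro t ht i
      by_cases h : i = m
      · subst h; rw [Function.update_self]; exact abs_le.2 ht
      · rw [Function.update_of_ne h]; exact hbox i h
    set A := A0 + Matrix.diagonal (Function.update a m 0) with hAdef
    have hAs : A.IsSymm := by
      rw [Matrix.IsSymm, hAdef, Matrix.transpose_add, hA.eq, Matrix.diagonal_transpose]
    have hC' : ∀ w ∈ Set.Icc (-ε) ε, ∀ (Ψ : Matrix n n ℝ) (l : n → ℝ),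
        IsES (A + Matrix.single m m w) Ψ l → ∀ j, |l j| ≤ C := by
      intro w hw Ψ l hES j
      rw [hAdef, ← diag_update A0 a m w] at hES
      exact hC _ (hmem w hw) Ψ l hES j
    have hsa := spec_avg hAs m (by linarith : -ε ≤ ε) hC' p hp
    set q : ℝ → ℝ := fun w => (Polynomial.aeval (A + Matrix.single m m w) p) m m with hq
    have hqc : Continuous q := continuous_aeval_apply A m p m m
    have hsymm : ∀ w : ℝ, (A + Matrix.single m m w).IsSymm := fun w => by
      rw [Matrix.IsSymm, Matrix.transpose_add, hAs.eq, Matrix.transpose_single]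
    have hq0 : ∀ w ∈ Set.Icc (-ε) ε, 0 ≤ q w := fun w hw => by
      obtain ⟨Ψ, l, h⟩ := exists_ES _ (hsymm w)
      exact poly_nonneg h (hC' w hw Ψ l h) p hp m
    calc ∫⁻ t, (cube n ε).indicator (fun a => χ a *
          ENNReal.ofReal ((Polynomial.aeval (A0 + Matrix.diagonal a) p) m m))
            (Function.update a m t) ∂(nu ε)
        ≤ ∫⁻ t, χ a * ENNReal.ofReal (q t) ∂(nu ε) := by
          refine lintegral_mono fun t => ?_
          refine (Set.indicator_le_self _ _ _).trans ?_
          rw [hχm, hq, hAdef]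
          simp only
          rw [← diag_update A0 a m t]
      _ = χ a * ∫⁻ t, ENNReal.ofReal (q t) ∂(nu ε) := by
          rw [lintegral_const_mul _ hqc.measurable.ennreal_ofReal]
      _ = χ a * ((ENNReal.ofReal (2 * ε))⁻¹ * ENNReal.ofReal (∫ w in (-ε)..ε, q w)) := by
          rw [lintegral_nu, intervalIntegral.integral_of_le (by linarith),
            ← integral_Icc_eq_integral_Ioc,
            ofReal_integral_eq_lintegral_ofReal hqc.integrableOn_Icc
              ((ae_restrict_iff' measurableSet_Icc).2 (ae_of_all _ hq0))]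
      _ ≤ χ a * ((ENNReal.ofReal (2 * ε))⁻¹ * ENNReal.ofReal (∫ x in (-C)..C, p.eval x)) := by
          gcongr
      _ = _ := by ring
  · push Not at hbox
    obtain ⟨i, him, hi⟩ := hbox
    have : ∀ t, (cube n ε).indicator (fun a => χ a *
          ENNReal.ofReal ((Polynomial.aeval (A0 + Matrix.diagonal a) p) m m))
            (Function.update a m t) = 0 := by
      intro t
      refine Set.indicator_of_notMem ?_ _
      intro h
      have := h i
      rw [Function.update_of_ne him] at this
      linarith
    simp only [this, lintegral_zero]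
    exact zero_le

/-- matrix with row and column `m` removed (off the diagonal) -/
def rem (A0 : Matrix n n ℝ) (m : n) : Matrix n n ℝ :=
  fun i j => if i = j then A0 i j else if i = m ∨ j = m then 0 else A0 i j

theorem rem_symm {A0 : Matrix n n ℝ} (hA : A0.IsSymm) (m : n) : (rem A0 m).IsSymm := by
  ext i j
  simp only [Matrix.transpose_apply, rem]
  have h := hA.apply i j
  by_cases hij : i = j
  · subst hij; rfl
  · rw [if_neg hij, if_neg (Ne.symm hij)]
    by_cases h2 : i = m ∨ j = m
    · rw [if_pos h2, if_pos (h2.symm)]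
    · rw [if_neg h2, if_neg (by tauto), h]

/-- event that the matrix without the site `m` has an approximate eigenvector -/
def Bm (A0 : Matrix n n ℝ) (m : n) (c r : ℝ) : Set (n → ℝ) :=
  {a | ∃ u : n → ℝ, ∑ i, u i ^ 2 = 1 ∧ u m = 0 ∧
    ∑ i, (if i = m then 0 else (((A0 + Matrix.diagonal a) *ᵥ u) i - c * u i) ^ 2) ≤ r ^ 2}

theorem isClosed_Bm (A0 : Matrix n n ℝ) (m : n) (c r : ℝ) : IsClosed (Bm A0 m c r) := by
  have hcomp : IsCompact {u : n → ℝ | ∑ i, u i ^ 2 = 1} := by
    refine IsCompact.of_isClosed_subset (isCompact_univ_pi fun _ : n => isCompact_Icc (a := (-1 : ℝ)) (b := 1))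
      (isClosed_eq (by fun_prop) continuous_const) ?_
    intro u hu i _
    have h1 : u i ^ 2 ≤ 1 := by
      rw [← show ∑ i, u i ^ 2 = 1 from hu]
      exact Finset.single_le_sum (f := fun i => u i ^ 2) (fun _ _ => sq_nonneg _) (Finset.mem_univ i)
    rw [Set.mem_Icc, ← abs_le]
    exact abs_le_one_iff_mul_self_le_one.2 (by nlinarith)
  have : CompactSpace {u : n → ℝ | ∑ i, u i ^ 2 = 1} := isCompact_iff_compactSpace.1 hcomp
  set K := {u : n → ℝ | ∑ i, u i ^ 2 = 1} with hK
  set Cset : Set ((n → ℝ) × K) := {p | (p.2.1 : n → ℝ) m = 0} ∩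
    {p | ∑ i, (if i = m then 0 else (((A0 + Matrix.diagonal p.1) *ᵥ p.2.1) i - c * p.2.1 i) ^ 2)
      ≤ r ^ 2} with hCs
  have hcl : IsClosed Cset := by
    refine IsClosed.inter ?_ ?_
    · exact isClosed_eq ((continuous_apply m).comp (continuous_subtype_val.comp continuous_snd))
        continuous_const
    · refine isClosed_le ?_ continuous_const
      refine continuous_finsetSum _ fun i _ => ?_
      by_cases h : i = m
      · simp only [if_pos h]; exact continuous_const
      · simp only [if_neg h]
        have h1 : Continuous fun p : (n → ℝ) × K => A0 + Matrix.diagonal p.1 :=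
          continuous_const.add (continuous_fst.matrix_diagonal)
        have h2 : Continuous fun p : (n → ℝ) × K => (p.2.1 : n → ℝ) :=
          continuous_subtype_val.comp continuous_snd
        have h3 : Continuous fun p : (n → ℝ) × K => ((A0 + Matrix.diagonal p.1) *ᵥ p.2.1) :=
          h1.matrix_mulVec h2
        exact (((continuous_apply i).comp h3).sub
          (continuous_const.mul ((continuous_apply i).comp h2))).pow 2
  have himg : Bm A0 m c r = Prod.fst '' Cset := by
    ext a
    constructor
    · rintro ⟨u, h1, h2, h3⟩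
      exact ⟨(a, ⟨u, h1⟩), ⟨h2, h3⟩, rfl⟩
    · rintro ⟨⟨a', u⟩, ⟨h1, h2⟩, rfl⟩
      exact ⟨u.1, u.2, h1, h2⟩
  rw [himg]
  exact isClosedMap_fst_of_compactSpace _ hcl

theorem Bm_update (A0 : Matrix n n ℝ) (m : n) (c r : ℝ) (a : n → ℝ) (t : ℝ) :
    Function.update a m t ∈ Bm A0 m c r ↔ a ∈ Bm A0 m c r := by
  have key : ∀ (u : n → ℝ), u m = 0 → ∀ i, i ≠ m →
      ((A0 + Matrix.diagonal (Function.update a m t)) *ᵥ u) i =
        ((A0 + Matrix.diagonal a) *ᵥ u) i := by
    intro u hu i hi
    rw [Matrix.add_mulVec, Matrix.add_mulVec, Pi.add_apply, Pi.add_apply, Matrix.mulVec_diagonal,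
      Matrix.mulVec_diagonal, Function.update_of_ne hi]
  unfold Bm
  simp only [Set.mem_ofPred_eq]
  constructor
  · rintro ⟨u, h1, h2, h3⟩
    refine ⟨u, h1, h2, ?_⟩
    refine (le_of_eq ?_).trans h3
    refine Finset.sum_congr rfl fun i _ => ?_
    by_cases h : i = m
    · rw [if_pos h, if_pos h]
    · rw [if_neg h, if_neg h, key u h2 i h]
  · rintro ⟨u, h1, h2, h3⟩
    refine ⟨u, h1, h2, ?_⟩
    refine (le_of_eq ?_).trans h3
    refine Finset.sum_congr rfl fun i _ => ?_
    by_cases h : i = m
    · rw [if_pos h, if_pos h]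
    · rw [if_neg h, if_neg h, key u h2 i h]

end Pool.Agent.K9h27.LP
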