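import Pool.Agent.K9h27.LP.Minami

set_option autoImplicit false
set_option linter.unusedSimpArgs false
set_option linter.unusedSectionVars false
set_option linter.unusedVariables false

open MeasureTheory Set Matrix
open scoped ENNReal

namespace Pool.Agent.K9h27.LP

variable {n : Type*} [Fintype n] [DecidableEq n]

theorem eig_bound_row {A Ψ : Matrix n n ℝ} {l : n → ℝ} (h : IsES A Ψ l) {C : ℝ}
    (hrow : ∀ i, ∑ k, |A k i| ≤ C) (j : n) : |l j| ≤ C := by
  obtain ⟨i, _, hi⟩ := Finset.exists_max_image (Finset.univ : Finset n) (fun i => |Ψ j i|)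
    ⟨j, Finset.mem_univ _⟩
  have hpos : 0 < |Ψ j i| := by
    by_contra hcon
    have h0 : |Ψ j i| = 0 := le_antisymm (not_lt.1 hcon) (abs_nonneg _)
    have h1 := h.row_orth j j
    rw [if_pos rfl, Finset.sum_eq_zero] at h1
    · norm_num at h1
    · intro k _
      have := hi k (Finset.mem_univ _)
      rw [h0] at this
      have h2 : Ψ j k = 0 := abs_eq_zero.1 (le_antisymm this (abs_nonneg _))
      rw [h2]; norm_num
  have h1 : |l j| * |Ψ j i| ≤ C * |Ψ j i| := by
    rw [← abs_mul, ← h.row_eig j i]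
    calc |∑ k, Ψ j k * A k i| ≤ ∑ k, |Ψ j k * A k i| := Finset.abs_sum_le_sum_abs _ _
      _ ≤ ∑ k, |Ψ j i| * |A k i| := by
          refine Finset.sum_le_sum fun k _ => ?_
          rw [abs_mul]
          exact mul_le_mul_of_nonneg_right (hi k (Finset.mem_univ _)) (abs_nonneg _)
      _ = |Ψ j i| * ∑ k, |A k i| := by rw [Finset.mul_sum]
      _ ≤ |Ψ j i| * C := by gcongr; exact hrow i
      _ = _ := mul_comm _ _
  exact le_of_mul_le_mul_right h1 hpos

theorem row_diag {A0 : Matrix n n ℝ} {C ε : ℝ} (hrow : ∀ i, ∑ k, |A0 k i| + ε ≤ C) {a : n → ℝ}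
    (ha : a ∈ cube n ε) (i : n) : ∑ k, |(A0 + Matrix.diagonal a) k i| ≤ C := by
  calc ∑ k, |(A0 + Matrix.diagonal a) k i| ≤ ∑ k, (|A0 k i| + if k = i then |a i| else 0) := by
        refine Finset.sum_le_sum fun k _ => ?_
        rw [Matrix.add_apply]
        refine (abs_add_le _ _).trans ?_
        gcongr
        by_cases h : k = i
        · subst h; simp
        · rw [Matrix.diagonal_apply_ne _ h, if_neg h, abs_zero]
    _ = ∑ k, |A0 k i| + |a i| := by
        rw [Finset.sum_add_distrib, Finset.sum_ite_eq' Finset.univ i]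
        simp
    _ ≤ ∑ k, |A0 k i| + ε := by gcongr; exact ha i
    _ ≤ C := hrow i

theorem row_rem {A0 : Matrix n n ℝ} {C ε : ℝ} (hrow : ∀ i, ∑ k, |A0 k i| + ε ≤ C) (m i : n) :
    ∑ k, |(rem A0 m) k i| + ε ≤ C := by
  refine le_trans ?_ (hrow i)
  refine add_le_add (Finset.sum_le_sum fun k _ => ?_) le_rfl
  unfold rem
  split_ifs
  · exact le_rfl
  · rw [abs_zero]; exact abs_nonneg _
  · exact le_rfl

theorem approx_eig {D Ψ : Matrix n n ℝ} {l : n → ℝ} (h : IsES D Ψ l) {c r : ℝ} (hr : 0 ≤ r)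
    {u : n → ℝ} (hu : ∑ i, u i ^ 2 = 1) (hD : ∑ i, ((D *ᵥ u) i - c * u i) ^ 2 ≤ r ^ 2) :
    ∃ j, |l j - c| ≤ r := by
  by_contra hcon
  push Not at hcon
  set v : n → ℝ := fun i => (D *ᵥ u) i - c * u i with hv
  have h1 : ∀ j, (Ψ *ᵥ v) j = (l j - c) * (Ψ *ᵥ u) j := by
    intro j
    have e1 : v = D *ᵥ u - c • u := by ext i; simp [hv]
    rw [e1, Matrix.mulVec_sub, Matrix.mulVec_mulVec, h.eig, ← Matrix.mulVec_mulVec,
      Matrix.mulVec_smul, Pi.sub_apply, Matrix.mulVec_diagonal, Pi.smul_apply, smul_eq_mul]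
    ring
  have h2 := h.normsq v
  have h3 := h.normsq u
  rw [hu] at h3
  have h4 : ∑ j, (Ψ *ᵥ v) j ^ 2 ≤ r ^ 2 := by rw [h2]; exact hD
  simp only [h1, mul_pow] at h4
  obtain ⟨j0, hj0⟩ : ∃ j, (Ψ *ᵥ u) j ≠ 0 := by
    by_contra hne
    push Not at hne
    rw [Finset.sum_eq_zero (fun j _ => by rw [hne j]; ring)] at h3
    norm_num at h3
  have h5 : r ^ 2 * ∑ j, (Ψ *ᵥ u) j ^ 2 < ∑ j, (l j - c) ^ 2 * (Ψ *ᵥ u) j ^ 2 := by
    rw [Finset.mul_sum]
    refine Finset.sum_lt_sum (fun j _ => ?_) ⟨j0, Finset.mem_univ _, ?_⟩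
    · gcongr 1
      rw [← sq_abs (l j - c)]
      exact pow_le_pow_left₀ hr (hcon j).le 2
    · have : r ^ 2 < (l j0 - c) ^ 2 := by
        rw [← sq_abs (l j0 - c)]
        exact pow_lt_pow_left₀ (hcon j0) hr (by norm_num)
      exact mul_lt_mul_of_pos_right this (by positivity)
  rw [h3] at h5
  linarith

theorem ae_cube {ε : ℝ} (hε : 0 < ε) : ∀ᵐ a ∂(Measure.pi fun _ : n => nu ε), a ∈ cube n ε := by
  have pε := nu_prob hε
  have h1 : ∀ᵐ t ∂(nu ε), |t| ≤ ε := by
    unfold nu
    refine Measure.ae_smul_measure ?_ _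
    filter_upwards [ae_restrict_mem measurableSet_Icc] with t ht
    exact abs_le.2 ht
  have h2 : ∀ i : n, ∀ᵐ a ∂(Measure.pi fun _ : n => nu ε), |a i| ≤ ε := fun i =>
    (measurePreserving_eval (fun _ : n => nu ε) i).quasiMeasurePreserving.ae h1
  filter_upwards [ae_all_iff.2 h2] with a ha using ha

/-- the event that the matrix without the site has an eigenvalue in the window -/
theorem prob_Bm {A0 : Matrix n n ℝ} (hA : A0.IsSymm) (m : n) {ε C c r : ℝ} (hε : 0 < ε)
    (hr : 0 ≤ r) (hrow : ∀ i, ∑ k, |A0 k i| + ε ≤ C)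
    (p : Polynomial ℝ) (hp : ∀ x ∈ Set.Icc (-C) C, 0 ≤ p.eval x)
    (hp1 : ∀ x ∈ Set.Icc (-C) C, |x - c| ≤ r → 1 ≤ p.eval x) :
    ∫⁻ a, (Bm A0 m c r).indicator 1 a ∂(Measure.pi fun _ : n => nu ε) ≤
      Fintype.card n * ((ENNReal.ofReal (2 * ε))⁻¹ * ENNReal.ofReal (∫ x in (-C)..C, p.eval x)) := by
  have pε := nu_prob hε
  have hC : ∀ a ∈ cube n ε, ∀ (Ψ : Matrix n n ℝ) (l : n → ℝ),
      IsES (rem A0 m + Matrix.diagonal a) Ψ l → ∀ j, |l j| ≤ C := fun a ha Ψ l hES j =>
    eig_bound_row hES (row_diag (row_rem hrow m) ha) j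
  set P := Measure.pi fun _ : n => nu ε with hP
  have h1 : ∀ a, a ∈ cube n ε → (Bm A0 m c r).indicator (1 : (n → ℝ) → ℝ≥0∞) a ≤
      ∑ i, (cube n ε).indicator (fun a => 1 *
        ENNReal.ofReal ((Polynomial.aeval (rem A0 m + Matrix.diagonal a) p) i i)) a := by
    intro a ha
    by_cases hB : a ∈ Bm A0 m c r
    · rw [Set.indicator_of_mem hB, Pi.one_apply]
      simp only [Set.indicator_of_mem ha, one_mul]
      obtain ⟨u, hu1, hum, hu3⟩ := hB
      obtain ⟨Ψ, l, hES⟩ := exists_ES (rem A0 m + Matrix.diagonal a) (by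
        rw [Matrix.IsSymm, Matrix.transpose_add, (rem_symm hA m).eq, Matrix.diagonal_transpose])
      have hnn : ∀ i, 0 ≤ (Polynomial.aeval (rem A0 m + Matrix.diagonal a) p) i i := fun i =>
        poly_nonneg hES (hC a ha Ψ l hES) p hp i
      rw [← ENNReal.ofReal_sum_of_nonneg (fun i _ => hnn i)]
      have htr := hES.trace_aeval p
      rw [Matrix.trace] at htr
      simp only [Matrix.diag] at htr
      rw [htr]
      have hrem : ∑ i, (((rem A0 m + Matrix.diagonal a) *ᵥ u) i - c * u i) ^ 2 ≤ r ^ 2 := by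
        refine (le_of_eq ?_).trans hu3
        refine Finset.sum_congr rfl fun i _ => ?_
        by_cases hi : i = m
        · rw [if_pos hi, hi, hum]
          have : ((rem A0 m + Matrix.diagonal a) *ᵥ u) m = 0 := by
            rw [Matrix.add_mulVec, Pi.add_apply, Matrix.mulVec_diagonal, hum, mul_zero, add_zero]
            simp only [Matrix.mulVec, dotProduct]
            refine Finset.sum_eq_zero fun k _ => ?_
            by_cases hk : k = m
            · rw [hk, hum, mul_zero]
            · unfold rem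
              rw [if_neg (Ne.symm hk), if_pos (Or.inl rfl), zero_mul]
          rw [this]; ring
        · rw [if_neg hi]
          congr 2
          rw [Matrix.add_mulVec, Matrix.add_mulVec, Pi.add_apply, Pi.add_apply]
          congr 1
          simp only [Matrix.mulVec, dotProduct]
          refine Finset.sum_congr rfl fun k _ => ?_
          by_cases hk : k = m
          · rw [hk, hum, mul_zero, mul_zero]
          · unfold rem
            by_cases hik : i = k
            · rw [if_pos hik]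
            · rw [if_neg hik, if_neg (by tauto)]
      obtain ⟨j, hj⟩ := approx_eig hES hr hu1 hrem
      rw [show (1 : ℝ≥0∞) = ENNReal.ofReal 1 by simp]
      apply ENNReal.ofReal_le_ofReal
      refine (hp1 _ (abs_le.1 (hC a ha Ψ l hES j)) hj).trans ?_
      exact Finset.single_le_sum (f := fun j => p.eval (l j))
        (fun j _ => hp _ (abs_le.1 (hC a ha Ψ l hES j))) (Finset.mem_univ j)
    · rw [Set.indicator_of_notMem hB]; exact zero_le
  have hcont : ∀ i, Continuous fun a : n → ℝ =>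
      (Polynomial.aeval (rem A0 m + Matrix.diagonal a) p) i i := by
    intro i
    have h1 : Continuous fun a : n → ℝ => rem A0 m + Matrix.diagonal a :=
      continuous_const.add (continuous_id.matrix_diagonal)
    exact (continuous_apply i).comp ((continuous_apply i).comp (continuous_aeval_gen h1 p))
  calc ∫⁻ a, (Bm A0 m c r).indicator 1 a ∂P
      ≤ ∫⁻ a, ∑ i, (cube n ε).indicator (fun a => 1 *
        ENNReal.ofReal ((Polynomial.aeval (rem A0 m + Matrix.diagonal a) p) i i)) a ∂P := by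
        refine lintegral_mono_ae ?_
        filter_upwards [ae_cube hε] with a ha using h1 a ha
    _ = ∑ i, ∫⁻ a, (cube n ε).indicator (fun a => 1 *
        ENNReal.ofReal ((Polynomial.aeval (rem A0 m + Matrix.diagonal a) p) i i)) a ∂P := by
        have hmi : ∀ i ∈ (Finset.univ : Finset n), Measurable fun a : n → ℝ =>
            (cube n ε).indicator (fun a => 1 *
              ENNReal.ofReal ((Polynomial.aeval (rem A0 m + Matrix.diagonal a) p) i i)) a :=
          fun i _ => (measurable_const.mul (hcont i).measurable.ennreal_ofReal).indicator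
            (isClosed_cube ε).measurableSet
        rw [lintegral_finsetSum _ hmi]
    _ ≤ ∑ i : n, ((ENNReal.ofReal (2 * ε))⁻¹ * ENNReal.ofReal (∫ x in (-C)..C, p.eval x)) *
        ∫⁻ a, 1 ∂P := by
        refine Finset.sum_le_sum fun i _ => ?_
        exact wegner (rem_symm hA m) i hε hC p hp (χ := fun _ => 1) measurable_const
          (fun _ _ => rfl)
    _ = _ := by
        rw [Finset.sum_const, Finset.card_univ]
        simp [hP]


/-- two eigenvalues in a window give approximate eigenvectors vanishing at any site -/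
theorem two_eig {A0 : Matrix n n ℝ} (hA : A0.IsSymm) {a : n → ℝ} {Ψ : Matrix n n ℝ} {l : n → ℝ}
    (h : IsES (A0 + Matrix.diagonal a) Ψ l) {c r : ℝ} (hr : 0 ≤ r) {j j' : n} (hjj : j ≠ j')
    (hj : |l j - c| ≤ r) (hj' : |l j' - c| ≤ r) (m : n) : a ∈ Bm A0 m c r := by
  obtain ⟨α, β, h1, h2⟩ : ∃ α β : ℝ, α ^ 2 + β ^ 2 = 1 ∧ α * Ψ j m + β * Ψ j' m = 0 := by
    by_cases h0 : Ψ j m ^ 2 + Ψ j' m ^ 2 = 0
    · have e1 : Ψ j m = 0 := by nlinarith [sq_nonneg (Ψ j m), sq_nonneg (Ψ j' m)]
      have e2 : Ψ j' m = 0 := by nlinarith [sq_nonneg (Ψ j m), sq_nonneg (Ψ j' m)]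
      exact ⟨1, 0, by norm_num, by rw [e1, e2]; ring⟩
    · set s := Real.sqrt (Ψ j m ^ 2 + Ψ j' m ^ 2) with hs
      have hpos : 0 < Ψ j m ^ 2 + Ψ j' m ^ 2 := lt_of_le_of_ne (by positivity) (Ne.symm h0)
      have hs0 : 0 < s := Real.sqrt_pos.2 hpos
      have hs2 : s ^ 2 = Ψ j m ^ 2 + Ψ j' m ^ 2 := Real.sq_sqrt hpos.le
      refine ⟨Ψ j' m / s, -Ψ j m / s, ?_, ?_⟩
      · rw [div_pow, div_pow, hs2]
        field_simp
        ring
      · field_simp
        ring
  set u : n → ℝ := fun i => α * Ψ j i + β * Ψ j' i with hu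
  have hnorm : ∀ γ δ : ℝ, ∑ i, (γ * Ψ j i + δ * Ψ j' i) ^ 2 = γ ^ 2 + δ ^ 2 := by
    intro γ δ
    have e1 := h.row_orth j j
    have e2 := h.row_orth j' j'
    have e3 := h.row_orth j j'
    rw [if_pos rfl] at e1 e2
    rw [if_neg hjj] at e3
    calc ∑ i, (γ * Ψ j i + δ * Ψ j' i) ^ 2 = γ ^ 2 * ∑ i, Ψ j i * Ψ j i +
          δ ^ 2 * ∑ i, Ψ j' i * Ψ j' i + 2 * γ * δ * ∑ i, Ψ j i * Ψ j' i := by
          rw [Finset.mul_sum, Finset.mul_sum, Finset.mul_sum, ← Finset.sum_add_distrib,
            ← Finset.sum_add_distrib]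
          exact Finset.sum_congr rfl fun i _ => by ring
      _ = _ := by rw [e1, e2, e3]; ring
  have hrow : ∀ j i, ((A0 + Matrix.diagonal a) *ᵥ (fun i => Ψ j i)) i = l j * Ψ j i := by
    intro j i
    rw [← h.row_eig j i]
    simp only [Matrix.mulVec, dotProduct]
    refine Finset.sum_congr rfl fun k _ => ?_
    have hs : (A0 + Matrix.diagonal a).IsSymm := by
      rw [Matrix.IsSymm, Matrix.transpose_add, hA.eq, Matrix.diagonal_transpose]
    rw [hs.apply k i, mul_comm]
  refine ⟨u, by rw [hu, hnorm, h1], h2, ?_⟩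
  have hDu : ∀ i, ((A0 + Matrix.diagonal a) *ᵥ u) i - c * u i =
      (α * (l j - c)) * Ψ j i + (β * (l j' - c)) * Ψ j' i := by
    intro i
    have e1 : u = α • (fun i => Ψ j i) + β • (fun i => Ψ j' i) := by
      funext i; simp [hu]
    rw [e1, Matrix.mulVec_add, Matrix.mulVec_smul, Matrix.mulVec_smul]
    simp only [Pi.add_apply, Pi.smul_apply, smul_eq_mul, hrow]
    ring
  calc _ ≤ ∑ i, (((A0 + Matrix.diagonal a) *ᵥ u) i - c * u i) ^ 2 := by
        refine Finset.sum_le_sum fun i _ => ?_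
        split_ifs
        · positivity
        · exact le_rfl
    _ = (α * (l j - c)) ^ 2 + (β * (l j' - c)) ^ 2 := by
        rw [← hnorm]
        exact Finset.sum_congr rfl fun i _ => by rw [hDu]
    _ ≤ r ^ 2 := by
        have e1 : (l j - c) ^ 2 ≤ r ^ 2 := by
          rw [← sq_abs (l j - c)]; exact pow_le_pow_left₀ (abs_nonneg _) hj 2
        have e2 : (l j' - c) ^ 2 ≤ r ^ 2 := by
          rw [← sq_abs (l j' - c)]; exact pow_le_pow_left₀ (abs_nonneg _) hj' 2
        nlinarith [sq_nonneg α, sq_nonneg β]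

theorem prob_two {A0 : Matrix n n ℝ} (hA : A0.IsSymm) {ε C c r : ℝ} (hε : 0 < ε)
    (hr : 0 ≤ r) (hrow : ∀ i, ∑ k, |A0 k i| + ε ≤ C)
    (p : Polynomial ℝ) (hp : ∀ x ∈ Set.Icc (-C) C, 0 ≤ p.eval x)
    (hp1 : ∀ x ∈ Set.Icc (-C) C, |x - c| ≤ r → 1 ≤ p.eval x) (S : Set (n → ℝ))
    (hS : ∀ a ∈ S, ∃ (Ψ : Matrix n n ℝ) (l : n → ℝ), IsES (A0 + Matrix.diagonal a) Ψ l ∧
      ∃ j j', j ≠ j' ∧ |l j - c| ≤ r ∧ |l j' - c| ≤ r) :
    2 * ∫⁻ a, S.indicator 1 a ∂(Measure.pi fun _ : n => nu ε) ≤
      (Fintype.card n * ((ENNReal.ofReal (2 * ε))⁻¹ *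
        ENNReal.ofReal (∫ x in (-C)..C, p.eval x))) ^ 2 := by
  have pε := nu_prob hε
  set P := Measure.pi fun _ : n => nu ε with hP
  set J := (ENNReal.ofReal (2 * ε))⁻¹ * ENNReal.ofReal (∫ x in (-C)..C, p.eval x) with hJ
  have hC : ∀ a ∈ cube n ε, ∀ (Ψ : Matrix n n ℝ) (l : n → ℝ),
      IsES (A0 + Matrix.diagonal a) Ψ l → ∀ j, |l j| ≤ C := fun a ha Ψ l hES j =>
    eig_bound_row hES (row_diag hrow ha) j
  have h1 : ∀ a, a ∈ cube n ε → 2 * S.indicator (1 : (n → ℝ) → ℝ≥0∞) a ≤
      ∑ m, (cube n ε).indicator (fun a => (Bm A0 m c r).indicator (1 : (n → ℝ) → ℝ≥0∞) a *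
        ENNReal.ofReal ((Polynomial.aeval (A0 + Matrix.diagonal a) p) m m)) a := by
    intro a ha
    by_cases haS : a ∈ S
    · rw [Set.indicator_of_mem haS, Pi.one_apply, mul_one]
      simp only [Set.indicator_of_mem ha]
      obtain ⟨Ψ, l, hES, j, j', hjj, hj, hj'⟩ := hS a haS
      have hB : ∀ m, a ∈ Bm A0 m c r := fun m => two_eig hA hES hr hjj hj hj' m
      have hnn : ∀ i, 0 ≤ (Polynomial.aeval (A0 + Matrix.diagonal a) p) i i := fun i =>
        poly_nonneg hES (hC a ha Ψ l hES) p hp i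
      simp only [Set.indicator_of_mem (hB _), Pi.one_apply, one_mul]
      rw [← ENNReal.ofReal_sum_of_nonneg (fun i _ => hnn i)]
      have htr := hES.trace_aeval p
      rw [Matrix.trace] at htr
      simp only [Matrix.diag] at htr
      rw [htr, show (2 : ℝ≥0∞) = ENNReal.ofReal 2 by simp]
      apply ENNReal.ofReal_le_ofReal
      have h2 : ∑ i ∈ ({j, j'} : Finset n), p.eval (l i) ≤ ∑ i, p.eval (l i) :=
        Finset.sum_le_sum_of_subset_of_nonneg (Finset.subset_univ _)
          (fun i _ _ => hp _ (abs_le.1 (hC a ha Ψ l hES i)))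
      rw [Finset.sum_pair hjj] at h2
      have := hp1 _ (abs_le.1 (hC a ha Ψ l hES j)) hj
      have := hp1 _ (abs_le.1 (hC a ha Ψ l hES j')) hj'
      linarith
    · rw [Set.indicator_of_notMem haS, mul_zero]; exact zero_le
  have hcont : ∀ i, Continuous fun a : n → ℝ =>
      (Polynomial.aeval (A0 + Matrix.diagonal a) p) i i := by
    intro i
    have h1 : Continuous fun a : n → ℝ => A0 + Matrix.diagonal a :=
      continuous_const.add (continuous_id.matrix_diagonal)
    exact (continuous_apply i).comp ((continuous_apply i).comp (continuous_aeval_gen h1 p))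
  have hBmeas : ∀ m, Measurable ((Bm A0 m c r).indicator (1 : (n → ℝ) → ℝ≥0∞)) := fun m =>
    measurable_one.indicator (isClosed_Bm A0 m c r).measurableSet
  calc 2 * ∫⁻ a, S.indicator 1 a ∂P = ∫⁻ a, 2 * S.indicator 1 a ∂P := by
        rw [lintegral_const_mul' _ _ (by norm_num)]
    _ ≤ ∫⁻ a, ∑ m, (cube n ε).indicator (fun a => (Bm A0 m c r).indicator
        (1 : (n → ℝ) → ℝ≥0∞) a *
        ENNReal.ofReal ((Polynomial.aeval (A0 + Matrix.diagonal a) p) m m)) a ∂P := by
        refine lintegral_mono_ae ?_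
        filter_upwards [ae_cube hε] with a ha using h1 a ha
    _ = ∑ m, ∫⁻ a, (cube n ε).indicator (fun a => (Bm A0 m c r).indicator
        (1 : (n → ℝ) → ℝ≥0∞) a *
        ENNReal.ofReal ((Polynomial.aeval (A0 + Matrix.diagonal a) p) m m)) a ∂P := by
        have hmi : ∀ m ∈ (Finset.univ : Finset n), Measurable fun a : n → ℝ =>
            (cube n ε).indicator (fun a => (Bm A0 m c r).indicator (1 : (n → ℝ) → ℝ≥0∞) a *
              ENNReal.ofReal ((Polynomial.aeval (A0 + Matrix.diagonal a) p) m m)) a :=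
          fun m _ => ((hBmeas m).mul (hcont m).measurable.ennreal_ofReal).indicator
            (isClosed_cube ε).measurableSet
        rw [lintegral_finsetSum _ hmi]
    _ ≤ ∑ m : n, J * (Fintype.card n * J) := by
        refine Finset.sum_le_sum fun m _ => ?_
        have hw := wegner hA m hε hC p hp (χ := (Bm A0 m c r).indicator 1) (hBmeas m) (by
          intro a t
          by_cases hB : a ∈ Bm A0 m c r
          · rw [Set.indicator_of_mem hB, Set.indicator_of_mem ((Bm_update A0 m c r a t).2 hB)]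
            rfl
          · rw [Set.indicator_of_notMem hB,
              Set.indicator_of_notMem (fun h => hB ((Bm_update A0 m c r a t).1 h))])
        refine hw.trans ?_
        rw [← hJ]
        gcongr
        exact prob_Bm hA m hε hr hrow p hp hp1
    _ = _ := by
        rw [Finset.sum_const, Finset.card_univ, nsmul_eq_mul]
        ring

/-- hat polynomial -/
theorem exists_hat {C c r : ℝ} (hC : 0 ≤ C) (hr : 0 < r) :
    ∃ p : Polynomial ℝ, (∀ x ∈ Set.Icc (-C) C, 0 ≤ p.eval x) ∧
      (∀ x ∈ Set.Icc (-C) C, |x - c| ≤ r → 1 ≤ p.eval x) ∧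
      ∫ x in (-C)..C, p.eval x ≤ 5 * r := by
  set h : ℝ → ℝ := fun x => max 0 (min 1 (2 - |x - c| / r)) with hh
  have hc : Continuous h := by rw [hh]; fun_prop
  set δ := r / (4 * (C + 1)) with hδ
  have hδ0 : 0 < δ := by positivity
  obtain ⟨p, hp⟩ := exists_polynomial_near_of_continuousOn (-C) C (fun x => h x + δ)
    (hc.add continuous_const).continuousOn δ hδ0
  have hp1 : ∀ x ∈ Set.Icc (-C) C, h x ≤ p.eval x := fun x hx => by
    have := abs_lt.1 (hp x hx); linarith [this.1]
  have hp2 : ∀ x ∈ Set.Icc (-C) C, p.eval x ≤ h x + 2 * δ := fun x hx => by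
    have := abs_lt.1 (hp x hx); linarith [this.2]
  refine ⟨p, fun x hx => (le_max_left _ _).trans (hp1 x hx), fun x hx hxc => ?_, ?_⟩
  · refine le_trans ?_ (hp1 x hx)
    rw [hh]
    simp only
    have : |x - c| / r ≤ 1 := (div_le_one hr).2 hxc
    refine le_max_of_le_right (le_min le_rfl (by linarith))
  · have e1 : ∫ x in (-C)..C, p.eval x ≤ ∫ x in (-C)..C, (h x + 2 * δ) :=
      intervalIntegral.integral_mono_on (by linarith) (p.continuous.intervalIntegrable _ _)
        ((hc.add continuous_const).intervalIntegrable _ _) hp2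
    refine e1.trans ?_
    rw [intervalIntegral.integral_add (hc.intervalIntegrable _ _)
      (continuous_const.intervalIntegrable _ _), intervalIntegral.integral_const]
    have e2 : (C - -C) • (2 * δ) ≤ r := by
      rw [smul_eq_mul, hδ]
      have : (C - -C) * (2 * (r / (4 * (C + 1)))) = r * (C / (C + 1)) := by
        field_simp; ring
      rw [this]
      have : C / (C + 1) ≤ 1 := by
        rw [div_le_one (by linarith)]; linarith
      nlinarith
    have e3 : ∫ x in (-C)..C, h x ≤ 4 * r := by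
      rw [intervalIntegral.integral_of_le (by linarith), ← integral_Icc_eq_integral_Ioc]
      calc ∫ x in Set.Icc (-C) C, h x ≤ ∫ x in Set.Icc (-C) C,
            (Set.Icc (c - 2 * r) (c + 2 * r)).indicator (fun _ => (1 : ℝ)) x := by
            refine setIntegral_mono_on hc.integrableOn_Icc ?_ measurableSet_Icc ?_
            · exact ((integrable_const (1 : ℝ)).indicator measurableSet_Icc)
            · intro x _
              by_cases hx : x ∈ Set.Icc (c - 2 * r) (c + 2 * r)
              · rw [Set.indicator_of_mem hx]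
                exact max_le (by norm_num) (min_le_left _ _)
              · rw [Set.indicator_of_notMem hx]
                refine max_le le_rfl ((min_le_right _ _).trans ?_)
                have : 2 ≤ |x - c| / r := by
                  rw [le_div_iff₀ hr]
                  by_contra hcon
                  rw [not_le, abs_lt] at hcon
                  apply hx
                  constructor <;> linarith
                linarith
        _ ≤ ∫ x, (Set.Icc (c - 2 * r) (c + 2 * r)).indicator (fun _ => (1 : ℝ)) x := by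
            refine setIntegral_le_integral ?_ ?_
            · exact (integrableOn_const (by simp) (by simp)).integrable_indicator measurableSet_Icc
            · exact ae_of_all _ fun x => Set.indicator_nonneg (fun _ _ => by norm_num) x
        _ = 4 * r := by
            rw [integral_indicator measurableSet_Icc]
            simp only [integral_const, MeasurableSet.univ, measureReal_restrict_apply, univ_inter,
              smul_eq_mul, mul_one]
            rw [Real.volume_real_Icc_of_le (by linarith)]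
            ring
    linarith


/-- the set of parameters with a small gap -/
def GapS (A0 : Matrix n n ℝ) (s : ℝ) : Set (n → ℝ) :=
  {a | ∃ (Ψ : Matrix n n ℝ) (l : n → ℝ), IsES (A0 + Matrix.diagonal a) Ψ l ∧
    (Ψ, l) ∈ {q : Matrix n n ℝ × (n → ℝ) | ∃ j j', j ≠ j' ∧ |q.2 j - q.2 j'| ≤ s}}

theorem isClosed_GapS (A0 : Matrix n n ℝ) (s : ℝ) : IsClosed (GapS A0 s) := by
  refine isClosed_ES (continuous_const.add (continuous_id.matrix_diagonal)) ?_
  have : {q : Matrix n n ℝ × (n → ℝ) | ∃ j j', j ≠ j' ∧ |q.2 j - q.2 j'| ≤ s} =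
      ⋃ j, ⋃ j', {q | j ≠ j' ∧ |q.2 j - q.2 j'| ≤ s} := by
    ext q; simp
  rw [this]
  refine isClosed_iUnion_of_finite fun j => isClosed_iUnion_of_finite fun j' => ?_
  by_cases h : j = j'
  · simp [h]
  · simp only [ne_eq, h, not_false_eq_true, true_and]
    exact isClosed_le (by fun_prop) continuous_const

theorem prob_gap {A0 : Matrix n n ℝ} (hA : A0.IsSymm) {ε C s : ℝ} (hε : 0 < ε) (hC0 : 0 ≤ C)
    (hrow : ∀ i, ∑ k, |A0 k i| + ε ≤ C) (hs : 0 < s) (hs1 : s ≤ 1) :
    ∫⁻ a, (GapS A0 s).indicator 1 a ∂(Measure.pi fun _ : n => nu ε) ≤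
      ENNReal.ofReal (25 * (C + 1) * (Fintype.card n) ^ 2 * s / ε ^ 2) := by
  have pε := nu_prob hε
  set P := Measure.pi fun _ : n => nu ε with hP
  have hC : ∀ a ∈ cube n ε, ∀ (Ψ : Matrix n n ℝ) (l : n → ℝ),
      IsES (A0 + Matrix.diagonal a) Ψ l → ∀ j, |l j| ≤ C := fun a ha Ψ l hES j =>
    eig_bound_row hES (row_diag hrow ha) j
  set K := ⌈2 * C / s⌉₊ with hK
  set S : ℕ → Set (n → ℝ) := fun k => {a | ∃ (Ψ : Matrix n n ℝ) (l : n → ℝ),
    IsES (A0 + Matrix.diagonal a) Ψ l ∧
      (Ψ, l) ∈ {q : Matrix n n ℝ × (n → ℝ) | ∃ j j', j ≠ j' ∧ |q.2 j - (-C + k * s)| ≤ 2 * s ∧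
        |q.2 j' - (-C + k * s)| ≤ 2 * s}} with hS
  have hScl : ∀ k, IsClosed (S k) := by
    intro k
    refine isClosed_ES (continuous_const.add (continuous_id.matrix_diagonal)) ?_
    have : {q : Matrix n n ℝ × (n → ℝ) | ∃ j j', j ≠ j' ∧ |q.2 j - (-C + k * s)| ≤ 2 * s ∧
        |q.2 j' - (-C + k * s)| ≤ 2 * s} =
        ⋃ j, ⋃ j', {q | j ≠ j' ∧ |q.2 j - (-C + k * s)| ≤ 2 * s ∧
        |q.2 j' - (-C + k * s)| ≤ 2 * s} := by
      ext q; simp
    rw [this]
    refine isClosed_iUnion_of_finite fun j => isClosed_iUnion_of_finite fun j' => ?_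
    by_cases h : j = j'
    · simp [h]
    · simp only [ne_eq, h, not_false_eq_true, true_and]
      have e1 : IsClosed {q : Matrix n n ℝ × (n → ℝ) | |q.2 j - (-C + k * s)| ≤ 2 * s} :=
        isClosed_le (by fun_prop) continuous_const
      have e2 : IsClosed {q : Matrix n n ℝ × (n → ℝ) | |q.2 j' - (-C + k * s)| ≤ 2 * s} :=
        isClosed_le (by fun_prop) continuous_const
      exact e1.inter e2
  have hcover : ∀ a ∈ cube n ε, (GapS A0 s).indicator (1 : (n → ℝ) → ℝ≥0∞) a ≤
      ∑ k ∈ Finset.range (K + 1), (S k).indicator (1 : (n → ℝ) → ℝ≥0∞) a := by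
    intro a ha
    by_cases hG : a ∈ GapS A0 s
    · obtain ⟨Ψ, l, hES, j, j', hjj, hgap⟩ := hG
      simp only at hgap
      have hlj := abs_le.1 (hC a ha Ψ l hES j)
      set k := ⌊(l j + C) / s⌋₊ with hk
      have h0 : 0 ≤ (l j + C) / s := div_nonneg (by linarith [hlj.1]) hs.le
      have hk1 : (k : ℝ) ≤ (l j + C) / s := Nat.floor_le h0
      have hk2 : (l j + C) / s < k + 1 := Nat.lt_floor_add_one _
      rw [le_div_iff₀ hs] at hk1
      rw [div_lt_iff₀ hs] at hk2
      have hkK : k ≤ K := by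
        have h3 : (k : ℝ) ≤ 2 * C / s := by
          rw [le_div_iff₀ hs]; linarith [hlj.2]
        have h4 : (k : ℝ) ≤ K := h3.trans (Nat.le_ceil _)
        exact_mod_cast h4
      have haS : a ∈ S k := by
        refine ⟨Ψ, l, hES, j, j', hjj, ?_, ?_⟩
        · simp only
          rw [abs_le]; constructor <;> nlinarith
        · simp only
          have h5 := abs_le.1 hgap
          rw [abs_le]; constructor <;> nlinarith [h5.1, h5.2]
      have hle : (S k).indicator (1 : (n → ℝ) → ℝ≥0∞) a ≤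
          ∑ k ∈ Finset.range (K + 1), (S k).indicator (1 : (n → ℝ) → ℝ≥0∞) a :=
        Finset.single_le_sum (f := fun k => (S k).indicator (1 : (n → ℝ) → ℝ≥0∞) a)
          (fun _ _ => zero_le) (Finset.mem_range.2 (by omega))
      refine le_trans ?_ hle
      rw [Set.indicator_of_mem haS]
      exact Set.indicator_le_self' (fun _ _ => zero_le) a
    · rw [Set.indicator_of_notMem hG]; exact zero_le
  have hone : ∀ k, ∫⁻ a, (S k).indicator 1 a ∂P ≤
      ENNReal.ofReal (25 / 2 * (Fintype.card n) ^ 2 * s ^ 2 / ε ^ 2) := by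
    intro k
    obtain ⟨p, hp0, hp1, hpI⟩ := exists_hat (C := C) (c := -C + k * s) (r := 2 * s) hC0 (by positivity)
    have h2 := prob_two hA hε (by positivity : (0 : ℝ) ≤ 2 * s) hrow p hp0 hp1 (S k) (by
      rintro a ⟨Ψ, l, hES, j, j', h⟩
      exact ⟨Ψ, l, hES, j, j', h⟩)
    have h3 : ((Fintype.card n : ℝ≥0∞) * ((ENNReal.ofReal (2 * ε))⁻¹ *
        ENNReal.ofReal (∫ x in (-C)..C, p.eval x))) ^ 2 ≤
        ENNReal.ofReal (25 * (Fintype.card n) ^ 2 * s ^ 2 / ε ^ 2) := by
      calc _ ≤ ((Fintype.card n : ℝ≥0∞) * ((ENNReal.ofReal (2 * ε))⁻¹ *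
            ENNReal.ofReal (5 * (2 * s)))) ^ 2 := by gcongr
        _ = _ := by
            rw [← ENNReal.ofReal_inv_of_pos (by positivity), ← ENNReal.ofReal_mul (by positivity),
              ← ENNReal.ofReal_natCast, ← ENNReal.ofReal_mul (by positivity),
              ← ENNReal.ofReal_pow (by positivity)]
            congr 1
            field_simp
            ring
    have h4 := h2.trans h3
    have h5 : ENNReal.ofReal (25 * (Fintype.card n) ^ 2 * s ^ 2 / ε ^ 2) =
        2 * ENNReal.ofReal (25 / 2 * (Fintype.card n) ^ 2 * s ^ 2 / ε ^ 2) := by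
      rw [show (2 : ℝ≥0∞) = ENNReal.ofReal 2 by simp, ← ENNReal.ofReal_mul (by norm_num)]
      congr 1
      ring
    rw [h5] at h4
    exact (ENNReal.mul_le_mul_iff_right (by norm_num) (by norm_num)).1 h4
  calc ∫⁻ a, (GapS A0 s).indicator 1 a ∂P
      ≤ ∫⁻ a, ∑ k ∈ Finset.range (K + 1), (S k).indicator (1 : (n → ℝ) → ℝ≥0∞) a ∂P := by
        refine lintegral_mono_ae ?_
        filter_upwards [ae_cube hε] with a ha using hcover a ha
    _ = ∑ k ∈ Finset.range (K + 1), ∫⁻ a, (S k).indicator (1 : (n → ℝ) → ℝ≥0∞) a ∂P := by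
        rw [lintegral_finsetSum _ (fun k _ => measurable_one.indicator (hScl k).measurableSet)]
    _ ≤ ∑ k ∈ Finset.range (K + 1),
        ENNReal.ofReal (25 / 2 * (Fintype.card n) ^ 2 * s ^ 2 / ε ^ 2) :=
        Finset.sum_le_sum fun k _ => hone k
    _ ≤ _ := by
        rw [Finset.sum_const, Finset.card_range, nsmul_eq_mul, ← ENNReal.ofReal_natCast,
          ← ENNReal.ofReal_mul (by positivity)]
        apply ENNReal.ofReal_le_ofReal
        have hKb : (K : ℝ) < 2 * C / s + 1 := Nat.ceil_lt_add_one (by positivity)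
        have h6 : ((K + 1 : ℕ) : ℝ) ≤ 2 * (C + 1) / s := by
          push_cast
          have : 2 * C / s + 1 + 1 ≤ 2 * (C + 1) / s := by
            rw [mul_add, add_div, mul_one]
            have : 2 ≤ 2 / s := by rw [le_div_iff₀ hs]; linarith
            linarith
          linarith
        calc ((K + 1 : ℕ) : ℝ) * (25 / 2 * (Fintype.card n) ^ 2 * s ^ 2 / ε ^ 2)
            ≤ (2 * (C + 1) / s) * (25 / 2 * (Fintype.card n) ^ 2 * s ^ 2 / ε ^ 2) := by gcongr
          _ = _ := by
              field_simp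

end Pool.Agent.K9h27.LP
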