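import Pool.Agent.K9h27.LP.Params

set_option autoImplicit false
set_option linter.unusedSimpArgs false
set_option linter.unusedSectionVars false
set_option linter.unusedVariables false

open MeasureTheory Set Matrix Filter
open scoped ENNReal Topology

namespace Pool.Agent.K9h27.LP

theorem jac_congr {L : ℕ} {v v' : ℕ → ℝ} (h : ∀ i < L, v i = v' i) : jac L v = jac L v' := by
  ext i j
  unfold jac
  rw [h i i.2]

theorem Cap.congr {L : ℕ} {v v' : ℕ → ℝ} (h : ∀ i < L, v i = v' i) {m M : ℕ} {θ : ℝ}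
    (hc : Cap L v m M θ) : Cap L v' m M θ := by
  unfold Cap at *
  rw [jac_congr h] at hc
  exact hc

theorem jac_row {L : ℕ} {B : ℕ → ℝ} {C0 : ℝ} (hB : ∀ i < L, |B i| ≤ C0) (i : Fin L) :
    ∑ k, |jac L B k i| ≤ C0 + 2 := by
  have h1 : ∀ k : Fin L, |jac L B k i| ≤ (if k = i then C0 else 0) +
      (if (k : ℕ) = i + 1 then 1 else 0) + (if (k : ℕ) + 1 = i then 1 else 0) := by
    intro k
    unfold jac
    by_cases hk : k = i
    · subst hk
      simp
      exact hB k k.2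
    · rw [if_neg hk, if_neg hk]
      by_cases h2 : (k : ℕ) + 1 = i
      · rw [if_pos (Or.inl h2), if_pos h2, if_neg (by omega)]
        norm_num
      · by_cases h3 : (k : ℕ) = i + 1
        · rw [if_pos (Or.inr h3.symm), if_pos h3, if_neg h2]
          norm_num
        · rw [if_neg (by omega), if_neg h3, if_neg h2]
          norm_num
  refine (Finset.sum_le_sum fun k _ => h1 k).trans ?_
  rw [Finset.sum_add_distrib, Finset.sum_add_distrib, Finset.sum_ite_eq' Finset.univ i,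
    if_pos (Finset.mem_univ _)]
  have h2 : ∑ k : Fin L, (if (k : ℕ) = i + 1 then (1 : ℝ) else 0) ≤ 1 := by
    rw [Finset.sum_boole]
    have : (Finset.univ.filter fun k : Fin L => (k : ℕ) = i + 1).card ≤ 1 :=
      Finset.card_le_one.2 fun a ha b hb => by
        have h1 := (Finset.mem_filter.1 ha).2
        have h2 := (Finset.mem_filter.1 hb).2
        exact Fin.ext (by omega)
    exact_mod_cast this
  have h3 : ∑ k : Fin L, (if (k : ℕ) + 1 = i then (1 : ℝ) else 0) ≤ 1 := by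
    rw [Finset.sum_boole]
    have : (Finset.univ.filter fun k : Fin L => (k : ℕ) + 1 = i).card ≤ 1 :=
      Finset.card_le_one.2 fun a ha b hb => by
        have h1 := (Finset.mem_filter.1 ha).2
        have h2 := (Finset.mem_filter.1 hb).2
        exact Fin.ext (by omega)
    exact_mod_cast this
  linarith

theorem count_mod {N K : ℕ} (hN : 0 < N) (P : ℕ → Prop) [DecidablePred P] (c : ℕ)
    (hc : ((Finset.range N).filter P).card ≤ c) :
    ((Finset.range (N * K)).filter fun m => P (m % N)).card ≤ K * c := by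
  have h1 : ((Finset.range (N * K)).filter fun m => P (m % N)).card ≤
      ((Finset.range K) ×ˢ ((Finset.range N).filter P)).card := by
    refine Finset.card_le_card_of_injOn (fun m => (m / N, m % N)) ?_ ?_
    · intro m hm
      have hm1 := (Finset.mem_filter.1 hm).1
      have hm2 := (Finset.mem_filter.1 hm).2
      rw [Finset.mem_range] at hm1
      simp only [Finset.coe_product, Set.mem_prod, Finset.mem_coe, Finset.mem_range,
        Finset.mem_filter]
      exact ⟨Nat.div_lt_of_lt_mul hm1, Nat.mod_lt _ hN, hm2⟩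
    · intro m hm m' hm' h
      simp only [Prod.mk.injEq] at h
      rw [← Nat.div_add_mod m N, ← Nat.div_add_mod m' N, h.1, h.2]
  rw [Finset.card_product, Finset.card_range] at h1
  exact h1.trans (Nat.mul_le_mul_left _ hc)

theorem count_edge {N D : ℕ} :
    ((Finset.range N).filter fun r => ¬ (2 * D + 1 ≤ r ∧ r + 2 * D + 2 ≤ N)).card ≤ 4 * D + 3 := by
  have h1 : ((Finset.range N).filter fun r => ¬ (2 * D + 1 ≤ r ∧ r + 2 * D + 2 ≤ N)) ⊆
      Finset.range (2 * D + 1) ∪ Finset.Ico (N - (2 * D + 1)) N := by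
    intro r hr
    have h2 := Finset.mem_range.1 (Finset.mem_filter.1 hr).1
    have h3 := (Finset.mem_filter.1 hr).2
    rw [Finset.mem_union, Finset.mem_range, Finset.mem_Ico]
    by_contra hcon
    apply h3
    push Not at hcon
    omega
  refine (Finset.card_le_card h1).trans ((Finset.card_union_le _ _).trans ?_)
  rw [Finset.card_range, Nat.card_Ico]
  omega

/-- the transfer property at the site `m` -/
def Good (d N L : ℕ) (v' v : ℕ → ℝ) (δ : ℝ) (m : ℕ) : Prop :=
  d ≤ m % N ∧ m % N + d < N ∧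
    ∀ (M : ℕ) (θ : ℝ), 0 ≤ θ → Cap N v' (m % N) M θ → Cap L v m M (θ + 2 * δ)

/-- the potential on the cell -/
noncomputable def vN {N : ℕ} (B : ℕ → ℝ) (a : Fin N → ℝ) (i : ℕ) : ℝ := B i + ex a (i % N)

theorem pot_eq {L N : ℕ} [NeZero L] [NeZero N] (B : ℕ → ℝ) (a : Fin N → ℝ) (w : Fin L → ℝ)
    (i : ℕ) : pot B a w i = vN B a i + ex w (i % L) := by
  have h1 : i % N < N := Nat.mod_lt _ (Nat.pos_of_ne_zero (NeZero.ne N))
  have h2 : i % L < L := Nat.mod_lt _ (Nat.pos_of_ne_zero (NeZero.ne L))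
  unfold pot vN
  rw [ex_of_lt a h1, ex_of_lt w h2]
  rfl

theorem ex_abs_le {L : ℕ} {w : Fin L → ℝ} {ε : ℝ} (hε : 0 ≤ ε) (h : ∀ i, |w i| ≤ ε) (i : ℕ) :
    |ex w i| ≤ ε := by
  by_cases hi : i < L
  · rw [ex_of_lt _ hi]; exact h _
  · rw [ex_of_ge _ (not_lt.1 hi), abs_zero]; exact hε

theorem jac_vN {N : ℕ} [NeZero N] (B : ℕ → ℝ) (a : Fin N → ℝ) :
    jac N (vN B a) = jac N B + Matrix.diagonal a := by
  ext i j
  rw [Matrix.add_apply, Matrix.diagonal_apply]
  unfold jac vN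
  by_cases h : i = j
  · subst h
    simp only [if_true]
    rw [Nat.mod_eq_of_lt i.2, ex_coe]
  · simp only [if_neg h, add_zero]

theorem periodic_mul {N : ℕ} {B : ℕ → ℝ} (h : ∀ i, B (i + N) = B i) (k i : ℕ) :
    B (N * k + i) = B i := by
  induction k with
  | zero => simp
  | succ k ih =>
    rw [← ih, ← h (N * k + i)]
    congr 1
    ring

/-- goodness off the bad sets -/
theorem good_of {L N : ℕ} [NeZero L] [NeZero N] (hNL : N ∣ L) {B : ℕ → ℝ}
    (hper : ∀ i, B (i + N) = B i) {ε' s ζ2 η δ : ℝ} {D d : ℕ} (hε' : 0 < ε') (hs : 0 < s)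
    (hζ : 0 < ζ2) (hη : 0 < η) (hδ : 0 < δ)
    (hκ : 4 * (2 * ε' ^ 2 + 4 * η) ≤ ζ2 * s ^ 2) (hηζ : ζ2 + η < 1 / 2)
    (hNζ : (N : ℝ) * ζ2 ≤ δ ^ 2) (hdD : d ≤ D) (m : Fin L)
    (hm1 : 2 * D + 1 ≤ (m : ℕ) % N) (hm2 : (m : ℕ) % N + 2 * D + 2 ≤ N)
    {a : Fin N → ℝ} {w : Fin L → ℝ} (hw : ∀ i, |w i| ≤ ε') (hgap : a ∉ GapS (jac N B) s)
    (hbad : (a, w) ∉ BadS B m (m - 1 - 2 * D) (L - 1 - m - 1 - 2 * D) (η * δ ^ 2)) :
    Good d N L (vN B a) (fun i => vN B a i + ex w (i % L)) δ m := by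
  have hNpos : 0 < N := Nat.pos_of_ne_zero (NeZero.ne N)
  refine ⟨by omega, by omega, fun M θ hθ hcap => ?_⟩
  set o := N * ((m : ℕ) / N) with ho
  have hdiv : o + (m : ℕ) % N = m := Nat.div_add_mod _ _
  have hmod : (m : ℕ) % N < N := Nat.mod_lt _ hNpos
  have hoN : o + N ≤ L := by
    obtain ⟨K, hK⟩ := hNL
    have h1 : (m : ℕ) / N < K := Nat.div_lt_of_lt_mul (by rw [← hK]; exact m.2)
    calc o + N = N * ((m : ℕ) / N + 1) := by rw [ho]; ring
      _ ≤ N * K := Nat.mul_le_mul_left _ h1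
      _ = L := hK.symm
  have hmL := m.2
  have key := one_step (N := N) (L := L) (o := o) (f := m - 1 - 2 * D)
    (f' := L - 1 - m - 1 - 2 * D) (m' := (m : ℕ) % N) hoN (by omega) (by omega) hmod
    (v := fun i => vN B a i + ex w (i % L)) (v' := vN B a) (εw := ε') (s := s) (η := η)
    (τ := η * δ ^ 2) (ρ := δ) (ζ2 := ζ2) ?_ hs hη hδ.le hζ.le hκ hηζ hNζ le_rfl ?_ ?_ hθ hcap
  · rw [hdiv] at key
    exact key
  · intro i hi
    have e1 : vN B a (o + i) = vN B a i := by
      unfold vN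
      rw [ho, periodic_mul hper, Nat.mul_add_mod]
    simp only [e1]
    have e2 : vN B a i - (vN B a i + ex w ((o + i) % L)) = - ex w ((o + i) % L) := by ring
    rw [e2, abs_neg]
    exact ex_abs_le hε'.le hw _
  · intro Φ lam hΦ i i' hii
    by_contra hcon
    apply hgap
    refine ⟨Φ, lam, ?_, i, i', hii, not_lt.1 hcon⟩
    rw [← jac_vN]; exact hΦ
  · intro Ψ E hΨ
    by_contra hcon
    apply hbad
    refine ⟨Ψ, E, ?_, ?_⟩
    · have : jac L (pot B a w) = jac L (fun i => vN B a i + ex w (i % L)) :=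
        jac_congr fun i _ => pot_eq B a w i
      simp only
      rw [this]
      exact hΨ
    · rw [not_le] at hcon
      refine hcon.le.trans (le_of_eq ?_)
      unfold bw
      refine Finset.sum_congr rfl fun j _ => ?_
      rw [hdiv, ex_coe]
      rfl

open Classical in
/-- the one step property -/
def OSP (C0 ε ε' δ : ℝ) (d N : ℕ) : Prop :=
  ∀ L : ℕ, 0 < L → N ∣ L → ∀ B : ℕ → ℝ, (∀ i, |B i| ≤ C0) → (∀ i, B (i + N) = B i) →
    ∃ F : (Fin N → ℝ) × (Fin L → ℝ) → ℝ≥0∞, Measurable F ∧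
      ∫⁻ a, (∫⁻ w, F (a, w) ∂(Measure.pi fun _ : Fin L => nu ε'))
        ∂(Measure.pi fun _ : Fin N => nu ε) ≤ ENNReal.ofReal (2 * δ) ∧
      ∀ (a : Fin N → ℝ) (w : Fin L → ℝ), (∀ i, |a i| ≤ ε) → (∀ i, |w i| ≤ ε') →
        (((Finset.range L).filter fun m =>
          ¬ Good d N L (vN B a) (fun i => vN B a i + ex w (i % L)) δ m).card : ℝ≥0∞) ≤
          L * (F (a, w) + ENNReal.ofReal δ)

theorem OS_aux {C0 ε δ : ℝ} (hC0 : 0 ≤ C0) (hε : 0 < ε) (hε1 : ε ≤ 1) (hδ : 0 < δ)
    {d N D : ℕ} (hN0 : 0 < N) {ε' s ζ2 η : ℝ} (hε' : 0 < ε') (hε'2 : ε' ≤ ε / 2) (hs : 0 < s)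
    (hs1 : s ≤ 1) (hζ : 0 < ζ2) (hη : 0 < η)
    (hκ : 4 * (2 * ε' ^ 2 + 4 * η) ≤ ζ2 * s ^ 2) (hηζ : ζ2 + η < 1 / 2)
    (hNζ : (N : ℝ) * ζ2 ≤ δ ^ 2) (hgapp : 25 * (C0 + 4) * (N : ℝ) ^ 2 * s / ε ^ 2 ≤ δ)
    (hD1 : 1 ≤ D) (hdD : d ≤ D) (h2D : 2 * D ≤ N) (h4D : (4 * D + 3 : ℝ) ≤ δ * N)
    (hbadp : (η * δ ^ 2)⁻¹ * ((2 * ε')⁻¹ * (2 * (C0 + ε + ε' + 2) *
      (2 * (5000000 / ε' ^ 3 * tt ε ^ D)))) ≤ δ) : OSP C0 ε ε' δ d N := by
  classical
  intro L hL0 hNL B hB hper
  have : NeZero L := ⟨hL0.ne'⟩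
  have : NeZero N := ⟨hN0.ne'⟩
  have pa := nu_prob hε
  have pw := nu_prob hε'
  set S : Fin L → Set ((Fin N → ℝ) × (Fin L → ℝ)) := fun m =>
    BadS B m (m - 1 - 2 * D) (L - 1 - m - 1 - 2 * D) (η * δ ^ 2) ∩ Box N L ε ε' with hS
  have hSm : ∀ m, MeasurableSet (S m) := fun m =>
    ((isClosed_BadS B m _ _ _).inter (isClosed_Box ε ε')).measurableSet
  set Int : Finset (Fin L) := Finset.univ.filter fun m =>
    2 * D + 1 ≤ (m : ℕ) % N ∧ (m : ℕ) % N + 2 * D + 2 ≤ N with hInt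
  set F : (Fin N → ℝ) × (Fin L → ℝ) → ℝ≥0∞ := fun p =>
    (GapS (jac N B) s).indicator 1 p.1 + (L : ℝ≥0∞)⁻¹ * ∑ m ∈ Int, (S m).indicator 1 p with hF
  have hGm : Measurable fun a : Fin N → ℝ => (GapS (jac N B) s).indicator (1 : (Fin N → ℝ) → ℝ≥0∞) a :=
    measurable_one.indicator (isClosed_GapS _ _).measurableSet
  have hG1 : Measurable fun p : (Fin N → ℝ) × (Fin L → ℝ) =>
      (GapS (jac N B) s).indicator (1 : (Fin N → ℝ) → ℝ≥0∞) p.1 := hGm.comp measurable_fst
  have hSi : ∀ m, Measurable fun p => (S m).indicator (1 : (Fin N → ℝ) × (Fin L → ℝ) → ℝ≥0∞) p :=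
    fun m => measurable_one.indicator (hSm m)
  have hFm : Measurable F :=
    hG1.add ((Finset.measurable_fun_sum _ fun m _ => hSi m).const_mul _)
  have hLne : (L : ℝ≥0∞) ≠ 0 := by exact_mod_cast hL0.ne'
  have hLtop : (L : ℝ≥0∞) ≠ ∞ := ENNReal.natCast_ne_top _
  refine ⟨F, hFm, ?_, ?_⟩
  · -- expectation
    have hSslice : ∀ m a, Measurable fun w : Fin L → ℝ =>
        (S m).indicator (1 : (Fin N → ℝ) × (Fin L → ℝ) → ℝ≥0∞) (a, w) := fun m a =>
      (hSi m).comp (measurable_const.prodMk measurable_id)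
    have e1 : ∀ a, ∫⁻ w, F (a, w) ∂(Measure.pi fun _ : Fin L => nu ε') =
        (GapS (jac N B) s).indicator 1 a + (L : ℝ≥0∞)⁻¹ * ∑ m ∈ Int,
          ∫⁻ w, (S m).indicator 1 (a, w) ∂(Measure.pi fun _ : Fin L => nu ε') := by
      intro a
      simp only [hF]
      rw [lintegral_add_left measurable_const, lintegral_const, measure_univ, mul_one,
        lintegral_const_mul _ (Finset.measurable_fun_sum _ fun m _ => hSslice m a),
        lintegral_finsetSum _ fun m _ => hSslice m a]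
    simp only [e1]
    rw [lintegral_add_left hGm]
    have hSint : ∀ m, Measurable fun a : Fin N → ℝ =>
        ∫⁻ w, (S m).indicator 1 (a, w) ∂(Measure.pi fun _ : Fin L => nu ε') := fun m =>
      Measurable.lintegral_prod_right' (hSi m)
    rw [lintegral_const_mul _ (Finset.measurable_fun_sum _ fun m _ => hSint m),
      lintegral_finsetSum _ fun m _ => hSint m]
    have h1 : ∫⁻ a, (GapS (jac N B) s).indicator 1 a ∂(Measure.pi fun _ : Fin N => nu ε) ≤
        ENNReal.ofReal δ := by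
      refine (prob_gap (jac_symm N B) hε (C := C0 + 3) (by linarith) ?_ hs hs1).trans ?_
      · intro i
        have := jac_row (fun i _ => hB i) i (L := N)
        linarith
      · rw [Fintype.card_fin]
        apply ENNReal.ofReal_le_ofReal
        have : C0 + 3 + 1 = C0 + 4 := by ring
        rw [this]
        exact hgapp
    have h2 : ∀ m ∈ Int, ∫⁻ a, (∫⁻ w, (S m).indicator 1 (a, w)
        ∂(Measure.pi fun _ : Fin L => nu ε')) ∂(Measure.pi fun _ : Fin N => nu ε) ≤
        ENNReal.ofReal δ := by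
      intro m hm
      have hm' := (Finset.mem_filter.1 hm).2
      have hmod : N * ((m : ℕ) / N) + (m : ℕ) % N = m := Nat.div_add_mod _ _
      have hoN : N * ((m : ℕ) / N) + N ≤ L := by
        obtain ⟨K, hK⟩ := hNL
        have h1 : (m : ℕ) / N < K := Nat.div_lt_of_lt_mul (by rw [← hK]; exact m.2)
        calc N * ((m : ℕ) / N) + N = N * ((m : ℕ) / N + 1) := by ring
          _ ≤ N * K := Nat.mul_le_mul_left _ h1
          _ = L := hK.symm
      refine (bad_meas hε' (by linarith) (by linarith) hC0 (fun i _ => hB i) (by positivity) m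
        (m - 1 - 2 * D) (L - 1 - m - 1 - 2 * D) D hD1 (by omega) (by omega) h2D).trans ?_
      rw [← ENNReal.ofReal_inv_of_pos (by positivity), ← ENNReal.ofReal_inv_of_pos (by positivity)]
      have htt := pow_nonneg (tt_nonneg ε) D
      have h3 : (2 : ℝ≥0∞) * ENNReal.ofReal (5000000 / ε' ^ 3 * tt ε ^ D) =
          ENNReal.ofReal (2 * (5000000 / ε' ^ 3 * tt ε ^ D)) := by
        rw [ENNReal.ofReal_mul (by norm_num : (0 : ℝ) ≤ 2)]
        norm_num
      rw [h3, ← ENNReal.ofReal_mul (by positivity), ← ENNReal.ofReal_mul (by positivity),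
        ← ENNReal.ofReal_mul (by positivity)]
      exact ENNReal.ofReal_le_ofReal hbadp
    have h3 : (L : ℝ≥0∞)⁻¹ * ∑ m ∈ Int, ∫⁻ a, (∫⁻ w, (S m).indicator 1 (a, w)
        ∂(Measure.pi fun _ : Fin L => nu ε')) ∂(Measure.pi fun _ : Fin N => nu ε) ≤
        ENNReal.ofReal δ := by
      calc _ ≤ (L : ℝ≥0∞)⁻¹ * ∑ m ∈ Int, ENNReal.ofReal δ := by
            gcongr with m hm
            exact h2 m hm
        _ ≤ (L : ℝ≥0∞)⁻¹ * (L * ENNReal.ofReal δ) := by
            rw [Finset.sum_const, nsmul_eq_mul]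
            gcongr
            calc Int.card ≤ Fintype.card (Fin L) := Finset.card_le_univ _
              _ = L := Fintype.card_fin L
        _ = _ := by rw [← mul_assoc, ENNReal.inv_mul_cancel hLne hLtop, one_mul]
    calc _ ≤ ENNReal.ofReal δ + ENNReal.ofReal δ := add_le_add h1 h3
      _ = _ := by rw [← ENNReal.ofReal_add hδ.le hδ.le]; congr 1; ring
  · intro a w ha hw
    by_cases hga : a ∈ GapS (jac N B) s
    · have h1 : (1 : ℝ≥0∞) ≤ F (a, w) := by
        simp only [hF]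
        rw [Set.indicator_of_mem hga]
        exact le_self_add
      calc _ ≤ (L : ℝ≥0∞) := by
            have := Finset.card_filter_le (Finset.range L) fun m =>
              ¬ Good d N L (vN B a) (fun i => vN B a i + ex w (i % L)) δ m
            rw [Finset.card_range] at this
            exact_mod_cast this
        _ = L * 1 := (mul_one _).symm
        _ ≤ L * (F (a, w) + ENNReal.ofReal δ) := by
            gcongr
            exact h1.trans le_self_add
    · have hsub : ((Finset.range L).filter fun m =>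
          ¬ Good d N L (vN B a) (fun i => vN B a i + ex w (i % L)) δ m) ⊆
          ((Finset.range L).filter fun m => ¬ (2 * D + 1 ≤ m % N ∧ m % N + 2 * D + 2 ≤ N)) ∪
          ((Int.filter fun m => (a, w) ∈ S m).image fun m : Fin L => (m : ℕ)) := by
        intro m hm
        have hmL := Finset.mem_range.1 (Finset.mem_filter.1 hm).1
        have hmG := (Finset.mem_filter.1 hm).2
        rw [Finset.mem_union]
        by_cases hint : 2 * D + 1 ≤ m % N ∧ m % N + 2 * D + 2 ≤ N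
        · right
          rw [Finset.mem_image]
          refine ⟨⟨m, hmL⟩, ?_, rfl⟩
          rw [Finset.mem_filter, hInt, Finset.mem_filter]
          refine ⟨⟨Finset.mem_univ _, hint⟩, ?_, ha, hw⟩
          by_contra hcon
          exact hmG (good_of hNL hper hε' hs hζ hη hδ hκ hηζ hNζ hdD ⟨m, hmL⟩ hint.1 hint.2 hw
            hga hcon)
        · left
          rw [Finset.mem_filter]
          exact ⟨Finset.mem_range.2 hmL, hint⟩
      have hcard := (Finset.card_le_card hsub).trans (Finset.card_union_le _ _)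
      have hc1 : (((Finset.range L).filter fun m => ¬ (2 * D + 1 ≤ m % N ∧
          m % N + 2 * D + 2 ≤ N)).card : ℝ≥0∞) ≤ L * ENNReal.ofReal δ := by
        obtain ⟨K, hK⟩ := hNL
        have h1 := count_mod (K := K) hN0 (fun r => ¬ (2 * D + 1 ≤ r ∧ r + 2 * D + 2 ≤ N)) _
          (count_edge (N := N) (D := D))
        rw [← hK] at h1
        have h2 : ((((Finset.range L).filter fun m => ¬ (2 * D + 1 ≤ m % N ∧
          m % N + 2 * D + 2 ≤ N)).card : ℕ) : ℝ) ≤ L * δ := by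
          have h3 : ((((Finset.range L).filter fun m => ¬ (2 * D + 1 ≤ m % N ∧
            m % N + 2 * D + 2 ≤ N)).card : ℕ) : ℝ) ≤ ((K * (4 * D + 3) : ℕ) : ℝ) := by
            exact_mod_cast h1
          refine h3.trans ?_
          push_cast
          have h4 : (K : ℝ) * (4 * D + 3) ≤ K * (δ * N) := by gcongr
          have h5 : (L : ℝ) = N * K := by rw [hK]; push_cast; ring
          rw [h5]
          linarith
        have h3 := ENNReal.ofReal_le_ofReal h2
        rwa [ENNReal.ofReal_natCast, ENNReal.ofReal_mul (Nat.cast_nonneg _),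
          ENNReal.ofReal_natCast] at h3
      have hc2 : (((Int.filter fun m => (a, w) ∈ S m).image fun m : Fin L => (m : ℕ)).card : ℝ≥0∞) ≤
          L * F (a, w) := by
        have h1 : (((Int.filter fun m => (a, w) ∈ S m).image fun m : Fin L => (m : ℕ)).card : ℝ≥0∞) ≤
            ∑ m ∈ Int, (S m).indicator 1 (a, w) := by
          have h2 : ∑ m ∈ Int, (S m).indicator (1 : (Fin N → ℝ) × (Fin L → ℝ) → ℝ≥0∞) (a, w) =
              ((Int.filter fun m => (a, w) ∈ S m).card : ℝ≥0∞) := by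
            rw [Finset.card_filter]
            push_cast
            refine Finset.sum_congr rfl fun m _ => ?_
            rw [Set.indicator_apply]
            rfl
          rw [h2]
          exact_mod_cast Finset.card_image_le
        refine h1.trans ?_
        simp only [hF]
        calc _ = L * ((L : ℝ≥0∞)⁻¹ * ∑ m ∈ Int, (S m).indicator 1 (a, w)) := by
              rw [← mul_assoc, ENNReal.mul_inv_cancel hLne hLtop, one_mul]
          _ ≤ _ := by gcongr; exact le_add_self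
      calc _ ≤ ((((Finset.range L).filter fun m => ¬ (2 * D + 1 ≤ m % N ∧
          m % N + 2 * D + 2 ≤ N)).card + ((Int.filter fun m => (a, w) ∈ S m).image
            fun m : Fin L => (m : ℕ)).card : ℕ) : ℝ≥0∞) := by exact_mod_cast hcard
        _ ≤ L * ENNReal.ofReal δ + L * F (a, w) := by push_cast; exact add_le_add hc1 hc2
        _ = _ := by ring

theorem OS {C0 ε δ : ℝ} (hC0 : 0 ≤ C0) (hε : 0 < ε) (hε1 : ε ≤ 1) (hδ : 0 < δ) (hδ1 : δ ≤ 1 / 4)
    (d : ℕ) : ∃ Nmin : ℕ, 1 ≤ Nmin ∧ ∀ N ≥ Nmin, ∃ ε' : ℝ, 0 < ε' ∧ ε' ≤ ε / 2 ∧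
      OSP C0 ε ε' δ d N := by
  obtain ⟨Nmin, h1, h2⟩ := params hC0 hε hε1 hδ hδ1 d
  refine ⟨Nmin, h1, fun N hN => ?_⟩
  obtain ⟨ε', s, ζ2, η, D, a1, a2, a3, a4, a5, a6, a7, a8, a9, a10, a11, a12, a13, a14, a15⟩ :=
    h2 N hN
  exact ⟨ε', a1, a2, OS_aux hC0 hε hε1 hδ (by omega) a1 a2 a3 a4 a5 a6 a7 a8 a9 a10 a11 a12 a13
    a14 a15⟩

end Pool.Agent.K9h27.LP
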