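import Pool.Agent.K9h27.LP.Jac

set_option autoImplicit false
set_option linter.unusedSimpArgs false
set_option linter.unusedSectionVars false
set_option linter.unusedVariables false

open Set Matrix

namespace Pool.Agent.K9h27.LP

/-- `M` eigenvectors carry at least `1 - θ²` of the weight of the site `m` -/
def Cap (L : ℕ) (v : ℕ → ℝ) (m M : ℕ) (θ : ℝ) : Prop :=
  ∃ (Ψ : Matrix (Fin L) (Fin L) ℝ) (l : Fin L → ℝ), IsES (jac L v) Ψ l ∧
    ∃ J : Finset (Fin L), J.card ≤ M ∧ 1 - θ ^ 2 ≤ ∑ j ∈ J, ex (Ψ j) m ^ 2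

theorem cap_full {L : ℕ} (v : ℕ → ℝ) {m : ℕ} (hm : m < L) : Cap L v m L 0 := by
  obtain ⟨Ψ, l, h⟩ := exists_ES (jac L v) (jac_symm L v)
  refine ⟨Ψ, l, h, Finset.univ, by simp, ?_⟩
  have := h.col_orth ⟨m, hm⟩ ⟨m, hm⟩
  rw [if_pos rfl] at this
  have e : ∑ j, ex (Ψ j) m ^ 2 = 1 := by
    rw [← this]
    exact Finset.sum_congr rfl fun j _ => by rw [ex_of_lt _ hm, sq]
  rw [e]; norm_num

/-- restriction to a cell -/
noncomputable def restr {L : ℕ} (N o : ℕ) (ψ : Fin L → ℝ) : Fin N → ℝ := fun i => ex ψ (o + i)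

/-- extension from a cell -/
noncomputable def extd {N : ℕ} (L o : ℕ) (φ : Fin N → ℝ) : Fin L → ℝ :=
  fun k => if o ≤ (k : ℕ) then ex φ (k - o) else 0

theorem sum_extd {L N o : ℕ} (hN : o + N ≤ L) (φ : Fin N → ℝ) (g : ℝ → Fin L → ℝ)
    (hg : ∀ k, g 0 k = 0) :
    ∑ k : Fin L, g (extd L o φ k) k = ∑ i : Fin N, g (φ i) ⟨o + i, by have := i.2; omega⟩ := by
  symm
  refine Finset.sum_of_injOn (fun i : Fin N => (⟨o + i, by have := i.2; omega⟩ : Fin L)) ?_ ?_ ?_ ?_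
  · intro i _ j _ hij
    have := congrArg Fin.val hij
    simp only at this
    exact Fin.ext (by omega)
  · intro i _
    simp
  · intro k _ hk
    have : extd L o φ k = 0 := by
      unfold extd
      by_cases h : o ≤ (k : ℕ)
      · rw [if_pos h]
        by_cases h2 : (k : ℕ) - o < N
        · exfalso
          apply hk
          refine ⟨⟨k - o, h2⟩, by simp, ?_⟩
          apply Fin.ext
          simp only
          omega
        · exact ex_of_ge _ (not_lt.1 h2)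
      · rw [if_neg h]
    rw [this, hg]
  · intro i _
    have : extd L o φ ⟨o + i, by have := i.2; omega⟩ = φ i := by
      unfold extd
      rw [if_pos (by simp)]
      simp only [Nat.add_sub_cancel_left]
      rw [ex_coe]
    rw [this]

variable {L N : ℕ}

/-- the defect of a restricted eigenvector -/
theorem defect {o : ℕ} (hN : o + N ≤ L) {v v' : ℕ → ℝ} {Ψ : Matrix (Fin L) (Fin L) ℝ}
    {E : Fin L → ℝ} (hΨ : IsES (jac L v) Ψ E) (j : Fin L) (i : Fin N) :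
    ((jac N v') *ᵥ (restr N o (Ψ j))) i - E j * restr N o (Ψ j) i =
      (v' i - v (o + i)) * restr N o (Ψ j) i -
        (if (i : ℕ) + 1 = N then ex (Ψ j) (o + N) else 0) -
        (if (i : ℕ) = 0 then (if o = 0 then 0 else ex (Ψ j) (o - 1)) else 0) := by
  have h1 := jac_col v' (restr N o (Ψ j)) i
  have h2 := hΨ.jac_eq j (o + i) (by have := i.2; omega)
  have h3 : ((jac N v') *ᵥ (restr N o (Ψ j))) i = ∑ k, restr N o (Ψ j) k * jac N v' k i := by
    simp only [Matrix.mulVec, dotProduct]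
    refine Finset.sum_congr rfl fun k _ => ?_
    rw [(jac_symm N v').apply k i, mul_comm]
  rw [h3, h1]
  have e1 : restr N o (Ψ j) i = ex (Ψ j) (o + i) := rfl
  have e2 : ex (restr N o (Ψ j)) (i + 1) =
      ex (Ψ j) (o + i + 1) - (if (i : ℕ) + 1 = N then ex (Ψ j) (o + N) else 0) := by
    by_cases h : (i : ℕ) + 1 = N
    · rw [if_pos h, ex_of_ge _ (by omega)]
      have : o + (i : ℕ) + 1 = o + N := by omega
      rw [this]; ring
    · rw [if_neg h, ex_of_lt _ (by have := i.2; omega), sub_zero]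
      rfl
  have e3 : (if (i : ℕ) = 0 then 0 else ex (restr N o (Ψ j)) (i - 1)) =
      (if o + (i : ℕ) = 0 then 0 else ex (Ψ j) (o + i - 1)) -
        (if (i : ℕ) = 0 then (if o = 0 then 0 else ex (Ψ j) (o - 1)) else 0) := by
    by_cases h : (i : ℕ) = 0
    · rw [if_pos h, if_pos h, h, add_zero]
      ring
    · rw [if_neg h, if_neg h, if_neg (by omega), sub_zero,
        ex_of_lt _ (by have := i.2; omega)]
      have : o + (i : ℕ) - 1 = o + (i - 1) := by omega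
      rw [this]
      rfl
  rw [e1, e2, e3]
  linarith

theorem restr_sq {o : ℕ} (ψ : Fin L → ℝ) :
    ∑ i, restr N o ψ i ^ 2 = ∑ k ∈ Finset.Ico o (o + N), ex ψ k ^ 2 := by
  unfold restr
  rw [Fin.sum_univ_eq_sum_range (fun i => ex ψ (o + i) ^ 2) N, Finset.sum_Ico_eq_sum_range]
  congr 2
  omega

/-- far left mass -/
noncomputable def fL (f : ℕ) (ψ : Fin L → ℝ) : ℝ := ∑ k ∈ Finset.range f, ex ψ k ^ 2

/-- far right mass -/
noncomputable def fR (f : ℕ) (ψ : Fin L → ℝ) : ℝ :=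
  ∑ k ∈ Finset.range f, ex ψ (L - 1 - k) ^ 2

theorem fL_nonneg (f : ℕ) (ψ : Fin L → ℝ) : 0 ≤ fL f ψ := Finset.sum_nonneg fun _ _ => sq_nonneg _
theorem fR_nonneg (f : ℕ) (ψ : Fin L → ℝ) : 0 ≤ fR f ψ := Finset.sum_nonneg fun _ _ => sq_nonneg _

theorem reflect_sum (g : ℕ → ℝ) {K : ℕ} (hK : K ≤ L) :
    ∑ i ∈ Finset.Ico (L - K) L, g i = ∑ k ∈ Finset.range K, g (L - 1 - k) := by
  rw [Finset.sum_Ico_eq_sum_range, ← Finset.sum_range_reflect]
  have e : L - (L - K) = K := by omega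
  rw [e]
  refine Finset.sum_congr rfl fun k hk => ?_
  rw [Finset.mem_range] at hk
  congr 1
  omega

theorem mass_inside {o f f' : ℕ} (hN : o + N ≤ L) (hf : o ≤ f) (hf' : L - (o + N) ≤ f')
    (ψ : Fin L → ℝ) (hψ : ∑ k, ψ k ^ 2 = 1) :
    1 - (fL f ψ + fR f' ψ) ≤ ∑ i, restr N o ψ i ^ 2 ∧ ∑ i, restr N o ψ i ^ 2 ≤ 1 := by
  have h1 : ∑ k ∈ Finset.range L, ex ψ k ^ 2 = 1 := by
    rw [← hψ, ← Fin.sum_univ_eq_sum_range (fun k => ex ψ k ^ 2) L]
    exact Finset.sum_congr rfl fun i _ => by rw [ex_coe]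
  have h2 : ∑ k ∈ Finset.range L, ex ψ k ^ 2 = ∑ k ∈ Finset.range o, ex ψ k ^ 2 +
      ∑ k ∈ Finset.Ico o (o + N), ex ψ k ^ 2 + ∑ k ∈ Finset.Ico (o + N) L, ex ψ k ^ 2 := by
    rw [Finset.range_eq_Ico, Finset.range_eq_Ico, Finset.sum_Ico_consecutive _ (by omega) (by omega),
      Finset.sum_Ico_consecutive _ (by omega) hN]
  rw [restr_sq]
  have h3 : ∑ k ∈ Finset.range o, ex ψ k ^ 2 ≤ fL f ψ :=
    Finset.sum_le_sum_of_subset_of_nonneg (Finset.range_mono hf) fun _ _ _ => sq_nonneg _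
  have h4 : ∑ k ∈ Finset.Ico (o + N) L, ex ψ k ^ 2 ≤ fR f' ψ := by
    have e : o + N = L - (L - (o + N)) := by omega
    rw [e, reflect_sum (fun k => ex ψ k ^ 2) (by omega)]
    exact Finset.sum_le_sum_of_subset_of_nonneg (Finset.range_mono hf') fun _ _ _ => sq_nonneg _
  have h5 : 0 ≤ ∑ k ∈ Finset.range o, ex ψ k ^ 2 := Finset.sum_nonneg fun _ _ => sq_nonneg _
  have h6 : 0 ≤ ∑ k ∈ Finset.Ico (o + N) L, ex ψ k ^ 2 := Finset.sum_nonneg fun _ _ => sq_nonneg _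
  constructor <;> linarith

theorem boundary_le {o f f' : ℕ} (hN : o + N ≤ L) (hf : o ≤ f) (hf' : L - (o + N) ≤ f')
    (ψ : Fin L → ℝ) :
    ex ψ (o + N) ^ 2 + (if o = 0 then 0 else ex ψ (o - 1)) ^ 2 ≤ fL f ψ + fR f' ψ := by
  have h1 : (if o = 0 then 0 else ex ψ (o - 1)) ^ 2 ≤ fL f ψ := by
    by_cases h : o = 0
    · rw [if_pos h]; norm_num; exact fL_nonneg _ _
    · rw [if_neg h]
      exact Finset.single_le_sum (f := fun k => ex ψ k ^ 2) (fun _ _ => sq_nonneg _)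
        (Finset.mem_range.2 (by omega))
  have h2 : ex ψ (o + N) ^ 2 ≤ fR f' ψ := by
    by_cases h : o + N < L
    · have e : o + N = L - 1 - (L - 1 - (o + N)) := by omega
      rw [e]
      exact Finset.single_le_sum (f := fun k => ex ψ (L - 1 - k) ^ 2) (fun _ _ => sq_nonneg _)
        (Finset.mem_range.2 (by omega))
    · rw [ex_of_ge _ (by omega)]; norm_num; exact fR_nonneg _ _
  linarith

theorem defect_sum {o f f' : ℕ} (hN : o + N ≤ L) (hf : o ≤ f) (hf' : L - (o + N) ≤ f')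
    {v v' : ℕ → ℝ} {εw : ℝ} (hv : ∀ i < N, |v' i - v (o + i)| ≤ εw)
    {Ψ : Matrix (Fin L) (Fin L) ℝ}
    {E : Fin L → ℝ} (hΨ : IsES (jac L v) Ψ E) (j : Fin L) :
    ∑ i, (((jac N v') *ᵥ (restr N o (Ψ j))) i - E j * restr N o (Ψ j) i) ^ 2 ≤
      2 * εw ^ 2 + 4 * (fL f (Ψ j) + fR f' (Ψ j)) := by
  set br := ex (Ψ j) (o + N) with hbr
  set bl := (if o = 0 then 0 else ex (Ψ j) (o - 1)) with hbl
  set ψ' := restr N o (Ψ j) with hψ'
  have hnorm : ∑ k, Ψ j k ^ 2 = 1 := hΨ.row_norm j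
  obtain ⟨_, hm⟩ := mass_inside hN hf hf' (Ψ j) hnorm
  have hb := boundary_le hN hf hf' (Ψ j)
  have h1 : ∀ i : Fin N, (((jac N v') *ᵥ ψ') i - E j * ψ' i) ^ 2 ≤
      2 * (εw ^ 2 * ψ' i ^ 2) + (4 * (if (i : ℕ) + 1 = N then br ^ 2 else 0) +
        4 * (if (i : ℕ) = 0 then bl ^ 2 else 0)) := by
    intro i
    rw [defect hN hΨ j i]
    set x := (v' i - v (o + i)) * ψ' i with hx
    set y := (if (i : ℕ) + 1 = N then br else 0) with hy
    set z := (if (i : ℕ) = 0 then bl else 0) with hz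
    have e1 : (if (i : ℕ) + 1 = N then br ^ 2 else 0) = y ^ 2 := by
      rw [hy]; split_ifs <;> norm_num
    have e2 : (if (i : ℕ) = 0 then bl ^ 2 else 0) = z ^ 2 := by
      rw [hz]; split_ifs <;> norm_num
    rw [e1, e2]
    have e3 : x ^ 2 ≤ εw ^ 2 * ψ' i ^ 2 := by
      rw [hx, mul_pow]
      have := hv i i.2
      have : (v' i - v (o + i)) ^ 2 ≤ εw ^ 2 := by
        rw [← sq_abs]; exact pow_le_pow_left₀ (abs_nonneg _) this 2
      exact mul_le_mul_of_nonneg_right this (sq_nonneg _)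
    nlinarith [sq_nonneg (x + y + z), sq_nonneg (y - z)]
  calc _ ≤ ∑ i : Fin N, (2 * (εw ^ 2 * ψ' i ^ 2) + (4 * (if (i : ℕ) + 1 = N then br ^ 2 else 0) +
        4 * (if (i : ℕ) = 0 then bl ^ 2 else 0))) := Finset.sum_le_sum fun i _ => h1 i
    _ = 2 * (εw ^ 2 * ∑ i, ψ' i ^ 2) + (4 * (∑ i : Fin N, if (i : ℕ) + 1 = N then br ^ 2 else 0) +
        4 * (∑ i : Fin N, if (i : ℕ) = 0 then bl ^ 2 else 0)) := by
        rw [Finset.sum_add_distrib, Finset.sum_add_distrib, Finset.mul_sum, Finset.mul_sum,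
          Finset.mul_sum, Finset.mul_sum]
    _ ≤ 2 * (εw ^ 2 * 1) + (4 * br ^ 2 + 4 * bl ^ 2) := by
        have s1 : (∑ i : Fin N, if (i : ℕ) + 1 = N then br ^ 2 else 0) ≤ br ^ 2 := by
          rw [Fin.sum_univ_eq_sum_range (fun i => if i + 1 = N then br ^ 2 else 0) N]
          by_cases hN0 : N = 0
          · rw [hN0]; simp; positivity
          · rw [Finset.sum_eq_single (N - 1)]
            · rw [if_pos (by omega)]
            · intro b hb hb'
              rw [if_neg (by omega)]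
            · intro h
              exact absurd (Finset.mem_range.2 (by omega)) h
        have s2 : (∑ i : Fin N, if (i : ℕ) = 0 then bl ^ 2 else 0) ≤ bl ^ 2 := by
          rw [Fin.sum_univ_eq_sum_range (fun i => if i = 0 then bl ^ 2 else 0) N]
          by_cases hN0 : N = 0
          · rw [hN0]; simp; positivity
          · rw [Finset.sum_eq_single 0]
            · rw [if_pos rfl]
            · intro b hb hb'
              rw [if_neg hb']
            · intro h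
              exact absurd (Finset.mem_range.2 (by omega)) h
        gcongr
    _ ≤ _ := by linarith

theorem sum_diag_mul {n : Type*} [Fintype n] [DecidableEq n] {A Φ : Matrix n n ℝ} {l : n → ℝ}
    (h : IsES A Φ l) (u : n → ℝ) (E : ℝ) :
    ∑ i, (l i - E) ^ 2 * (Φ *ᵥ u) i ^ 2 = ∑ i, ((A *ᵥ u) i - E * u i) ^ 2 := by
  have h1 : ∀ j, (Φ *ᵥ (fun i => (A *ᵥ u) i - E * u i)) j = (l j - E) * (Φ *ᵥ u) j := by
    intro j
    have e1 : (fun i => (A *ᵥ u) i - E * u i) = A *ᵥ u - E • u := by ext i; simp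
    rw [e1, Matrix.mulVec_sub, Matrix.mulVec_mulVec, h.eig, ← Matrix.mulVec_mulVec,
      Matrix.mulVec_smul, Pi.sub_apply, Matrix.mulVec_diagonal, Pi.smul_apply, smul_eq_mul]
    ring
  rw [← h.normsq (fun i => (A *ᵥ u) i - E * u i)]
  refine Finset.sum_congr rfl fun j _ => ?_
  rw [h1, mul_pow]

/-- selection of the matching eigenvalue -/
theorem match_eig {n : Type*} [Fintype n] [DecidableEq n] {A Φ : Matrix n n ℝ} {lam : n → ℝ}
    (h : IsES A Φ lam) {s : ℝ} (hs : 0 < s) (hgap : ∀ i i', i ≠ i' → s < |lam i - lam i'|)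
    (u : n → ℝ) (E κ2 ζ2 η : ℝ) (hdef : ∑ i, ((A *ᵥ u) i - E * u i) ^ 2 ≤ κ2)
    (hκ : 4 * κ2 ≤ ζ2 * s ^ 2) (hnorm : 1 - η ≤ ∑ i, u i ^ 2) (hη : ζ2 + η < 1 / 2) :
    ∃ i0, 1 / 2 < (Φ *ᵥ u) i0 ^ 2 ∧
      ∑ i ∈ Finset.univ.erase i0, (Φ *ᵥ u) i ^ 2 ≤ ζ2 := by
  have h1 := sum_diag_mul h u E
  have h2 := h.normsq u
  have hκ2 : 0 ≤ κ2 := le_trans (Finset.sum_nonneg fun i _ => sq_nonneg _) hdef
  have hfar : ∀ T : Finset n, (∀ i ∈ T, s / 2 ≤ |lam i - E|) → ∑ i ∈ T, (Φ *ᵥ u) i ^ 2 ≤ ζ2 := by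
    intro T hT
    have e1 : (s / 2) ^ 2 * ∑ i ∈ T, (Φ *ᵥ u) i ^ 2 ≤ κ2 := by
      calc (s / 2) ^ 2 * ∑ i ∈ T, (Φ *ᵥ u) i ^ 2 ≤ ∑ i ∈ T, (lam i - E) ^ 2 * (Φ *ᵥ u) i ^ 2 := by
            rw [Finset.mul_sum]
            refine Finset.sum_le_sum fun i hi => ?_
            refine mul_le_mul_of_nonneg_right ?_ (sq_nonneg _)
            rw [← sq_abs (lam i - E)]
            exact pow_le_pow_left₀ (by positivity) (hT i hi) 2
        _ ≤ ∑ i, (lam i - E) ^ 2 * (Φ *ᵥ u) i ^ 2 :=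
            Finset.sum_le_sum_of_subset_of_nonneg (Finset.subset_univ _)
              fun _ _ _ => by positivity
        _ ≤ κ2 := by rw [h1]; exact hdef
    have hs2 : 0 < s ^ 2 := by positivity
    have e2 : s ^ 2 * ∑ i ∈ T, (Φ *ᵥ u) i ^ 2 ≤ s ^ 2 * ζ2 := by nlinarith
    exact le_of_mul_le_mul_left e2 hs2
  obtain ⟨i0, hi0⟩ : ∃ i0, |lam i0 - E| < s / 2 := by
    by_contra hcon
    push Not at hcon
    have := hfar Finset.univ fun i _ => hcon i
    rw [h2] at this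
    linarith
  have hrest := hfar (Finset.univ.erase i0) (by
    intro i hi
    have hne : i ≠ i0 := Finset.ne_of_mem_erase hi
    have h3 := hgap i i0 hne
    have h4 : |lam i - lam i0| ≤ |lam i - E| + |lam i0 - E| := by
      have : lam i - lam i0 = (lam i - E) - (lam i0 - E) := by ring
      rw [this]
      exact abs_sub _ _
    linarith)
  refine ⟨i0, ?_, hrest⟩
  have h5 := Finset.add_sum_erase Finset.univ (fun i => (Φ *ᵥ u) i ^ 2) (Finset.mem_univ i0)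
  rw [h2] at h5
  linarith

theorem one_step {o f f' m' : ℕ} (hN : o + N ≤ L) (hf : o ≤ f) (hf' : L - (o + N) ≤ f')
    (hm' : m' < N) {v v' : ℕ → ℝ} {εw : ℝ} (hv : ∀ i < N, |v' i - v (o + i)| ≤ εw)
    {s η τ ρ ζ2 : ℝ} (hs : 0 < s) (hη : 0 < η) (hρ : 0 ≤ ρ) (hζ : 0 ≤ ζ2)
    (hκ : 4 * (2 * εw ^ 2 + 4 * η) ≤ ζ2 * s ^ 2) (hηζ : ζ2 + η < 1 / 2)
    (hNζ : N * ζ2 ≤ ρ ^ 2) (hτ : τ ≤ η * ρ ^ 2)
    (hgap : ∀ (Φ : Matrix (Fin N) (Fin N) ℝ) (lam : Fin N → ℝ), IsES (jac N v') Φ lam →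
      ∀ i i', i ≠ i' → s < |lam i - lam i'|)
    (hbad : ∀ (Ψ : Matrix (Fin L) (Fin L) ℝ) (E : Fin L → ℝ), IsES (jac L v) Ψ E →
      ∑ j, ex (Ψ j) (o + m') ^ 2 * (fL f (Ψ j) + fR f' (Ψ j)) ≤ τ)
    {M : ℕ} {θ : ℝ} (hθ : 0 ≤ θ) (hcap : Cap N v' m' M θ) :
    Cap L v (o + m') M (θ + 2 * ρ) := by
  classical
  obtain ⟨Φ, lam, hΦ, I, hIM, hI⟩ := hcap
  obtain ⟨Ψ, E, hΨ⟩ := exists_ES (jac L v) (jac_symm L v)
  have hgapΦ := hgap Φ lam hΦ
  have hbadΨ := hbad Ψ E hΨ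
  refine ⟨Ψ, E, hΨ, ?_⟩
  set out : Fin L → ℝ := fun j => fL f (Ψ j) + fR f' (Ψ j) with hout
  have hout0 : ∀ j, 0 ≤ out j := fun j => add_nonneg (fL_nonneg _ _) (fR_nonneg _ _)
  set good : Finset (Fin L) := Finset.univ.filter fun j => out j ≤ η with hgood
  have hsel : ∀ j, j ∈ good → ∃ i0, 1 / 2 < (Φ *ᵥ (restr N o (Ψ j))) i0 ^ 2 ∧
      ∑ i ∈ Finset.univ.erase i0, (Φ *ᵥ (restr N o (Ψ j))) i ^ 2 ≤ ζ2 := by
    intro j hj
    have hj' : out j ≤ η := (Finset.mem_filter.1 hj).2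
    have hmi := mass_inside hN hf hf' (Ψ j) (hΨ.row_norm j)
    refine match_eig hΦ hs hgapΦ (restr N o (Ψ j)) (E j) (2 * εw ^ 2 + 4 * η) ζ2 η ?_ hκ
      (by linarith [hmi.1]) hηζ
    have := defect_sum hN hf hf' hv hΨ j
    linarith
  have hne0 : Nonempty (Fin N) := ⟨⟨m', hm'⟩⟩
  choose! sel hsel1 hsel2 using hsel
  -- injectivity
  have hparseval : ∀ i, ∑ j, (Φ *ᵥ (restr N o (Ψ j))) i ^ 2 = 1 := by
    intro i
    have h1 := hΨ.normsq (extd L o (Φ i))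
    have h2 : ∑ k, extd L o (Φ i) k ^ 2 = 1 := by
      have := sum_extd hN (Φ i) (fun x _ => x ^ 2) (fun _ => by norm_num)
      rw [this, hΦ.row_norm i]
    rw [h2] at h1
    rw [← h1]
    refine Finset.sum_congr rfl fun j _ => ?_
    congr 1
    simp only [Matrix.mulVec, dotProduct]
    have := sum_extd hN (Φ i) (fun x k => Ψ j k * x) (fun _ => by ring)
    rw [this]
    refine Finset.sum_congr rfl fun k _ => ?_
    unfold restr
    rw [ex_of_lt _ (by have := k.2; omega)]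
    ring
  have hinj : ∀ j ∈ good, ∀ j' ∈ good, sel j = sel j' → j = j' := by
    intro j hj j' hj' hjj
    by_contra hne
    have h1 := hparseval (sel j)
    have h2 : ∑ k ∈ ({j, j'} : Finset (Fin L)), (Φ *ᵥ (restr N o (Ψ k))) (sel j) ^ 2 ≤ 1 := by
      rw [← h1]
      exact Finset.sum_le_sum_of_subset_of_nonneg (Finset.subset_univ _) fun _ _ _ => sq_nonneg _
    rw [Finset.sum_pair hne] at h2
    have h3 := hsel1 j hj
    have h4 := hsel1 j' hj'
    rw [← hjj] at h4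
    linarith
  set J := good.filter fun j => sel j ∈ I with hJ
  refine ⟨J, ?_, ?_⟩
  · refine le_trans ?_ hIM
    refine Finset.card_le_card_of_injOn sel (fun j hj => ?_) ?_
    · exact (Finset.mem_filter.1 hj).2
    · intro j hj j' hj' h
      exact hinj j (Finset.mem_filter.1 hj).1 j' (Finset.mem_filter.1 hj').1 h
  -- weights
  set W : Fin L → ℝ := fun j => ex (Ψ j) (o + m') ^ 2 with hW
  have hW0 : ∀ j, 0 ≤ W j := fun j => sq_nonneg _
  have hWtot : ∑ j, W j = 1 := by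
    have hlt : o + m' < L := by omega
    have := hΨ.col_orth ⟨o + m', hlt⟩ ⟨o + m', hlt⟩
    rw [if_pos rfl] at this
    rw [← this]
    exact Finset.sum_congr rfl fun j _ => by rw [hW]; simp only; rw [ex_of_lt _ hlt, sq]
  have hWbad : ∑ j ∈ Finset.univ \ good, W j ≤ ρ ^ 2 := by
    have h1 : η * ∑ j ∈ Finset.univ \ good, W j ≤ η * ρ ^ 2 := by
      refine le_trans ?_ (hbadΨ.trans hτ)
      rw [Finset.mul_sum]
      refine le_trans (Finset.sum_le_sum fun j hj => ?_)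
        (Finset.sum_le_sum_of_subset_of_nonneg (Finset.subset_univ (Finset.univ \ good))
          fun j _ _ => mul_nonneg (hW0 j) (hout0 j))
      have h2 : ¬ out j ≤ η := by
        intro h
        have h3 := (Finset.mem_sdiff.1 hj).2
        exact h3 (Finset.mem_filter.2 ⟨Finset.mem_univ _, h⟩)
      rw [mul_comm]
      exact mul_le_mul_of_nonneg_left (not_le.1 h2).le (hW0 j)
    exact le_of_mul_le_mul_left h1 hη
  -- the good ones not in J
  set J2 := good.filter fun j => sel j ∉ I with hJ2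
  set x : Fin L → ℝ := fun j => |ex (Φ (sel j)) m'| with hx
  have hx0 : ∀ j, 0 ≤ x j := fun j => abs_nonneg _
  set ζ := Real.sqrt ζ2 with hζdef
  have hζ0 : 0 ≤ ζ := Real.sqrt_nonneg _
  have hζsq : ζ ^ 2 = ζ2 := Real.sq_sqrt hζ
  have hpt : ∀ j ∈ good, |ex (Ψ j) (o + m')| ≤ x j + ζ := by
    intro j hj
    set u := restr N o (Ψ j) with hu
    have e1 : ex (Ψ j) (o + m') = u ⟨m', hm'⟩ := rfl
    have e2 : u ⟨m', hm'⟩ = ∑ i, (Φ *ᵥ u) i * Φ i ⟨m', hm'⟩ := by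
      have : u = Φᵀ *ᵥ (Φ *ᵥ u) := by
        rw [Matrix.mulVec_mulVec, hΦ.orth', Matrix.one_mulVec]
      conv_lhs => rw [this]
      simp only [Matrix.mulVec, dotProduct, Matrix.transpose_apply]
      exact Finset.sum_congr rfl fun i _ => mul_comm _ _
    have e3 := Finset.add_sum_erase Finset.univ (fun i => (Φ *ᵥ u) i * Φ i ⟨m', hm'⟩)
      (Finset.mem_univ (sel j))
    rw [e1, e2, ← e3]
    refine (abs_add_le _ _).trans (add_le_add ?_ ?_)
    · rw [abs_mul]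
      have h1 : |(Φ *ᵥ u) (sel j)| ≤ 1 := by
        rw [abs_le_one_iff_mul_self_le_one, ← sq]
        rw [← hparseval (sel j)]
        exact Finset.single_le_sum (f := fun j' => (Φ *ᵥ (restr N o (Ψ j'))) (sel j) ^ 2)
          (fun _ _ => sq_nonneg _) (Finset.mem_univ j)
      have h2 : x j = |Φ (sel j) ⟨m', hm'⟩| := by
        rw [hx]; simp only; rw [ex_of_lt _ hm']
      rw [h2]
      calc _ ≤ 1 * |Φ (sel j) ⟨m', hm'⟩| := by gcongr
        _ = _ := one_mul _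
    · apply Real.abs_le_sqrt
      have hcs := Finset.sum_mul_sq_le_sq_mul_sq (Finset.univ.erase (sel j))
        (fun i => (Φ *ᵥ u) i) (fun i => Φ i ⟨m', hm'⟩)
      have h1 : ∑ i ∈ Finset.univ.erase (sel j), Φ i ⟨m', hm'⟩ ^ 2 ≤ 1 := by
        have h2 := hΦ.col_orth ⟨m', hm'⟩ ⟨m', hm'⟩
        rw [if_pos rfl] at h2
        rw [← h2]
        refine (Finset.sum_le_sum_of_subset_of_nonneg (Finset.subset_univ _)
          fun _ _ _ => sq_nonneg _).trans_eq ?_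
        exact Finset.sum_congr rfl fun i _ => sq _
      have h2 := hsel2 j hj
      have h3 : 0 ≤ ∑ i ∈ Finset.univ.erase (sel j), Φ i ⟨m', hm'⟩ ^ 2 :=
        Finset.sum_nonneg fun _ _ => sq_nonneg _
      calc _ ≤ _ := hcs
        _ ≤ ζ2 * 1 := by
            refine mul_le_mul h2 h1 h3 hζ
        _ = ζ2 := mul_one _
  have hJ2inj : Set.InjOn sel (J2 : Set (Fin L)) := by
    intro j hj j' hj' h
    exact hinj j (Finset.mem_filter.1 hj).1 j' (Finset.mem_filter.1 hj').1 h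
  have hxsum : ∑ j ∈ J2, x j ^ 2 ≤ θ ^ 2 := by
    have h1 : ∑ j ∈ J2, x j ^ 2 = ∑ i ∈ J2.image sel, ex (Φ i) m' ^ 2 := by
      rw [Finset.sum_image hJ2inj]
      exact Finset.sum_congr rfl fun j _ => by rw [hx]; simp only; rw [sq_abs]
    have h2 : ∑ i, ex (Φ i) m' ^ 2 = 1 := by
      have h2 := hΦ.col_orth ⟨m', hm'⟩ ⟨m', hm'⟩
      rw [if_pos rfl] at h2
      rw [← h2]
      exact Finset.sum_congr rfl fun i _ => by rw [ex_of_lt _ hm', sq]
    have h3 : Disjoint (J2.image sel) I := by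
      rw [Finset.disjoint_left]
      intro i hi
      obtain ⟨j, hj, rfl⟩ := Finset.mem_image.1 hi
      exact (Finset.mem_filter.1 hj).2
    have h4 : ∑ i ∈ J2.image sel, ex (Φ i) m' ^ 2 + ∑ i ∈ I, ex (Φ i) m' ^ 2 ≤ 1 := by
      rw [← Finset.sum_union h3, ← h2]
      exact Finset.sum_le_sum_of_subset_of_nonneg (Finset.subset_univ _) fun _ _ _ => sq_nonneg _
    rw [h1]
    linarith
  have hJ2card : (J2.card : ℝ) ≤ N := by
    have : J2.card ≤ N := by
      calc J2.card = (J2.image sel).card := (Finset.card_image_of_injOn hJ2inj).symm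
        _ ≤ Fintype.card (Fin N) := Finset.card_le_univ _
        _ = N := Fintype.card_fin N
    exact_mod_cast this
  have hcardζ : (J2.card : ℝ) * ζ ^ 2 ≤ ρ ^ 2 := by
    rw [hζsq]
    exact (mul_le_mul_of_nonneg_right hJ2card hζ).trans hNζ
  have hWJ2 : ∑ j ∈ J2, W j ≤ (θ + ρ) ^ 2 := by
    have h1 : ∑ j ∈ J2, W j ≤ ∑ j ∈ J2, (x j + ζ) ^ 2 := by
      refine Finset.sum_le_sum fun j hj => ?_
      rw [hW]
      simp only
      rw [← sq_abs]
      exact pow_le_pow_left₀ (abs_nonneg _) (hpt j (Finset.mem_filter.1 hj).1) 2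
    have h2 : ∑ j ∈ J2, (x j + ζ) ^ 2 = ∑ j ∈ J2, x j ^ 2 + 2 * (∑ j ∈ J2, x j * ζ) +
        J2.card * ζ ^ 2 := by
      rw [Finset.mul_sum, ← Finset.sum_add_distrib]
      have : (J2.card : ℝ) * ζ ^ 2 = ∑ j ∈ J2, ζ ^ 2 := by rw [Finset.sum_const, nsmul_eq_mul]
      rw [this, ← Finset.sum_add_distrib]
      exact Finset.sum_congr rfl fun j _ => by ring
    have h3 : ∑ j ∈ J2, x j * ζ ≤ θ * ρ := by
      have hcs := Finset.sum_mul_sq_le_sq_mul_sq J2 x (fun _ => ζ)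
      have h4 : ∑ _j ∈ J2, ζ ^ 2 ≤ ρ ^ 2 := by rw [Finset.sum_const, nsmul_eq_mul]; exact hcardζ
      have h5 : (∑ j ∈ J2, x j * ζ) ^ 2 ≤ (θ * ρ) ^ 2 := by
        refine hcs.trans ?_
        rw [mul_pow]
        exact mul_le_mul hxsum h4 (Finset.sum_nonneg fun _ _ => sq_nonneg _) (sq_nonneg _)
      exact le_of_sq_le_sq h5 (by positivity)
    rw [h2] at h1
    nlinarith
  -- total
  have hsplit : ∑ j, W j = ∑ j ∈ J, W j + ∑ j ∈ J2, W j + ∑ j ∈ Finset.univ \ good, W j := by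
    rw [hJ, hJ2, Finset.sum_filter_add_sum_filter_not, add_comm,
      Finset.sum_sdiff (Finset.subset_univ good)]
  rw [hWtot] at hsplit
  have : ∑ j ∈ J, ex (Ψ j) (o + m') ^ 2 = ∑ j ∈ J, W j := rfl
  rw [this]
  nlinarith

end Pool.Agent.K9h27.LP
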