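import Pool.Agent.K9h27.LP.BadMeas
import Pool.Agent.K9h27.LP.Minami2
import Pool.Agent.K9h27.LP.OneStep

set_option autoImplicit false
set_option linter.unusedSimpArgs false
set_option linter.unusedSectionVars false
set_option linter.unusedVariables false

open MeasureTheory Set Matrix Filter
open scoped ENNReal Topology

namespace Pool.Agent.K9h27.LP

theorem poly_exp {t K δ : ℝ} (ht0 : 0 ≤ t) (ht1 : t < 1) (hδ : 0 < δ) (p : ℕ) :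
    ∃ D0 : ℕ, ∀ D ≥ D0, K * ((D : ℝ) ^ p * t ^ D) ≤ δ := by
  have h1 : Tendsto (fun n : ℕ => K * ((n : ℝ) ^ p * t ^ n)) atTop (𝓝 0) := by
    have := (tendsto_pow_const_mul_const_pow_of_lt_one p ht0 ht1).const_mul K
    rwa [mul_zero] at this
  have h2 := h1.eventually (ge_mem_nhds hδ)
  exact eventually_atTop.1 h2

theorem calc_one {δ cs n : ℝ} (hδ : 0 < δ) (hcs : 0 < cs) (hn : 0 < n) :
    ((δ ^ 2 / n) * (cs / n ^ 2) ^ 2 / 32 * δ ^ 2)⁻¹ = 32 / (δ ^ 4 * cs ^ 2) * n ^ 5 := by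
  field_simp

theorem calc_two {δ cs n ε : ℝ} (hδ : 0 < δ) (hcs : 0 < cs) (hn : 0 < n) (hε : 0 < ε) :
    (((δ ^ 2 / n) * (cs / n ^ 2) * ε / 4) ^ 4)⁻¹ = 256 / (δ ^ 8 * cs ^ 4 * ε ^ 4) * n ^ 12 := by
  field_simp
  norm_num

theorem calc_three {ε' X T : ℝ} (h : 0 < ε') :
    (2 * ε')⁻¹ * (2 * X * (2 * (5000000 / ε' ^ 3 * T))) = 10000000 * X * (ε' ^ 4)⁻¹ * T := by
  field_simp
  ring

theorem calc_five {A B t Y X n D c Q : ℝ} (hA : 0 ≤ A) (hB : 0 ≤ B) (ht : 0 ≤ t) (hX : X ≤ Y)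
    (hY : 0 ≤ Y) (hn : 0 ≤ n) (hnD : n ≤ c * D) (hQ : 0 ≤ Q) :
    A * n ^ 5 * (Q * X * (B * n ^ 12) * t) ≤ Q * Y * A * B * c ^ 17 * (D ^ 17 * t) := by
  have h1 : n ^ 17 ≤ (c * D) ^ 17 := pow_le_pow_left₀ hn hnD 17
  have h2 : 0 ≤ Q * A * B * t := by positivity
  have h3 : X * n ^ 17 ≤ Y * (c * D) ^ 17 :=
    mul_le_mul hX h1 (by positivity) hY
  have h4 := mul_le_mul_of_nonneg_left h3 h2
  calc _ = Q * A * B * t * (X * n ^ 17) := by ring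
    _ ≤ _ := h4
    _ = _ := by rw [mul_pow]; ring

theorem calc_four {C0 n δ ε : ℝ} (hC : 0 ≤ C0) (hn : 0 < n) (hε : 0 < ε) :
    25 * (C0 + 4) * n ^ 2 * (δ * ε ^ 2 / (25 * (C0 + 4)) / n ^ 2) / ε ^ 2 = δ := by
  field_simp

/-- the parameters -/
theorem params {C0 ε δ : ℝ} (hC0 : 0 ≤ C0) (hε : 0 < ε) (hε1 : ε ≤ 1) (hδ : 0 < δ) (hδ1 : δ ≤ 1 / 4)
    (d : ℕ) : ∃ Nmin : ℕ, 1 ≤ Nmin ∧ ∀ N ≥ Nmin, ∃ (ε' s ζ2 η : ℝ) (D : ℕ),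
      0 < ε' ∧ ε' ≤ ε / 2 ∧ 0 < s ∧ s ≤ 1 ∧ 0 < ζ2 ∧ 0 < η ∧
      4 * (2 * ε' ^ 2 + 4 * η) ≤ ζ2 * s ^ 2 ∧ ζ2 + η < 1 / 2 ∧ (N : ℝ) * ζ2 ≤ δ ^ 2 ∧
      25 * (C0 + 4) * (N : ℝ) ^ 2 * s / ε ^ 2 ≤ δ ∧ 1 ≤ D ∧ d ≤ D ∧ 2 * D ≤ N ∧
      (4 * D + 3 : ℝ) ≤ δ * N ∧
      (η * δ ^ 2)⁻¹ * ((2 * ε')⁻¹ * (2 * (C0 + ε + ε' + 2) * (2 * (5000000 / ε' ^ 3 * tt ε ^ D))))
        ≤ δ := by
  set cs : ℝ := δ * ε ^ 2 / (25 * (C0 + 4)) with hcs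
  have hcs0 : 0 < cs := by positivity
  have hcs1 : cs ≤ 1 := by
    rw [hcs, div_le_one (by positivity)]
    have : ε ^ 2 ≤ 1 := by nlinarith
    nlinarith
  set K0 : ℝ := 10000000 * (C0 + 4) * (32 / (δ ^ 4 * cs ^ 2)) * (256 / (δ ^ 8 * cs ^ 4 * ε ^ 4))
    with hK0
  have hK00 : 0 < K0 := by positivity
  obtain ⟨D0, hD0⟩ := poly_exp (K := K0 * (16 / δ) ^ 17) (tt_nonneg ε) (tt_lt_one ε) hδ 17
  refine ⟨⌈8 * ((D0 : ℝ) + d + 2) / δ⌉₊, ?_, ?_⟩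
  · rw [Nat.one_le_ceil_iff]; positivity
  intro N hN
  have hN' : 8 * ((D0 : ℝ) + d + 2) / δ ≤ N := Nat.ceil_le.1 hN
  have hN2 : 8 * ((D0 : ℝ) + d + 2) ≤ δ * N := by
    rw [div_le_iff₀ hδ] at hN'; linarith
  have hNpos : (0 : ℝ) < N := by
    refine lt_of_lt_of_le ?_ hN'
    positivity
  have hN1 : (1 : ℝ) ≤ N := by
    have : 0 < N := by exact_mod_cast hNpos
    exact_mod_cast this
  set D := ⌊δ * N / 8⌋₊ with hD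
  have hDle : (D : ℝ) ≤ δ * N / 8 := Nat.floor_le (by positivity)
  have hDlt : δ * N / 8 < D + 1 := Nat.lt_floor_add_one _
  have hDge : D0 + d + 1 ≤ D := by
    rw [hD]
    apply Nat.le_floor
    push_cast
    linarith
  have hDpos : (1 : ℝ) ≤ D := by
    have : 1 ≤ D := by omega
    exact_mod_cast this
  set s : ℝ := cs / (N : ℝ) ^ 2 with hs
  set ζ2 : ℝ := δ ^ 2 / N with hζ2
  set η : ℝ := ζ2 * s ^ 2 / 32 with hη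
  set ε' : ℝ := ζ2 * s * ε / 4 with hε'
  have hs0 : 0 < s := by positivity
  have hNsq : (1 : ℝ) ≤ (N : ℝ) ^ 2 := one_le_pow₀ hN1
  have hs1 : s ≤ 1 := by
    rw [hs, div_le_one (by positivity)]
    linarith
  have hζ0 : 0 < ζ2 := by positivity
  have hζ1 : ζ2 ≤ 1 / 16 := by
    rw [hζ2, div_le_iff₀ hNpos]
    nlinarith
  have hη0 : 0 < η := by positivity
  have hη1 : η ≤ 1 / 32 := by
    rw [hη]
    have h1 : s ^ 2 ≤ 1 := pow_le_one₀ hs0.le hs1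
    have h2 : ζ2 * s ^ 2 ≤ 1 := mul_le_one₀ (hζ1.trans (by norm_num)) (by positivity) h1
    linarith
  have hε'0 : 0 < ε' := by positivity
  have hε'1 : ε' ≤ ε / 2 := by
    rw [hε']
    have h1 : ζ2 * s ≤ 1 := mul_le_one₀ (hζ1.trans (by norm_num)) hs0.le hs1
    have h2 : ζ2 * s * ε ≤ 1 * ε := mul_le_mul_of_nonneg_right h1 hε.le
    linarith
  refine ⟨ε', s, ζ2, η, D, hε'0, hε'1, hs0, hs1, hζ0, hη0, ?_, by linarith, ?_, ?_, by omega,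
    by omega, ?_, ?_, ?_⟩
  · have e1 : ε' ^ 2 = (ζ2 * ε ^ 2) * (ζ2 * s ^ 2) / 16 := by rw [hε']; ring
    have e2 : ζ2 * ε ^ 2 ≤ 1 :=
      mul_le_one₀ (hζ1.trans (by norm_num)) (by positivity) (pow_le_one₀ hε.le hε1)
    have e3 : (ζ2 * ε ^ 2) * (ζ2 * s ^ 2) ≤ 1 * (ζ2 * s ^ 2) :=
      mul_le_mul_of_nonneg_right e2 (by positivity)
    rw [e1, hη]
    linarith
  · rw [hζ2]
    field_simp
    exact le_rfl
  · rw [hs, hcs]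
    exact (calc_four hC0 hNpos hε).le
  · have h1 : δ * N ≤ 1 / 4 * N := mul_le_mul_of_nonneg_right hδ1 hNpos.le
    have : (2 * D : ℝ) ≤ N := by linarith
    exact_mod_cast this
  · have : (0 : ℝ) ≤ D0 := Nat.cast_nonneg _
    have : (0 : ℝ) ≤ d := Nat.cast_nonneg _
    linarith
  · have e1 : (η * δ ^ 2)⁻¹ = 32 / (δ ^ 4 * cs ^ 2) * (N : ℝ) ^ 5 := by
      rw [hη, hζ2, hs]
      exact calc_one hδ hcs0 hNpos
    have e2 : (2 * ε')⁻¹ * (2 * (C0 + ε + ε' + 2) * (2 * (5000000 / ε' ^ 3 * tt ε ^ D))) =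
        10000000 * (C0 + ε + ε' + 2) * (ε' ^ 4)⁻¹ * tt ε ^ D := calc_three hε'0
    have e3 : (ε' ^ 4)⁻¹ = 256 / (δ ^ 8 * cs ^ 4 * ε ^ 4) * (N : ℝ) ^ 12 := by
      rw [hε', hζ2, hs]
      exact calc_two hδ hcs0 hNpos hε
    have e4 : C0 + ε + ε' + 2 ≤ C0 + 4 := by linarith
    have e5 : (N : ℝ) ≤ (16 / δ) * D := by
      rw [div_mul_eq_mul_div, le_div_iff₀ hδ]
      linarith
    have htt := tt_nonneg ε
    rw [e1, e2, e3]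
    refine le_trans (calc_five (by positivity) (by positivity) (pow_nonneg htt _) e4
      (by positivity) hNpos.le e5 (by norm_num)) ?_
    have := hD0 D (by omega)
    rw [hK0] at this
    exact this

end Pool.Agent.K9h27.LP
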