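import Pool.Agent.K9h27.LP.OS

set_option autoImplicit false
set_option linter.unusedSimpArgs false
set_option linter.unusedSectionVars false
set_option linter.unusedVariables false

open MeasureTheory Set Matrix Filter
open scoped ENNReal Topology

namespace Pool.Agent.K9h27.LP

theorem dep_choice {X : Type*} (P : ℕ → X → Prop) (R : ℕ → X → X → Prop) (h0 : ∃ x, P 0 x)
    (hs : ∀ j x, P j x → ∃ y, P (j + 1) y ∧ R j x y) :
    ∃ f : ℕ → X, (∀ j, P j (f j)) ∧ ∀ j, R j (f j) (f (j + 1)) := by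
  choose! g hg1 hg2 using hs
  obtain ⟨x0, hx0⟩ := h0
  let f : ℕ → X := fun j => Nat.rec x0 (fun j x => g j x) j
  have hf : ∀ j, P j (f j) := by
    intro j
    induction j with
    | zero => exact hx0
    | succ j ih => exact hg1 j (f j) ih
  exact ⟨f, hf, fun j => hg2 j (f j) (hf j)⟩

theorem pick {X : Type*} [MeasurableSpace X] {μ : Measure X} [IsProbabilityMeasure μ]
    {G G' : X → ℝ≥0∞} (hG : Measurable G) (hG' : Measurable G') {c c' : ℝ} (hc : 0 < c)
    (hc' : 0 < c') (h1 : ∫⁻ x, G x ∂μ ≤ ENNReal.ofReal c) (h2 : ∫⁻ x, G' x ∂μ ≤ ENNReal.ofReal c')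
    {Q : X → Prop} (hQ : ∀ᵐ x ∂μ, Q x) :
    ∃ x, Q x ∧ G x ≤ ENNReal.ofReal (3 * c) ∧ G' x ≤ ENNReal.ofReal (3 * c') := by
  by_contra hcon
  push Not at hcon
  have h3 : ∀ᵐ x ∂μ, (1 : ℝ≥0∞) ≤ (ENNReal.ofReal (3 * c))⁻¹ * G x +
      (ENNReal.ofReal (3 * c'))⁻¹ * G' x := by
    filter_upwards [hQ] with x hx
    by_cases h : G x ≤ ENNReal.ofReal (3 * c)
    · have h4 := (hcon x hx h).le
      have h5 : (ENNReal.ofReal (3 * c'))⁻¹ * ENNReal.ofReal (3 * c') = 1 :=
        ENNReal.inv_mul_cancel (by simpa using hc') ENNReal.ofReal_ne_top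
      calc (1 : ℝ≥0∞) = (ENNReal.ofReal (3 * c'))⁻¹ * ENNReal.ofReal (3 * c') := h5.symm
        _ ≤ (ENNReal.ofReal (3 * c'))⁻¹ * G' x := by gcongr
        _ ≤ _ := le_add_self
    · have h4 := (not_le.1 h).le
      have h5 : (ENNReal.ofReal (3 * c))⁻¹ * ENNReal.ofReal (3 * c) = 1 :=
        ENNReal.inv_mul_cancel (by simpa using hc) ENNReal.ofReal_ne_top
      calc (1 : ℝ≥0∞) = (ENNReal.ofReal (3 * c))⁻¹ * ENNReal.ofReal (3 * c) := h5.symm
        _ ≤ (ENNReal.ofReal (3 * c))⁻¹ * G x := by gcongr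
        _ ≤ _ := le_self_add
  have h4 := lintegral_mono_ae h3
  rw [lintegral_const, measure_univ, mul_one, lintegral_add_left (hG.const_mul _),
    lintegral_const_mul _ hG, lintegral_const_mul _ hG'] at h4
  have h5 : (ENNReal.ofReal (3 * c))⁻¹ * ∫⁻ x, G x ∂μ ≤ ENNReal.ofReal (1 / 3) := by
    calc _ ≤ (ENNReal.ofReal (3 * c))⁻¹ * ENNReal.ofReal c := by gcongr
      _ = _ := by
        rw [← ENNReal.ofReal_inv_of_pos (by positivity), ← ENNReal.ofReal_mul (by positivity)]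
        congr 1
        field_simp
  have h6 : (ENNReal.ofReal (3 * c'))⁻¹ * ∫⁻ x, G' x ∂μ ≤ ENNReal.ofReal (1 / 3) := by
    calc _ ≤ (ENNReal.ofReal (3 * c'))⁻¹ * ENNReal.ofReal c' := by gcongr
      _ = _ := by
        rw [← ENNReal.ofReal_inv_of_pos (by positivity), ← ENNReal.ofReal_mul (by positivity)]
        congr 1
        field_simp
  have h7 := h4.trans (add_le_add h5 h6)
  rw [← ENNReal.ofReal_add (by norm_num) (by norm_num), ENNReal.one_le_ofReal] at h7
  norm_num at h7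

/-- the error at stage `j` -/
noncomputable def del (j : ℕ) : ℝ := 1 / 4 * (1 / 2) ^ j

theorem del_pos (j : ℕ) : 0 < del j := by unfold del; positivity

theorem del_le (j : ℕ) : del j ≤ 1 / 4 := by
  unfold del
  have : (1 / 2 : ℝ) ^ j ≤ 1 := pow_le_one₀ (by norm_num) (by norm_num)
  linarith

/-- deterministic parameters -/
theorem det_seq {n : ℕ → ℕ} (hinf : ∀ k, k ≤ n k) {C0 ε0 : ℝ} (hC0 : 0 ≤ C0) (hε : 0 < ε0)
    (hε1 : ε0 ≤ 1) (k0 : ℕ) :
    ∃ (κ : ℕ → ℕ) (e : ℕ → ℝ), k0 ≤ κ 0 ∧ StrictMono κ ∧ e 0 = ε0 ∧ (∀ j, 0 < e j) ∧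
      (∀ j, e (j + 1) ≤ e j / 2) ∧ ∀ j, OSP C0 (e j) (e (j + 1)) (del j) j (n (κ j)) := by
  refine Exists.elim (dep_choice (X := ℕ × ℝ × ℝ)
    (fun j x => k0 ≤ x.1 ∧ (j = 0 → x.2.1 = ε0) ∧ 0 < x.2.1 ∧ x.2.1 ≤ 1 ∧ 0 < x.2.2 ∧
      x.2.2 ≤ x.2.1 / 2 ∧ OSP C0 x.2.1 x.2.2 (del j) j (n x.1))
    (fun j x y => x.1 < y.1 ∧ y.2.1 = x.2.2) ?_ ?_) ?_
  rotate_left 2
  · rintro f ⟨hf1, hf2⟩
    refine ⟨fun j => (f j).1, fun j => (f j).2.1, (hf1 0).1, strictMono_nat_of_lt_succ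
      fun j => (hf2 j).1, (hf1 0).2.1 rfl, fun j => (hf1 j).2.2.1, fun j => ?_, fun j => ?_⟩
    · simp only
      rw [(hf2 j).2]
      exact (hf1 j).2.2.2.2.2.1
    · simp only
      rw [(hf2 j).2]
      exact (hf1 j).2.2.2.2.2.2
  · obtain ⟨Nmin, h1, h2⟩ := OS hC0 hε hε1 (del_pos 0) (del_le 0) 0
    obtain ⟨ε', h3, h4, h5⟩ := h2 (n (max k0 Nmin)) ((le_max_right _ _).trans (hinf _))
    exact ⟨(max k0 Nmin, ε0, ε'), le_max_left _ _, fun _ => rfl, hε, hε1, h3, h4, h5⟩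
  · rintro j ⟨k, ε, ε'⟩ ⟨h1, h2, h3, h4, h5, h6, h7⟩
    simp only at h1 h2 h3 h4 h5 h6 h7
    obtain ⟨Nmin, g1, g2⟩ := OS hC0 h5 (by linarith) (del_pos (j + 1)) (del_le (j + 1)) (j + 1)
    obtain ⟨ε'', g3, g4, g5⟩ := g2 (n (max (k + 1) Nmin)) ((le_max_right _ _).trans (hinf _))
    refine ⟨(max (k + 1) Nmin, ε', ε''), ⟨?_, fun h => by omega, h5, by
      simp only; linarith, g3, g4, g5⟩, ?_, rfl⟩
    · simp only
      exact h1.trans ((Nat.le_succ k).trans (le_max_left _ _))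
    · simp only
      exact lt_of_lt_of_le (Nat.lt_succ_self k) (le_max_left _ _)

open Classical in
/-- the sequence of potentials -/
theorem seq_pot {N : ℕ → ℕ} (hpos : ∀ j, 0 < N j) (hdiv : ∀ j, N j ∣ N (j + 1)) {Bb : ℝ}
    {b : ℕ → ℝ} (hb : ∀ i, |b i| ≤ Bb) (hbper : ∀ i, b (i + N 0) = b i) {e : ℕ → ℝ}
    (he : ∀ j, 0 < e j) (he2 : ∀ j, e (j + 1) ≤ e j / 2) (he0 : e 0 ≤ 1)
    (hOSP : ∀ j, OSP (Bb + 2) (e j) (e (j + 1)) (del j) j (N j)) :
    ∃ V : ℕ → ℕ → ℝ, (∀ j i, V j (i + N j) = V j i) ∧ (∀ j i, |V j i| ≤ Bb + 2) ∧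
      (∀ i, |V 0 i - b i| ≤ e 0) ∧ (∀ j i, |V (j + 1) i - V j i| ≤ e (j + 1)) ∧
      ∀ j, (((Finset.range (N (j + 1))).filter fun m =>
          ¬ Good j (N j) (N (j + 1)) (V j) (V (j + 1)) (del j) m).card : ℝ) ≤
          19 * del j * N (j + 1) := by
  have hper_ex : ∀ (K : ℕ) (B : ℕ → ℝ) (a : Fin K → ℝ), (∀ i, B (i + K) = B i) →
      ∀ i, vN B a (i + K) = vN B a i := by
    intro K B a hB i
    unfold vN
    rw [hB, Nat.add_mod_right]
  have hper_div : ∀ (K K' : ℕ) (B : ℕ → ℝ), K ∣ K' → (∀ i, B (i + K) = B i) →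
      ∀ i, B (i + K') = B i := by
    rintro K K' B ⟨c, rfl⟩ hB i
    rw [add_comm, periodic_mul hB]
  set a : ∀ j, ((ℕ → ℝ) × (ℕ → ℝ)) → (Fin (N j) → ℝ) := fun j st i => st.2 i with ha
  refine Exists.elim (dep_choice (X := (ℕ → ℝ) × (ℕ → ℝ))
    (fun j st => (j = 0 → st.1 = b) ∧ (∀ i, st.1 (i + N j) = st.1 i) ∧
      (∀ i, |st.1 i| ≤ Bb + 2 * e 0 - 2 * e j) ∧
      (∀ i : Fin (N j), |st.2 i| ≤ e j) ∧
      ∃ G : (Fin (N (j + 1)) → ℝ) → ℝ≥0∞, Measurable G ∧
        ∫⁻ w, G w ∂(Measure.pi fun _ : Fin (N (j + 1)) => nu (e (j + 1))) ≤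
          ENNReal.ofReal (6 * del j) ∧
        ∀ w : Fin (N (j + 1)) → ℝ, (∀ i, |w i| ≤ e (j + 1)) →
          (((Finset.range (N (j + 1))).filter fun m =>
            ¬ Good j (N j) (N (j + 1)) (vN st.1 (a j st))
              (fun i => vN st.1 (a j st) i + ex w (i % N (j + 1))) (del j) m).card : ℝ≥0∞) ≤
          N (j + 1) * (G w + ENNReal.ofReal (del j)))
    (fun j st st' => st'.1 = vN st.1 (a j st) ∧
      (((Finset.range (N (j + 1))).filter fun m =>
            ¬ Good j (N j) (N (j + 1)) (vN st.1 (a j st))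
              (fun i => vN st.1 (a j st) i + ex (a (j + 1) st') (i % N (j + 1))) (del j) m).card :
                ℝ≥0∞) ≤ ENNReal.ofReal (19 * del j * N (j + 1))) ?_ ?_) ?_
  rotate_left 2
  · rintro f ⟨hf1, hf2⟩
    refine ⟨fun j => vN (f j).1 (a j (f j)), ?_, ?_, ?_, ?_, ?_⟩
    · intro j i
      exact hper_ex _ _ _ (hf1 j).2.1 i
    · intro j i
      simp only [vN]
      have h1 := (hf1 j).2.2.1 i
      have h2 := ex_abs_le (he j).le (hf1 j).2.2.2.1 (i % N j)
      have h3 := he j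
      refine (abs_add_le _ _).trans ?_
      have h4 : |ex (a j (f j)) (i % N j)| ≤ e j := h2
      linarith
    · intro i
      simp only [vN]
      rw [(hf1 0).1 rfl, add_sub_cancel_left]
      exact ex_abs_le (he 0).le (hf1 0).2.2.2.1 _
    · intro j i
      have h1 : vN (f (j + 1)).1 (a (j + 1) (f (j + 1))) i =
          vN (f j).1 (a j (f j)) i + ex (a (j + 1) (f (j + 1))) (i % N (j + 1)) := by
        conv_lhs => unfold vN
        rw [(hf2 j).1]
      simp only [h1, add_sub_cancel_left]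
      exact ex_abs_le (he (j + 1)).le (hf1 (j + 1)).2.2.2.1 _
    · intro j
      have h1 : (fun i => vN (f (j + 1)).1 (a (j + 1) (f (j + 1))) i) = fun i =>
          vN (f j).1 (a j (f j)) i + ex (a (j + 1) (f (j + 1))) (i % N (j + 1)) := by
        funext i
        conv_lhs => unfold vN
        rw [(hf2 j).1]
      have h2 := (hf2 j).2
      rw [← h1] at h2
      rw [← ENNReal.ofReal_natCast, ENNReal.ofReal_le_ofReal_iff (by
        have := del_pos j; positivity)] at h2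
      exact h2
  · -- base
    obtain ⟨F, hF1, hF2, hF3⟩ := hOSP 0 (N 1) (hpos 1) (hdiv 0) b
      (fun i => by have := hb i; linarith) hbper
    have pa := nu_prob (he 0)
    have pw := nu_prob (he 1)
    obtain ⟨x, hx1, _, hx3⟩ := pick (μ := Measure.pi fun _ : Fin (N 0) => nu (e 0))
      (G := fun _ => 0) (G' := fun a => ∫⁻ w, F (a, w) ∂(Measure.pi fun _ : Fin (N 1) => nu (e 1)))
      measurable_const (Measurable.lintegral_prod_right' hF1) (c := 1) (c' := 2 * del 0) one_pos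
      (by have := del_pos 0; positivity) (by simp) hF2
      (ae_cube (he 0))
    have hax : a 0 (b, fun i => ex x i) = x := by
      funext i
      simp only [ha, ex_coe]
    refine ⟨(b, fun i => ex x i), fun _ => rfl, hbper, fun i => ?_, fun i => ?_,
      fun w => F (x, w), hF1.comp (measurable_const.prodMk measurable_id), ?_, ?_⟩
    · simp only
      have := hb i
      linarith
    · simp only [ex_coe]
      exact hx1 i
    · refine hx3.trans (ENNReal.ofReal_le_ofReal (by linarith))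
    · intro w hw
      rw [hax]
      exact hF3 x w hx1 hw
  · -- step
    rintro j st ⟨h1, h2, h3, h4, G, hG1, hG2, hG3⟩
    have hB'per : ∀ i, vN st.1 (a j st) (i + N (j + 1)) = vN st.1 (a j st) i :=
      hper_div _ _ _ (hdiv j) (hper_ex _ _ _ h2)
    have hB'b : ∀ i, |vN st.1 (a j st) i| ≤ Bb + 2 * e 0 - 2 * e (j + 1) := by
      intro i
      simp only [vN]
      have g1 := h3 i
      have g2 := ex_abs_le (he j).le h4 (i % N j)
      have g3 := he2 j
      refine (abs_add_le _ _).trans ?_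
      have g4 : |ex (a j st) (i % N j)| ≤ e j := g2
      linarith
    obtain ⟨F, hF1, hF2, hF3⟩ := hOSP (j + 1) (N (j + 2)) (hpos _) (hdiv (j + 1))
      (vN st.1 (a j st)) (fun i => by have := hB'b i; have := he (j + 1); linarith) hB'per
    have pa := nu_prob (he (j + 1))
    have pw := nu_prob (he (j + 2))
    obtain ⟨x, hx1, hx2, hx3⟩ := pick (μ := Measure.pi fun _ : Fin (N (j + 1)) => nu (e (j + 1)))
      (G := G) (G' := fun a => ∫⁻ w, F (a, w)
        ∂(Measure.pi fun _ : Fin (N (j + 2)) => nu (e (j + 2))))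
      hG1 (Measurable.lintegral_prod_right' hF1) (c := 6 * del j) (c' := 2 * del (j + 1))
      (by have := del_pos j; positivity)
      (by have := del_pos (j + 1); positivity) hG2 hF2
      (ae_cube (he (j + 1)))
    have hax : a (j + 1) (vN st.1 (a j st), fun i => ex x i) = x := by
      funext i
      simp only [ha, ex_coe]
    refine ⟨(vN st.1 (a j st), fun i => ex x i), ⟨fun h => by omega, hB'per, hB'b, fun i => ?_,
      fun w => F (x, w), hF1.comp (measurable_const.prodMk measurable_id), ?_, ?_⟩, rfl, ?_⟩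
    · simp only [ex_coe]
      exact hx1 i
    · refine hx3.trans (ENNReal.ofReal_le_ofReal (by linarith))
    · intro w hw
      rw [hax]
      exact hF3 x w hx1 hw
    · rw [hax]
      refine (hG3 x hx1).trans ?_
      have g1 : G x + ENNReal.ofReal (del j) ≤ ENNReal.ofReal (19 * del j) := by
        calc _ ≤ ENNReal.ofReal (3 * (6 * del j)) + ENNReal.ofReal (del j) := by gcongr
          _ = _ := by
            rw [← ENNReal.ofReal_add (by have := del_pos j; positivity) (del_pos j).le]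
            congr 1
            ring
      calc _ ≤ (N (j + 1) : ℝ≥0∞) * ENNReal.ofReal (19 * del j) := by gcongr
        _ = _ := by
          rw [ENNReal.ofReal_mul (p := 19 * del j) (by have := del_pos j; positivity),
            ENNReal.ofReal_natCast, mul_comm]

end Pool.Agent.K9h27.LP
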