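import Pool.Agent.K9h27.LP.Basic

set_option autoImplicit false
set_option linter.unusedSimpArgs false
set_option linter.unusedSectionVars false

open Matrix Finset

namespace Pool.Agent.K9h27.LP

variable {n : Type*} [Fintype n] [DecidableEq n]

theorem IsES.normsq {A Ψ : Matrix n n ℝ} {l : n → ℝ} (h : IsES A Ψ l) (u : n → ℝ) :
    ∑ j, (Ψ *ᵥ u) j ^ 2 = ∑ i, u i ^ 2 := by
  have h1 : (Ψ *ᵥ u) ⬝ᵥ (Ψ *ᵥ u) = u ⬝ᵥ u := by
    rw [Matrix.dotProduct_mulVec, ← Matrix.mulVec_transpose, Matrix.mulVec_mulVec, h.orth',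
      Matrix.one_mulVec]
  simpa [dotProduct, sq] using h1

theorem IsES.quad {A Ψ : Matrix n n ℝ} {l : n → ℝ} (h : IsES A Ψ l) (u : n → ℝ) :
    u ⬝ᵥ (A *ᵥ u) = ∑ j, l j * (Ψ *ᵥ u) j ^ 2 := by
  have h1 : u ⬝ᵥ (A *ᵥ u) = (Ψ *ᵥ u) ⬝ᵥ (Matrix.diagonal l *ᵥ (Ψ *ᵥ u)) := by
    conv_lhs => rw [h.eq]
    rw [← Matrix.mulVec_mulVec, ← Matrix.mulVec_mulVec, Matrix.dotProduct_mulVec,
      Matrix.vecMul_transpose]
  rw [h1]
  simp only [dotProduct, Matrix.mulVec_diagonal]
  refine Finset.sum_congr rfl fun j _ => ?_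
  ring

/-- Rank one perturbations change the eigenvalue counting function by at most one. -/
theorem count_le {A Ψa Ψb : Matrix n n ℝ} {la lb : n → ℝ} {m : n} {t : ℝ}
    (ha : IsES A Ψa la) (hb : IsES (A + Matrix.single m m t) Ψb lb) (x : ℝ) :
    (Finset.univ.filter fun j => la j ≤ x).card ≤
      (Finset.univ.filter fun j => lb j ≤ x).card + 1 := by
  by_contra hcon
  rw [not_le] at hcon
  -- linear map
  let I := {j : n // x < la j} ⊕ {k : n // lb k ≤ x} ⊕ Unit
  let Λ : (n → ℝ) →ₗ[ℝ] (I → ℝ) := LinearMap.pi fun i => match i with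
    | Sum.inl j => (LinearMap.proj j.1 : (n → ℝ) →ₗ[ℝ] ℝ) ∘ₗ (Matrix.toLin' Ψa)
    | Sum.inr (Sum.inl k) => (LinearMap.proj k.1 : (n → ℝ) →ₗ[ℝ] ℝ) ∘ₗ (Matrix.toLin' Ψb)
    | Sum.inr (Sum.inr _) => (LinearMap.proj m : (n → ℝ) →ₗ[ℝ] ℝ)
  have hcard : Fintype.card I < Fintype.card n := by
    have e1 : Fintype.card {j : n // x < la j} = (Finset.univ.filter fun j => x < la j).card :=
      Fintype.card_subtype _
    have e2 : Fintype.card {j : n // lb j ≤ x} = (Finset.univ.filter fun j => lb j ≤ x).card :=
      Fintype.card_subtype _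
    have e3 : (Finset.univ.filter fun j => la j ≤ x).card +
        (Finset.univ.filter fun j => x < la j).card = Fintype.card n := by
      rw [← Finset.card_univ]
      have := Finset.card_filter_add_card_filter_not (s := (Finset.univ : Finset n))
        (fun j => la j ≤ x)
      simpa [not_le] using this
    simp only [I, Fintype.card_sum, e1, e2, Fintype.card_unit]
    omega
  have hker : LinearMap.ker Λ ≠ ⊥ := by
    apply LinearMap.ker_ne_bot_of_finrank_lt
    rw [Module.finrank_fintype_fun_eq_card, Module.finrank_fintype_fun_eq_card]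
    exact hcard
  obtain ⟨u, hu, hu0⟩ := (Submodule.ne_bot_iff _).1 hker
  have hu' : ∀ i, Λ u i = 0 := fun i => congrFun (LinearMap.mem_ker.1 hu) i
  have h1 : ∀ j, x < la j → (Ψa *ᵥ u) j = 0 := fun j hj => by
    have := hu' (Sum.inl ⟨j, hj⟩)
    simpa [Λ] using this
  have h2 : ∀ j, lb j ≤ x → (Ψb *ᵥ u) j = 0 := fun j hj => by
    have := hu' (Sum.inr (Sum.inl ⟨j, hj⟩))
    simpa [Λ] using this
  have h3 : u m = 0 := by
    have := hu' (Sum.inr (Sum.inr ()))
    simpa [Λ] using this
  have hq : u ⬝ᵥ ((A + Matrix.single m m t) *ᵥ u) = u ⬝ᵥ (A *ᵥ u) := by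
    rw [Matrix.add_mulVec, dotProduct_add]
    have : Matrix.single m m t *ᵥ u = 0 := by
      ext i
      simp only [Matrix.mulVec, dotProduct, Matrix.single_apply, Pi.zero_apply]
      refine Finset.sum_eq_zero fun k _ => ?_
      by_cases hk : m = i ∧ m = k
      · rw [← hk.2, h3, mul_zero]
      · rw [if_neg hk, zero_mul]
    rw [this, dotProduct_zero, add_zero]
  have hA : u ⬝ᵥ (A *ᵥ u) ≤ x * ∑ i, u i ^ 2 := by
    rw [ha.quad, ← ha.normsq, Finset.mul_sum]
    refine Finset.sum_le_sum fun j _ => ?_
    by_cases hj : x < la j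
    · rw [h1 j hj]; simp
    · exact mul_le_mul_of_nonneg_right (not_lt.1 hj) (sq_nonneg _)
  have hpos : 0 < ∑ j, (Ψb *ᵥ u) j ^ 2 := by
    rw [hb.normsq]
    obtain ⟨i, hi⟩ : ∃ i, u i ≠ 0 := by
      by_contra hne
      push Not at hne
      exact hu0 (funext hne)
    exact Finset.sum_pos' (fun i _ => sq_nonneg _) ⟨i, Finset.mem_univ _, by positivity⟩
  have hB : x * ∑ i, u i ^ 2 < u ⬝ᵥ ((A + Matrix.single m m t) *ᵥ u) := by
    rw [hb.quad, ← hb.normsq, Finset.mul_sum]
    obtain ⟨j, hj⟩ : ∃ j, (Ψb *ᵥ u) j ≠ 0 := by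
      by_contra hne
      push Not at hne
      rw [Finset.sum_eq_zero (fun j _ => by rw [hne j]; ring)] at hpos
      exact lt_irrefl _ hpos
    refine Finset.sum_lt_sum (fun j _ => ?_) ⟨j, Finset.mem_univ _, ?_⟩
    · by_cases hj : lb j ≤ x
      · rw [h2 j hj]; simp
      · exact mul_le_mul_of_nonneg_right (not_le.1 hj).le (sq_nonneg _)
    · have : x < lb j := by
        by_contra hc
        exact hj (h2 j (not_lt.1 hc))
      exact mul_lt_mul_of_pos_right this (by positivity)
  rw [hq] at hB
  linarith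


/-! ### derivative of traces of powers -/

/-- derivative of the powers of `A + w E_mm` -/
def dpow (A : Matrix n n ℝ) (m : n) (w : ℝ) : ℕ → Matrix n n ℝ
  | 0 => 0
  | k + 1 => dpow A m w k * (A + Matrix.single m m w) +
      (A + Matrix.single m m w) ^ k * Matrix.single m m 1

omit [Fintype n] in
theorem hasDerivAt_single (m i j : n) (w : ℝ) :
    HasDerivAt (fun w : ℝ => Matrix.single m m w i j) (Matrix.single m m (1 : ℝ) i j) w := by
  simp only [Matrix.single_apply]
  by_cases h : m = i ∧ m = j
  · simp only [if_pos h]; exact hasDerivAt_id w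
  · simp only [if_neg h]; exact hasDerivAt_const _ _

theorem hasDerivAt_pow (A : Matrix n n ℝ) (m : n) (k : ℕ) (i j : n) (w : ℝ) :
    HasDerivAt (fun w : ℝ => ((A + Matrix.single m m w) ^ k) i j) (dpow A m w k i j) w := by
  induction k generalizing i j with
  | zero => simpa [dpow] using hasDerivAt_const w _
  | succ k ih =>
    have h1 : (fun w : ℝ => ((A + Matrix.single m m w) ^ (k + 1)) i j) =
        fun w => ∑ r, ((A + Matrix.single m m w) ^ k) i r * (A r j + Matrix.single m m w r j) := by
      funext w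
      rw [pow_succ, Matrix.mul_apply]
      rfl
    rw [h1]
    have h2 : dpow A m w (k + 1) i j = ∑ r, (dpow A m w k i r * (A r j + Matrix.single m m w r j)
        + ((A + Matrix.single m m w) ^ k) i r * Matrix.single m m (1 : ℝ) r j) := by
      rw [dpow, Matrix.add_apply, Matrix.mul_apply, Matrix.mul_apply, ← Finset.sum_add_distrib]
      rfl
    rw [h2]
    refine HasDerivAt.fun_sum fun r _ => ?_
    exact (ih i r).mul ((hasDerivAt_single m r j w).const_add (A r j))

theorem trace_mul_single (X : Matrix n n ℝ) (m : n) :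
    (X * Matrix.single m m (1 : ℝ)).trace = X m m := by
  rw [Matrix.trace_mul_comm]
  simp [Matrix.trace, Matrix.diag, Matrix.mul_apply, Matrix.single_apply, ite_and]

theorem trace_dpow (A : Matrix n n ℝ) (m : n) (w : ℝ) (k l : ℕ) :
    (dpow A m w (k + 1) * (A + Matrix.single m m w) ^ l).trace =
      (k + 1) * ((A + Matrix.single m m w) ^ (k + l)) m m := by
  induction k generalizing l with
  | zero =>
    simp only [dpow, Matrix.zero_mul, zero_add, pow_zero, Matrix.one_mul, Nat.cast_zero, one_mul]
    rw [Matrix.trace_mul_comm, trace_mul_single]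
  | succ k ih =>
    have h1 : ((A + Matrix.single m m w) ^ (k + 1) * Matrix.single m m 1 *
        (A + Matrix.single m m w) ^ l).trace = ((A + Matrix.single m m w) ^ (k + 1 + l)) m m := by
      rw [Matrix.trace_mul_comm, ← Matrix.mul_assoc, ← pow_add, trace_mul_single, add_comm l]
    rw [dpow, Matrix.add_mul, Matrix.trace_add, Matrix.mul_assoc _ (A + _) _, ← pow_succ', ih, h1]
    have e1 : k + (l + 1) = k + 1 + l := by ring
    rw [e1]
    push_cast
    ring

theorem hasDerivAt_trace_aeval (A : Matrix n n ℝ) (m : n) (P : Polynomial ℝ) (w : ℝ) :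
    HasDerivAt (fun w : ℝ => (Polynomial.aeval (A + Matrix.single m m w) P).trace)
      ((Polynomial.aeval (A + Matrix.single m m w) P.derivative) m m) w := by
  induction P using Polynomial.induction_on' with
  | add p q hp hq =>
    simp only [map_add, Matrix.trace_add, Matrix.add_apply, Polynomial.derivative_add]
    exact hp.add hq
  | monomial k a =>
    simp only [Polynomial.aeval_monomial, Polynomial.derivative_monomial]
    have h1 : ∀ X : Matrix n n ℝ, (algebraMap ℝ (Matrix n n ℝ)) a * X = a • X := fun X => by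
      rw [Algebra.algebraMap_eq_smul_one]; simp
    have h2 : ∀ (c : ℝ) (X : Matrix n n ℝ), (algebraMap ℝ (Matrix n n ℝ)) c * X = c • X :=
      fun c X => by rw [Algebra.algebraMap_eq_smul_one]; simp
    simp only [h2, Matrix.trace_smul, Matrix.smul_apply, smul_eq_mul]
    have h3 : HasDerivAt (fun w : ℝ => ((A + Matrix.single m m w) ^ k).trace)
        (dpow A m w k).trace w := by
      simp only [Matrix.trace, Matrix.diag]
      exact HasDerivAt.fun_sum fun i _ => hasDerivAt_pow A m k i i w
    have h4 := h3.const_mul a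
    have h5 : a * (dpow A m w k).trace = a * k * ((A + Matrix.single m m w) ^ (k - 1)) m m := by
      cases k with
      | zero => simp [dpow]
      | succ k =>
        have := trace_dpow A m w k 0
        rw [pow_zero, Matrix.mul_one, add_zero] at this
        rw [this]
        have e : k + 1 - 1 = k := by omega
        rw [e]
        push_cast
        ring
    rw [h5] at h4
    exact h4

theorem exists_antideriv (p : Polynomial ℝ) : ∃ P : Polynomial ℝ, P.derivative = p := by
  induction p using Polynomial.induction_on' with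
  | add p q hp hq =>
    obtain ⟨P, hP⟩ := hp
    obtain ⟨Q, hQ⟩ := hq
    exact ⟨P + Q, by rw [Polynomial.derivative_add, hP, hQ]⟩
  | monomial k a =>
    refine ⟨Polynomial.monomial (k + 1) (a / (k + 1)), ?_⟩
    rw [Polynomial.derivative_monomial]
    congr 1
    push_cast
    field_simp

theorem continuous_aeval_apply (A : Matrix n n ℝ) (m : n) (p : Polynomial ℝ) (i j : n) :
    Continuous (fun w : ℝ => (Polynomial.aeval (A + Matrix.single m m w) p) i j) := by
  induction p using Polynomial.induction_on' with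
  | add p q hp hq =>
    simp only [map_add, Matrix.add_apply]
    exact hp.add hq
  | monomial k a =>
    simp only [Polynomial.aeval_monomial]
    have h2 : ∀ (c : ℝ) (X : Matrix n n ℝ), (algebraMap ℝ (Matrix n n ℝ)) c * X = c • X :=
      fun c X => by rw [Algebra.algebraMap_eq_smul_one]; simp
    simp only [h2, Matrix.smul_apply, smul_eq_mul]
    refine continuous_const.mul ?_
    exact continuous_iff_continuousAt.2 fun w => (hasDerivAt_pow A m k i j w).continuousAt

open MeasureTheory in
/-- Spectral averaging for polynomials. -/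
theorem spec_avg {A : Matrix n n ℝ} (hA : A.IsSymm) (m : n) {a b C : ℝ} (hab : a ≤ b)
    (hC : ∀ w ∈ Set.Icc a b, ∀ (Ψ : Matrix n n ℝ) (l : n → ℝ),
      IsES (A + Matrix.single m m w) Ψ l → ∀ j, |l j| ≤ C)
    (p : Polynomial ℝ) (hp : ∀ x ∈ Set.Icc (-C) C, 0 ≤ p.eval x) :
    ∫ w in a..b, (Polynomial.aeval (A + Matrix.single m m w) p) m m ≤
      ∫ x in (-C)..C, p.eval x := by
  classical
  obtain ⟨P, rfl⟩ := exists_antideriv p
  have hsymm : ∀ w : ℝ, (A + Matrix.single m m w).IsSymm := fun w => by
    rw [Matrix.IsSymm, Matrix.transpose_add, hA.eq, Matrix.transpose_single]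
  obtain ⟨Ψa, la, ha⟩ := exists_ES _ (hsymm a)
  obtain ⟨Ψb, lb, hb⟩ := exists_ES _ (hsymm b)
  have hla := hC a ⟨le_rfl, hab⟩ _ _ ha
  have hlb := hC b ⟨hab, le_rfl⟩ _ _ hb
  have h1 : ∫ w in a..b, (Polynomial.aeval (A + Matrix.single m m w) P.derivative) m m =
      (Polynomial.aeval (A + Matrix.single m m b) P).trace -
      (Polynomial.aeval (A + Matrix.single m m a) P).trace := by
    refine intervalIntegral.integral_eq_sub_of_hasDerivAt
      (fun w _ => hasDerivAt_trace_aeval A m P w) ?_
    exact (continuous_aeval_apply A m P.derivative m m).intervalIntegrable _ _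
  rw [h1, hb.trace_aeval, ha.trace_aeval]
  by_cases hn : IsEmpty n
  · exact (hn.false m).elim
  have hC0 : 0 ≤ C := le_trans (abs_nonneg _) (hla m)
  set p := P.derivative with hpdef
  have hpc : Continuous fun x => p.eval x := p.continuous
  -- each term
  have hterm : ∀ y : ℝ, |y| ≤ C → P.eval C - P.eval y =
      ∫ x in Set.Icc (-C) C, if y ≤ x then p.eval x else 0 := by
    intro y hy
    rw [abs_le] at hy
    have e1 : ∫ x in y..C, p.eval x = P.eval C - P.eval y :=
      intervalIntegral.integral_eq_sub_of_hasDerivAt (fun x _ => P.hasDerivAt x)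
        (hpc.intervalIntegrable _ _)
    rw [← e1, intervalIntegral.integral_of_le hy.2, ← integral_Icc_eq_integral_Ioc]
    have e2 : (fun x => if y ≤ x then p.eval x else 0) =
        (Set.Ici y).indicator (fun x => p.eval x) := by
      funext x
      simp [Set.indicator_apply]
    rw [e2, setIntegral_indicator measurableSet_Ici]
    congr 2
    ext x
    simp only [Set.mem_Icc, Set.mem_inter_iff, Set.mem_Ici]
    constructor
    · rintro ⟨h1, h2⟩; exact ⟨⟨by linarith, h2⟩, h1⟩
    · rintro ⟨⟨_, h2⟩, h3⟩; exact ⟨h3, h2⟩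
  have hint : ∀ y : ℝ, IntegrableOn (fun x => if y ≤ x then p.eval x else 0)
      (Set.Icc (-C) C) := by
    intro y
    have e2 : (fun x => if y ≤ x then p.eval x else 0) =
        (Set.Ici y).indicator (fun x => p.eval x) := by
      funext x
      simp [Set.indicator_apply]
    rw [e2]
    exact (hpc.integrableOn_Icc).indicator measurableSet_Ici
  have hsumA : (Fintype.card n : ℝ) * P.eval C - ∑ j, P.eval (la j) =
      ∫ x in Set.Icc (-C) C, ∑ j, (if la j ≤ x then p.eval x else 0) := by
    rw [integral_finsetSum _ fun j _ => hint (la j)]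
    rw [← Finset.sum_congr rfl fun j _ => hterm (la j) (hla j), Finset.sum_sub_distrib]
    simp [Finset.card_univ]
  have hsumB : (Fintype.card n : ℝ) * P.eval C - ∑ j, P.eval (lb j) =
      ∫ x in Set.Icc (-C) C, ∑ j, (if lb j ≤ x then p.eval x else 0) := by
    rw [integral_finsetSum _ fun j _ => hint (lb j)]
    rw [← Finset.sum_congr rfl fun j _ => hterm (lb j) (hlb j), Finset.sum_sub_distrib]
    simp [Finset.card_univ]
  have hfin : ∑ j, P.eval (lb j) - ∑ j, P.eval (la j) =
      ∫ x in Set.Icc (-C) C, ((∑ j, (if la j ≤ x then p.eval x else 0)) -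
        ∑ j, (if lb j ≤ x then p.eval x else 0)) := by
    rw [integral_sub (integrable_finsetSum _ fun j _ => hint (la j))
      (integrable_finsetSum _ fun j _ => hint (lb j)), ← hsumA, ← hsumB]
    ring
  rw [hfin, intervalIntegral.integral_of_le (by linarith), ← integral_Icc_eq_integral_Ioc]
  refine setIntegral_mono_on ?_ hpc.integrableOn_Icc measurableSet_Icc ?_
  · exact (integrable_finsetSum _ fun j _ => hint (la j)).sub
      (integrable_finsetSum _ fun j _ => hint (lb j))
  · intro x hx
    have hsingle : A + Matrix.single m m b =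
        (A + Matrix.single m m a) + Matrix.single m m (b - a) := by
      rw [add_assoc, ← Matrix.single_add]
      congr 2
      ring
    rw [hsingle] at hb
    have hcnt := count_le ha hb x
    have e1 : ∀ l : n → ℝ, (∑ j, (if l j ≤ x then p.eval x else 0)) =
        ((Finset.univ.filter fun j => l j ≤ x).card : ℝ) * p.eval x := by
      intro l
      rw [← Finset.sum_filter, Finset.sum_const, nsmul_eq_mul]
    rw [e1, e1]
    have hpx := hp x hx
    have hcnt' : ((Finset.univ.filter fun j => la j ≤ x).card : ℝ) ≤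
        (Finset.univ.filter fun j => lb j ≤ x).card + 1 := by exact_mod_cast hcnt
    nlinarith

end Pool.Agent.K9h27.LP
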